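import Pool.Agent.MP_dce92b_pr.Stmt

/-! Proof-side definitions of project BTOR (blueprint: BTOR_BLUEPRINT.md in the team store). -/

open MeasureTheory Filter Topology Metric
open scoped NNReal ENNReal

namespace Pool.Agent.MP_dce92b_pr

/-- heat kernel of the Laplacian on R^3 -/
noncomputable def pk (t : ℝ) (z : E3) : ℝ :=
  (4 * Real.pi * t) ^ (-(3 : ℝ) / 2) * Real.exp (-‖z‖ ^ 2 / (4 * t))

/-- centred Gaussian measure with covariance 2 t I -/
noncomputable def gam (t : ℝ) : Measure E3 :=
  volume.withDensity fun z => ENNReal.ofReal (pk t z)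

/-- heat semigroup -/
noncomputable def Pt (t : ℝ) (f : E3 → ℝ) (x : E3) : ℝ := ∫ z, f (x + z) ∂gam t

/-- bounded measurable functions -/
structure BM (f : E3 → ℝ) : Prop where
  meas : Measurable f
  bdd : ∃ C, ∀ x, |f x| ≤ C

/-- bounded measurable periodic functions -/
structure BP (f : E3 → ℝ) : Prop extends BM f where
  per : IsPer f

/-- bounded measurable functions with bounded support -/
structure BC (f : E3 → ℝ) : Prop extends BM f where
  supp : ∃ R, ∀ x, R < ‖x‖ → f x = 0

/-- inner product on the torus -/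
noncomputable def ip (f g : E3 → ℝ) : ℝ := ∫ x in cube, f x * g x

/-- mean over the torus -/
noncomputable def avg (f : E3 → ℝ) : ℝ := ∫ x in cube, f x

/-- Dirichlet form of the step t chain on the torus -/
noncomputable def ET (t : ℝ) (f : E3 → ℝ) : ℝ := ip f f - ip f (Pt t f)

/-- Dirichlet form of the step t chain on R^3 -/
noncomputable def ER (t : ℝ) (f : E3 → ℝ) : ℝ := (∫ x, f x * f x) - ∫ x, f x * Pt t f x

/-- representative of x modulo the lattice with coordinates in [-1/2, 1/2) -/
noncomputable def red (x : E3) : E3 := x - lat fun i => round (x i)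

/-- the unit cube with centre a -/
def cubeAt (a : E3) : Set E3 := {x | ∀ i, x i - a i ∈ Set.Ico (-(1 / 2) : ℝ) (1 / 2)}

/-- there is a ball of radius r in the torus that misses the image of K -/
def Hole (K : Set E3) (r : ℝ) : Prop := ∃ x : E3, ∀ y ∈ K, ∀ k, r ≤ ‖y - x - lat k‖

/-- grid box with side b and index j -/
def box (b : ℝ) (j : Fin 3 → ℤ) : Set E3 := {x | ∀ i, b * j i ≤ x i ∧ x i < b * (j i + 1)}

/-- Newtonian energy of the curve z on the time interval [0, s] -/
noncomputable def energy (z : ℝ → E3) (s : ℝ) : ℝ≥0∞ :=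
  ∫⁻ u in Set.Icc 0 s, ∫⁻ v in Set.Icc 0 s, ‖z u - z v‖ₑ⁻¹

/-- the box j is blocked: near it runs a piece of K + Z^3 with small energy -/
def Blocked (K : Set E3) (b A : ℝ) (j : Fin 3 → ℤ) : Prop :=
  ∃ (z : ℝ → E3) (s : ℝ), 0 < s ∧ Continuous z ∧
    (∀ u ∈ Set.Icc 0 s, z u ∈ ball (b • lat j) (3 * b) ∧ ∃ k, z u - lat k ∈ K) ∧
    energy z s ≤ ENNReal.ofReal (A * s ^ 2 / b)

/-- continuous paths started at the origin -/
def Path0 : Type := {w : ℝ≥0 → E3 // Continuous w ∧ w 0 = 0}

instance : MeasurableSpace Path0 := Subtype.instMeasurableSpace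

/-- the path stopped at time t -/
def Path0.stop (t : ℝ≥0) (w : Path0) : Path0 :=
  ⟨fun u => w.1 (min u t), w.2.1.comp (continuous_id.min continuous_const), by
    simpa using w.2.2⟩

/-- the increments of the path after time t -/
def Path0.shift (t : ℝ≥0) (w : Path0) : Path0 :=
  ⟨fun u => w.1 (t + u) - w.1 t,
    (w.2.1.comp (continuous_const.add continuous_id)).sub continuous_const, by simp⟩

/-- law of Brownian motion with generator the Laplacian, described by what the proof uses -/
structure IsWiener (μ : Measure Path0) : Prop where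
  prob : IsProbabilityMeasure μ
  law : ∀ t : ℝ≥0, 0 < t → μ.map (fun w => w.1 t) = gam t
  markov : ∀ t : ℝ≥0, μ.map (fun w => (w.stop t, w.shift t)) = (μ.map (Path0.stop t)).prod μ

/-- the range of the path up to time s -/
def rng (s : ℝ≥0) (w : Path0) : Set E3 := w.1 '' Set.Iic s

/-- good test segments: they stay within distance b and have small energy -/
def Good (s : ℝ≥0) (b A : ℝ) : Set Path0 :=
  {w | (∀ u ≤ s, ‖w.1 u‖ ≤ b) ∧
    energy (fun u => w.1 u.toNNReal) s ≤ ENNReal.ofReal (A * (s : ℝ) ^ 2 / b)}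

/-- one step of the killed chain -/
noncomputable def Qop (μ : Measure Path0) (t : ℝ≥0) (F : E3 → Path0 → ℝ) (g : E3 → ℝ) (x : E3) : ℝ :=
  ∫ w, F x (w.stop t) * g (x + w.1 t) ∂μ

/-- the critical radius -/
noncomputable def r0 (s : ℝ) : ℝ := 3 * Real.log s / (4 * Real.pi * s)

end Pool.Agent.MP_dce92b_pr
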