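import Mathlib.Topology.Sheaves.Presheaf
import Mathlib.Tactic.Monotonicity.Lemmas
import Mathlib.Algebra.Order.Archimedean.Real.Hom
import Mathlib.MeasureTheory.Measure.Lebesgue.VolumeOfBalls
import Mathlib.Probability.Distributions.Gaussian.Multivariate
import Mathlib.Topology.UniformSpace.Uniformizable
import Pool.Agent.MP_dce92b_pr.Defs

-- ======== part 0: formerly Pool.Agent.MP_dce92b_pr.GaussA
section MrgPart0

/-! BTOR module GAUSS, part A: heat kernel, Gaussian measure, moments, radial integrals. -/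

open MeasureTheory ProbabilityTheory Filter Topology Metric Real
open scoped NNReal ENNReal

namespace Pool.Agent.MP_dce92b_pr

variable {s t : ℝ} {f g h : E3 → ℝ}

theorem finrank_E3 : Module.finrank ℝ E3 = 3 := by simp

theorem pk_pos (ht : 0 < t) (z : E3) : 0 < pk t z := by
  unfold pk
  positivity

theorem pk_le (ht : 0 < t) (z : E3) : pk t z ≤ (4 * π * t) ^ (-(3 : ℝ) / 2) := by
  unfold pk
  have h1 : exp (-‖z‖ ^ 2 / (4 * t)) ≤ 1 := by
    rw [exp_le_one_iff]
    exact div_nonpos_of_nonpos_of_nonneg (neg_nonpos.2 (by positivity)) (by positivity)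
  have h2 : 0 ≤ (4 * π * t) ^ (-(3 : ℝ) / 2) := by positivity
  nlinarith

theorem continuous_pk (t : ℝ) : Continuous (pk t) := by
  unfold pk
  fun_prop

theorem measurable_pk (t : ℝ) : Measurable (pk t) := (continuous_pk t).measurable

theorem pk_neg (t : ℝ) (z : E3) : pk t (-z) = pk t z := by simp [pk]

theorem pk_anti (ht : 0 < t) {x y : E3} (hxy : ‖x‖ ≤ ‖y‖) : pk t y ≤ pk t x := by
  unfold pk
  have h2 : 0 ≤ (4 * π * t) ^ (-(3 : ℝ) / 2) := by positivity
  refine mul_le_mul_of_nonneg_left ?_ h2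
  rw [exp_le_exp]
  have : ‖x‖ ^ 2 ≤ ‖y‖ ^ 2 := by gcongr
  exact div_le_div_of_nonneg_right (by linarith) (by positivity)

theorem pk_eq (t : ℝ) (z : E3) :
    pk t z = (4 * π * t) ^ (-(3 : ℝ) / 2) * exp (-(1 / (4 * t)) * ‖z‖ ^ 2) := by
  unfold pk
  congr 2
  ring

theorem pk_const_mul (ht : 0 < t) :
    (4 * π * t) ^ (-(3 : ℝ) / 2) * (π / (1 / (4 * t))) ^ ((3 : ℝ) / 2) = 1 := by
  have h : π / (1 / (4 * t)) = 4 * π * t := by field_simp
  have h0 : 0 < 4 * π * t := by positivity
  rw [h, ← rpow_add h0]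
  norm_num

theorem integral_pk (ht : 0 < t) : ∫ z, pk t z = 1 := by
  simp_rw [pk_eq]
  rw [integral_const_mul, GaussianFourier.integral_rexp_neg_mul_sq_norm (by positivity),
    finrank_E3]
  exact_mod_cast pk_const_mul ht

theorem integrable_pk (ht : 0 < t) : Integrable (pk t) :=
  Integrable.of_integral_ne_zero (by rw [integral_pk ht]; exact one_ne_zero)

theorem measurable_dens (t : ℝ) : Measurable fun z => ENNReal.ofReal (pk t z) :=
  (measurable_pk t).ennreal_ofReal

theorem gam_prob (ht : 0 < t) : IsProbabilityMeasure (gam t) := by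
  constructor
  rw [gam, withDensity_apply _ MeasurableSet.univ, Measure.restrict_univ,
    ← ofReal_integral_eq_lintegral_ofReal (integrable_pk ht)
      (.of_forall fun z => (pk_pos ht z).le), integral_pk ht, ENNReal.ofReal_one]

theorem integral_gam_smul {F : Type*} [NormedAddCommGroup F] [NormedSpace ℝ F] (ht : 0 < t)
    (f : E3 → F) : ∫ z, f z ∂gam t = ∫ z, pk t z • f z := by
  rw [gam, integral_withDensity_eq_integral_toReal_smul (measurable_dens t) (by simp)]
  congr 1
  ext z
  rw [ENNReal.toReal_ofReal (pk_pos ht z).le]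

theorem charFun_gam (ht : 0 < t) (ξ : E3) :
    charFun (gam t) ξ = Complex.exp (-((t * ‖ξ‖ ^ 2 : ℝ) : ℂ)) := by
  rw [charFun_apply, integral_gam_smul ht]
  have hb : 0 < (((1 / (4 * t) : ℝ) : ℂ)).re := by
    rw [Complex.ofReal_re]; positivity
  have key := GaussianFourier.integral_cexp_neg_mul_sq_norm_add (V := E3) hb Complex.I ξ
  have h1 : ∀ z : E3, pk t z • Complex.exp ((inner ℝ z ξ : ℝ) * Complex.I) =
      (((4 * π * t) ^ (-(3 : ℝ) / 2) : ℝ) : ℂ) *
        Complex.exp (-((1 / (4 * t) : ℝ) : ℂ) * (‖z‖ : ℂ) ^ 2 +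
          Complex.I * (inner ℝ ξ z : ℝ)) := by
    intro z
    rw [pk_eq, Complex.real_smul, Complex.exp_add, real_inner_comm, mul_comm Complex.I]
    push_cast
    ring
  simp_rw [h1]
  rw [integral_const_mul, key, finrank_E3]
  have h2 : ((π : ℂ) / ((1 / (4 * t) : ℝ) : ℂ)) ^ (((3 : ℕ) : ℂ) / 2) =
      (((π / (1 / (4 * t))) ^ ((3 : ℝ) / 2) : ℝ) : ℂ) := by
    rw [Complex.ofReal_cpow (by positivity)]
    push_cast
    rfl
  rw [h2, ← mul_assoc, ← Complex.ofReal_mul, pk_const_mul ht, Complex.ofReal_one, one_mul]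
  congr 1
  have : (t : ℂ) ≠ 0 := by exact_mod_cast ht.ne'
  push_cast
  rw [Complex.I_sq]
  field_simp

theorem integral_gam (ht : 0 < t) (f : E3 → ℝ) : ∫ z, f z ∂gam t = ∫ z, pk t z * f z :=
  integral_gam_smul ht f

theorem integrable_gam_iff (ht : 0 < t) (f : E3 → ℝ) :
    Integrable f (gam t) ↔ Integrable fun z => pk t z * f z := by
  rw [gam, integrable_withDensity_iff_integrable_smul' (measurable_dens t) (by simp)]
  refine integrable_congr (.of_forall fun z => ?_)
  simp only [ENNReal.toReal_ofReal (pk_pos ht z).le, smul_eq_mul]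

theorem lintegral_gam (t : ℝ) {F : E3 → ℝ≥0∞} (hF : Measurable F) :
    ∫⁻ z, F z ∂gam t = ∫⁻ z, ENNReal.ofReal (pk t z) * F z := by
  rw [gam, lintegral_withDensity_eq_lintegral_mul _ (measurable_dens t) hF]
  rfl

theorem gam_map_neg (ht : 0 < t) : (gam t).map (fun z => -z) = gam t := by
  have := gam_prob ht
  apply Measure.ext_of_charFun
  ext ξ
  have h : (fun z : E3 => -z) = fun z => (-1 : ℝ) • z := by ext1 z; simp
  rw [h, charFun_map_smul, charFun_gam ht, charFun_gam ht]
  simp

theorem gam_conv (hs : 0 < s) (ht : 0 < t) : gam s ∗ gam t = gam (s + t) := by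
  have := gam_prob ht
  have := gam_prob hs
  have := gam_prob (add_pos hs ht)
  apply Measure.ext_of_charFun
  ext ξ
  rw [charFun_conv, charFun_gam hs, charFun_gam ht, charFun_gam (add_pos hs ht),
    ← Complex.exp_add]
  congr 1
  push_cast
  ring

theorem gam_eq_map_pi (ht : 0 < t) :
    gam t = (Measure.pi fun _ : Fin 3 => gaussianReal 0 (2 * t).toNNReal).map (WithLp.toLp 2) := by
  have := gam_prob ht
  apply Measure.ext_of_charFun (E := E3)
  ext ξ
  have h2 : (((2 * t).toNNReal : ℝ≥0) : ℝ) = 2 * t := Real.coe_toNNReal _ (by positivity)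
  simp_rw [charFun_gam ht, charFun_pi, charFun_gaussianReal, ← Complex.exp_sum, h2,
    EuclideanSpace.real_norm_sq_eq]
  congr 1
  push_cast
  simp only [Fin.sum_univ_three]
  ring

theorem gam_map_coord (ht : 0 < t) (i : Fin 3) :
    (gam t).map (fun z => z i) = gaussianReal 0 (2 * t).toNNReal := by
  rw [gam_eq_map_pi ht, Measure.map_map (by fun_prop) (by fun_prop)]
  exact (measurePreserving_eval (fun _ : Fin 3 => gaussianReal 0 (2 * t).toNNReal) i).map_eq

theorem gam_eq_map_std (ht : 0 < t) :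
    gam t = (stdGaussian E3).map fun z => √(2 * t) • z := by
  have := gam_prob ht
  apply Measure.ext_of_charFun
  ext ξ
  rw [charFun_map_smul, charFun_gam ht, charFun_stdGaussian, norm_smul, Real.norm_eq_abs,
    abs_of_nonneg (sqrt_nonneg _), ← Complex.ofReal_pow, mul_pow, sq_sqrt (by positivity)]
  congr 1
  push_cast
  ring

theorem integral_gam_std (ht : 0 < t) {F : E3 → ℝ} (hF : Continuous F) :
    ∫ z, F z ∂gam t = ∫ z, F (√(2 * t) • z) ∂stdGaussian E3 := by
  rw [gam_eq_map_std ht, integral_map (by fun_prop) hF.aestronglyMeasurable]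

theorem integrable_norm_pow_std (p : ℕ) :
    Integrable (fun z : E3 => ‖z‖ ^ p) (stdGaussian E3) := by
  have := IsGaussian.memLp_id (stdGaussian E3) p (by simp)
  exact this.integrable_norm_pow'

theorem integrable_norm_pow (ht : 0 < t) (p : ℕ) :
    Integrable (fun z : E3 => ‖z‖ ^ p) (gam t) := by
  rw [gam_eq_map_std ht, integrable_map_measure (by fun_prop) (by fun_prop)]
  refine ((integrable_norm_pow_std p).const_mul (√(2 * t) ^ p)).congr (.of_forall fun z => ?_)
  simp only [Function.comp_apply, norm_smul, Real.norm_eq_abs, abs_of_nonneg (sqrt_nonneg _),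
    mul_pow]

theorem moment_le (p : ℕ) :
    ∃ C : ℝ, 0 < C ∧ ∀ t : ℝ, 0 < t → ∫ z, ‖z‖ ^ p ∂gam t ≤ C * √t ^ p := by
  have h0 : 0 ≤ ∫ z : E3, ‖z‖ ^ p ∂stdGaussian E3 := integral_nonneg fun z => by positivity
  refine ⟨√2 ^ p * ∫ z : E3, ‖z‖ ^ p ∂stdGaussian E3 + 1, by positivity, fun t ht => ?_⟩
  rw [integral_gam_std ht (by fun_prop)]
  simp only [norm_smul, Real.norm_eq_abs, abs_of_nonneg (sqrt_nonneg _), mul_pow]
  rw [integral_const_mul, sqrt_mul (by norm_num), mul_pow]
  have : 0 ≤ √t ^ p := by positivity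
  nlinarith

theorem tail_markov (ht : 0 < t) (p : ℕ) {y : ℝ} (hy : 0 < y) :
    (gam t).real {z | y ≤ ‖z‖} ≤ (∫ z, ‖z‖ ^ p ∂gam t) / y ^ p := by
  have := gam_prob ht
  have h1 := mul_meas_ge_le_integral_of_nonneg (μ := gam t) (f := fun z : E3 => ‖z‖ ^ p)
    (.of_forall fun z => by positivity) (integrable_norm_pow ht p) (y ^ p)
  rw [le_div_iff₀ (by positivity), mul_comm]
  refine le_trans ?_ h1
  refine mul_le_mul_of_nonneg_left (measureReal_mono fun z hz => ?_) (by positivity)
  exact pow_le_pow_left₀ hy.le hz p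

theorem tail_le (p : ℕ) : ∃ C : ℝ, 0 < C ∧ ∀ t y : ℝ, 0 < t → 0 < y →
    (gam t).real {z | y ≤ ‖z‖} ≤ C * (√t / y) ^ p := by
  obtain ⟨C, hC, h⟩ := moment_le p
  refine ⟨C, hC, fun t y ht hy => (tail_markov ht p hy).trans ?_⟩
  rw [div_pow, ← mul_div_assoc]
  exact div_le_div_of_nonneg_right (h t ht) (by positivity)

theorem integral_dual_sq (ht : 0 < t) (L : E3 →L[ℝ] ℝ) :
    ∫ z, (L z) ^ 2 ∂gam t = 2 * t * ‖L‖ ^ 2 := by
  rw [integral_gam_std ht (by fun_prop)]
  simp only [map_smul, smul_eq_mul, mul_pow]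
  rw [integral_const_mul, sq_sqrt (by positivity), ← variance_dual_stdGaussian,
    variance_of_integral_eq_zero L.continuous.aemeasurable (integral_strongDual_stdGaussian L)]

theorem integrable_dual_sq (ht : 0 < t) (L : E3 →L[ℝ] ℝ) :
    Integrable (fun z => (L z) ^ 2) (gam t) := by
  refine ((integrable_norm_pow ht 2).const_mul (‖L‖ ^ 2)).mono' (by fun_prop)
    (.of_forall fun z => ?_)
  rw [norm_pow, ← mul_pow]
  gcongr
  exact L.le_opNorm z

theorem integral_norm_sq (ht : 0 < t) : ∫ z, ‖z‖ ^ 2 ∂gam t = 6 * t := by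
  have h : ∀ z : E3, ‖z‖ ^ 2 = ∑ i : Fin 3,
      (innerSL ℝ (EuclideanSpace.single i (1 : ℝ) : E3) z) ^ 2 := by
    intro z
    rw [EuclideanSpace.real_norm_sq_eq]
    simp [EuclideanSpace.inner_single_left]
  simp_rw [h]
  rw [integral_finsetSum _ fun i _ => integrable_dual_sq ht _]
  simp_rw [integral_dual_sq ht, innerSL_apply_norm]
  simp
  ring

theorem tail_sq (ht : 0 < t) {y : ℝ} (hy : 0 < y) :
    (gam t).real {z | y ≤ ‖z‖} ≤ 6 * t / y ^ 2 := by
  have := tail_markov ht 2 hy
  rwa [integral_norm_sq ht] at this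

/-- one-dimensional moments -/
theorem moment1_le (p : ℕ) : ∃ C : ℝ, 0 < C ∧ ∀ t : ℝ, 0 < t →
    Integrable (fun z : ℝ => |z| ^ p) (gaussianReal 0 (2 * t).toNNReal) ∧
    ∫ z, |z| ^ p ∂gaussianReal 0 (2 * t).toNNReal ≤ C * √t ^ p := by
  obtain ⟨C, hC, h⟩ := moment_le p
  refine ⟨C, hC, fun t ht => ?_⟩
  have hi : Integrable (fun z : ℝ => |z| ^ p) (gaussianReal 0 (2 * t).toNNReal) := by
    have := (memLp_id_gaussianReal' (μ := 0) (v := (2 * t).toNNReal) p (by simp)).integrable_norm_pow'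
    simpa using this
  refine ⟨hi, le_trans ?_ (h t ht)⟩
  rw [← gam_map_coord ht 0] at hi ⊢
  rw [integral_map (by fun_prop) (by fun_prop)]
  rw [integrable_map_measure (by fun_prop) (by fun_prop)] at hi
  refine integral_mono hi (integrable_norm_pow ht p) fun z => ?_
  have := PiLp.norm_apply_le z 0
  rw [Real.norm_eq_abs] at this
  dsimp only
  gcongr

/-! volumes and radial integrals in R^3 -/

theorem volume_ball3 (a : E3) {r : ℝ} (hr : 0 ≤ r) :
    volume (ball a r) = ENNReal.ofReal (4 * π / 3 * r ^ 3) := by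
  rw [EuclideanSpace.volume_ball_fin_three, ← ENNReal.ofReal_pow hr,
    ← ENNReal.ofReal_mul (by positivity)]
  congr 1
  ring

theorem volume_closedBall3 (a : E3) {r : ℝ} (hr : 0 ≤ r) :
    volume (closedBall a r) = ENNReal.ofReal (4 * π / 3 * r ^ 3) := by
  rw [Measure.addHaar_closedBall_eq_addHaar_ball, volume_ball3 a hr]

theorem volume_real_ball3 (a : E3) {r : ℝ} (hr : 0 ≤ r) :
    volume.real (ball a r) = 4 * π / 3 * r ^ 3 := by
  rw [Measure.real, volume_ball3 a hr, ENNReal.toReal_ofReal (by positivity)]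

theorem integral_radial (F : ℝ → ℝ) :
    ∫ x : E3, F ‖x‖ = 4 * π * ∫ r in Set.Ioi (0 : ℝ), r ^ 2 * F r := by
  rw [integral_fun_norm_addHaar volume F, finrank_E3, volume_real_ball3 0 zero_le_one]
  simp only [smul_eq_mul, nsmul_eq_mul]
  norm_num
  ring

theorem integrable_radial (F : ℝ → ℝ) :
    Integrable (fun x : E3 => F ‖x‖) ↔
      IntegrableOn (fun r => r ^ 2 * F r) (Set.Ioi (0 : ℝ)) := by
  rw [integrable_fun_norm_addHaar volume (f := F), finrank_E3]
  rfl

theorem lintegral_radial {F : ℝ → ℝ≥0∞} (hF : Measurable F) :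
    ∫⁻ x : E3, F ‖x‖ =
      ENNReal.ofReal (4 * π) * ∫⁻ r in Set.Ioi (0 : ℝ), ENNReal.ofReal (r ^ 2) * F r := by
  have hm : Measurable fun x : Set.Ioi (0 : ℝ) => F x := hF.comp measurable_subtype_coe
  calc ∫⁻ x : E3, F ‖x‖
      = ∫⁻ x : ({(0 : E3)}ᶜ : Set E3), F ‖x.1‖ ∂((volume : Measure E3).comap (↑)) := by
        rw [lintegral_subtype_comap (measurableSet_singleton _).compl fun x : E3 => F ‖x‖,
          restrict_compl_singleton]
    _ = ∫⁻ x, F x.2 ∂(volume : Measure E3).toSphere.prod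
          (.volumeIoiPow (Module.finrank ℝ E3 - 1)) := by
        simpa using (volume : Measure E3).measurePreserving_homeomorphUnitSphereProd.lintegral_comp
          (f := fun x => F x.2) (hm.comp measurable_snd)
    _ = (volume : Measure E3).toSphere Set.univ *
          ∫⁻ x : Set.Ioi (0 : ℝ), F x ∂.volumeIoiPow (Module.finrank ℝ E3 - 1) := by
        rw [lintegral_prod (fun x : sphere (0 : E3) 1 × Set.Ioi (0 : ℝ) => F x.2)
          (hm.comp measurable_snd).aemeasurable]
        simp [mul_comm]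
    _ = _ := by
        rw [Measure.toSphere_apply_univ, finrank_E3, volume_ball3 0 zero_le_one,
          Measure.volumeIoiPow, lintegral_withDensity_eq_lintegral_mul _ (by fun_prop) hm,
          ← lintegral_subtype_comap measurableSet_Ioi
            fun r : ℝ => ENNReal.ofReal (r ^ 2) * F r]
        congr 1
        rw [← ENNReal.ofReal_natCast, ← ENNReal.ofReal_mul (by positivity)]
        congr 1
        push_cast
        ring

theorem gam_scale (ht : 0 < t) : gam t = (gam 1).map fun z => √t • z := by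
  have := gam_prob ht
  have := gam_prob one_pos
  apply Measure.ext_of_charFun
  ext ξ
  rw [charFun_map_smul, charFun_gam ht, charFun_gam one_pos, norm_smul, Real.norm_eq_abs,
    abs_of_nonneg (sqrt_nonneg _), mul_pow, sq_sqrt ht.le, one_mul]

theorem integrable_inv_norm (ht : 0 < t) : Integrable (fun z : E3 => ‖z‖⁻¹) (gam t) := by
  rw [integrable_gam_iff ht]
  simp_rw [pk_eq]
  refine (integrable_radial fun r =>
    (4 * π * t) ^ (-(3 : ℝ) / 2) * exp (-(1 / (4 * t)) * r ^ 2) * r⁻¹).2 ?_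
  refine ((integrable_mul_exp_neg_mul_sq (b := 1 / (4 * t)) (by positivity)).const_mul
    ((4 * π * t) ^ (-(3 : ℝ) / 2))).integrableOn.congr_fun (fun r hr => ?_) measurableSet_Ioi
  have : r ≠ 0 := ne_of_gt hr
  dsimp only
  field_simp

theorem gam_ne_zero (t : ℝ) : ∀ᵐ z ∂gam t, z ≠ 0 := by
  have h : gam t ≪ volume := withDensity_absolutelyContinuous _ _
  exact h.ae_le (Measure.ae_ne volume 0)

theorem lintegral_inv_norm : ∃ C : ℝ, 0 < C ∧ ∀ t : ℝ, 0 < t →
    ∫⁻ z, ‖z‖ₑ⁻¹ ∂gam t ≤ ENNReal.ofReal (C / √t) := by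
  have h0 : 0 ≤ ∫ z : E3, ‖z‖⁻¹ ∂gam 1 := integral_nonneg fun z => by positivity
  refine ⟨∫ z : E3, ‖z‖⁻¹ ∂gam 1 + 1, by positivity, fun t ht => ?_⟩
  have h1 : ∫⁻ z, ‖z‖ₑ⁻¹ ∂gam t = ENNReal.ofReal (∫ z : E3, ‖z‖⁻¹ ∂gam t) := by
    rw [ofReal_integral_eq_lintegral_ofReal (integrable_inv_norm ht)
      (.of_forall fun z => by positivity)]
    refine lintegral_congr_ae ?_
    filter_upwards [gam_ne_zero t] with z hz
    rw [ENNReal.ofReal_inv_of_pos (norm_pos_iff.2 hz), ofReal_norm]
  rw [h1]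
  refine ENNReal.ofReal_le_ofReal ?_
  rw [gam_scale ht, integral_map (by fun_prop) (by fun_prop)]
  simp only [norm_smul, Real.norm_eq_abs, abs_of_nonneg (sqrt_nonneg _), mul_inv]
  rw [integral_const_mul, div_eq_inv_mul]
  have : 0 ≤ (√t)⁻¹ := by positivity
  nlinarith

end Pool.Agent.MP_dce92b_pr

end MrgPart0

-- ======== part 1: formerly Pool.Agent.MP_dce92b_pr.GaussB
section MrgPart1

/-! BTOR module GAUSS, part B: bounded measurable functions and the heat semigroup. -/

open MeasureTheory ProbabilityTheory Filter Topology Metric Real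
open scoped NNReal ENNReal

namespace Pool.Agent.MP_dce92b_pr

variable {s t : ℝ} {f g h : E3 → ℝ}

/-! bounded measurable functions -/

theorem BM.const (c : ℝ) : BM fun _ => c := ⟨measurable_const, |c|, fun _ => le_rfl⟩

theorem BM.add (hf : BM f) (hg : BM g) : BM fun x => f x + g x := by
  obtain ⟨C, hC⟩ := hf.bdd
  obtain ⟨D, hD⟩ := hg.bdd
  exact ⟨hf.meas.add hg.meas, C + D, fun x => (abs_add_le _ _).trans (add_le_add (hC x) (hD x))⟩

theorem BM.sub (hf : BM f) (hg : BM g) : BM fun x => f x - g x := by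
  obtain ⟨C, hC⟩ := hf.bdd
  obtain ⟨D, hD⟩ := hg.bdd
  exact ⟨hf.meas.sub hg.meas, C + D, fun x => (abs_sub _ _).trans (add_le_add (hC x) (hD x))⟩

theorem BM.mul (hf : BM f) (hg : BM g) : BM fun x => f x * g x := by
  obtain ⟨C, hC⟩ := hf.bdd
  obtain ⟨D, hD⟩ := hg.bdd
  refine ⟨hf.meas.mul hg.meas, C * D, fun x => ?_⟩
  rw [abs_mul]
  exact mul_le_mul (hC x) (hD x) (abs_nonneg _) ((abs_nonneg _).trans (hC x))

theorem BM.const_mul (hf : BM f) (c : ℝ) : BM fun x => c * f x := (BM.const c).mul hf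

theorem BM.comp (hf : BM f) {Φ : ℝ → ℝ} (hΦ : Continuous Φ) : BM fun x => Φ (f x) := by
  obtain ⟨C, hC⟩ := hf.bdd
  obtain ⟨D, hD⟩ := (isCompact_Icc (a := -C) (b := C)).exists_bound_of_continuousOn
    hΦ.continuousOn
  exact ⟨hΦ.measurable.comp hf.meas, D, fun x => hD _ (abs_le.1 (hC x))⟩

theorem BM.sq (hf : BM f) : BM fun x => f x ^ 2 := hf.comp (continuous_pow 2)

theorem BM.abs (hf : BM f) : BM fun x => |f x| := hf.comp continuous_abs

theorem BM.comp_meas (hf : BM f) {T : E3 → E3} (hT : Measurable T) : BM fun x => f (T x) := by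
  obtain ⟨C, hC⟩ := hf.bdd
  exact ⟨hf.meas.comp hT, C, fun x => hC _⟩

theorem BM.shift (hf : BM f) (a : E3) : BM fun x => f (x + a) :=
  hf.comp_meas (measurable_add_const a)

theorem BM.shift_left (hf : BM f) (a : E3) : BM fun x => f (a + x) :=
  hf.comp_meas (measurable_const_add a)

theorem BM.shift_sub (hf : BM f) (a : E3) : BM fun x => f (x - a) :=
  hf.comp_meas (measurable_sub_const a)

theorem BM.integrable (hf : BM f) (μ : Measure E3) [IsFiniteMeasure μ] : Integrable f μ := by
  obtain ⟨C, hC⟩ := hf.bdd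
  exact Integrable.of_bound hf.meas.aestronglyMeasurable C (.of_forall hC)

theorem BM.integrableOn (hf : BM f) {U : Set E3} (hU : volume U ≠ ⊤) : IntegrableOn f U := by
  have : IsFiniteMeasure (volume.restrict U) := isFiniteMeasure_restrict.2 hU
  exact hf.integrable _

theorem BM.mul_integrable {μ : Measure E3} (hf : BM f) (hh : Integrable h μ) :
    Integrable (fun x => f x * h x) μ := by
  obtain ⟨C, hC⟩ := hf.bdd
  exact hh.bdd_mul (c := C) hf.meas.aestronglyMeasurable (.of_forall hC)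

theorem BC.of_cont (hf : Continuous f) (hc : HasCompactSupport f) : BC f := by
  obtain ⟨C, hC⟩ := hf.bounded_above_of_compact_support hc
  obtain ⟨R, hR⟩ := hc.isCompact.isBounded.exists_norm_le
  refine ⟨⟨hf.measurable, C, hC⟩, R, fun x hx => ?_⟩
  by_contra h0
  exact absurd (hR x (subset_tsupport f h0)) (not_le.2 hx)

theorem BC.integrable (hf : BC f) : Integrable f := by
  obtain ⟨R, hR⟩ := hf.supp
  have h1 : IntegrableOn f (closedBall (0 : E3) R) :=
    hf.toBM.integrableOn measure_closedBall_lt_top.ne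
  refine (integrableOn_iff_integrable_of_support_subset fun x hx => ?_).1 h1
  rw [mem_closedBall_zero_iff]
  by_contra h0
  exact hx (hR x (not_le.1 h0))

theorem BC.mul_left (hh : BC h) (hf : BM f) : BC fun x => f x * h x := by
  obtain ⟨R, hR⟩ := hh.supp
  exact ⟨hf.mul hh.toBM, R, fun x hx => by rw [hR x hx, mul_zero]⟩

theorem BC.mul_right (hh : BC h) (hf : BM f) : BC fun x => h x * f x := by
  obtain ⟨R, hR⟩ := hh.supp
  exact ⟨hh.toBM.mul hf, R, fun x hx => by rw [hR x hx, zero_mul]⟩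

theorem BC.add (hf : BC f) (hg : BC g) : BC fun x => f x + g x := by
  obtain ⟨R, hR⟩ := hf.supp
  obtain ⟨S, hS⟩ := hg.supp
  exact ⟨hf.toBM.add hg.toBM, max R S, fun x hx => by
    rw [hR x ((le_max_left _ _).trans_lt hx), hS x ((le_max_right _ _).trans_lt hx), add_zero]⟩

theorem BC.sub (hf : BC f) (hg : BC g) : BC fun x => f x - g x := by
  obtain ⟨R, hR⟩ := hf.supp
  obtain ⟨S, hS⟩ := hg.supp
  exact ⟨hf.toBM.sub hg.toBM, max R S, fun x hx => by
    rw [hR x ((le_max_left _ _).trans_lt hx), hS x ((le_max_right _ _).trans_lt hx), sub_zero]⟩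

theorem BC.shift_sub (hf : BC f) (a : E3) : BC fun x => f (x - a) := by
  obtain ⟨R, hR⟩ := hf.supp
  refine ⟨hf.toBM.shift_sub a, R + ‖a‖, fun x hx => hR _ ?_⟩
  have := norm_sub_norm_le x a
  linarith

theorem BC.shift (hf : BC f) (a : E3) : BC fun x => f (x + a) := by
  simpa using hf.shift_sub (-a)

theorem BC.sq (hf : BC f) : BC fun x => f x ^ 2 := by
  simpa [pow_two] using hf.mul_left hf.toBM

theorem BC.abs (hf : BC f) : BC fun x => |f x| := by
  obtain ⟨R, hR⟩ := hf.supp
  exact ⟨hf.toBM.abs, R, fun x hx => by rw [hR x hx, abs_zero]⟩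

/-! the semigroup -/

theorem abs_Pt_le (ht : 0 < t) {C : ℝ} (hC : ∀ x, |f x| ≤ C) (x : E3) : |Pt t f x| ≤ C := by
  have := gam_prob ht
  have h := norm_integral_le_of_norm_le_const (μ := gam t) (f := fun z => f (x + z)) (C := C)
    (.of_forall fun z => hC _)
  simpa [Pt] using h

theorem measurable_Pt (ht : 0 < t) (hf : Measurable f) : Measurable (Pt t f) := by
  have := gam_prob ht
  have h : StronglyMeasurable (Function.uncurry fun x z : E3 => f (x + z)) :=
    (hf.comp measurable_add).stronglyMeasurable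
  exact (h.integral_prod_right (ν := gam t)).measurable

theorem BM.Pt (hf : BM f) (ht : 0 < t) : BM (Pt t f) := by
  obtain ⟨C, hC⟩ := hf.bdd
  exact ⟨measurable_Pt ht hf.meas, C, abs_Pt_le ht hC⟩

theorem Pt_eq (ht : 0 < t) (f : E3 → ℝ) (x : E3) :
    Pt t f x = ∫ y, pk t (y - x) * f y := by
  rw [Pt, integral_gam ht, ← integral_add_left_eq_self (fun y => pk t (y - x) * f y) x]
  simp

theorem BM.integrable_shift (hf : BM f) (ht : 0 < t) (x : E3) :
    Integrable (fun z => f (x + z)) (gam t) := by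
  have := gam_prob ht
  exact (hf.shift_left x).integrable _

theorem Pt_Pt (hs : 0 < s) (ht : 0 < t) (hf : BM f) : Pt s (Pt t f) = Pt (s + t) f := by
  have := gam_prob ht
  have := gam_prob hs
  ext x
  unfold Pt
  rw [← gam_conv hs ht, integral_conv ((hf.shift_left x).integrable _)]
  simp only [add_assoc]

theorem continuous_Pt (ht : 0 < t) (hf : BM f) : Continuous (Pt t f) := by
  obtain ⟨C, hC⟩ := hf.bdd
  have hC0 : 0 ≤ C := (abs_nonneg _).trans (hC 0)
  have h : Pt t f = fun x => ∫ y, pk t (y - x) * f y := funext (Pt_eq ht f)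
  rw [h, continuous_iff_continuousAt]
  intro x0
  refine continuousAt_of_dominated
    (bound := fun y => (4 * π * t) ^ (-(3 : ℝ) / 2) * exp (1 / (4 * t)) * C *
      exp (-(1 / (8 * t)) * ‖y - x0‖ ^ 2)) (.of_forall fun x => ?_) ?_ ?_ (.of_forall fun y => ?_)
  · exact (((measurable_pk t).comp (measurable_sub_const x)).mul hf.meas).aestronglyMeasurable
  · filter_upwards [ball_mem_nhds x0 one_pos] with x hx
    refine .of_forall fun y => ?_
    rw [norm_mul, Real.norm_eq_abs, Real.norm_eq_abs, abs_of_pos (pk_pos ht _), pk_eq]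
    have h1 : ‖y - x0‖ ≤ ‖y - x‖ + 1 := by
      have := norm_sub_le_norm_sub_add_norm_sub y x x0
      rw [mem_ball_iff_norm] at hx
      linarith
    have h2 : ‖y - x0‖ ^ 2 ≤ 2 * ‖y - x‖ ^ 2 + 2 := by
      nlinarith [norm_nonneg (y - x0), norm_nonneg (y - x), sq_nonneg (‖y - x‖ - 1)]
    have h3 : exp (-(1 / (4 * t)) * ‖y - x‖ ^ 2) ≤
        exp (1 / (4 * t)) * exp (-(1 / (8 * t)) * ‖y - x0‖ ^ 2) := by
      rw [← exp_add, exp_le_exp]
      have h4 : 0 < 1 / (8 * t) := by positivity
      have h5 : 1 / (4 * t) = 2 * (1 / (8 * t)) := by field_simp; norm_num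
      rw [h5]
      nlinarith
    have h6 : 0 ≤ (4 * π * t) ^ (-(3 : ℝ) / 2) := by positivity
    calc _ ≤ (4 * π * t) ^ (-(3 : ℝ) / 2) *
          (exp (1 / (4 * t)) * exp (-(1 / (8 * t)) * ‖y - x0‖ ^ 2)) * C := by
          gcongr
          exact hC y
      _ = _ := by ring
  · refine Integrable.const_mul ?_ _
    have h1 : Integrable fun y : E3 => exp (-(1 / (8 * t)) * ‖y‖ ^ 2) :=
      Integrable.of_integral_ne_zero (by
        rw [GaussianFourier.integral_rexp_neg_mul_sq_norm (by positivity)]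
        positivity)
    exact h1.comp_sub_right x0
  · exact (((continuous_pk t).comp (continuous_const.sub continuous_id)).mul
      continuous_const).continuousAt

theorem Pt_nonneg (h0 : ∀ x, 0 ≤ f x) (x : E3) : 0 ≤ Pt t f x :=
  integral_nonneg fun _ => h0 _

theorem Pt_mono (ht : 0 < t) (hf : BM f) (hg : BM g) (hfg : ∀ x, f x ≤ g x) (x : E3) :
    Pt t f x ≤ Pt t g x :=
  integral_mono (hf.integrable_shift ht x) (hg.integrable_shift ht x) fun _ => hfg _

theorem Pt_const (ht : 0 < t) (c : ℝ) (x : E3) : Pt t (fun _ => c) x = c := by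
  have := gam_prob ht
  simp [Pt]

theorem Pt_add (ht : 0 < t) (hf : BM f) (hg : BM g) (x : E3) :
    Pt t (fun y => f y + g y) x = Pt t f x + Pt t g x :=
  integral_add (hf.integrable_shift ht x) (hg.integrable_shift ht x)

theorem Pt_sub (ht : 0 < t) (hf : BM f) (hg : BM g) (x : E3) :
    Pt t (fun y => f y - g y) x = Pt t f x - Pt t g x :=
  integral_sub (hf.integrable_shift ht x) (hg.integrable_shift ht x)

theorem Pt_const_mul (c : ℝ) (f : E3 → ℝ) (x : E3) :
    Pt t (fun y => c * f y) x = c * Pt t f x :=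
  integral_const_mul _ _

theorem Pt_shift (f : E3 → ℝ) (a x : E3) :
    Pt t (fun y => f (y + a)) x = Pt t f (x + a) := by
  simp only [Pt, add_right_comm]

theorem Pt_shift_sub (f : E3 → ℝ) (a x : E3) :
    Pt t (fun y => f (y - a)) x = Pt t f (x - a) := by
  simp only [sub_eq_add_neg, Pt_shift]

theorem abs_Pt_le_Pt_abs (f : E3 → ℝ) (x : E3) : |Pt t f x| ≤ Pt t (fun y => |f y|) x :=
  abs_integral_le_integral_abs

theorem sq_Pt_le (ht : 0 < t) (hf : BM f) (x : E3) :
    Pt t f x ^ 2 ≤ Pt t (fun y => f y ^ 2) x := by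
  set m := Pt t f x with hm
  have h0 : 0 ≤ Pt t (fun y => f y ^ 2 - (2 * m * f y - m ^ 2)) x :=
    Pt_nonneg (fun y => by nlinarith [sq_nonneg (f y - m)]) x
  rw [Pt_sub ht hf.sq ((hf.const_mul _).sub (BM.const _)),
    Pt_sub ht (hf.const_mul _) (BM.const _), Pt_const_mul, Pt_const ht, ← hm] at h0
  nlinarith

theorem integrable_pk_mul (ht : 0 < t) (hf : BM f) (x : E3) :
    Integrable fun y => pk t (y - x) * f y := by
  have := hf.mul_integrable ((integrable_pk ht).comp_sub_right x)
  simpa only [mul_comm] using this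

/-- minorization of a shifted kernel by the kernel of half the time -/
theorem Pt_minor (hs : 0 < s) (hg : BM g) (h0 : ∀ x, 0 ≤ g x) {b : ℝ} {ξ : E3} (hξ : ‖ξ‖ ≤ b)
    (x : E3) :
    (2 : ℝ) ^ (-(3 : ℝ) / 2) * exp (-b ^ 2 / (2 * s)) * Pt (s / 2) g x ≤ Pt s g (x + ξ) := by
  have hs2 : 0 < s / 2 := by positivity
  rw [Pt_eq hs2, Pt_eq hs, ← integral_const_mul]
  refine integral_mono ((integrable_pk_mul hs2 hg x).const_mul _) (integrable_pk_mul hs hg _)
    fun y => ?_
  dsimp only
  rw [← mul_assoc]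
  refine mul_le_mul_of_nonneg_right ?_ (h0 y)
  unfold pk
  have h1 : (2 : ℝ) ^ (-(3 : ℝ) / 2) * (4 * π * (s / 2)) ^ (-(3 : ℝ) / 2) =
      (4 * π * s) ^ (-(3 : ℝ) / 2) := by
    rw [← mul_rpow (by norm_num) (by positivity)]
    congr 1
    ring
  have h2 : ‖y - (x + ξ)‖ ≤ ‖y - x‖ + b := by
    rw [← sub_sub]
    exact (norm_sub_le _ _).trans (by linarith)
  have hb : 0 ≤ b := (norm_nonneg _).trans hξ
  have h3 : ‖y - (x + ξ)‖ ^ 2 ≤ 2 * ‖y - x‖ ^ 2 + 2 * b ^ 2 := by
    nlinarith [norm_nonneg (y - (x + ξ)), norm_nonneg (y - x), sq_nonneg (‖y - x‖ - b)]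
  have h4 : exp (-b ^ 2 / (2 * s)) * exp (-‖y - x‖ ^ 2 / (4 * (s / 2))) ≤
      exp (-‖y - (x + ξ)‖ ^ 2 / (4 * s)) := by
    rw [← exp_add, exp_le_exp]
    have : -b ^ 2 / (2 * s) + -‖y - x‖ ^ 2 / (4 * (s / 2)) =
        -(2 * ‖y - x‖ ^ 2 + 2 * b ^ 2) / (4 * s) := by
      field_simp
      ring
    rw [this]
    exact div_le_div_of_nonneg_right (by linarith) (by positivity)
  have h6 : 0 ≤ (4 * π * s) ^ (-(3 : ℝ) / 2) := by positivity
  calc _ = ((2 : ℝ) ^ (-(3 : ℝ) / 2) * (4 * π * (s / 2)) ^ (-(3 : ℝ) / 2)) *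
        (exp (-b ^ 2 / (2 * s)) * exp (-‖y - x‖ ^ 2 / (4 * (s / 2)))) := by ring
    _ ≤ _ := by
        rw [h1]
        exact mul_le_mul_of_nonneg_left h4 h6

end Pool.Agent.MP_dce92b_pr

end MrgPart1

-- ======== part 2: formerly Pool.Agent.MP_dce92b_pr.Gauss
section MrgPart2

/-! BTOR module GAUSS: heat kernel, Gaussian measure, heat semigroup and forms on R^3.
The kernel, the measure, moments and radial integrals are in GaussA, bounded functions and the
semigroup in GaussB, the forms here. -/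

open MeasureTheory ProbabilityTheory Filter Topology Metric Real
open scoped NNReal ENNReal

namespace Pool.Agent.MP_dce92b_pr

variable {s t : ℝ} {f g h : E3 → ℝ}

/-! forms on R^3 -/

theorem integrable_prod_shift {α : Type*} [MeasurableSpace α] (ν : Measure α) [IsFiniteMeasure ν]
    {H : E3 → ℝ} (hm : Measurable H) (hi : Integrable H) {T : α → E3} (hT : Measurable T) :
    Integrable (fun p : E3 × α => H (p.1 + T p.2)) (volume.prod ν) := by
  have hm' : Measurable fun p : E3 × α => H (p.1 + T p.2) :=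
    hm.comp (measurable_fst.add (hT.comp measurable_snd))
  rw [integrable_prod_iff' hm'.aestronglyMeasurable]
  refine ⟨.of_forall fun a => hi.comp_add_right (T a), ?_⟩
  have : ∀ a, ∫ x, ‖H (x + T a)‖ = ∫ x, ‖H x‖ := fun a =>
    integral_add_right_eq_self (fun x => ‖H x‖) (T a)
  simp only [this]
  exact integrable_const _

theorem integral_integral_shift {α : Type*} [MeasurableSpace α] (ν : Measure α)
    [IsProbabilityMeasure ν] {H : E3 → ℝ} (hm : Measurable H) (hi : Integrable H) {T : α → E3}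
    (hT : Measurable T) : ∫ x, ∫ a, H (x + T a) ∂ν = ∫ x, H x := by
  rw [integral_integral_swap (integrable_prod_shift ν hm hi hT)]
  have : ∀ a, ∫ x, H (x + T a) = ∫ x, H x := fun a => integral_add_right_eq_self H (T a)
  simp [this]

theorem integrable_Pt_of_integrable (ht : 0 < t) (hm : Measurable h) (hi : Integrable h) :
    Integrable (Pt t h) := by
  have := gam_prob ht
  exact (integrable_prod_shift (gam t) hm hi measurable_id).integral_prod_left

theorem integrable_Pt (ht : 0 < t) (hh : BC h) : Integrable (Pt t h) :=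
  integrable_Pt_of_integrable ht hh.meas hh.integrable

theorem integral_Pt (ht : 0 < t) (hm : Measurable h) (hi : Integrable h) :
    ∫ x, Pt t h x = ∫ x, h x := by
  have := gam_prob ht
  exact integral_integral_shift (gam t) hm hi measurable_id

theorem integral_gam_neg (ht : 0 < t) (F : E3 → ℝ) :
    ∫ z, F (-z) ∂gam t = ∫ z, F z ∂gam t := by
  rw [integral_gam ht, integral_gam ht, ← integral_neg_eq_self (fun z => pk t z * F z)]
  simp only [pk_neg]

theorem integrable_prod_mul (ht : 0 < t) (hf : BM f) (hm : Measurable h) (hi : Integrable h) :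
    Integrable (fun p : E3 × E3 => f p.1 * h (p.1 + p.2)) (volume.prod (gam t)) := by
  have := gam_prob ht
  obtain ⟨C, hC⟩ := hf.bdd
  exact (integrable_prod_shift (gam t) hm hi measurable_id).bdd_mul (c := C)
    (hf.meas.comp measurable_fst).aestronglyMeasurable (.of_forall fun p => hC _)

theorem integrable_prod_mul' (ht : 0 < t) (hf : BM f) (hi : Integrable h) :
    Integrable (fun p : E3 × E3 => f (p.1 + p.2) * h p.1) (volume.prod (gam t)) := by
  have := gam_prob ht
  obtain ⟨C, hC⟩ := hf.bdd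
  exact (hi.comp_fst (gam t)).bdd_mul (c := C)
    (hf.meas.comp measurable_add).aestronglyMeasurable (.of_forall fun p => hC _)

theorem integral_mul_Pt (ht : 0 < t) (hf : BM f) (hm : Measurable h) (hi : Integrable h) :
    ∫ x, f x * Pt t h x = ∫ z, (∫ x, f x * h (x + z)) ∂gam t := by
  have := gam_prob ht
  rw [← integral_integral_swap (integrable_prod_mul ht hf hm hi)]
  simp only [Pt, integral_const_mul]

theorem Pt_symm' (ht : 0 < t) (hf : BM f) (hm : Measurable h) (hi : Integrable h) :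
    ∫ x, f x * Pt t h x = ∫ x, Pt t f x * h x := by
  have := gam_prob ht
  have h1 : ∫ x, Pt t f x * h x = ∫ z, (∫ x, f (x + z) * h x) ∂gam t := by
    rw [← integral_integral_swap (integrable_prod_mul' ht hf hi)]
    simp only [Pt, integral_mul_const]
  rw [integral_mul_Pt ht hf hm hi, h1, ← integral_gam_neg ht]
  congr 1
  ext z
  rw [← integral_add_right_eq_self (fun x => f x * h (x + -z)) z]
  simp

theorem Pt_symm (ht : 0 < t) (hf : BM f) (hh : BC h) :
    ∫ x, f x * Pt t h x = ∫ x, Pt t f x * h x :=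
  Pt_symm' ht hf hh.meas hh.integrable

theorem integral_incr_sq (hf : BC f) (z : E3) :
    ∫ x, (f (x + z) - f x) ^ 2 = 2 * (∫ x, f x * f x) - 2 * ∫ x, f x * f (x + z) := by
  have h1 : Integrable fun x => f x * f x := (hf.mul_left hf.toBM).integrable
  have h2 : Integrable fun x => f (x + z) * f (x + z) := h1.comp_add_right z
  have h3 : Integrable fun x => f x * f (x + z) := (hf.mul_right (hf.toBM.shift z)).integrable
  have h4 : ∀ x, (f (x + z) - f x) ^ 2 =
      f (x + z) * f (x + z) + f x * f x - 2 * (f x * f (x + z)) := fun x => by ring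
  have h5 : Integrable fun x => f (x + z) * f (x + z) + f x * f x := h2.add h1
  simp only [h4]
  rw [integral_sub h5 (h3.const_mul 2), integral_add h2 h1, integral_const_mul,
    integral_add_right_eq_self (fun x => f x * f x) z]
  ring

theorem integrable_corr (ht : 0 < t) (hf : BC f) :
    Integrable (fun z => ∫ x, f x * f (x + z)) (gam t) := by
  have := gam_prob ht
  exact (integrable_prod_mul ht hf.toBM hf.meas hf.integrable).integral_prod_right

theorem integrable_incr_sq (ht : 0 < t) (hf : BC f) :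
    Integrable (fun z => ∫ x, (f (x + z) - f x) ^ 2) (gam t) := by
  have := gam_prob ht
  simp only [integral_incr_sq hf]
  exact (integrable_const _).sub ((integrable_corr ht hf).const_mul 2)

theorem ER_eq (ht : 0 < t) (hf : BC f) :
    ER t f = 1 / 2 * ∫ z, (∫ x, (f (x + z) - f x) ^ 2) ∂gam t := by
  have := gam_prob ht
  simp only [integral_incr_sq hf]
  rw [integral_sub (integrable_const _) ((integrable_corr ht hf).const_mul 2), integral_const_mul,
    integral_const_mul, ER, integral_mul_Pt ht hf.toBM hf.meas hf.integrable]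
  simp only [integral_const, probReal_univ, smul_eq_mul, one_mul]
  ring

theorem ER_nonneg (ht : 0 < t) (hf : BC f) : 0 ≤ ER t f := by
  rw [ER_eq ht hf]
  exact mul_nonneg (by norm_num) (integral_nonneg fun z => integral_nonneg fun x => sq_nonneg _)

theorem ER_shift_sub (f : E3 → ℝ) (a : E3) : ER t (fun x => f (x - a)) = ER t f := by
  unfold ER
  simp only [Pt_shift_sub]
  rw [integral_sub_right_eq_self (fun x => f x * f x) a,
    integral_sub_right_eq_self (fun x => f x * Pt t f x) a]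

theorem ER_le_of_contr (ht : 0 < t) (hf : BC f) (hg : BC g)
    (hc : ∀ x y, |g x - g y| ≤ |f x - f y|) : ER t g ≤ ER t f := by
  rw [ER_eq ht hf, ER_eq ht hg]
  refine mul_le_mul_of_nonneg_left (integral_mono (integrable_incr_sq ht hg)
    (integrable_incr_sq ht hf) fun z => ?_) (by norm_num)
  exact integral_mono ((hg.shift z).sub hg).sq.integrable ((hf.shift z).sub hf).sq.integrable
    fun x => sq_le_sq.2 (hc _ _)

theorem ER_eq_sub (ht : 0 < t) (hh : BC h) : ER t h = ∫ x, h x * (h x - Pt t h x) := by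
  simp only [mul_sub]
  rw [integral_sub (hh.mul_left hh.toBM).integrable (hh.mul_right (hh.toBM.Pt ht)).integrable, ER]

theorem ER_sub (ht : 0 < t) (hf : BC f) (hh : BC h) :
    ER t (fun x => f x - h x) =
      ER t f - 2 * (∫ x, f x * (h x - Pt t h x)) + ER t h := by
  have i1 := (hf.mul_left hf.toBM).integrable
  have i2 := (hf.mul_right hh.toBM).integrable
  have i3 := (hh.mul_left hh.toBM).integrable
  have j1 := (hf.mul_right (hf.toBM.Pt ht)).integrable
  have j2 := (hf.mul_right (hh.toBM.Pt ht)).integrable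
  have j3 := (hh.mul_left (hf.toBM.Pt ht)).integrable
  have j4 := (hh.mul_right (hh.toBM.Pt ht)).integrable
  have hs := Pt_symm ht hf.toBM hh
  unfold ER
  simp only [Pt_sub ht hf.toBM hh.toBM]
  have e1 : ∀ x, (f x - h x) * (f x - h x) = f x * f x - 2 * (f x * h x) + h x * h x :=
    fun x => by ring
  have e2 : ∀ x, (f x - h x) * (Pt t f x - Pt t h x) =
      f x * Pt t f x - f x * Pt t h x - Pt t f x * h x + h x * Pt t h x := fun x => by ring
  have i4 : Integrable fun x => f x * f x - 2 * (f x * h x) := i1.sub (i2.const_mul 2)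
  have j5 : Integrable fun x => f x * Pt t f x - f x * Pt t h x := j1.sub j2
  have j6 : Integrable fun x => f x * Pt t f x - f x * Pt t h x - Pt t f x * h x := j5.sub j3
  simp only [e1, e2, mul_sub]
  rw [integral_add i4 i3, integral_sub i1 (i2.const_mul 2),
    integral_const_mul, integral_add j6 j4, integral_sub j5 j3,
    integral_sub j1 j2, integral_sub i2 j2, hs]
  ring

theorem ER_dual (ht : 0 < t) (hf : BC f) (hh : BC h) :
    2 * (∫ x, f x * (h x - Pt t h x)) - ER t h ≤ ER t f := by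
  have := ER_nonneg ht (hf.sub hh)
  rw [ER_sub ht hf hh] at this
  linarith

theorem sq_integral_le {α : Type*} [MeasurableSpace α] (ν : Measure α) [IsProbabilityMeasure ν]
    {φ : α → ℝ} (h1 : Integrable φ ν) (h2 : Integrable (fun a => φ a ^ 2) ν) :
    (∫ a, φ a ∂ν) ^ 2 ≤ ∫ a, φ a ^ 2 ∂ν := by
  set m := ∫ a, φ a ∂ν with hm
  have h0 : 0 ≤ ∫ a, (φ a ^ 2 - (2 * m * φ a - m ^ 2)) ∂ν :=
    integral_nonneg fun a => by
      simp only [Pi.zero_apply]
      nlinarith [sq_nonneg (φ a - m)]
  have h3 : Integrable (fun a => 2 * m * φ a - m ^ 2) ν :=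
    (h1.const_mul _).sub (integrable_const _)
  rw [integral_sub h2 h3,
    integral_sub (h1.const_mul _) (integrable_const _), integral_const_mul, ← hm] at h0
  simp only [integral_const, probReal_univ, smul_eq_mul, one_mul] at h0
  nlinarith

theorem incr_eq_integral (hg : ContDiff ℝ 1 g) (x z : E3) :
    g (x + z) - g x = ∫ u in Set.Ioc (0 : ℝ) 1, fderiv ℝ g (x + u • z) z := by
  have hd : Differentiable ℝ g := hg.differentiable one_ne_zero
  have hc : Continuous (fderiv ℝ g) := hg.continuous_fderiv one_ne_zero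
  have h1 : ∀ u ∈ Set.uIcc (0 : ℝ) 1,
      HasDerivAt (fun u : ℝ => g (x + u • z)) (fderiv ℝ g (x + u • z) z) u := by
    intro u _
    have h2 : HasDerivAt (fun u : ℝ => x + u • z) z u := by
      simpa using ((hasDerivAt_id u).smul_const z).const_add x
    exact (hd _).hasFDerivAt.comp_hasDerivAt u h2
  have h3 := intervalIntegral.integral_eq_sub_of_hasDerivAt h1
    (Continuous.intervalIntegrable (by fun_prop) _ _)
  rw [intervalIntegral.integral_of_le zero_le_one] at h3
  simpa using h3.symm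

theorem integral_incr_sq_le (hg : ContDiff ℝ 1 g) (hc : HasCompactSupport g) (z : E3) :
    ∫ x, (g (x + z) - g x) ^ 2 ≤ ∫ x, (fderiv ℝ g x z) ^ 2 := by
  have hD : Continuous (fderiv ℝ g) := hg.continuous_fderiv one_ne_zero
  have hB : BC g := BC.of_cont hg.continuous hc
  have hφc : Continuous fun x => fderiv ℝ g x z := by fun_prop
  have hφ : BC fun x => fderiv ℝ g x z := BC.of_cont hφc (hc.fderiv_apply ℝ z)
  have : IsProbabilityMeasure (volume.restrict (Set.Ioc (0 : ℝ) 1)) := ⟨by simp⟩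
  have hT : Measurable fun u : ℝ => u • z := by fun_prop
  rw [← integral_integral_shift (volume.restrict (Set.Ioc (0 : ℝ) 1)) hφ.sq.meas
    hφ.sq.integrable hT]
  refine integral_mono ((hB.shift z).sub hB).sq.integrable
    (integrable_prod_shift _ hφ.sq.meas hφ.sq.integrable hT).integral_prod_left fun x => ?_
  dsimp only
  rw [incr_eq_integral hg]
  refine sq_integral_le _ ?_ ?_
  · exact (Continuous.integrableOn_Icc (by fun_prop)).mono_set Set.Ioc_subset_Icc_self
  · exact (Continuous.integrableOn_Icc (by fun_prop)).mono_set Set.Ioc_subset_Icc_self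

theorem ER_le_grad (ht : 0 < t) (hg : ContDiff ℝ 1 g) (hc : HasCompactSupport g) :
    ER t g ≤ t * ∫ x, ‖fderiv ℝ g x‖ ^ 2 := by
  have := gam_prob ht
  have hD : Continuous (fderiv ℝ g) := hg.continuous_fderiv one_ne_zero
  have hB : BC g := BC.of_cont hg.continuous hc
  have hN : Integrable fun x => ‖fderiv ℝ g x‖ ^ 2 :=
    (BC.of_cont hD.norm (hc.fderiv ℝ).norm).sq.integrable
  have hP : Integrable (fun p : E3 × E3 => (fderiv ℝ g p.1 p.2) ^ 2) (volume.prod (gam t)) := by
    refine (hN.mul_prod (integrable_norm_pow ht 2)).mono'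
      (Continuous.aestronglyMeasurable (by fun_prop)) (.of_forall fun p => ?_)
    rw [norm_pow, ← mul_pow]
    gcongr
    exact ContinuousLinearMap.le_opNorm _ _
  have h1 : ∫ z, (∫ x, (fderiv ℝ g x z) ^ 2) ∂gam t = 2 * t * ∫ x, ‖fderiv ℝ g x‖ ^ 2 := by
    rw [← integral_integral_swap hP]
    simp only [integral_dual_sq ht, integral_const_mul]
  have h2 := integral_mono (integrable_incr_sq ht hB) hP.integral_prod_right
    (integral_incr_sq_le hg hc)
  rw [ER_eq ht hB]
  rw [h1] at h2
  linarith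

end Pool.Agent.MP_dce92b_pr

end MrgPart2

-- marker of a merged file
example : 731051 + 156088 = 731051 + 156088 := rfl
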