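import Mathlib.Probability.BrownianMotion.Basic
import Pool.Agent.MP_dce92b_pr.Defs

/-! Module statements of project BTOR (blueprint: BTOR_BLUEPRINT.md in the team store). -/

open MeasureTheory ProbabilityTheory Filter Topology Metric Real
open scoped NNReal ENNReal

namespace Pool.Agent.MP_dce92b_pr

universe u

/-- RIESZ: symmetric decreasing rearrangement for the heat kernel (polarization). -/
def RieszStmt : Prop :=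
  ∀ t : ℝ, 0 < t → ∀ f : E3 → ℝ, Continuous f → HasCompactSupport f → (∀ x, 0 ≤ f x) →
    ∃ g : E3 → ℝ, Continuous g ∧ HasCompactSupport g ∧ (∀ x, 0 ≤ g x) ∧
      (∀ x y, ‖x‖ ≤ ‖y‖ → g y ≤ g x) ∧
      (∀ Φ : ℝ → ℝ, Continuous Φ → Φ 0 = 0 → ∫ x, Φ (g x) = ∫ x, Φ (f x)) ∧
      ∫ x, f x * Pt t f x ≤ ∫ x, g x * Pt t g x

/-- RAD: the heat semigroup on radial functions is the one-dimensional one on odd functions. -/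
def RadStmt : Prop :=
  ∀ t : ℝ, 0 < t → ∀ F : ℝ → ℝ, Measurable F → (∃ C, ∀ r, |F r| ≤ C) → ∀ x : E3,
    ‖x‖ * Pt t (fun y => F ‖y‖) x =
      ∫ z, (‖x‖ + z) * F |‖x‖ + z| ∂gaussianReal 0 (2 * t).toNNReal

/-- PROF: capacity profile h of the ball of radius c with inner charge n1 and outer charge n2. -/
def ProfStmt : Prop :=
  ∃ C : ℝ, 0 < C ∧ ∀ c t : ℝ, 0 < c → c ≤ 1 / 16 → 0 < t → t ≤ 1 →
    ∃ (h n1 n2 : E3 → ℝ) (m : ℝ), Measurable h ∧ Measurable n1 ∧ Measurable n2 ∧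
      (∀ x, 0 ≤ h x ∧ h x ≤ 1) ∧ (∀ x, ‖x‖ ≤ c → h x = 1) ∧ (∀ x, 1 / 4 ≤ ‖x‖ → h x = 0) ∧
      (∀ x, h x * ‖x‖ ≤ c) ∧
      (∀ x, h x - Pt t h x = n1 x - n2 x) ∧
      (∀ x, 0 ≤ n1 x ∧ n1 x ≤ C * √t / c) ∧ (∀ x, 0 ≤ n2 x ∧ n2 x ≤ C * c * t) ∧
      Integrable n1 ∧ Integrable n2 ∧ ∫ x, n1 x = m ∧ ∫ x, n2 x = m ∧
      4 * π * c * t ≤ m ∧ m ≤ 4 * π * c * t * (1 + C * c) ∧
      (∀ γ, 0 < γ → ∀ x, c + γ ≤ ‖x‖ → n1 x ≤ C * t ^ 2 / (γ ^ 3 * c)) ∧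
      (∀ γ, 0 < γ → ∫ x in {x : E3 | c + γ ≤ ‖x‖}, n1 x ≤ C * t ^ 2 * (c / γ ^ 2 + 1 / γ)) ∧
      ∫ x in {x : E3 | 3 / 8 ≤ ‖x‖}, n2 x ≤ C * c * t ^ 2

/-- FK: Faber-Krahn inequality with the sharp constant. -/
def FKStmt : Prop :=
  ∀ g : E3 → ℝ, ContDiff ℝ 1 g → HasCompactSupport g → ∀ a R : ℝ, 0 ≤ a → 0 < R →
    volume {x | a < |g x|} ≤ volume (ball (0 : E3) R) →
    π ^ 2 / R ^ 2 * ∫ x, (max (|g x| - a) 0) ^ 2 ≤ ∫ x, ‖fderiv ℝ g x‖ ^ 2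

/-- ISO: isocapacitary lower bound for the killed chain on the torus. -/
def IsoStmt : Prop :=
  ∀ ε c : ℝ, 0 < ε → 0 < c → ∃ η ρ1 : ℝ, 0 < η ∧ 0 < ρ1 ∧
    ∀ ρ t : ℝ, 0 < ρ → ρ ≤ ρ1 → 0 < t → t ≤ η * ρ ^ 2 →
    ∀ (a : E3) (U : Set E3), MeasurableSet U → U ⊆ ball a (1 / 8) →
      volume (ball (0 : E3) ρ) ≤ volume U →
    ∀ g : E3 → ℝ, BP g → Continuous g →
      (1 - ε) * (4 * π * ρ * t) * ip g g ≤ ET t g + c * ∫ x in U, g x ^ 2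

/-- ONE: test function for one ball. -/
def OneStmt : Prop :=
  ∃ C : ℝ, 0 < C ∧ ∀ c t : ℝ, 0 < c → c ≤ 1 / 16 → 0 < t → t ≤ 1 → ∀ a : E3,
    ∃ φ : E3 → ℝ, BP φ ∧ (∀ x, 0 ≤ φ x ∧ φ x ≤ 1) ∧ (∀ x, ‖red (x - a)‖ ≤ c → φ x = 0) ∧
      1 - C * c ≤ ip φ φ ∧ ET t φ ≤ 4 * π * c * t * (1 + C * c)

/-- TWO: lower bound of the form for functions that vanish on two balls. -/
def TwoStmt : Prop :=
  ∃ C : ℝ, 0 < C ∧ ∀ c γ d t : ℝ, 0 < γ → γ ≤ c → c ≤ 1 / 16 → 4 * c ≤ d → 0 < t → t ≤ 1 →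
    ∀ a1 a2 : E3, (∀ k, d ≤ ‖a1 - a2 - lat k‖) →
    ∀ g : E3 → ℝ, BP g → (∀ x, 0 ≤ g x) →
      (∀ x, ‖x - a1‖ ≤ c + γ → g x = 0) → (∀ x, ‖x - a2‖ ≤ c + γ → g x = 0) →
      8 * π * c * t * (1 - C * (√c + c / d + t / (γ ^ 3 * c ^ 2))) * ip g g ≤ ET t g

/-- OPS 1: survival upper bound for hard obstacles. -/
def KillUpStmt : Prop :=
  ∀ t κ : ℝ, 0 < t → κ ≤ 1 → ∀ a : E3 → ℝ, BP a → (∀ x, a x = 0 ∨ a x = 1) →
    (∀ g, BP g → (∀ x, 0 ≤ g x) → (∀ x, a x = 0 → g x = 0) → κ * ip g g ≤ ET t g) →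
    ∀ n : ℕ, avg ((fun (g : E3 → ℝ) x => a x * Pt t g x)^[n] a) ≤ (1 - κ) ^ n

/-- OPS 2: survival lower bound for hard obstacles. -/
def KillLowStmt : Prop :=
  ∀ t : ℝ, 0 < t → ∀ a : E3 → ℝ, BP a → (∀ x, a x = 0 ∨ a x = 1) →
    ∀ φ : E3 → ℝ, BP φ → (∀ x, 0 ≤ φ x ∧ φ x ≤ a x) → 0 < ip φ φ →
    ∀ n : ℕ, ip φ φ * (1 - ET t φ / ip φ φ) ^ n ≤
      avg ((fun (g : E3 → ℝ) x => a x * Pt t g x)^[n] a)

/-- OPS 3: survival upper bound for soft obstacles. -/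
def KillSoftStmt : Prop :=
  ∀ s c κ : ℝ, 0 < s → 0 ≤ c → c ≤ 1 / 2 → 0 < κ → κ ≤ 1 →
    ∀ e : E3 → ℝ, BP e → (∀ x, 0 ≤ e x ∧ e x ≤ 1) →
    ∀ Q : (E3 → ℝ) → E3 → ℝ,
    (∀ g, BP g → (∀ x, 0 ≤ g x) → BP (Q g) ∧ ∀ x, 0 ≤ Q g x ∧
      Q g x ≤ Pt (3 * s) g x - c * Pt (s / 2) (fun y => e y * Pt (s / 2) g y) x) →
    (∀ g, BP g → Continuous g → κ * ip g g ≤ ET (3 * s) g + c * ip (fun x => e x * g x) g) →
    ∀ n : ℕ, avg (Q^[n] fun _ => 1) ≤ (1 / (1 + κ)) ^ n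

/-- POINC: Poincare-Mazya inequality for functions that vanish on a curve of small energy. -/
def PoincStmt : Prop :=
  ∃ C : ℝ, 0 < C ∧ ∀ g : E3 → ℝ, ContDiff ℝ 1 g → ∀ (c : E3) (R : ℝ), 0 < R →
    ∀ (z : ℝ → E3) (s I : ℝ), 0 < s → 0 ≤ I → Continuous z →
      (∀ u ∈ Set.Icc 0 s, z u ∈ ball c R ∧ g (z u) = 0) →
      energy z s ≤ ENNReal.ofReal (I * s ^ 2) →
      ∫ x in ball c R, g x ^ 2 ≤ C * (R ^ 2 + R ^ 3 * I) * ∫ x in ball c R, ‖fderiv ℝ g x‖ ^ 2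

/-- DET: a small eigenvalue forces a large cluster of boxes that are not blocked. -/
def DetStmt : Prop :=
  ∀ ε A : ℝ, 0 < ε → ε < 1 → 0 < A → ∃ δ M η : ℝ, 0 < δ ∧ 0 < M ∧ 0 < η ∧
    ∀ ρ b : ℝ, 0 < ρ → 0 < b → b ≤ η * ρ → ∀ K : Set E3,
      lam1 K < ENNReal.ofReal ((1 - ε) * π ^ 2 / ρ ^ 2) →
      ∃ a ∈ cube, ∃ J : Finset (Fin 3 → ℤ),
        (∀ j ∈ J, ¬ Blocked K b A j ∧ ‖b • lat j - a‖ ≤ M * ρ) ∧
        4 * π / 3 * ((1 + δ) * ρ) ^ 3 ≤ J.card * b ^ 3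

/-- BALL: a hole gives an upper bound of the eigenvalue. -/
def BallStmt : Prop :=
  ∀ ε : ℝ, 0 < ε → ∀ (K : Set E3) (ρ : ℝ), 0 < ρ → ρ ≤ 1 / 4 → Hole K ρ →
    lam1 K ≤ ENNReal.ofReal ((1 + ε) * π ^ 2 / ρ ^ 2)

/-- SHIFT: translation invariance of the eigenvalue. -/
def ShiftStmt : Prop := ∀ (K : Set E3) (v : E3), lam1 ((fun x => v + x) '' K) = lam1 K

/-- MEAS: the eigenvalue is a measurable function of the path. -/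
def MeasStmt : Prop := ∀ s : ℝ≥0, Measurable fun w : Path0 => lam1 (rng s w)

/-- BM: three independent real Brownian motions give a Wiener measure on path space. -/
def BMStmt : Prop :=
  ∀ (Ω : Type u) [MeasurableSpace Ω] (P : Measure Ω) (B : Fin 3 → ℝ≥0 → Ω → ℝ),
    (∀ i, IsBrownianReal (B i) P) → iIndepFun (fun i ω t => B i t ω) P →
    ∃ W : Ω → Path0, Measurable W ∧ IsWiener (P.map W) ∧ ∀ᵐ ω ∂P, ∀ u, (W ω).1 u = bm B u ω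

/-- SUP: polynomial tails of the oscillation on a time interval. -/
def SupStmt : Prop :=
  ∀ p : ℕ, 4 ≤ p → ∃ C : ℝ, 0 < C ∧ ∀ μ : Measure Path0, IsWiener μ →
    ∀ (a t : ℝ≥0) (y : ℝ), 0 < t → 0 < y →
      μ {w | ∃ u ≤ t, y < ‖w.1 (a + u) - w.1 a‖} ≤ ENNReal.ofReal (C * (√t / y) ^ p)

/-- GOOD: a test segment is good with probability at least one half. -/
def GoodStmt : Prop :=
  ∃ θ A : ℝ, 0 < θ ∧ 0 < A ∧ ∀ μ : Measure Path0, IsWiener μ →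
    ∀ (s : ℝ≥0) (b : ℝ), 0 < b → (s : ℝ) = θ * b ^ 2 → 1 / 2 ≤ μ.real (Good s b A)

open Classical in
/-- survival weight of one step: free part, test segment, free part -/
noncomputable def Fk (e : E3 → ℝ) (s : ℝ≥0) (b A : ℝ) (x : E3) (w : Path0) : ℝ :=
  1 - e (x + w.1 s) * if w.shift s ∈ Good s b A then 1 else 0

/-- STEP: the step operator is dominated by a symmetric operator. -/
def StepStmt : Prop :=
  ∀ μ : Measure Path0, IsWiener μ → ∀ (s : ℝ≥0) (b A : ℝ), 0 < s → 0 < b →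
    1 / 2 ≤ μ.real (Good s b A) → ∀ e : E3 → ℝ, BM e → (∀ x, 0 ≤ e x ∧ e x ≤ 1) →
    ∀ g : E3 → ℝ, BM g → (∀ x, 0 ≤ g x) → ∀ x,
      Qop μ (3 * s) (Fk e s b A) g x ≤ Pt (3 * s) g x -
        exp (-b ^ 2 / (2 * s)) / 16 * Pt (s / 2) (fun y => e y * Pt (s / 2) g y) x

/-- LOW: the eigenvalue is large with high probability. -/
def LowStmt : Prop :=
  ∀ μ : Measure Path0, IsWiener μ → ∀ ε : ℝ, 0 < ε → ε < 1 →
    Tendsto (fun s : ℝ≥0 =>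
      μ {w | lam1 (rng s w) < ENNReal.ofReal ((1 - ε) * π ^ 2 / r0 s ^ 2)}) atTop (𝓝 0)

/-- SECOND: the second moment bound with all parameters explicit. -/
def SecondStmt : Prop :=
  ∃ C : ℝ, 0 < C ∧ ∀ μ : Measure Path0, IsWiener μ →
    ∀ (s t : ℝ≥0) (n : ℕ) (c γ d : ℝ), 0 < t → t ≤ 1 → s ≤ n * t → 0 < γ → γ ≤ c →
      c + γ ≤ 1 / 16 → 4 * c ≤ d → d ≤ 1 / 4 → C * (c + γ) ≤ 1 / 4 →
      n * t * c * (√c + c / d + t / (γ ^ 3 * c ^ 2) + γ / c + t) ≤ 1 →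
      μ {w | ¬ Hole (rng s w) c} ≤ ENNReal.ofReal (C * (n * (√t / γ) ^ 4 +
        d ^ 3 * exp (4 * π * c * (n * t)) + c +
        n * t * c * (√c + c / d + t / (γ ^ 3 * c ^ 2) + γ / c + t)))

/-- HOLE: a hole of almost critical radius exists up to polynomially small probability. -/
def HoleStmt : Prop :=
  ∀ μ : Measure Path0, IsWiener μ → ∀ ε : ℝ, 0 < ε → ε < 1 → ∃ c : ℝ, 0 < c ∧
    ∀ᶠ s : ℝ≥0 in atTop, μ {w | ¬ Hole (rng s w) ((1 - ε) * r0 s)} ≤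
      ENNReal.ofReal ((s : ℝ) ^ (-c))

/-- SMALL: much smaller holes exist with overwhelming probability. -/
def SmallStmt : Prop :=
  ∀ q : ℕ, 2 ≤ q → ∃ C : ℝ, 0 < C ∧ ∀ μ : Measure Path0, IsWiener μ →
    ∀ (s : ℝ≥0) (δ : ℝ), 1 ≤ s → 0 < δ → 100 * s * δ ≤ 1 →
      μ {w | ¬ Hole (rng s w) δ} ≤ ENNReal.ofReal (C * (s * δ) ^ q / δ ^ 3)

/-- The limit on path space. -/
def LimitStmt : Prop :=
  ∀ μ : Measure Path0, IsWiener μ →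
    Tendsto (fun s : ℝ≥0 => ENNReal.ofReal ((log s / s) ^ 2) * ∫⁻ w, lam1 (rng s w) ∂μ) atTop
      (𝓝 (ENNReal.ofReal ((2 * π) ^ 4 / 9)))

/-- The statement handed in. -/
def MainStmt : Prop :=
  ∀ (Ω : Type u) [MeasurableSpace Ω] (P : Measure Ω) (B : Fin 3 → ℝ≥0 → Ω → ℝ),
    (∀ i, IsBrownianReal (B i) P) → iIndepFun (fun i ω t => B i t ω) P →
    (∀ s : ℝ≥0, AEMeasurable (fun ω => lam1 ((fun u => bm B u ω) '' Set.Iic s)) P) ∧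
    Tendsto (fun s : ℝ≥0 => ENNReal.ofReal ((log s / s) ^ 2) *
        ∫⁻ ω, lam1 ((fun u => bm B u ω) '' Set.Iic s) ∂P) atTop
      (𝓝 (ENNReal.ofReal ((2 * π) ^ 4 / 9)))

theorem main_of (hB : BMStmt.{u}) (hM : MeasStmt) (hL : LimitStmt) : MainStmt.{u} := by
  intro Ω _ P B h1 h2
  obtain ⟨W, hW, hμ, hae⟩ := hB Ω P B h1 h2
  have key : ∀ s : ℝ≥0, (fun ω => lam1 ((fun u => bm B u ω) '' Set.Iic s)) =ᵐ[P]
      fun ω => lam1 (rng s (W ω)) := by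
    intro s
    filter_upwards [hae] with ω hω
    have : (fun u => bm B u ω) = (W ω).1 := funext fun u => (hω u).symm
    rw [this]; rfl
  refine ⟨fun s => ((hM s).comp hW).aemeasurable.congr (key s).symm, ?_⟩
  refine (hL _ hμ).congr fun s => ?_
  rw [lintegral_map (hM s) hW, lintegral_congr_ae (key s)]

end Pool.Agent.MP_dce92b_pr
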