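import Pool.Agent.MP_dce92b_pr.Per
import Pool.Agent.MP_dce92b_pr.Spec

/-! BTOR module OPS: operator norm bounds for killed chains on the torus. -/

open MeasureTheory ProbabilityTheory Filter Topology Metric Real
open scoped NNReal ENNReal

namespace Pool.Agent.MP_dce92b_pr

namespace Ops

variable {s t : ℝ} {f g h a e : E3 → ℝ}

theorem ip_mono {f' g' : E3 → ℝ} (hf : BP f) (hg : BP g) (hf' : BP f') (hg' : BP g')
    (hle : ∀ x, f x * g x ≤ f' x * g' x) : ip f g ≤ ip f' g' :=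
  integral_mono (hf.mul hg).integrableOn (hf'.mul hg').integrableOn hle

theorem ip_congr {f' g' : E3 → ℝ} (hle : ∀ x, f x * g x = f' x * g' x) : ip f g = ip f' g' := by
  unfold ip; simp only [hle]

theorem ip_nonneg (hle : ∀ x, 0 ≤ f x * g x) : 0 ≤ ip f g := integral_nonneg hle

theorem ip_one_one : ip (fun _ => 1) (fun _ => 1) = 1 := by simp [ip]

theorem avg_le (hf : BP f) {L : ℝ} (hL : 0 ≤ L) (h : ip f f ≤ L ^ 2) : avg f ≤ L :=
  (le_abs_self _).trans (abs_le_of_sq_le_sq ((avg_sq_le hf).trans h) hL)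

/-- Cauchy-Schwarz for the form of the semigroup -/
theorem form_sq_le (ht : 0 < t) (hf : BP f) (hg : BP g) :
    ip f (Pt t g) ^ 2 ≤ ip f (Pt t f) * ip g (Pt t g) := by
  rw [ip_Pt_half ht hf hg, ip_Pt_half ht hf hf, ip_Pt_half ht hg hg]
  exact ip_sq_le (hf.Pt (half_pos ht)) (hg.Pt (half_pos ht))

theorem form_nonneg (ht : 0 < t) (hf : BP f) : 0 ≤ ip f (Pt t f) := by
  rw [ip_Pt_half ht hf hf]; exact ip_self_nonneg _

/-- the killed step -/
noncomputable def K (t : ℝ) (a : E3 → ℝ) : (E3 → ℝ) → E3 → ℝ := fun g x => a x * Pt t g x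

/-- nonnegative periodic functions that vanish on the obstacle -/
def Ok (a f : E3 → ℝ) : Prop := BP f ∧ (∀ x, 0 ≤ f x) ∧ ∀ x, a x = 0 → f x = 0

theorem Ok.step (ht : 0 < t) (ha : BP a) (h01 : ∀ x, a x = 0 ∨ a x = 1) (hf : Ok a f) :
    Ok a (K t a f) :=
  ⟨ha.mul (hf.1.Pt ht), fun x => mul_nonneg (by rcases h01 x with e | e <;> simp [e])
    (Pt_nonneg hf.2.1 x), fun x hx => by simp [K, hx]⟩

theorem Ok.iter (ht : 0 < t) (ha : BP a) (h01 : ∀ x, a x = 0 ∨ a x = 1) (hf : Ok a f) (n : ℕ) :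
    Ok a ((K t a)^[n] f) := by
  induction n with
  | zero => exact hf
  | succ n ih => rw [Function.iterate_succ_apply']; exact ih.step ht ha h01

theorem ip_K (h01 : ∀ x, a x = 0 ∨ a x = 1) (hf : Ok a f) (g : E3 → ℝ) :
    ip f (K t a g) = ip f (Pt t g) :=
  ip_congr fun x => by
    rcases h01 x with e | e
    · simp [hf.2.2 x e]
    · simp [K, e]

theorem ip_K_comm (ht : 0 < t) (h01 : ∀ x, a x = 0 ∨ a x = 1) (hf : Ok a f) (hg : Ok a g) :
    ip f (K t a g) = ip (K t a f) g := by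
  rw [ip_K h01 hf, ip_comm (K t a f), ip_K h01 hg, ip_Pt ht hf.1 hg.1, ip_comm]

theorem ok_self (ha : BP a) (h01 : ∀ x, a x = 0 ∨ a x = 1) : Ok a a :=
  ⟨ha, fun x => by rcases h01 x with e | e <;> simp [e], fun _ hx => hx⟩

theorem logconvex {u : ℕ → ℝ} (h0 : ∀ n, 0 ≤ u n) (hc : ∀ n, u (n + 1) ^ 2 ≤ u n * u (n + 2))
    (hp : 0 < u 0) (n : ℕ) : u 0 * (u 1 / u 0) ^ n ≤ u n := by
  have hr : 0 ≤ u 1 / u 0 := div_nonneg (h0 1) hp.le
  have key : ∀ n, u 1 / u 0 * u n ≤ u (n + 1) := by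
    intro n
    induction n with
    | zero => rw [div_mul_cancel₀ _ hp.ne']
    | succ n ih =>
      rcases (h0 (n + 1)).eq_or_lt with e | e
      · rw [← e, mul_zero]; exact h0 _
      have h1 := hc n
      have h2 : 0 < u n := by
        rcases (h0 n).eq_or_lt with e' | e'
        · rw [← e', zero_mul] at h1; nlinarith
        · exact e'
      refine le_of_mul_le_mul_left ?_ h2
      nlinarith [mul_le_mul_of_nonneg_right ih e.le]
  induction n with
  | zero => simp
  | succ n ih =>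
    refine le_trans ?_ (key n)
    rw [pow_succ, ← mul_assoc, mul_comm]
    exact mul_le_mul_of_nonneg_left ih hr

theorem expand (he : BP e) (hf : BP f) (hg : BP g) (σ : ℝ) :
    ip (fun x => e x * (g x + σ * f x)) (fun x => g x + σ * f x) =
      ip (fun x => e x * g x) g + 2 * σ * ip g (fun x => e x * f x) +
        σ ^ 2 * ip (fun x => e x * f x) f := by
  have i1 := ((he.mul hg).mul hg).integrableOn
  have i2 := ((hg.mul (he.mul hf)).const_mul (2 * σ)).integrableOn
  have i3 := (((he.mul hf).mul hf).const_mul (σ ^ 2)).integrableOn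
  have i4 := (((he.mul hg).mul hg).add ((hg.mul (he.mul hf)).const_mul (2 * σ))).integrableOn
  unfold ip
  rw [← integral_const_mul, ← integral_const_mul, ← integral_add i1 i2, ← integral_add i4 i3]
  congr 1
  funext x
  ring

theorem expand1 (hf : BP f) (hg : BP g) (σ : ℝ) :
    ip (fun x => g x + σ * f x) (fun x => g x + σ * f x) =
      ip g g + 2 * σ * ip g f + σ ^ 2 * ip f f := by
  simpa using expand (BP.const 1) hf hg σ

theorem Pt_comb (ht : 0 < t) (hf : BP f) (hg : BP g) (σ : ℝ) :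
    Pt t (fun x => g x + σ * f x) = fun x => Pt t g x + σ * Pt t f x := by
  funext x
  rw [Pt_add ht hg.toBM (hf.const_mul σ).toBM, Pt_const_mul]

/-- the quadratic form of the symmetric majorant -/
noncomputable def q (s c : ℝ) (e f : E3 → ℝ) : ℝ :=
  ip (Pt (3 * s / 2) f) (Pt (3 * s / 2) f) -
    c * ip (fun x => e x * Pt (s / 2) f x) (Pt (s / 2) f)

theorem q_bound {c κ : ℝ} (hs : 0 < s) (hc : 0 ≤ c) (hc2 : c ≤ 1 / 2) (hκ : 0 < κ) (hκ1 : κ ≤ 1)
    (he : BP e) (he1 : ∀ x, 0 ≤ e x ∧ e x ≤ 1)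
    (hk : ∀ g, BP g → Continuous g →
      κ * ip g g ≤ ET (3 * s) g + c * ip (fun x => e x * g x) g) (hf : BP f) :
    -(1 / (1 + κ) * ip f f) ≤ q s c e f ∧ q s c e f ≤ 1 / (1 + κ) * ip f f := by
  have h2 : 0 < s / 2 := half_pos hs
  have h3 : 0 < 3 * s := by positivity
  have hg := hf.Pt h2
  have a0 := ip_self_nonneg f
  have a1 : 0 ≤ ip (fun x => e x * Pt (s / 2) f x) (Pt (s / 2) f) := ip_nonneg fun x => by
    rw [mul_assoc]; exact mul_nonneg (he1 x).1 (mul_self_nonneg _)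
  have a2 : ip (fun x => e x * Pt (s / 2) f x) (Pt (s / 2) f) ≤
      ip (Pt (s / 2) f) (Pt (s / 2) f) := ip_mono (he.mul hg) hg hg hg fun x => by
    rw [mul_assoc]; exact mul_le_of_le_one_left (mul_self_nonneg _) (he1 x).2
  have a3 := ip_Pt_Pt_le h2 hf
  have a4 := ip_self_nonneg (Pt (3 * s / 2) f)
  have a5 := hk _ hg (continuous_Pt h2 hf.toBM)
  have a6 := ET_Pt_le h3 h2 hf
  have a7 : ET s f ≤ ET (3 * s) f := ET_mono hs (by linarith) hf
  have a8 : ET s f = ip f f - ip (Pt (s / 2) f) (Pt (s / 2) f) := by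
    rw [ET, ip_Pt_half hs hf hf]
  have a9 : ET (3 * s) f = ip f f - ip (Pt (3 * s / 2) f) (Pt (3 * s / 2) f) := by
    rw [ET, ip_Pt_half h3 hf hf]
  have b0 := mul_nonneg hc a1
  have hL : 1 / 2 ≤ 1 / (1 + κ) := one_div_le_one_div_of_le (by linarith) (by linarith)
  unfold q
  constructor
  · have := mul_le_mul hc2 (a2.trans a3) a1 (by norm_num)
    have := mul_le_mul_of_nonneg_right hL a0
    linarith
  · rw [one_div, ← div_eq_inv_mul, le_div_iff₀ (by linarith)]
    rw [a9] at a6 a7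
    rw [a8] at a7
    have := mul_le_mul_of_nonneg_left a7 hκ.le
    have := mul_nonneg hκ.le b0
    nlinarith

end Ops

open Ops

theorem killUp : KillUpStmt := by
  intro t κ ht hκ a ha h01 hk n
  have hk' : ∀ g, Ok a g → ip g (Pt t g) ≤ (1 - κ) * ip g g := fun g hg => by
    have := hk g hg.1 hg.2.1 hg.2.2
    rw [ET] at this
    linarith
  have step : ∀ f, Ok a f → ip (K t a f) (K t a f) ≤ (1 - κ) ^ 2 * ip f f := fun f hf => by
    have hg := hf.step ht ha h01
    have h1 := form_sq_le ht hg.1 hf.1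
    rw [← ip_K h01 hg] at h1
    have h2 := mul_le_mul (hk' _ hg) (hk' _ hf) (form_nonneg ht hf.1)
      (mul_nonneg (by linarith) (ip_self_nonneg _))
    rcases (ip_self_nonneg (K t a f)).eq_or_lt with e | e
    · rw [← e]; exact mul_nonneg (sq_nonneg _) (ip_self_nonneg _)
    · refine le_of_mul_le_mul_left ?_ e
      nlinarith
  have key : ∀ n : ℕ, ip ((K t a)^[n] a) ((K t a)^[n] a) ≤ ((1 - κ) ^ n) ^ 2 := by
    intro n
    induction n with
    | zero =>
      simp only [Function.iterate_zero, id, pow_zero, one_pow]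
      rw [← ip_one_one]
      exact ip_mono ha ha (BP.const 1) (BP.const 1) fun x => by
        rcases h01 x with e | e <;> simp [e]
    | succ n ih =>
      rw [Function.iterate_succ_apply']
      refine (step _ ((ok_self ha h01).iter ht ha h01 n)).trans ?_
      rw [pow_succ (1 - κ) n, mul_pow, mul_comm]
      exact mul_le_mul_of_nonneg_right ih (sq_nonneg _)
  exact avg_le ((ok_self ha h01).iter ht ha h01 n).1 (pow_nonneg (by linarith) n) (key n)

theorem killLow : KillLowStmt := by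
  intro t ht a ha h01 φ hφ hφa hp n
  have ok : Ok a φ := ⟨hφ, fun x => (hφa x).1, fun x hx => le_antisymm (hx ▸ (hφa x).2) (hφa x).1⟩
  have oa := ok_self ha h01
  have okn := ok.iter ht ha h01
  have hsym : ∀ i j : ℕ, ip ((K t a)^[i] φ) ((K t a)^[j] φ) = ip φ ((K t a)^[i + j] φ) := by
    intro i
    induction i with
    | zero => intro j; simp
    | succ i ih =>
      intro j
      rw [Function.iterate_succ_apply', ← ip_K_comm ht h01 (okn i) (okn j),
        ← Function.iterate_succ_apply' (K t a) j, ih, Nat.add_succ, Nat.succ_add]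
  have hform : ∀ i j : ℕ, ip ((K t a)^[i] φ) (Pt t ((K t a)^[j] φ)) =
      ip φ ((K t a)^[i + (j + 1)] φ) := fun i j => by
    rw [← ip_K h01 (okn i), ← Function.iterate_succ_apply' (K t a) j, hsym]
  have hc : ∀ m : ℕ, ip φ ((K t a)^[m + 1] φ) ^ 2 ≤
      ip φ ((K t a)^[m] φ) * ip φ ((K t a)^[m + 2] φ) := by
    intro m
    obtain ⟨k, rfl | rfl⟩ := Nat.even_or_odd' m
    · have := ip_sq_le (okn k).1 (okn (k + 1)).1
      rw [hsym, hsym, hsym] at this
      convert this using 4 <;> omega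
    · have := form_sq_le ht (okn k).1 (okn (k + 1)).1
      rw [hform, hform, hform] at this
      convert this using 4 <;> omega
  have h1 := logconvex (u := fun m => ip φ ((K t a)^[m] φ))
    (fun m => ip_nonneg fun x => mul_nonneg (ok.2.1 x) ((okn m).2.1 x)) hc hp n
  have e1 : ip φ ((K t a)^[1] φ) / ip φ ((K t a)^[0] φ) = 1 - ET t φ / ip φ φ := by
    simp only [Function.iterate_one, Function.iterate_zero, id]
    rw [ip_K h01 ok, ET]
    field_simp
    ring
  simp only [e1] at h1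
  refine le_trans h1 ?_
  have mono : ∀ m : ℕ, ∀ x, (K t a)^[m] φ x ≤ (K t a)^[m] a x := by
    intro m
    induction m with
    | zero => exact fun x => (hφa x).2
    | succ m ih =>
      intro x
      rw [Function.iterate_succ_apply', Function.iterate_succ_apply']
      exact mul_le_mul_of_nonneg_left
        (Pt_mono ht (okn m).1.toBM (oa.iter ht ha h01 m).1.toBM ih x) (oa.2.1 x)
  rw [← ip_one_left]
  refine ip_mono hφ (okn n).1 (BP.const 1) (oa.iter ht ha h01 n).1 fun x => ?_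
  refine mul_le_mul ((hφa x).2.trans ?_) (mono n x) ((okn n).2.1 x) zero_le_one
  rcases h01 x with e | e <;> simp [e]

theorem killSoft : KillSoftStmt := by
  intro s c κ hs hc hc2 hκ hκ1 e he he1 Q hQ hk n
  have h2 : 0 < s / 2 := half_pos hs
  have h3 : 0 < 3 * s := by positivity
  have h4 : 0 < 3 * s / 2 := by positivity
  set L := 1 / (1 + κ) with hL
  have hL0 : 0 < L := by positivity
  have step : ∀ f, BP f → (∀ x, 0 ≤ f x) → ip (Q f) (Q f) ≤ L ^ 2 * ip f f := fun f hf h0 => by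
    obtain ⟨hg, hg1⟩ := hQ f hf h0
    have b1 := (he.mul (hf.Pt h2)).Pt h2
    have a1 : ip (Q f) (Q f) ≤ ip (Pt (3 * s / 2) (Q f)) (Pt (3 * s / 2) f) -
        c * ip (Pt (s / 2) (Q f)) (fun x => e x * Pt (s / 2) f x) := by
      rw [← ip_Pt_half h3 hg hf, ← ip_Pt h2 hg (he.mul (hf.Pt h2)), ← ip_const_mul_right,
        ← ip_sub_right (hf.Pt h3) (b1.const_mul c) hg]
      exact ip_mono hg hg hg ((hf.Pt h3).sub (b1.const_mul c)) fun x =>
        mul_le_mul_of_nonneg_left (hg1 x).2 (hg1 x).1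
    have a2 := (q_bound hs hc hc2 hκ hκ1 he he1 hk (hg.add (hf.const_mul L))).2
    have a3 := (q_bound hs hc hc2 hκ hκ1 he he1 hk (hg.add (hf.const_mul (-L)))).1
    unfold q at a2 a3
    rw [Pt_comb h4 hf hg, Pt_comb h2 hf hg, expand1 hf hg, expand1 (hf.Pt h4) (hg.Pt h4),
      expand he (hf.Pt h2) (hg.Pt h2), ← hL] at a2 a3
    refine le_of_mul_le_mul_left ?_ hL0
    nlinarith [mul_le_mul_of_nonneg_left a1 hL0.le]
  have key : ∀ n : ℕ, BP (Q^[n] fun _ => 1) ∧ (∀ x, 0 ≤ (Q^[n] fun _ => 1) x) ∧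
      ip (Q^[n] fun _ => 1) (Q^[n] fun _ => 1) ≤ (L ^ n) ^ 2 := by
    intro n
    induction n with
    | zero => exact ⟨BP.const 1, fun _ => zero_le_one, by simp [ip_one_one]⟩
    | succ n ih =>
      rw [Function.iterate_succ_apply']
      refine ⟨(hQ _ ih.1 ih.2.1).1, fun x => ((hQ _ ih.1 ih.2.1).2 x).1,
        (step _ ih.1 ih.2.1).trans ?_⟩
      rw [pow_succ L n, mul_pow, mul_comm]
      exact mul_le_mul_of_nonneg_right ih.2.2 (sq_nonneg _)
  exact avg_le (key n).1 (pow_nonneg hL0.le n) (key n).2.2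

end Pool.Agent.MP_dce92b_pr
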