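import Mathlib.GroupTheory.GroupAction.Defs
import Mathlib.Algebra.Ring.IsFormallyReal
import Mathlib.Analysis.Real.Pi.Bounds
import Mathlib.Dynamics.Ergodic.Action.Regular
import Mathlib.RingTheory.PiTensorProduct
import Mathlib.MeasureTheory.Function.Floor
import Mathlib.Order.CompletePartialOrder
import Pool.Agent.MP_dce92b_pr.Gauss

/-! BTOR module PER: periodic functions, the torus inner product and the torus form. -/

open MeasureTheory ProbabilityTheory Filter Topology Metric Real
open scoped NNReal ENNReal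

namespace Pool.Agent.MP_dce92b_pr

variable {s t : ℝ} {f g h : E3 → ℝ}

@[simp] theorem lat_apply (k : Fin 3 → ℤ) (i : Fin 3) : lat k i = (k i : ℝ) := rfl
theorem lat_zero : lat 0 = 0 := by ext i; simp
theorem lat_add (k l : Fin 3 → ℤ) : lat (k + l) = lat k + lat l := by ext i; simp
theorem lat_neg (k : Fin 3 → ℤ) : lat (-k) = -lat k := by ext i; simp
theorem lat_sub (k l : Fin 3 → ℤ) : lat (k - l) = lat k - lat l := by ext i; simp
theorem IsPer.sub_lat (hf : IsPer f) (x : E3) (k : Fin 3 → ℤ) : f (x - lat k) = f x := by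
  rw [sub_eq_add_neg, ← lat_neg, hf]

theorem measurable_red : Measurable red := by
  have h1 : Measurable fun y : ℝ => ((round y : ℤ) : ℝ) := by
    simp only [round_eq]
    exact Measurable.of_discrete.comp (Int.measurable_floor.comp (measurable_id.add_const _))
  have h2 : ∀ i : Fin 3, Measurable fun x : E3 => x i := fun i => by fun_prop
  refine measurable_id.sub ?_
  exact (WithLp.measurable_toLp 2 (Fin 3 → ℝ)).comp
    (measurable_pi_lambda _ fun i => h1.comp (h2 i))
theorem Per.red_apply (x : E3) (i : Fin 3) : red x i = x i - (round (x i) : ℝ) := rfl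

theorem red_mem (x : E3) : red x ∈ cubeAt 0 := by
  intro i
  have h1 := Int.floor_le (x i + 1 / 2)
  have h2 := Int.lt_floor_add_one (x i + 1 / 2)
  simp only [Per.red_apply, round_eq, PiLp.zero_apply, sub_zero, Set.mem_Ico]
  constructor <;> linarith
theorem red_add_lat (x : E3) (k : Fin 3 → ℤ) : red (x + lat k) = red x := by
  ext i
  simp [Per.red_apply, round_add_intCast]
theorem red_sub_lat (x : E3) (k : Fin 3 → ℤ) : red (x - lat k) = red x := by
  rw [sub_eq_add_neg, ← lat_neg, red_add_lat]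
theorem red_of_mem {x : E3} (hx : x ∈ cubeAt 0) : red x = x := by
  ext i
  have := hx i
  rw [PiLp.zero_apply, sub_zero, ← round_eq_zero_iff] at this
  simp [Per.red_apply, this]
theorem norm_red_le (x : E3) (k : Fin 3 → ℤ) : ‖red x‖ ≤ ‖x - lat k‖ := by
  rw [EuclideanSpace.norm_eq, EuclideanSpace.norm_eq]
  refine Real.sqrt_le_sqrt (Finset.sum_le_sum fun i _ => ?_)
  exact pow_le_pow_left₀ (norm_nonneg _) (round_le (x i) (k i)) 2
theorem norm_red_lip (x y : E3) : ‖red x‖ ≤ ‖red y‖ + ‖x - y‖ := by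
  refine (norm_red_le x fun i => round (y i)).trans ?_
  have : x - lat (fun i => round (y i)) = red y + (x - y) := by
    rw [red]; abel
  rw [this]
  exact norm_add_le _ _
theorem IsPer.red (hf : IsPer f) (x : E3) : f (red x) = f x := hf.sub_lat x _

namespace Per

/-- a half-open brick -/
def brick (a b : Fin 3 → ℝ) : Set E3 := {x | ∀ i, x i ∈ Set.Ico (a i) (b i)}

theorem brick_eq (a b : Fin 3 → ℝ) :
    brick a b = WithLp.ofLp ⁻¹' (Set.pi Set.univ fun i => Set.Ico (a i) (b i)) := by
  ext x; simp [brick]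

theorem measurableSet_brick (a b : Fin 3 → ℝ) : MeasurableSet (brick a b) := by
  rw [brick_eq]
  exact (WithLp.measurable_ofLp 2 (Fin 3 → ℝ)) (MeasurableSet.univ_pi fun i => measurableSet_Ico)

theorem volume_brick (a b : Fin 3 → ℝ) :
    volume (brick a b) = ∏ i, ENNReal.ofReal (b i - a i) := by
  rw [brick_eq, (PiLp.volume_preserving_ofLp (Fin 3)).measure_preimage
    (MeasurableSet.univ_pi fun i => measurableSet_Ico).nullMeasurableSet, Real.volume_pi_Ico]

theorem cube_eq : cube = brick (fun _ => 0) (fun _ => 0 + 1) := by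
  ext x; simp [cube, brick]

theorem cubeAt_eq (a : E3) :
    cubeAt a = brick (fun i => a i - 1 / 2) (fun i => a i - 1 / 2 + 1) := by
  ext x
  simp only [cubeAt, brick, Set.mem_ofPred_eq, Set.mem_Ico]
  refine forall_congr' fun i => ?_
  constructor <;> rintro ⟨h1, h2⟩ <;> constructor <;> linarith

theorem box_eq (b : ℝ) (j : Fin 3 → ℤ) :
    box b j = brick (fun i => b * j i) (fun i => b * (j i + 1)) := rfl

/-- the lattice as a subgroup -/
noncomputable def Lat : AddSubgroup E3 :=
  (AddMonoidHom.mk' lat lat_add : (Fin 3 → ℤ) →+ E3).range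

instance : Countable Lat := (Set.countable_range lat).to_subtype

theorem fund (c : Fin 3 → ℝ) :
    IsAddFundamentalDomain Lat (brick c fun i => c i + 1) (volume : Measure E3) := by
  refine IsAddFundamentalDomain.mk' (measurableSet_brick _ _).nullMeasurableSet fun x => ?_
  refine ⟨⟨lat fun i => -⌊x i - c i⌋, ⟨_, rfl⟩⟩, fun i => ?_, ?_⟩
  · have h1 := Int.floor_le (x i - c i)
    have h2 := Int.lt_floor_add_one (x i - c i)
    change ((-⌊x i - c i⌋ : ℤ) : ℝ) + x i ∈ _
    rw [Int.cast_neg, Set.mem_Ico]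
    constructor <;> linarith
  · rintro ⟨_, k, rfl⟩ hk
    refine Subtype.ext (congrArg lat (funext fun i => ?_))
    have h : ((k i : ℤ) : ℝ) + x i ∈ Set.Ico (c i) (c i + 1) := hk i
    have : ⌊x i - c i⌋ = -k i := by
      rw [Int.floor_eq_iff, Int.cast_neg]
      constructor <;> linarith [h.1, h.2]
    rw [this, neg_neg]

theorem integral_brick (hf : IsPer f) (c : Fin 3 → ℝ) :
    ∫ x in brick c fun i => c i + 1, f x = ∫ x in cube, f x := by
  rw [cube_eq]
  refine (fund c).setIntegral_eq (fund fun _ => 0) ?_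
  rintro ⟨_, k, rfl⟩ x
  change f (lat k + x) = f x
  rw [add_comm, hf]

end Per

theorem measurableSet_cube : MeasurableSet cube := by
  rw [Per.cube_eq]; exact Per.measurableSet_brick _ _
theorem measurableSet_cubeAt (a : E3) : MeasurableSet (cubeAt a) := by
  rw [Per.cubeAt_eq]; exact Per.measurableSet_brick _ _
theorem volume_cube : volume cube = 1 := by
  rw [Per.cube_eq, Per.volume_brick]; simp
theorem volume_cubeAt (a : E3) : volume (cubeAt a) = 1 := by
  rw [Per.cubeAt_eq, Per.volume_brick]; simp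
instance : IsProbabilityMeasure (volume.restrict cube) := ⟨by simp [volume_cube]⟩
instance (a : E3) : IsProbabilityMeasure (volume.restrict (cubeAt a)) := ⟨by simp [volume_cubeAt]⟩
theorem ball_subset_cubeAt (a : E3) : ball a (1 / 2) ⊆ cubeAt a := by
  intro x hx i
  have h1 : |(x - a) i| ≤ ‖x - a‖ := PiLp.norm_apply_le (x - a) i
  rw [mem_ball, dist_eq_norm] at hx
  have h2 := abs_lt.1 (h1.trans_lt hx)
  rw [PiLp.sub_apply] at h2
  exact ⟨h2.1.le, h2.2⟩
theorem norm_le_of_mem_cube {x y : E3} (hx : x ∈ cube) (hy : y ∈ cube) : ‖x - y‖ ^ 2 ≤ 3 := by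
  rw [EuclideanSpace.real_norm_sq_eq]
  have : ∀ i ∈ (Finset.univ : Finset (Fin 3)), (x - y) i ^ 2 ≤ 1 := fun i _ => by
    rw [PiLp.sub_apply]
    have h1 := hx i
    have h2 := hy i
    nlinarith [h1.1, h1.2, h2.1, h2.2]
  simpa using Finset.sum_le_sum this
theorem measurableSet_box (b : ℝ) (j : Fin 3 → ℤ) : MeasurableSet (box b j) :=
  Per.measurableSet_brick _ _
theorem volume_box {b : ℝ} (hb : 0 < b) (j : Fin 3 → ℤ) :
    volume (box b j) = ENNReal.ofReal (b ^ 3) := by
  rw [Per.box_eq, Per.volume_brick]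
  simp only [mul_add, mul_one, add_sub_cancel_left, Finset.prod_const, Finset.card_univ,
    Fintype.card_fin]
  rw [ENNReal.ofReal_pow hb.le]
theorem box_disjoint {b : ℝ} (hb : 0 < b) {i j : Fin 3 → ℤ} (hij : i ≠ j) :
    Disjoint (box b i) (box b j) := by
  refine Set.disjoint_left.2 fun x h1 h2 => hij (funext fun k => ?_)
  have a1 : (i k : ℝ) < j k + 1 := lt_of_mul_lt_mul_left ((h1 k).1.trans_lt (h2 k).2) hb.le
  have a2 : (j k : ℝ) < i k + 1 := lt_of_mul_lt_mul_left ((h2 k).1.trans_lt (h1 k).2) hb.le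
  have b1 : i k < j k + 1 := by exact_mod_cast a1
  have b2 : j k < i k + 1 := by exact_mod_cast a2
  omega
theorem mem_box_floor {b : ℝ} (hb : 0 < b) (x : E3) : x ∈ box b fun i => ⌊x i / b⌋ := by
  intro i
  have h1 := Int.floor_le (x i / b)
  have h2 := Int.lt_floor_add_one (x i / b)
  rw [le_div_iff₀ hb] at h1
  rw [div_lt_iff₀ hb] at h2
  constructor <;> linarith
theorem norm_sub_lt_of_mem_box {b : ℝ} (hb : 0 < b) {j : Fin 3 → ℤ} {x : E3} (hx : x ∈ box b j) :
    ‖x - b • lat j‖ < 2 * b := by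
  refine lt_of_pow_lt_pow_left₀ 2 (by positivity) ?_
  rw [EuclideanSpace.real_norm_sq_eq]
  have : ∀ i ∈ (Finset.univ : Finset (Fin 3)), (x - b • lat j) i ^ 2 ≤ b ^ 2 := fun i _ => by
    rw [PiLp.sub_apply, PiLp.smul_apply, lat_apply, smul_eq_mul]
    have h1 := hx i
    exact pow_le_pow_left₀ (by linarith [h1.1]) (by linarith [h1.2]) 2
  have h2 := Finset.sum_le_sum this
  simp only [Finset.sum_const, Finset.card_univ, Fintype.card_fin, nsmul_eq_mul] at h2
  push_cast at h2
  nlinarith [sq_pos_of_pos hb]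

theorem integral_cube_shift (hf : IsPer f) (z : E3) :
    ∫ x in cube, f (x + z) = ∫ x in cube, f x := by
  rw [← Per.integral_brick hf fun i => z i,
    ← (measurePreserving_add_right volume z).setIntegral_preimage_emb
      (measurableEmbedding_addRight z) f]
  congr 2
  ext x
  simp [cube, Per.brick, add_comm (z _) 1]
theorem integral_cubeAt (hf : IsPer f) (a : E3) : ∫ x in cubeAt a, f x = ∫ x in cube, f x := by
  rw [Per.cubeAt_eq, Per.integral_brick hf]
theorem integral_cubeAt_shift (hf : IsPer f) (a z : E3) :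
    ∫ x in cubeAt a, f (x + z) = ∫ x in cube, f x := by
  rw [integral_cubeAt (f := fun x => f (x + z))
      (fun x k => by simp only [add_right_comm x (lat k), hf _ k]),
    integral_cube_shift hf]
/-- unfolding of a function supported in the ball of radius one half -/
theorem integral_red (hf : IsPer f) (hh : ∀ x, 1 / 2 ≤ ‖x‖ → h x = 0) (a : E3) :
    ∫ x in cube, f x * h (red (x - a)) = ∫ x, f x * h (x - a) := by
  rw [← integral_cubeAt (f := fun x => f x * h (red (x - a)))
    (fun x k => by simp only [hf x k, add_sub_right_comm, red_add_lat]) a,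
    ← setIntegral_eq_integral_of_forall_compl_eq_zero (s := cubeAt a)
      (f := fun x => f x * h (x - a))]
  · refine setIntegral_congr_fun (measurableSet_cubeAt a) fun x hx => ?_
    rw [red_of_mem (x := x - a) (fun i => by simpa using hx i)]
  · intro x hx
    rw [hh _ (not_lt.1 fun k => hx (ball_subset_cubeAt a (by rwa [mem_ball, dist_eq_norm]))),
      mul_zero]
theorem Per.norm_red_le_one (x : E3) : ‖red x‖ ≤ 1 := by
  refine (sq_le_one_iff₀ (norm_nonneg _)).1 ?_
  rw [EuclideanSpace.real_norm_sq_eq]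
  have : ∀ i ∈ (Finset.univ : Finset (Fin 3)), red x i ^ 2 ≤ 1 / 4 := fun i _ => by
    have h1 := red_mem x i
    rw [PiLp.zero_apply, sub_zero] at h1
    nlinarith [h1.1, h1.2]
  have h2 := Finset.sum_le_sum this
  simp only [Finset.sum_const, Finset.card_univ, Fintype.card_fin, nsmul_eq_mul] at h2
  push_cast at h2
  linarith

/-- a continuous periodic function is bounded -/
theorem BP.of_cont (hf : Continuous f) (hp : IsPer f) : BP f := by
  obtain ⟨C, hC⟩ := (isCompact_closedBall (0 : E3) 1).exists_bound_of_continuousOn hf.continuousOn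
  refine ⟨⟨hf.measurable, C, fun x => ?_⟩, hp⟩
  rw [← hp.red x]
  exact hC _ (by simpa using Per.norm_red_le_one x)
/-- a continuous periodic function that is not zero has positive norm -/
theorem integral_sq_pos (hf : Continuous f) (hp : IsPer f) (h0 : f ≠ 0) :
    0 < ∫ x in cube, f x ^ 2 := by
  obtain ⟨a, ha⟩ := Function.ne_iff.1 h0
  have hb := (BP.of_cont hf hp).toBM.comp (Φ := fun y => y ^ 2) (by fun_prop)
  rw [← integral_cubeAt (f := fun x => f x ^ 2) (fun x k => by simp only [hp x k]) a,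
    setIntegral_pos_iff_support_of_nonneg_ae (Eventually.of_forall fun x => sq_nonneg _)
      (hb.integrableOn (by simp [volume_cubeAt]))]
  have ho : IsOpen (Function.support (fun x => f x ^ 2) ∩ ball a (1 / 2)) :=
    (hf.pow 2).isOpen_support.inter isOpen_ball
  refine (ho.measure_pos volume ⟨a, pow_ne_zero 2 ha, mem_ball_self (by norm_num)⟩).trans_le ?_
  exact measure_mono (Set.inter_subset_inter_right _ (ball_subset_cubeAt a))
theorem IsPer.fderiv_add (hf : IsPer f) (x : E3) (k : Fin 3 → ℤ) :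
    fderiv ℝ f (x + lat k) = fderiv ℝ f x := by
  rw [← fderiv_comp_add_right]
  congr 1
  exact funext fun y => hf y k

theorem BP.const (c : ℝ) : BP fun _ => c := ⟨BM.const c, fun _ _ => rfl⟩
theorem BP.add (hf : BP f) (hg : BP g) : BP fun x => f x + g x :=
  ⟨hf.toBM.add hg.toBM, fun x k => by simp only [hf.per x k, hg.per x k]⟩
theorem BP.sub (hf : BP f) (hg : BP g) : BP fun x => f x - g x :=
  ⟨hf.toBM.sub hg.toBM, fun x k => by simp only [hf.per x k, hg.per x k]⟩
theorem BP.mul (hf : BP f) (hg : BP g) : BP fun x => f x * g x :=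
  ⟨hf.toBM.mul hg.toBM, fun x k => by simp only [hf.per x k, hg.per x k]⟩
theorem BP.const_mul (hf : BP f) (c : ℝ) : BP fun x => c * f x :=
  ⟨hf.toBM.const_mul c, fun x k => by simp only [hf.per x k]⟩
theorem BP.comp (hf : BP f) {Φ : ℝ → ℝ} (hΦ : Continuous Φ) : BP fun x => Φ (f x) :=
  ⟨hf.toBM.comp hΦ, fun x k => by simp only [hf.per x k]⟩
theorem BP.shift (hf : BP f) (a : E3) : BP fun x => f (x + a) :=
  ⟨hf.toBM.shift a, fun x k => by simp only [add_right_comm x (lat k) a, hf.per _ k]⟩
theorem BP.Pt (hf : BP f) (ht : 0 < t) : BP (Pt t f) :=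
  ⟨hf.toBM.Pt ht, fun x k => by
    simp only [MP_dce92b_pr.Pt, add_right_comm x (lat k), hf.per _ k]⟩
theorem BM.red (hh : BM h) (a : E3) : BP fun x => h (red (x - a)) :=
  ⟨⟨hh.meas.comp (measurable_red.comp (measurable_id.sub_const a)),
    hh.bdd.imp fun _ hC _ => hC _⟩, fun x k => by simp only [add_sub_right_comm, red_add_lat]⟩
theorem BP.integrableOn (hf : BP f) : IntegrableOn f cube := hf.toBM.integrableOn (by simp [volume_cube])

theorem ip_comm (f g : E3 → ℝ) : ip f g = ip g f := by simp only [ip, mul_comm]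
theorem ip_self (f : E3 → ℝ) : ip f f = ∫ x in cube, f x ^ 2 := by simp only [ip, sq]
theorem ip_self_nonneg (f : E3 → ℝ) : 0 ≤ ip f f := integral_nonneg fun x => mul_self_nonneg (f x)
theorem ip_add_left (hf : BP f) (hg : BP g) (hh : BP h) :
    ip (fun x => f x + g x) h = ip f h + ip g h := by
  simp only [ip, add_mul]
  exact integral_add (hf.mul hh).integrableOn (hg.mul hh).integrableOn
theorem ip_sub_left (hf : BP f) (hg : BP g) (hh : BP h) :
    ip (fun x => f x - g x) h = ip f h - ip g h := by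
  simp only [ip, sub_mul]
  exact integral_sub (hf.mul hh).integrableOn (hg.mul hh).integrableOn
theorem ip_add_right (hf : BP f) (hg : BP g) (hh : BP h) :
    ip h (fun x => f x + g x) = ip h f + ip h g := by
  rw [ip_comm, ip_add_left hf hg hh, ip_comm f, ip_comm g]
theorem ip_sub_right (hf : BP f) (hg : BP g) (hh : BP h) :
    ip h (fun x => f x - g x) = ip h f - ip h g := by
  rw [ip_comm, ip_sub_left hf hg hh, ip_comm f, ip_comm g]
theorem ip_const_mul_left (c : ℝ) (f g : E3 → ℝ) : ip (fun x => c * f x) g = c * ip f g := by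
  simp only [ip, mul_assoc, integral_const_mul]
theorem ip_const_mul_right (c : ℝ) (f g : E3 → ℝ) : ip f (fun x => c * g x) = c * ip f g := by
  rw [ip_comm, ip_const_mul_left, ip_comm]
theorem ip_one_left (f : E3 → ℝ) : ip (fun _ => 1) f = avg f := by simp only [ip, avg, one_mul]
theorem ip_sq_le (hf : BP f) (hg : BP g) : ip f g ^ 2 ≤ ip f f * ip g g := by
  have key : ∀ y : ℝ, 0 ≤ ip g g * (y * y) + -(2 * ip f g) * y + ip f f := fun y => by
    have h1 := ip_self_nonneg fun x => f x - y * g x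
    rw [ip_sub_left hf (hg.const_mul y) (hf.sub (hg.const_mul y)),
      ip_sub_right hf (hg.const_mul y) hf, ip_sub_right hf (hg.const_mul y) (hg.const_mul y),
      ip_const_mul_left, ip_const_mul_left, ip_const_mul_right, ip_const_mul_right,
      ip_comm g f] at h1
    linarith
  have := discrim_le_zero key
  rw [discrim] at this
  linarith
theorem Per.avg_const (c : ℝ) : avg (fun _ => c) = c := by simp [avg]

theorem avg_sq_le (hf : BP f) : avg f ^ 2 ≤ ip f f := by
  have := ip_sq_le (BP.const 1) hf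
  rwa [ip_one_left, ip_one_left, Per.avg_const, one_mul] at this
theorem ip_sub_avg (hf : BP f) :
    ip (fun x => f x - avg f) (fun x => f x - avg f) = ip f f - avg f ^ 2 := by
  have h1 : ip (fun _ => avg f) f = avg f ^ 2 := by
    simp only [ip, integral_const_mul]; rw [sq, avg]
  have h2 : ip (fun _ => avg f) (fun _ => avg f) = avg f ^ 2 := by simp [ip, sq]
  rw [ip_sub_left hf (BP.const _) (hf.sub (BP.const _)), ip_sub_right hf (BP.const _) hf,
    ip_sub_right hf (BP.const _) (BP.const _), ip_comm f (fun _ => avg f), h1, h2]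
  ring
namespace Per

theorem integrable_prod (hf : BM f) (hg : BM g) (ν : Measure E3) [IsFiniteMeasure ν] :
    Integrable (Function.uncurry fun x z => f x * g (x + z)) ((volume.restrict cube).prod ν) := by
  obtain ⟨C, hC⟩ := hf.bdd
  obtain ⟨D, hD⟩ := hg.bdd
  refine Integrable.of_bound (Measurable.aestronglyMeasurable ?_) (C * D)
    (Eventually.of_forall fun p => ?_)
  · exact (hf.meas.comp measurable_fst).mul (hg.meas.comp (measurable_fst.add measurable_snd))
  · change |f p.1 * g (p.1 + p.2)| ≤ _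
    rw [abs_mul]
    exact mul_le_mul (hC _) (hD _) (abs_nonneg _) ((abs_nonneg _).trans (hC 0))

/-- the correlation function is bounded and measurable -/
theorem BM_corr (hf : BM f) (hg : BM g) : BM fun z => ∫ x in cube, f x * g (x + z) := by
  obtain ⟨C, hC⟩ := hf.bdd
  obtain ⟨D, hD⟩ := hg.bdd
  refine ⟨StronglyMeasurable.measurable ?_, C * D, fun z => ?_⟩
  · refine StronglyMeasurable.integral_prod_left (f := fun x z => f x * g (x + z)) ?_
    exact ((hf.meas.comp measurable_fst).mul
      (hg.meas.comp (measurable_fst.add measurable_snd))).stronglyMeasurable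
  · have := norm_integral_le_of_norm_le_const (μ := volume.restrict cube)
      (f := fun x => f x * g (x + z)) (C := C * D) (Eventually.of_forall fun x => by
        rw [Real.norm_eq_abs, abs_mul]
        exact mul_le_mul (hC _) (hD _) (abs_nonneg _) ((abs_nonneg _).trans (hC 0)))
    simpa using this

theorem swap (hf : BM f) (hg : BM g) (ν : Measure E3) [IsFiniteMeasure ν] :
    ∫ x in cube, f x * ∫ z, g (x + z) ∂ν = ∫ z, (∫ x in cube, f x * g (x + z)) ∂ν := by
  rw [← integral_integral_swap (integrable_prod hf hg ν)]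
  simp only [integral_const_mul]

theorem ip_Pt_eq (ht : 0 < t) (hf : BM f) (hg : BM g) :
    ip f (Pt t g) = ∫ z, (∫ x in cube, f x * g (x + z)) ∂gam t := by
  have := gam_prob ht
  exact swap hf hg _

theorem sq_expand (hf : BP f) (z : E3) :
    ∫ x in cube, (f (x + z) - f x) ^ 2 = 2 * ip f f - 2 * ∫ x in cube, f x * f (x + z) := by
  have h1 : ip (fun x => f (x + z)) (fun x => f (x + z)) = ip f f :=
    integral_cube_shift (hf.mul hf).per z
  rw [← ip_self, ip_sub_left (hf.shift z) hf ((hf.shift z).sub hf),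
    ip_sub_right (hf.shift z) hf (hf.shift z), ip_sub_right (hf.shift z) hf hf, h1,
    ip_comm (fun x => f (x + z)) f]
  simp only [ip]
  ring

theorem BM_sq (hf : BP f) : BM fun z => ∫ x in cube, (f (x + z) - f x) ^ 2 := by
  simp only [sq_expand hf]
  exact (BM.const _).sub ((BM_corr hf.toBM hf.toBM).const_mul 2)

end Per

theorem ip_Pt (ht : 0 < t) (hf : BP f) (hg : BP g) : ip f (Pt t g) = ip (Pt t f) g := by
  have := gam_prob ht
  rw [ip_comm (Pt t f), Per.ip_Pt_eq ht hf.toBM hg.toBM, Per.ip_Pt_eq ht hg.toBM hf.toBM]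
  have h1 : ∀ z, ∫ x in cube, f x * g (x + z) = ∫ x in cube, g x * f (x + -z) := fun z => by
    rw [← integral_cube_shift (hg.mul (hf.shift (-z))).per z]
    simp only [add_neg_cancel_right, mul_comm]
  simp only [h1]
  have h2 := integral_map (μ := gam t) (φ := fun z : E3 => -z) measurable_neg.aemeasurable
    (f := fun z => ∫ x in cube, g x * f (x + z))
    (Per.BM_corr hg.toBM hf.toBM).meas.aestronglyMeasurable
  rw [← h2, gam_map_neg ht]
theorem avg_Pt (ht : 0 < t) (hf : BP f) : avg (Pt t f) = avg f := by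
  rw [← ip_one_left, ip_Pt ht (BP.const 1) hf, ← ip_one_left]
  congr 1
  exact funext (Pt_const ht 1)
theorem ip_Pt_Pt_le (ht : 0 < t) (hf : BP f) : ip (Pt t f) (Pt t f) ≤ ip f f := by
  have h1 : BP fun y => f y ^ 2 := hf.comp (Φ := fun y => y ^ 2) (by fun_prop)
  have h2 : BP fun y => Pt t f y ^ 2 := (hf.Pt ht).comp (Φ := fun y => y ^ 2) (by fun_prop)
  rw [ip_self, ip_self]
  refine (integral_mono h2.integrableOn (h1.Pt ht).integrableOn
    fun x => sq_Pt_le ht hf.toBM x).trans_eq ?_
  exact avg_Pt ht h1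
theorem ip_Pt_half (ht : 0 < t) (hf : BP f) (hg : BP g) :
    ip f (Pt t g) = ip (Pt (t / 2) f) (Pt (t / 2) g) := by
  have h2 := half_pos ht
  rw [← ip_Pt h2 hf (hg.Pt h2), Pt_Pt h2 h2 hg.toBM, add_halves]

theorem ET_eq (ht : 0 < t) (hf : BP f) :
    ET t f = 1 / 2 * ∫ z, (∫ x in cube, (f (x + z) - f x) ^ 2) ∂gam t := by
  have := gam_prob ht
  simp only [Per.sq_expand hf]
  rw [integral_sub (integrable_const _)
    (((Per.BM_corr hf.toBM hf.toBM).const_mul 2).integrable _), integral_const_mul,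
    integral_const_mul, ET, Per.ip_Pt_eq ht hf.toBM hf.toBM]
  simp only [integral_const, probReal_univ, smul_eq_mul, one_mul]
  ring
theorem ET_nonneg (ht : 0 < t) (hf : BP f) : 0 ≤ ET t f := by
  rw [ET_eq ht hf]
  exact mul_nonneg (by norm_num) (integral_nonneg fun z => integral_nonneg fun x => sq_nonneg _)
theorem ET_le_ip (ht : 0 < t) (hf : BP f) : ET t f ≤ ip f f := by
  rw [ET, ip_Pt_half ht hf hf]
  linarith [ip_self_nonneg (Pt (t / 2) f)]
theorem ET_const_mul (c : ℝ) (f : E3 → ℝ) : ET t (fun x => c * f x) = c ^ 2 * ET t f := by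
  rw [ET, ET, funext (Pt_const_mul c f), ip_const_mul_left, ip_const_mul_left, ip_const_mul_right,
    ip_const_mul_right]
  ring
theorem ET_le_of_contr (ht : 0 < t) (hf : BP f) (hg : BP g) {L : ℝ}
    (hc : ∀ x y, |g x - g y| ≤ L * |f x - f y|) : ET t g ≤ L ^ 2 * ET t f := by
  have := gam_prob ht
  rw [ET_eq ht hf, ET_eq ht hg, mul_left_comm, ← integral_const_mul (L ^ 2)]
  refine mul_le_mul_of_nonneg_left (integral_mono ((Per.BM_sq hg).integrable _)
    (((Per.BM_sq hf).const_mul _).integrable _) fun z => ?_) (by norm_num)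
  simp only
  rw [← integral_const_mul]
  refine integral_mono
    (((hg.shift z).sub hg).comp (Φ := fun y => y ^ 2) (by fun_prop)).integrableOn
    ((((hf.shift z).sub hf).comp (Φ := fun y => y ^ 2) (by fun_prop)).const_mul _).integrableOn
    fun x => ?_
  have h1 := pow_le_pow_left₀ (abs_nonneg _) (hc (x + z) x) 2
  rwa [mul_pow, sq_abs, sq_abs] at h1
theorem ET_Pt_le (ht : 0 < t) (hs : 0 < s) (hf : BP f) : ET t (Pt s f) ≤ ET t f := by
  have := gam_prob ht
  rw [ET_eq ht hf, ET_eq ht (hf.Pt hs)]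
  refine mul_le_mul_of_nonneg_left (integral_mono ((Per.BM_sq (hf.Pt hs)).integrable _)
    ((Per.BM_sq hf).integrable _) fun z => ?_) (by norm_num)
  have h1 := ip_Pt_Pt_le hs ((hf.shift z).sub hf)
  rw [ip_self, ip_self] at h1
  simp only [Pt_sub hs (hf.shift z).toBM hf.toBM, Pt_shift] at h1
  exact h1
theorem ET_add (hs : 0 < s) (ht : 0 < t) (hf : BP f) :
    ET (s + t) f = ET s f + ET t (Pt (s / 2) f) := by
  have h2 := half_pos hs
  rw [ET, ET, ET, ip_Pt_half hs hf hf, ← ip_Pt h2 hf ((hf.Pt h2).Pt ht), Pt_Pt ht h2 hf.toBM,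
    Pt_Pt h2 (add_pos ht h2) hf.toBM, show s / 2 + (t + s / 2) = s + t by ring]
  ring
theorem ET_mono (hs : 0 < s) (hst : s ≤ t) (hf : BP f) : ET s f ≤ ET t f := by
  rcases hst.eq_or_lt with rfl | h
  · exact le_rfl
  · have h1 := ET_add hs (sub_pos.2 h) hf
    rw [add_sub_cancel] at h1
    linarith [ET_nonneg (sub_pos.2 h) (hf.Pt (half_pos hs))]
theorem ET_nat (ht : 0 < t) (hf : BP f) (j : ℕ) : ET ((j + 1 : ℕ) * t) f ≤ (j + 1 : ℕ) * ET t f := by
  induction j with
  | zero => simp
  | succ j ih =>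
    have h1 : (0 : ℝ) < (j + 1 : ℕ) * t := by positivity
    have h2 := ET_add h1 ht hf
    have h3 := ET_Pt_le ht (half_pos h1) hf
    have e : ((j + 1 + 1 : ℕ) : ℝ) = (j + 1 : ℕ) + 1 := by push_cast; ring
    rw [e, add_mul, one_mul, add_mul, one_mul]
    linarith
theorem ET_dual (ht : 0 < t) (hf : BP f) (hh : BP h) :
    2 * (ip f h - ip f (Pt t h)) - ET t h ≤ ET t f := by
  have h1 := ET_nonneg ht (hf.sub hh)
  rw [ET, funext (Pt_sub ht hf.toBM hh.toBM), ip_sub_left hf hh (hf.sub hh),
    ip_sub_left hf hh ((hf.Pt ht).sub (hh.Pt ht)), ip_sub_right hf hh hf, ip_sub_right hf hh hh,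
    ip_sub_right (hf.Pt ht) (hh.Pt ht) hf, ip_sub_right (hf.Pt ht) (hh.Pt ht) hh,
    ip_comm h f, ip_comm h (Pt t f), ← ip_Pt ht hf hh] at h1
  rw [ET, ET]
  linarith
/-- the torus form against a periodized function supported in the ball of radius one half -/
theorem ip_red_sub (ht : 0 < t) (hf : BP f) (hh : BM h) (h0 : ∀ x, 1 / 2 ≤ ‖x‖ → h x = 0)
    (a : E3) :
    ip f (fun x => h (red (x - a))) - ip f (Pt t fun x => h (red (x - a))) =
      ∫ x, f x * (h (x - a) - Pt t h (x - a)) := by
  have hc : BC h := ⟨hh, 1 / 2, fun x hx => h0 x hx.le⟩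
  have hc' := hc.shift_sub a
  obtain ⟨C, hC⟩ := hf.bdd
  rw [ip_Pt ht hf (hh.red a), ip, ip, integral_red hf.per h0, integral_red (hf.Pt ht).per h0,
    ← Pt_symm ht hf.toBM hc', ← integral_sub (hc'.mul_left hf.toBM).integrable
      ((integrable_Pt ht hc').bdd_mul hf.meas.aestronglyMeasurable
        (Eventually.of_forall hC))]
  simp only [Pt_shift_sub, mul_sub]
theorem Per.ET_le (ht : 0 < t) {T : ℝ} (htT : t ≤ T) (hf : BP f) :
    t * ET T f ≤ 2 * T * ET t f := by
  have hT := ht.trans_le htT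
  have h1 := Nat.lt_floor_add_one (T / t)
  have h2 := Nat.floor_le (div_pos hT ht).le
  rw [div_lt_iff₀ ht] at h1
  rw [le_div_iff₀ ht] at h2
  have h3 := ET_nat ht hf ⌊T / t⌋₊
  have h4 := ET_mono hT (t := ((⌊T / t⌋₊ + 1 : ℕ) : ℝ) * t) (by push_cast; exact h1.le) hf
  have h5 : t * ((⌊T / t⌋₊ + 1 : ℕ) : ℝ) ≤ 2 * T := by push_cast; linarith
  calc t * ET T f ≤ t * (((⌊T / t⌋₊ + 1 : ℕ) : ℝ) * ET t f) :=
        mul_le_mul_of_nonneg_left (h4.trans h3) ht.le
    _ ≤ 2 * T * ET t f := by
        rw [← mul_assoc]; exact mul_le_mul_of_nonneg_right h5 (ET_nonneg ht hf)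

/-- spectral gap -/
theorem ET_gap : ∃ c : ℝ, 0 < c ∧ ∀ t : ℝ, 0 < t → t ≤ 1 → ∀ f : E3 → ℝ, BP f →
    c * t * (ip f f - avg f ^ 2) ≤ ET t f := by
  obtain ⟨y, hy⟩ := exists_norm_eq E3 (show (0 : ℝ) ≤ 2 by norm_num)
  have hc := pk_pos one_pos y
  refine ⟨pk 1 y / 2, half_pos hc, fun t ht ht1 f hf => ?_⟩
  have h1 : pk 1 y * (ip f f - avg f ^ 2) ≤ ET 1 f := by
    have hG := Per.BM_sq hf
    have := gam_prob one_pos
    have a1 : ∫ z in cube, (∫ x in cube, (f (x + z) - f x) ^ 2) = 2 * (ip f f - avg f ^ 2) := by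
      simp only [Per.sq_expand hf]
      rw [integral_sub (integrable_const _)
        (((Per.BM_corr hf.toBM hf.toBM).const_mul 2).integrable _), integral_const_mul,
        integral_const_mul, ← Per.swap hf.toBM hf.toBM]
      have : ∀ x, ∫ z in cube, f (x + z) = avg f := fun x => by
        simp only [add_comm x]; exact integral_cube_shift hf.per x
      simp only [this, integral_mul_const, integral_const, probReal_univ, smul_eq_mul, one_mul]
      rw [← avg]
      ring
    have a2 := (integrable_gam_iff one_pos _).1 (hG.integrable (gam 1))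
    have a3 : ∫ z in cube, pk 1 y * (∫ x in cube, (f (x + z) - f x) ^ 2) ≤
        ∫ z in cube, pk 1 z * (∫ x in cube, (f (x + z) - f x) ^ 2) := by
      refine setIntegral_mono_on ((hG.const_mul _).integrable _) a2.integrableOn
        measurableSet_cube fun z hz => ?_
      refine mul_le_mul_of_nonneg_right (pk_anti one_pos ?_) (integral_nonneg fun x => sq_nonneg _)
      have := norm_le_of_mem_cube hz (y := 0) (fun i => by simp)
      rw [sub_zero] at this
      rw [hy]
      nlinarith [norm_nonneg z]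
    have a4 := setIntegral_le_integral (s := cube) a2 (Eventually.of_forall fun z =>
      mul_nonneg (pk_pos one_pos z).le (integral_nonneg fun x => sq_nonneg _))
    rw [integral_const_mul, a1] at a3
    rw [ET_eq one_pos hf, integral_gam one_pos]
    linarith
  have h2 := Per.ET_le ht ht1 hf
  have h3 := mul_le_mul_of_nonneg_left h1 ht.le
  linarith
theorem Per.Pt_small {T : ℝ} (hT0 : 0 < T) (hT : T ≤ 1 / 1000) {e : E3 → ℝ} (he : BP e)
    (h0 : ∀ x, 0 ≤ e x) (h1 : ∀ x, e x ≤ 1) (hv : avg e ≤ T * √T) (x : E3) :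
    Pt T e x ≤ 1 / 2 := by
  have := gam_prob hT0
  have hm := measurableSet_cubeAt (0 : E3)
  have hi := (he.toBM.shift x).integrable (gam T)
  have a1 : Pt T e x = (∫ z in cubeAt 0, e (z + x) ∂gam T) +
      ∫ z in (cubeAt 0)ᶜ, e (z + x) ∂gam T := by
    rw [integral_add_compl hm hi]; simp only [Pt, add_comm]
  have a2 : ∫ z in (cubeAt 0)ᶜ, e (z + x) ∂gam T ≤ 24 * T := by
    refine (setIntegral_mono hi.integrableOn (integrable_const (1 : ℝ)).integrableOn
      fun z => h1 _).trans ?_
    rw [setIntegral_const, smul_eq_mul, mul_one]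
    refine (measureReal_mono (s₂ := {z | 1 / 2 ≤ ‖z‖}) fun z hz => ?_).trans
      ((tail_sq hT0 (by norm_num)).trans_eq (by ring))
    exact not_lt.1 fun k => hz (ball_subset_cubeAt 0 (mem_ball_zero_iff.2 k))
  have a3 : ∫ z in cubeAt 0, e (z + x) ∂gam T ≤ (4 * π * T) ^ (-(3 : ℝ) / 2) * avg e := by
    rw [← integral_indicator hm, integral_gam hT0, avg, ← integral_cubeAt_shift he.per 0 x,
      ← integral_const_mul, ← integral_indicator hm]
    refine integral_mono ((integrable_gam_iff hT0 _).1 (hi.indicator hm))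
      ((integrable_indicator_iff hm).2
        (((he.toBM.shift x).const_mul _).integrableOn (by simp [volume_cubeAt]))) fun z => ?_
    by_cases hz : z ∈ cubeAt 0
    · simp only [Set.indicator_of_mem hz]
      exact mul_le_mul_of_nonneg_right (pk_le hT0 z) (h0 _)
    · simp [Set.indicator_of_notMem hz]
  have hp : T ≤ 4 * π * T := by nlinarith [pi_gt_three]
  have a4 : (4 * π * T) ^ (-(3 : ℝ) / 2) * (T * √T) ≤ 1 / 4 := by
    have hq : 0 < 4 * π * T := by positivity
    rw [neg_div, rpow_neg hq.le, show (3 : ℝ) / 2 = 1 + 1 / 2 by norm_num, rpow_add hq, rpow_one,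
      ← sqrt_eq_rpow, inv_mul_le_iff₀ (by positivity)]
    have b1 := sqrt_le_sqrt hp
    have b2 : T ≤ π * T := by nlinarith [pi_gt_three]
    have := mul_le_mul b2 b1 (sqrt_nonneg _) (by positivity)
    linarith
  have a5 := mul_le_mul_of_nonneg_left hv
    (rpow_nonneg (show 0 ≤ 4 * π * T by positivity) (-(3 : ℝ) / 2))
  linarith

/-- crude Faber-Krahn inequality on the torus -/
theorem ET_small (ht : 0 < t) {T : ℝ} (htT : t ≤ T) (hT : T ≤ 1 / 1000) (hf : BP f)
    (h0 : ∀ x, 0 ≤ f x) (hv : volume (cube ∩ {x | f x ≠ 0}) ≤ ENNReal.ofReal (T * √T)) :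
    t * ip f f ≤ 4 * T * ET t f := by
  have _ := h0
  have hT0 := ht.trans_le htT
  have := gam_prob hT0
  set S : Set E3 := {x | f x ≠ 0} with hS
  have hSm : MeasurableSet S := (hf.meas (measurableSet_singleton 0)).compl
  set e : E3 → ℝ := S.indicator 1 with he
  have he0 : ∀ x, 0 ≤ e x := fun x => Set.indicator_nonneg (fun _ _ => zero_le_one) x
  have he1 : ∀ x, e x ≤ 1 := fun x => Set.indicator_le_self' (fun _ _ => zero_le_one) x
  have heP : BP e := ⟨⟨measurable_one.indicator hSm, 1, fun x => abs_le.2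
    ⟨by linarith [he0 x], he1 x⟩⟩, fun x k => by simp only [he, hS, Set.indicator,
      Set.mem_ofPred_eq, hf.per x k, Pi.one_apply]⟩
  have h2 : BP fun y => f y ^ 2 := hf.comp (Φ := fun y => y ^ 2) (by fun_prop)
  have b1 : ∀ x, Pt T e x ≤ 1 / 2 := Per.Pt_small hT0 hT heP he0 he1 (by
    rw [avg, he, integral_indicator_one hSm, measureReal_restrict_apply hSm, Set.inter_comm]
    exact ENNReal.toReal_le_of_le_ofReal (by positivity) hv)
  have b2 : 2 * ip f (Pt T f) ≤
      ip (fun y => f y ^ 2) (Pt T e) + ip e (Pt T fun y => f y ^ 2) := by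
    rw [Per.ip_Pt_eq hT0 hf.toBM hf.toBM, Per.ip_Pt_eq hT0 h2.toBM heP.toBM,
      Per.ip_Pt_eq hT0 heP.toBM h2.toBM, ← integral_add
        ((Per.BM_corr h2.toBM heP.toBM).integrable _) ((Per.BM_corr heP.toBM h2.toBM).integrable _),
      ← integral_const_mul]
    refine integral_mono (((Per.BM_corr hf.toBM hf.toBM).const_mul 2).integrable _)
      (((Per.BM_corr h2.toBM heP.toBM).add (Per.BM_corr heP.toBM h2.toBM)).integrable _)
      fun z => ?_
    simp only
    rw [← integral_add (h2.mul (heP.shift z)).integrableOn (heP.mul (h2.shift z)).integrableOn,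
      ← integral_const_mul]
    refine integral_mono ((hf.mul (hf.shift z)).const_mul 2).integrableOn
      ((h2.mul (heP.shift z)).add (heP.mul (h2.shift z))).integrableOn fun x => ?_
    simp only
    by_cases k1 : f x = 0
    · have := mul_nonneg (he0 x) (sq_nonneg (f (x + z)))
      rw [k1]; linarith
    by_cases k2 : f (x + z) = 0
    · have := mul_nonneg (sq_nonneg (f x)) (he0 (x + z))
      rw [k2]; linarith
    have e1 : e x = 1 := Set.indicator_of_mem (s := S) k1 _
    have e2 : e (x + z) = 1 := Set.indicator_of_mem (s := S) k2 _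
    rw [e1, e2]
    nlinarith [sq_nonneg (f x - f (x + z))]
  have b3 : ip (fun y => f y ^ 2) (Pt T e) ≤ 1 / 2 * ip f f := by
    rw [ip_self, ← integral_const_mul]
    refine integral_mono (h2.mul (heP.Pt hT0)).integrableOn (h2.const_mul _).integrableOn
      fun x => ?_
    have := mul_le_mul_of_nonneg_left (b1 x) (sq_nonneg (f x))
    simp only
    linarith
  rw [ip_Pt hT0 heP h2, ip_comm (Pt T e)] at b2
  have b4 : ip f f ≤ 2 * ET T f := by rw [ET]; linarith
  have b5 := Per.ET_le ht htT hf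
  have b6 := mul_le_mul_of_nonneg_left b4 ht.le
  linarith

end Pool.Agent.MP_dce92b_pr
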