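import Mathlib.Analysis.Calculus.BumpFunction.FiniteDimension
import Mathlib.Data.Pi.Interval
import Pool.Agent.MP_dce92b_pr.Spec
import Pool.Agent.MP_dce92b_pr.Per
import Pool.Agent.MP_dce92b_pr.Gauss

-- ======== part 0: formerly Pool.Agent.MP_dce92b_pr.DetA
section MrgPart0

/-! BTOR module DET, part A: localization of a periodic function by averaged cut-offs. -/

open MeasureTheory Filter Topology Metric Real
open scoped NNReal ENNReal

namespace Pool.Agent.MP_dce92b_pr.Det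

/-- averaging a translated weight against a periodic function -/
theorem avg_shift {w F : E3 → ℝ} (hw : Integrable w) (hF : BP F) :
    IntegrableOn (fun a => ∫ x, w (x - a) * F x) cube ∧
      ∫ a in cube, ∫ x, w (x - a) * F x = (∫ x, w x) * ∫ x in cube, F x := by
  have e : ∀ a : E3, ∫ x, w (x - a) * F x = ∫ y, w y * F (a + y) := by
    intro a
    rw [← integral_add_left_eq_self (fun x => w (x - a) * F x) a]
    simp only [add_sub_cancel_left]
  obtain ⟨C, hC⟩ := hF.bdd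
  have hI : Integrable (Function.uncurry fun (a y : E3) => w y * F (a + y))
      ((volume.restrict cube).prod volume) := by
    refine Integrable.mul_bdd (c := C) (hw.comp_snd _) ?_ (Eventually.of_forall fun p => ?_)
    · exact (hF.meas.comp (measurable_fst.add measurable_snd)).aestronglyMeasurable
    · simpa using hC _
  simp only [e]
  refine ⟨hI.integral_prod_left, ?_⟩
  rw [integral_integral_swap hI]
  have : ∀ y : E3, ∫ a in cube, w y * F (a + y) = w y * ∫ x in cube, F x := by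
    intro y
    rw [integral_const_mul, integral_cube_shift hF.per]
  simp only [this]
  rw [integral_mul_const]

theorem compact_of_zero {g : E3 → ℝ} {a : E3} {R : ℝ} (h : ∀ x, R ≤ ‖x - a‖ → g x = 0) :
    HasCompactSupport g := by
  refine HasCompactSupport.intro (isCompact_closedBall a R) fun x hx => h x ?_
  simp only [mem_closedBall, dist_eq_norm, not_le] at hx
  exact hx.le

theorem integrable_sq {g : E3 → ℝ} (hg : Continuous g) (hc : HasCompactSupport g) :
    Integrable fun x => g x ^ 2 := by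
  refine Continuous.integrable_of_hasCompactSupport (hg.pow 2) ?_
  exact hc.comp_left (g := fun y : ℝ => y ^ 2) (by simp)

theorem integrable_grad {g : E3 → ℝ} (hg : ContDiff ℝ 1 g) (hc : HasCompactSupport g) :
    Integrable fun x => ‖fderiv ℝ g x‖ ^ 2 := by
  refine Continuous.integrable_of_hasCompactSupport
    ((hg.continuous_fderiv one_ne_zero).norm.pow 2) ?_
  exact (hc.fderiv ℝ).comp_left (g := fun y : E3 →L[ℝ] ℝ => ‖y‖ ^ 2) (by simp)

/-- cut-off functions at scale R -/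
theorem cutoff : ∃ C : ℝ, 0 < C ∧ ∀ R : ℝ, 0 < R → ∃ χ : E3 → ℝ, ContDiff ℝ 1 χ ∧
    (∀ x, 2 * R ≤ ‖x‖ → χ x = 0) ∧ 0 < ∫ x, χ x ^ 2 ∧
    ∫ x, ‖fderiv ℝ χ x‖ ^ 2 ≤ C / R ^ 2 * ∫ x, χ x ^ 2 := by
  let φ : ContDiffBump (0 : E3) := ⟨1, 2, one_pos, one_lt_two⟩
  have hφ : ContDiff ℝ 1 φ := φ.contDiff
  have h0 : 0 < ∫ x, φ x ^ 2 := by
    refine Continuous.integral_pos_of_hasCompactSupport_nonneg_nonzero (x := 0)
      (φ.continuous.pow 2) ?_ (fun x => sq_nonneg _) ?_
    · exact φ.hasCompactSupport.comp_left (g := fun y : ℝ => y ^ 2) (by simp)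
    · rw [φ.one_of_mem_closedBall (mem_closedBall_self φ.rIn_pos.le)]; norm_num
  set c0 := ∫ x, φ x ^ 2
  set c1 := ∫ x, ‖fderiv ℝ φ x‖ ^ 2 with hc1
  have h1 : 0 ≤ c1 := integral_nonneg fun x => sq_nonneg _
  refine ⟨c1 / c0 + 1, by positivity, fun R hR => ⟨fun x => φ (R⁻¹ • x), ?_, ?_, ?_, ?_⟩⟩
  · exact hφ.comp (contDiff_const_smul _)
  · intro x hx
    refine φ.zero_of_le_dist ?_
    rw [dist_zero_right, norm_smul, norm_inv, Real.norm_of_nonneg hR.le]
    change (2 : ℝ) ≤ _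
    rw [inv_mul_eq_div, le_div_iff₀ hR]
    exact hx
  · rw [Measure.integral_comp_inv_smul_of_nonneg volume (fun x => φ x ^ 2) hR.le]
    simp only [smul_eq_mul]
    positivity
  · have e : ∀ x : E3, ‖fderiv ℝ (fun x => φ (R⁻¹ • x)) x‖ ^ 2 =
        R⁻¹ ^ 2 * ‖fderiv ℝ φ (R⁻¹ • x)‖ ^ 2 := by
      intro x
      rw [fderiv_comp_smul, norm_smul, norm_inv, Real.norm_of_nonneg hR.le, mul_pow]
    simp only [e]
    rw [integral_const_mul,
      Measure.integral_comp_inv_smul_of_nonneg volume (fun x => φ x ^ 2) hR.le,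
      Measure.integral_comp_inv_smul_of_nonneg volume (fun x => ‖fderiv ℝ φ x‖ ^ 2) hR.le]
    simp only [smul_eq_mul]
    set P := R ^ Module.finrank ℝ E3
    have hP : 0 < P := by positivity
    change R⁻¹ ^ 2 * (P * c1) ≤ (c1 / c0 + 1) / R ^ 2 * (P * c0)
    have : (c1 / c0 + 1) / R ^ 2 * (P * c0) = R⁻¹ ^ 2 * (P * c1) + R⁻¹ ^ 2 * (P * c0) := by
      field_simp
    rw [this]
    have : 0 ≤ R⁻¹ ^ 2 * (P * c0) := by positivity
    linarith

theorem grad_mul_le {χ f : E3 → ℝ} (hχ : ContDiff ℝ 1 χ) (hf : ContDiff ℝ 1 f) (a x : E3)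
    {d : ℝ} (hd : 0 < d) :
    ‖fderiv ℝ (fun x => χ (x - a) * f x) x‖ ^ 2 ≤
      χ (x - a) ^ 2 * ((1 + d) * ‖fderiv ℝ f x‖ ^ 2) +
        ‖fderiv ℝ χ (x - a)‖ ^ 2 * ((1 + 1 / d) * f x ^ 2) := by
  have h1 : HasFDerivAt (fun x => χ (x - a)) (fderiv ℝ χ (x - a)) x :=
    (hasFDerivAt_comp_sub a).2 (hχ.differentiable one_ne_zero _).hasFDerivAt
  have h2 : HasFDerivAt f (fderiv ℝ f x) x := (hf.differentiable one_ne_zero _).hasFDerivAt
  have h3 := (h1.mul h2).fderiv
  have h4 : ‖fderiv ℝ (fun x => χ (x - a) * f x) x‖ ≤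
      |χ (x - a)| * ‖fderiv ℝ f x‖ + |f x| * ‖fderiv ℝ χ (x - a)‖ := by
    have : (fun x => χ (x - a) * f x) = (fun x => χ (x - a)) * f := rfl
    rw [this, h3]
    refine (norm_add_le _ _).trans ?_
    rw [norm_smul, norm_smul, Real.norm_eq_abs, Real.norm_eq_abs]
  set p := |χ (x - a)| * ‖fderiv ℝ f x‖ with hp
  set q := |f x| * ‖fderiv ℝ χ (x - a)‖ with hq
  have e1 : χ (x - a) ^ 2 * ((1 + d) * ‖fderiv ℝ f x‖ ^ 2) = (1 + d) * p ^ 2 := by
    rw [hp, mul_pow, sq_abs]; ring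
  have e2 : ‖fderiv ℝ χ (x - a)‖ ^ 2 * ((1 + 1 / d) * f x ^ 2) = (1 + 1 / d) * q ^ 2 := by
    rw [hq, mul_pow, sq_abs]; ring
  rw [e1, e2]
  refine (pow_le_pow_left₀ (norm_nonneg _) h4 2).trans ?_
  have : (1 + d) * p ^ 2 + (1 + 1 / d) * q ^ 2 - (p + q) ^ 2 = (d * p - q) ^ 2 / d := by
    field_simp; ring
  have h5 : 0 ≤ (d * p - q) ^ 2 / d := by positivity
  linarith

/-- a periodic function with small Rayleigh quotient has a compactly supported piece with
small Rayleigh quotient -/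
theorem localize {ε : ℝ} (hε : 0 < ε) : ∃ L : ℝ, 0 < L ∧ ∀ ρ : ℝ, 0 < ρ →
    ∀ f : E3 → ℝ, ContDiff ℝ 1 f → IsPer f →
      ∫ x in cube, ‖fderiv ℝ f x‖ ^ 2 < (1 - ε) * π ^ 2 / ρ ^ 2 * ∫ x in cube, f x ^ 2 →
      ∃ a ∈ cube, ∃ g : E3 → ℝ, ContDiff ℝ 1 g ∧ (∀ x, 2 * (L * ρ) ≤ ‖x - a‖ → g x = 0) ∧
        (∀ x, f x = 0 → g x = 0) ∧
        ∫ x, ‖fderiv ℝ g x‖ ^ 2 < (1 - ε / 2) * π ^ 2 / ρ ^ 2 * ∫ x, g x ^ 2 := by
  obtain ⟨C, hC, hcut⟩ := cutoff
  set d := ε / 4 with hd
  have hd0 : 0 < d := by positivity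
  set L := √((1 + 1 / d) * C / (d * π ^ 2)) with hL
  have hL0 : 0 < L := Real.sqrt_pos.2 (by positivity)
  have hL2 : L ^ 2 = (1 + 1 / d) * C / (d * π ^ 2) := Real.sq_sqrt (by positivity)
  refine ⟨L, hL0, fun ρ hρ f hf hp hlt => ?_⟩
  obtain ⟨χ, hχ, hχ0, hX, hY⟩ := hcut (L * ρ) (by positivity)
  have hχc : HasCompactSupport χ :=
    compact_of_zero (a := 0) (R := 2 * (L * ρ)) (by simpa using hχ0)
  set lam := (1 - ε / 2) * π ^ 2 / ρ ^ 2 with hlam
  have cf : Continuous f := hf.continuous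
  have cD : Continuous (fderiv ℝ f) := hf.continuous_fderiv one_ne_zero
  have bN : BP fun x => ‖fderiv ℝ f x‖ ^ 2 :=
    BP.of_cont (cD.norm.pow 2) fun x k => by simp only [hp.fderiv_add]
  have bD : BP fun x => f x ^ 2 := BP.of_cont (cf.pow 2) fun x k => by simp only [hp x k]
  have i1 := integrable_sq hχ.continuous hχc
  have i2 := integrable_grad hχ hχc
  obtain ⟨I1, E1⟩ := avg_shift i1 (bN.const_mul (1 + d))
  obtain ⟨I2, E2⟩ := avg_shift i2 (bD.const_mul (1 + 1 / d))
  obtain ⟨I0, E0⟩ := avg_shift i1 (bD.const_mul lam)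
  rw [integral_const_mul] at E1 E2 E0
  set X := ∫ x, χ x ^ 2
  set Y := ∫ x, ‖fderiv ℝ χ x‖ ^ 2
  set N := ∫ x in cube, ‖fderiv ℝ f x‖ ^ 2
  set D := ∫ x in cube, f x ^ 2
  have hD : 0 ≤ D := integral_nonneg fun x => sq_nonneg _
  have key : X * ((1 + d) * N) + Y * ((1 + 1 / d) * D) < X * (lam * D) := by
    have a1 : X * ((1 + d) * N) < X * ((1 + d) * ((1 - ε) * π ^ 2 / ρ ^ 2 * D)) := by gcongr
    have a2 : Y * ((1 + 1 / d) * D) ≤ C / (L * ρ) ^ 2 * X * ((1 + 1 / d) * D) := by gcongr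
    have a3 : C / (L * ρ) ^ 2 * X * ((1 + 1 / d) * D) = X * (d * π ^ 2 / ρ ^ 2 * D) := by
      rw [mul_pow, hL2]; field_simp
    have a4 : (1 + d) * (1 - ε) + d ≤ 1 - ε / 2 := by rw [hd]; nlinarith
    have a5 : X * ((1 + d) * ((1 - ε) * π ^ 2 / ρ ^ 2 * D)) + X * (d * π ^ 2 / ρ ^ 2 * D) =
        ((1 + d) * (1 - ε) + d) * (X * (π ^ 2 / ρ ^ 2 * D)) := by ring
    have a6 : X * (lam * D) = (1 - ε / 2) * (X * (π ^ 2 / ρ ^ 2 * D)) := by rw [hlam]; ring
    have a7 : ((1 + d) * (1 - ε) + d) * (X * (π ^ 2 / ρ ^ 2 * D)) ≤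
        (1 - ε / 2) * (X * (π ^ 2 / ρ ^ 2 * D)) := by gcongr
    linarith
  have hex : ∃ a ∈ cube, (∫ x, χ (x - a) ^ 2 * ((1 + d) * ‖fderiv ℝ f x‖ ^ 2)) +
      (∫ x, ‖fderiv ℝ χ (x - a)‖ ^ 2 * ((1 + 1 / d) * f x ^ 2)) <
        ∫ x, χ (x - a) ^ 2 * (lam * f x ^ 2) := by
    by_contra hno
    push Not at hno
    have := setIntegral_mono_on I0 (I1.add I2) measurableSet_cube hno
    rw [E0] at this
    simp only [Pi.add_apply] at this
    rw [integral_add I1 I2, E1, E2] at this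
    linarith
  obtain ⟨a, ha, hlt'⟩ := hex
  have hg : ContDiff ℝ 1 fun x => χ (x - a) * f x :=
    (hχ.comp (contDiff_id.sub contDiff_const)).mul hf
  have hg0 : ∀ x, 2 * (L * ρ) ≤ ‖x - a‖ → χ (x - a) * f x = 0 := fun x hx => by
    rw [hχ0 _ hx, zero_mul]
  refine ⟨a, ha, fun x => χ (x - a) * f x, hg, hg0, fun x hx => by simp only [hx, mul_zero], ?_⟩
  have j1 : Integrable fun x => χ (x - a) ^ 2 * ((1 + d) * ‖fderiv ℝ f x‖ ^ 2) := by
    obtain ⟨B, hB⟩ := (bN.const_mul (1 + d)).bdd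
    exact (i1.comp_sub_right a).mul_bdd (c := B)
      (bN.const_mul (1 + d)).meas.aestronglyMeasurable (Eventually.of_forall hB)
  have j2 : Integrable fun x => ‖fderiv ℝ χ (x - a)‖ ^ 2 * ((1 + 1 / d) * f x ^ 2) := by
    obtain ⟨B, hB⟩ := (bD.const_mul (1 + 1 / d)).bdd
    exact (i2.comp_sub_right a).mul_bdd (c := B)
      (bD.const_mul (1 + 1 / d)).meas.aestronglyMeasurable (Eventually.of_forall hB)
  have k1 : ∫ x, ‖fderiv ℝ (fun x => χ (x - a) * f x) x‖ ^ 2 ≤
      (∫ x, χ (x - a) ^ 2 * ((1 + d) * ‖fderiv ℝ f x‖ ^ 2)) +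
      ∫ x, ‖fderiv ℝ χ (x - a)‖ ^ 2 * ((1 + 1 / d) * f x ^ 2) := by
    rw [← integral_add j1 j2]
    exact integral_mono (integrable_grad hg (compact_of_zero hg0)) (j1.add j2)
      fun x => grad_mul_le hχ hf a x hd0
  have k2 : ∫ x, χ (x - a) ^ 2 * (lam * f x ^ 2) = lam * ∫ x, (χ (x - a) * f x) ^ 2 := by
    rw [← integral_const_mul]
    exact integral_congr_ae (Eventually.of_forall fun x => by simp only; ring)
  linarith

end Pool.Agent.MP_dce92b_pr.Det

end MrgPart0

-- ======== part 1: formerly Pool.Agent.MP_dce92b_pr.Det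
section MrgPart1

/-! BTOR module DET: a small eigenvalue forces a large cluster of boxes that are not blocked. -/

open MeasureTheory Filter Topology Metric Real
open scoped NNReal ENNReal

namespace Pool.Agent.MP_dce92b_pr
namespace Det

theorem abs_coord_le (x : E3) (i : Fin 3) : |x i| ≤ ‖x‖ := by
  simpa using PiLp.norm_apply_le x i

/-- only finitely many grid points lie in a ball -/
theorem finite_grid {b : ℝ} (hb : 0 < b) (a : E3) (r : ℝ) :
    {j : Fin 3 → ℤ | ‖b • lat j - a‖ ≤ r}.Finite := by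
  obtain ⟨N, hN⟩ := exists_nat_ge ((r + ‖a‖) / b)
  refine (Set.finite_Icc (fun _ => -(N : ℤ)) fun _ => (N : ℤ)).subset fun j hj => ?_
  have key : ∀ i, |j i| ≤ (N : ℤ) := by
    intro i
    have h1 : ‖b • lat j‖ ≤ r + ‖a‖ := by
      have := norm_add_le (b • lat j - a) a
      rw [sub_add_cancel] at this
      exact this.trans (by have : ‖b • lat j - a‖ ≤ r := hj; linarith)
    have h2 := abs_coord_le (b • lat j) i
    rw [PiLp.smul_apply, lat_apply, smul_eq_mul, abs_mul, abs_of_pos hb] at h2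
    have h3 : |(j i : ℝ)| ≤ N := by
      refine le_trans ?_ hN
      rw [le_div_iff₀ hb]
      linarith
    exact_mod_cast h3
  exact ⟨fun i => (abs_le.1 (key i)).1, fun i => (abs_le.1 (key i)).2⟩

open Classical in
/-- bounded overlap of the balls around grid points -/
theorem overlap {b : ℝ} (hb : 0 < b) (S : Finset (Fin 3 → ℤ)) (x : E3) :
    (S.filter fun j => x ∈ ball (b • lat j) (3 * b)).card ≤ 343 := by
  have hsub : (S.filter fun j => x ∈ ball (b • lat j) (3 * b)) ⊆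
      Finset.Icc (fun i => ⌊x i / b⌋ - 3) fun i => ⌊x i / b⌋ + 3 := by
    intro j hj
    have h1 := (Finset.mem_filter.1 hj).2
    rw [mem_ball, dist_eq_norm] at h1
    have key : ∀ i, ⌊x i / b⌋ - 3 ≤ j i ∧ j i ≤ ⌊x i / b⌋ + 3 := by
      intro i
      have h2 := (abs_coord_le (x - b • lat j) i).trans_lt h1
      rw [PiLp.sub_apply, PiLp.smul_apply, lat_apply, smul_eq_mul, abs_lt] at h2
      have h3 := Int.floor_le (x i / b)
      have h4 := Int.lt_floor_add_one (x i / b)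
      have h5 : x i / b < j i + 3 := by rw [div_lt_iff₀ hb]; linarith [h2.2]
      have h6 : (j i : ℝ) - 3 < x i / b := by rw [lt_div_iff₀ hb]; linarith [h2.1]
      have h7 : ⌊x i / b⌋ < j i + 3 := by
        have : ((⌊x i / b⌋ : ℤ) : ℝ) < j i + 3 := by linarith
        exact_mod_cast this
      have h8 : j i - 3 < ⌊x i / b⌋ + 1 := by
        have : (j i : ℝ) - 3 < ((⌊x i / b⌋ : ℤ) : ℝ) + 1 := by linarith
        exact_mod_cast this
      omega
    exact Finset.mem_Icc.2 ⟨fun i => (key i).1, fun i => (key i).2⟩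
  refine (Finset.card_le_card hsub).trans ?_
  rw [Pi.card_Icc]
  have : ∀ i : Fin 3, (Finset.Icc (⌊x i / b⌋ - 3) (⌊x i / b⌋ + 3)).card = 7 := by
    intro i
    rw [Int.card_Icc]
    omega
  simp [this]

theorem sum_ball_le {b : ℝ} (hb : 0 < b) (S : Finset (Fin 3 → ℤ)) {F : E3 → ℝ}
    (hF : Integrable F) (h0 : ∀ x, 0 ≤ F x) :
    ∑ j ∈ S, ∫ x in ball (b • lat j) (3 * b), F x ≤ 343 * ∫ x, F x := by
  classical
  have e : ∀ j ∈ S, ∫ x in ball (b • lat j) (3 * b), F x =
      ∫ x, (ball (b • lat j) (3 * b)).indicator F x := fun j _ =>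
    (integral_indicator measurableSet_ball).symm
  have hi : ∀ j ∈ S, Integrable ((ball (b • lat j) (3 * b)).indicator F) := fun j _ =>
    hF.indicator measurableSet_ball
  rw [Finset.sum_congr rfl e, ← integral_finsetSum S hi, ← integral_const_mul]
  refine integral_mono (integrable_finsetSum S hi) (hF.const_mul _) fun x => ?_
  simp only [Set.indicator_apply]
  rw [← Finset.sum_filter, Finset.sum_const, nsmul_eq_mul]
  have : ((S.filter fun j => x ∈ ball (b • lat j) (3 * b)).card : ℝ) ≤ 343 := by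
    exact_mod_cast overlap hb S x
  exact mul_le_mul_of_nonneg_right this (h0 x)

/-- the volume of a superlevel set, split into free boxes and blocked boxes -/
theorem level_vol {g : E3 → ℝ} (hg : Continuous g) (hc : HasCompactSupport g) {b t : ℝ}
    (hb : 0 < b) (ht : 0 < t) (J B : Finset (Fin 3 → ℤ))
    (hJ : ∀ x, g x ≠ 0 → (fun i => ⌊x i / b⌋) ∈ J ∨ (fun i => ⌊x i / b⌋) ∈ B) :
    volume {x | t < |g x|} ≤ ENNReal.ofReal (J.card * b ^ 3 +
      (∑ j ∈ B, ∫ x in ball (b • lat j) (3 * b), g x ^ 2) / t ^ 2) := by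
  have hm : MeasurableSet {x | t < |g x|} := (isOpen_lt continuous_const hg.abs).measurableSet
  have hfin : volume {x | t < |g x|} ≠ ⊤ := by
    refine ne_top_of_le_ne_top hc.isCompact.measure_lt_top.ne (measure_mono fun x hx => ?_)
    refine subset_tsupport g ?_
    intro h
    simp only [Set.mem_ofPred_eq, h, abs_zero] at hx
    linarith
  have hsq := integrable_sq hg hc
  rw [← ENNReal.ofReal_toReal hfin]
  refine ENNReal.ofReal_le_ofReal ?_
  have hbox : ∀ j, volume (box b j) ≠ ⊤ := fun j => by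
    rw [volume_box hb]; exact ENNReal.ofReal_ne_top
  have i1 : ∀ j ∈ J, Integrable ((box b j).indicator fun _ => (1 : ℝ)) := fun j _ =>
    (integrable_indicator_iff (measurableSet_box b j)).2 (integrableOn_const (hbox j))
  have i2 : ∀ j ∈ B, Integrable ((ball (b • lat j) (3 * b)).indicator fun x => g x ^ 2) :=
    fun j _ => hsq.indicator measurableSet_ball
  have e1 : ∫ x, ∑ j ∈ J, (box b j).indicator (fun _ => (1 : ℝ)) x = J.card * b ^ 3 := by
    rw [integral_finsetSum J i1]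
    have : ∀ j ∈ J, ∫ x, (box b j).indicator (fun _ => (1 : ℝ)) x = b ^ 3 := by
      intro j _
      rw [integral_indicator (measurableSet_box b j), setIntegral_const, smul_eq_mul, mul_one,
        measureReal_def, volume_box hb, ENNReal.toReal_ofReal (by positivity)]
    rw [Finset.sum_congr rfl this, Finset.sum_const, nsmul_eq_mul]
  have e2 : ∫ x, (∑ j ∈ B, (ball (b • lat j) (3 * b)).indicator (fun x => g x ^ 2) x) / t ^ 2 =
      (∑ j ∈ B, ∫ x in ball (b • lat j) (3 * b), g x ^ 2) / t ^ 2 := by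
    rw [integral_div, integral_finsetSum B i2]
    congr 1
    exact Finset.sum_congr rfl fun j _ => integral_indicator measurableSet_ball
  have e0 : (volume {x | t < |g x|}).toReal =
      ∫ x, {x | t < |g x|}.indicator (fun _ => (1 : ℝ)) x := by
    rw [integral_indicator hm, setIntegral_const, smul_eq_mul, mul_one, measureReal_def]
  have j1 := integrable_finsetSum J i1
  have j2 := (integrable_finsetSum B i2).div_const (t ^ 2)
  rw [e0, ← e1, ← e2, ← integral_add j1 j2]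
  refine integral_mono ((integrable_indicator_iff hm).2 (integrableOn_const hfin)) (j1.add j2)
    fun x => ?_
  have p1 : ∀ j, 0 ≤ (box b j).indicator (fun _ => (1 : ℝ)) x := fun j =>
    Set.indicator_nonneg (fun _ _ => zero_le_one) x
  have p2 : ∀ j, 0 ≤ (ball (b • lat j) (3 * b)).indicator (fun x => g x ^ 2) x := fun j =>
    Set.indicator_nonneg (fun _ _ => sq_nonneg _) x
  have q1 : 0 ≤ ∑ j ∈ J, (box b j).indicator (fun _ => (1 : ℝ)) x :=
    Finset.sum_nonneg fun j _ => p1 j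
  have q2 : 0 ≤ (∑ j ∈ B, (ball (b • lat j) (3 * b)).indicator (fun x => g x ^ 2) x) / t ^ 2 :=
    div_nonneg (Finset.sum_nonneg fun j _ => p2 j) (sq_nonneg _)
  by_cases hx : x ∈ {x | t < |g x|}
  · rw [Set.indicator_of_mem hx]
    have hx' : t < |g x| := hx
    have hne : g x ≠ 0 := by
      intro h
      rw [h, abs_zero] at hx'
      linarith
    have hmem := mem_box_floor hb x
    rcases hJ x hne with h | h
    · have := Finset.single_le_sum (f := fun j => (box b j).indicator (fun _ => (1 : ℝ)) x)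
        (fun j _ => p1 j) h
      simp only [Set.indicator_of_mem hmem] at this
      simp only
      linarith
    · have := Finset.single_le_sum
        (f := fun j => (ball (b • lat j) (3 * b)).indicator (fun x => g x ^ 2) x)
        (fun j _ => p2 j) h
      have hball : x ∈ ball (b • lat fun i => ⌊x i / b⌋) (3 * b) := by
        rw [mem_ball, dist_eq_norm]
        have := norm_sub_lt_of_mem_box hb hmem
        linarith
      simp only [Set.indicator_of_mem hball] at this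
      have h2 : t ^ 2 ≤ g x ^ 2 := by
        rw [← sq_abs (g x)]
        exact pow_le_pow_left₀ ht.le hx'.le 2
      have h3 : 1 ≤
          (∑ j ∈ B, (ball (b • lat j) (3 * b)).indicator (fun x => g x ^ 2) x) / t ^ 2 := by
        rw [le_div_iff₀ (by positivity)]
        linarith
      simp only
      linarith
  · rw [Set.indicator_of_notMem hx]
    simp only
    linarith

/-- truncation at a low level keeps most of the norm -/
theorem trunc_lower {g : E3 → ℝ} (hg : Continuous g) {a : E3} {R t θ : ℝ} (hR : 0 < R)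
    (ht : 0 ≤ t) (hθ : 0 < θ) (h0 : ∀ x, R ≤ ‖x - a‖ → g x = 0) :
    (1 - θ) * (∫ x, g x ^ 2) - t ^ 2 / θ * (4 * π / 3 * R ^ 3) ≤
      ∫ x, (max (|g x| - t) 0) ^ 2 := by
  have hc := compact_of_zero h0
  have hsq := integrable_sq hg hc
  have hb : volume (ball a R) ≠ ⊤ := measure_ball_lt_top.ne
  have i1 : Integrable ((ball a R).indicator fun _ => t ^ 2 / θ) :=
    (integrable_indicator_iff measurableSet_ball).2 (integrableOn_const hb)
  have e1 : ∫ x, (ball a R).indicator (fun _ => t ^ 2 / θ) x =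
      t ^ 2 / θ * (4 * π / 3 * R ^ 3) := by
    rw [integral_indicator measurableSet_ball, setIntegral_const, smul_eq_mul, measureReal_def,
      volume_ball3 a hR.le, ENNReal.toReal_ofReal (by positivity), mul_comm]
  have i2 : Integrable fun x => (max (|g x| - t) 0) ^ 2 := by
    refine integrable_sq ((hg.abs.sub continuous_const).max continuous_const) ?_
    refine compact_of_zero (a := a) (R := R) fun x hx => ?_
    rw [h0 x hx, abs_zero, max_eq_right (by linarith)]
  rw [← e1, ← integral_const_mul, ← integral_sub (hsq.const_mul _) i1]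
  refine integral_mono ((hsq.const_mul _).sub i1) i2 fun x => ?_
  simp only
  by_cases hx : x ∈ ball a R
  · rw [Set.indicator_of_mem hx, ← sq_abs (g x)]
    set y := |g x|
    have hy : 0 ≤ y := abs_nonneg _
    have h1 : 2 * t * y ≤ θ * y ^ 2 + t ^ 2 / θ := by
      have : θ * y ^ 2 + t ^ 2 / θ - 2 * t * y = (θ * y - t) ^ 2 / θ := by
        field_simp; ring
      have h2 : 0 ≤ (θ * y - t) ^ 2 / θ := by positivity
      linarith
    rcases le_total (y - t) 0 with h | h
    · rw [max_eq_right h]; nlinarith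
    · rw [max_eq_left h]; nlinarith
  · rw [Set.indicator_of_notMem hx]
    rw [mem_ball, dist_eq_norm, not_lt] at hx
    rw [h0 x hx]
    simp only [abs_zero, ne_eq, OfNat.ofNat_ne_zero, not_false_eq_true, zero_pow, mul_zero,
      sub_zero]
    exact sq_nonneg _

theorem num1 {δ : ℝ} (h : 0 < δ) : (1 + δ) ^ 3 + δ ≤ (1 + 2 * δ) ^ 3 := by
  nlinarith [sq_nonneg δ, pow_pos h 3]

theorem num2 {ε : ℝ} (h : 0 < ε) :
    (1 - ε / 2) * (1 + 2 * (ε / 32)) ^ 2 ≤ 1 - 2 * (ε / 16) := by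
  nlinarith [sq_nonneg ε, mul_pos h (mul_pos h h)]

end Det

open Det in
theorem det (hF : FKStmt) (hP : PoincStmt) : DetStmt := by
  classical
  intro ε A hε hε1 hA
  obtain ⟨L, hL, hloc⟩ := localize hε
  obtain ⟨C, hC, hP⟩ := hP
  set θ := ε / 16 with hθ
  set δ := ε / 32 with hδ
  have hθ0 : 0 < θ := by positivity
  have hδ0 : 0 < δ := by positivity
  set C1 := 343 * (C * (9 + 27 * A)) * π ^ 2 * (8 * L ^ 3) / θ ^ 2 with hC1
  have hC10 : 0 < C1 := by positivity
  set η := √(δ / C1) with hη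
  have hη0 : 0 < η := Real.sqrt_pos.2 (by positivity)
  have hη2 : η ^ 2 = δ / C1 := Real.sq_sqrt (by positivity)
  refine ⟨δ, 2 * L + 2 * η, η, hδ0, by positivity, hη0, fun ρ b hρ hb hbρ K hlam => ?_⟩
  obtain ⟨f, hf, hlt⟩ : ∃ f, Adm K f ∧ ENNReal.ofReal
      ((∫ x in cube, ‖fderiv ℝ f x‖ ^ 2) / ∫ x in cube, f x ^ 2) <
        ENNReal.ofReal ((1 - ε) * π ^ 2 / ρ ^ 2) := by
    simpa only [lam1, iInf_lt_iff, exists_prop] using hlam
  obtain ⟨hf1, hf2, hf3, hf4⟩ := hf
  have hf1' : ContDiff ℝ 1 f := hf1.of_le (by exact_mod_cast le_top)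
  have hD := integral_sq_pos hf1'.continuous hf2 hf4
  have h1ε : 0 < 1 - ε := by linarith
  rw [ENNReal.ofReal_lt_ofReal_iff (by positivity), div_lt_iff₀ hD] at hlt
  obtain ⟨a, ha, g, hg, hg0, hgf, hgl⟩ := hloc ρ hρ f hf1' hf2 hlt
  have hgc := compact_of_zero hg0
  have hgrad := integrable_grad hg hgc
  set G := ∫ x, g x ^ 2 with hG
  set N := ∫ x, ‖fderiv ℝ g x‖ ^ 2 with hN
  have hN0 : 0 ≤ N := integral_nonneg fun x => sq_nonneg _
  have h2ε : 0 < 1 - ε / 2 := by linarith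
  have hG0 : 0 < G := by
    have h1 : 0 < (1 - ε / 2) * π ^ 2 / ρ ^ 2 * G := hN0.trans_lt hgl
    exact (pos_iff_pos_of_mul_pos h1).1 (by positivity)
  set T := (finite_grid hb a ((2 * L + 2 * η) * ρ)).toFinset with hT
  set J := T.filter fun j => ¬ Blocked K b A j with hJ
  set B := T.filter fun j => Blocked K b A j with hB
  refine ⟨a, ha, J, fun j hj => ?_, ?_⟩
  · obtain ⟨h1, h2⟩ := Finset.mem_filter.1 hj
    exact ⟨h2, by simpa [hT] using h1⟩
  by_contra hno
  push Not at hno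
  have hcov : ∀ x, g x ≠ 0 → (fun i => ⌊x i / b⌋) ∈ J ∨ (fun i => ⌊x i / b⌋) ∈ B := by
    intro x hx
    have h1 : ‖x - a‖ < 2 * (L * ρ) := by
      by_contra h
      exact hx (hg0 x (not_lt.1 h))
    have h2 := norm_sub_lt_of_mem_box hb (mem_box_floor hb x)
    have h3 : (fun i => ⌊x i / b⌋) ∈ T := by
      rw [hT, Set.Finite.mem_toFinset, Set.mem_ofPred_eq]
      have e : (b • lat fun i => ⌊x i / b⌋) - a = (x - a) - (x - b • lat fun i => ⌊x i / b⌋) := by
        abel
      rw [e]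
      refine (norm_sub_le _ _).trans ?_
      have e2 : (2 * L + 2 * η) * ρ = 2 * (L * ρ) + 2 * (η * ρ) := by ring
      linarith
    by_cases h : Blocked K b A fun i => ⌊x i / b⌋
    · exact Or.inr (Finset.mem_filter.2 ⟨h3, h⟩)
    · exact Or.inl (Finset.mem_filter.2 ⟨h3, h⟩)
  have hblock : ∀ j ∈ B, ∫ x in ball (b • lat j) (3 * b), g x ^ 2 ≤
      C * (9 + 27 * A) * b ^ 2 * ∫ x in ball (b • lat j) (3 * b), ‖fderiv ℝ g x‖ ^ 2 := by
    intro j hj
    obtain ⟨z, s, hs, hz, hz1, hz2⟩ := (Finset.mem_filter.1 hj).2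
    have := hP g hg (b • lat j) (3 * b) (by positivity) z s (A / b) hs (by positivity) hz
      (fun u hu => ⟨(hz1 u hu).1, by
        obtain ⟨k, hk⟩ := (hz1 u hu).2
        refine hgf _ ?_
        rw [← hf2.sub_lat (z u) k]
        exact (hf3 _ hk).eq_of_nhds⟩)
      (by rwa [show A / b * s ^ 2 = A * s ^ 2 / b by ring])
    refine this.trans_eq ?_
    congr 1
    field_simp
    ring
  have hsum : ∑ j ∈ B, ∫ x in ball (b • lat j) (3 * b), g x ^ 2 ≤
      343 * (C * (9 + 27 * A)) * η ^ 2 * π ^ 2 * G := by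
    refine (Finset.sum_le_sum hblock).trans ?_
    rw [← Finset.mul_sum]
    have h1 := sum_ball_le hb B hgrad fun x => sq_nonneg _
    have h2 : N ≤ π ^ 2 / ρ ^ 2 * G := by
      refine hgl.le.trans ?_
      have : (1 - ε / 2) * π ^ 2 / ρ ^ 2 * G = (1 - ε / 2) * (π ^ 2 / ρ ^ 2 * G) := by ring
      rw [this]
      exact mul_le_of_le_one_left (by positivity) (by linarith)
    calc C * (9 + 27 * A) * b ^ 2 *
          ∑ j ∈ B, ∫ x in ball (b • lat j) (3 * b), ‖fderiv ℝ g x‖ ^ 2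
        ≤ C * (9 + 27 * A) * b ^ 2 * (343 * N) := by gcongr
      _ ≤ C * (9 + 27 * A) * (η * ρ) ^ 2 * (343 * (π ^ 2 / ρ ^ 2 * G)) := by gcongr
      _ = 343 * (C * (9 + 27 * A)) * η ^ 2 * π ^ 2 * G := by field_simp
  set V := 4 * π / 3 * (2 * (L * ρ)) ^ 3 with hV
  have hV0 : 0 < V := by positivity
  set t := √(θ ^ 2 * G / V) with ht
  have ht0 : 0 < t := Real.sqrt_pos.2 (by positivity)
  have ht2 : t ^ 2 = θ ^ 2 * G / V := Real.sq_sqrt (by positivity)
  have hvol := level_vol hg.continuous hgc hb ht0 J B hcov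
  have hvol2 : volume {x | t < |g x|} ≤ volume (ball (0 : E3) ((1 + 2 * δ) * ρ)) := by
    rw [volume_ball3 _ (by positivity)]
    refine hvol.trans (ENNReal.ofReal_le_ofReal ?_)
    have h1 : (∑ j ∈ B, ∫ x in ball (b • lat j) (3 * b), g x ^ 2) / t ^ 2 ≤
        343 * (C * (9 + 27 * A)) * η ^ 2 * π ^ 2 * G / t ^ 2 := by gcongr
    have h2 : 343 * (C * (9 + 27 * A)) * η ^ 2 * π ^ 2 * G / t ^ 2 =
        δ * (4 * π / 3 * ρ ^ 3) := by
      rw [ht2, hη2, hC1, hV]
      field_simp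
      ring
    have h3 : (1 + δ) ^ 3 + δ ≤ (1 + 2 * δ) ^ 3 := num1 hδ0
    have h4 : ((1 + δ) ^ 3 + δ) * (4 * π / 3 * ρ ^ 3) ≤
        (1 + 2 * δ) ^ 3 * (4 * π / 3 * ρ ^ 3) := by gcongr
    have h5 : 4 * π / 3 * ((1 + δ) * ρ) ^ 3 = (1 + δ) ^ 3 * (4 * π / 3 * ρ ^ 3) := by ring
    have h6 : 4 * π / 3 * ((1 + 2 * δ) * ρ) ^ 3 = (1 + 2 * δ) ^ 3 * (4 * π / 3 * ρ ^ 3) := by
      ring
    linarith
  have hfk := hF g hg hgc t ((1 + 2 * δ) * ρ) ht0.le (by positivity) hvol2
  have htr := trunc_lower hg.continuous (R := 2 * (L * ρ)) (by positivity) ht0.le hθ0 hg0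
  have e1 : t ^ 2 / θ * V = θ * G := by rw [ht2]; field_simp
  rw [← hV, ← hG, e1] at htr
  have h1 : π ^ 2 / ((1 + 2 * δ) * ρ) ^ 2 * ((1 - θ) * G - θ * G) <
      (1 - ε / 2) * π ^ 2 / ρ ^ 2 * G := by
    refine lt_of_le_of_lt (le_trans ?_ hfk) hgl
    gcongr
  have h2 : π ^ 2 / ((1 + 2 * δ) * ρ) ^ 2 * ((1 - θ) * G - θ * G) =
      (1 - 2 * θ) / (1 + 2 * δ) ^ 2 * (π ^ 2 / ρ ^ 2 * G) := by
    field_simp
    ring
  have h3 : (1 - ε / 2) * π ^ 2 / ρ ^ 2 * G = (1 - ε / 2) * (π ^ 2 / ρ ^ 2 * G) := by ring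
  rw [h2, h3] at h1
  have h4 := lt_of_mul_lt_mul_right h1 (by positivity)
  rw [div_lt_iff₀ (by positivity), hθ, hδ] at h4
  exact absurd h4 (not_lt.2 (num2 hε))

end Pool.Agent.MP_dce92b_pr

end MrgPart1

-- ======== part 2: formerly Pool.Agent.MP_dce92b_pr.Iso
section MrgPart2

/-! BTOR module ISO: isocapacitary lower bound for the killed chain on the torus. -/

open MeasureTheory ProbabilityTheory Filter Topology Metric Real
open scoped NNReal ENNReal

namespace Pool.Agent.MP_dce92b_pr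

namespace Iso

/-- bathtub principle for a radial nonincreasing function equimeasurable with f -/
theorem bathtub {f ψ : E3 → ℝ} (hf : Continuous f) (hfc : HasCompactSupport f)
    (hψ : Continuous ψ) (hψc : HasCompactSupport ψ) (hψ0 : ∀ x, 0 ≤ ψ x)
    (hanti : ∀ x y, ‖x‖ ≤ ‖y‖ → ψ y ≤ ψ x)
    (hΦ : ∀ Φ : ℝ → ℝ, Continuous Φ → Φ 0 = 0 → ∫ x, Φ (ψ x) = ∫ x, Φ (f x))
    {ρ : ℝ} (hρ : 0 < ρ) {U : Set E3} (hUf : volume U ≠ ⊤)
    (hv : volume (ball (0 : E3) ρ) ≤ volume U) :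
    ∫ x in ball (0 : E3) ρ, (max (1 - ψ x) 0) ^ 2 ≤ ∫ x in U, (max (1 - f x) 0) ^ 2 := by
  obtain ⟨e, he⟩ := exists_norm_eq E3 hρ.le
  set A : ℝ := (max (1 - ψ e) 0) ^ 2 with hA
  have hA0 : 0 ≤ A := by positivity
  set Φ : ℝ → ℝ := fun y => max (A - (max (1 - y) 0) ^ 2) 0 with hΦd
  have hΦc : Continuous Φ := by rw [hΦd]; fun_prop
  have hΦ0 : Φ 0 = 0 := by
    simp only [hΦd]
    refine max_eq_right ?_
    have h1 : max (1 - ψ e) 0 ≤ 1 := max_le (by linarith [hψ0 e]) zero_le_one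
    have h2 : 0 ≤ max (1 - ψ e) 0 := le_max_right _ _
    have h3 : max (1 - (0 : ℝ)) 0 = 1 := by simp
    rw [h3, hA]; nlinarith
  have hΦn : ∀ y, 0 ≤ Φ y := fun y => le_max_right _ _
  have hBf : volume (ball (0 : E3) ρ) ≠ ⊤ := measure_ball_lt_top.ne
  have iψ : Integrable fun x => Φ (ψ x) :=
    (hΦc.comp hψ).integrable_of_hasCompactSupport (hψc.comp_left hΦ0)
  have iF : Integrable fun x => Φ (f x) :=
    (hΦc.comp hf).integrable_of_hasCompactSupport (hfc.comp_left hΦ0)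
  have e1 : ∫ x in ball (0 : E3) ρ, (max (1 - ψ x) 0) ^ 2 =
      A * volume.real (ball (0 : E3) ρ) - ∫ x, Φ (ψ x) := by
    have h1 : ∫ x in ball (0 : E3) ρ, (max (1 - ψ x) 0) ^ 2 =
        ∫ x in ball (0 : E3) ρ, (A - Φ (ψ x)) := by
      refine setIntegral_congr_fun measurableSet_ball fun x hx => ?_
      have hx' : ‖x‖ ≤ ‖e‖ := by rw [he]; exact (mem_ball_zero_iff.1 hx).le
      have h2 := hanti x e hx'
      have h3 : max (1 - ψ x) 0 ≤ max (1 - ψ e) 0 := max_le_max (by linarith) le_rfl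
      have h4 : (max (1 - ψ x) 0) ^ 2 ≤ A := pow_le_pow_left₀ (le_max_right _ _) h3 2
      have h5 : Φ (ψ x) = A - (max (1 - ψ x) 0) ^ 2 := max_eq_left (by linarith)
      show (max (1 - ψ x) 0) ^ 2 = A - Φ (ψ x)
      rw [h5]; ring
    have iA : IntegrableOn (fun _ : E3 => A) (ball (0 : E3) ρ) := integrableOn_const hBf
    rw [h1, integral_sub iA iψ.integrableOn, setIntegral_const, smul_eq_mul,
      mul_comm, setIntegral_eq_integral_of_forall_compl_eq_zero]
    intro x hx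
    have hx' : ‖e‖ ≤ ‖x‖ := by rw [he]; exact not_lt.1 fun h => hx (mem_ball_zero_iff.2 h)
    have h2 := hanti e x hx'
    have h3 : max (1 - ψ e) 0 ≤ max (1 - ψ x) 0 := max_le_max (by linarith) le_rfl
    have h4 : A ≤ (max (1 - ψ x) 0) ^ 2 := pow_le_pow_left₀ (le_max_right _ _) h3 2
    simp only [hΦd]
    exact max_eq_right (by linarith)
  have iU : IntegrableOn (fun x => (max (1 - f x) 0) ^ 2) U :=
    ((BC.of_cont hf hfc).toBM.comp (Φ := fun y => (max (1 - y) 0) ^ 2) (by fun_prop)).integrableOn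
      hUf
  have e2 : A * volume.real U - ∫ x, Φ (f x) ≤ ∫ x in U, (max (1 - f x) 0) ^ 2 := by
    have iA : IntegrableOn (fun _ : E3 => A) U := integrableOn_const hUf
    have h1 : ∫ x in U, (A - Φ (f x)) ≤ ∫ x in U, (max (1 - f x) 0) ^ 2 := by
      refine setIntegral_mono (iA.sub iF.integrableOn) iU fun x => ?_
      have : A - (max (1 - f x) 0) ^ 2 ≤ Φ (f x) := le_max_left _ _
      show A - Φ (f x) ≤ (max (1 - f x) 0) ^ 2
      linarith
    rw [integral_sub iA iF.integrableOn, setIntegral_const, smul_eq_mul,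
      mul_comm] at h1
    have h2 : ∫ x in U, Φ (f x) ≤ ∫ x, Φ (f x) :=
      setIntegral_le_integral iF (Eventually.of_forall fun x => hΦn _)
    linarith
  have h3 : volume.real (ball (0 : E3) ρ) ≤ volume.real U := ENNReal.toReal_mono hUf hv
  have h4 := hΦ Φ hΦc hΦ0
  rw [e1, h4]
  nlinarith [mul_le_mul_of_nonneg_left h3 hA0]

/-- lower bound of the form on R^3 by duality with the capacity profile -/
theorem dual_bound {t c κ β m τ ρ : ℝ} (ht : 0 < t) (hc : 0 < c) {ψ h n1 n2 : E3 → ℝ}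
    (hψ : BC ψ) (hψ0 : ∀ x, 0 ≤ ψ x) (hh : BC h) (hh0 : ∀ x, 0 ≤ h x ∧ h x ≤ 1)
    (hn : ∀ x, h x - Pt t h x = n1 x - n2 x) (m1 : Measurable n1) (m2 : Measurable n2)
    (b1 : ∀ x, 0 ≤ n1 x ∧ n1 x ≤ κ) (b2 : ∀ x, 0 ≤ n2 x ∧ n2 x ≤ β)
    (i1 : Integrable n1) (hm : ∫ x, n1 x = m)
    (hτ : ∫ x in {x : E3 | ρ ≤ ‖x‖}, n1 x ≤ τ) :
    (1 - κ / c) * m - 2 * τ - 2 * β * ∫ x, ψ x ≤
      ER t ψ + c * ∫ x in ball (0 : E3) ρ, (max (1 - ψ x) 0) ^ 2 := by
  have B1 : BM n1 := ⟨m1, κ, fun x => abs_le.2 ⟨by linarith [(b1 x).1, (b1 x).2], (b1 x).2⟩⟩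
  have B2 : BM n2 := ⟨m2, β, fun x => abs_le.2 ⟨by linarith [(b2 x).1, (b2 x).2], (b2 x).2⟩⟩
  have hd := ER_dual ht hψ hh
  have hh1 : ER t h ≤ m := by
    rw [ER_eq_sub ht hh, ← hm]
    simp only [hn]
    refine integral_mono ?_ i1 fun x => ?_
    · simpa only [mul_comm] using (hh.mul_left (B1.sub B2)).integrable
    · show h x * (n1 x - n2 x) ≤ n1 x
      nlinarith [(hh0 x).1, (hh0 x).2, (b1 x).1, (b2 x).1]
  have hBf : volume (ball (0 : E3) ρ) ≠ ⊤ := measure_ball_lt_top.ne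
  have mS : MeasurableSet {x : E3 | ρ ≤ ‖x‖} := measurableSet_le measurable_const measurable_norm
  have iB : IntegrableOn (fun x => (max (1 - ψ x) 0) ^ 2) (ball (0 : E3) ρ) :=
    (hψ.toBM.comp (Φ := fun y => (max (1 - y) 0) ^ 2) (by fun_prop)).integrableOn hBf
  have iB' := iB.integrable_indicator measurableSet_ball
  have iS := i1.indicator mS
  have iψ := hψ.integrable
  have j1 : Integrable fun x => (2 - κ / c) * n1 x := i1.const_mul _
  have j2 : Integrable fun x => 2 * {x : E3 | ρ ≤ ‖x‖}.indicator n1 x := iS.const_mul _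
  have j3 : Integrable fun x =>
      c * (ball (0 : E3) ρ).indicator (fun x => (max (1 - ψ x) 0) ^ 2) x := iB'.const_mul _
  have j4 : Integrable fun x => 2 * β * ψ x := iψ.const_mul _
  have j12 : Integrable fun x => (2 - κ / c) * n1 x - 2 * {x : E3 | ρ ≤ ‖x‖}.indicator n1 x :=
    j1.sub j2
  have j123 : Integrable fun x => (2 - κ / c) * n1 x - 2 * {x : E3 | ρ ≤ ‖x‖}.indicator n1 x -
      c * (ball (0 : E3) ρ).indicator (fun x => (max (1 - ψ x) 0) ^ 2) x := j12.sub j3
  have key : ∫ x, ((2 - κ / c) * n1 x - 2 * {x : E3 | ρ ≤ ‖x‖}.indicator n1 x -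
      c * (ball (0 : E3) ρ).indicator (fun x => (max (1 - ψ x) 0) ^ 2) x - 2 * β * ψ x) ≤
      ∫ x, 2 * (ψ x * (h x - Pt t h x)) := by
    simp only [hn]
    refine integral_mono ?_ ?_ fun x => ?_
    · exact j123.sub j4
    · have := (hψ.mul_left (B1.sub B2)).integrable.const_mul 2
      simpa only [mul_comm] using this
    · show (2 - κ / c) * n1 x - 2 * {x : E3 | ρ ≤ ‖x‖}.indicator n1 x -
        c * (ball (0 : E3) ρ).indicator (fun x => (max (1 - ψ x) 0) ^ 2) x - 2 * β * ψ x ≤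
        2 * (ψ x * (n1 x - n2 x))
      have p1 := (b1 x).1
      have p2 := (b1 x).2
      have p3 : ψ x * n2 x ≤ β * ψ x := by nlinarith [(b2 x).2, hψ0 x]
      have p4 : n1 x ^ 2 / c ≤ κ / c * n1 x := by
        rw [div_mul_eq_mul_div]
        exact div_le_div_of_nonneg_right (by nlinarith) hc.le
      have p5 : 0 ≤ n1 x ^ 2 / c := by positivity
      by_cases hx : ‖x‖ < ρ
      · rw [Set.indicator_of_notMem (by simpa using hx),
          Set.indicator_of_mem (mem_ball_zero_iff.2 hx)]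
        set w := max (1 - ψ x) 0 with hw
        have w1 : 1 - ψ x ≤ w := le_max_left _ _
        have w2 : 2 * w * n1 x ≤ c * w ^ 2 + n1 x ^ 2 / c := by
          have : 0 ≤ (c * w - n1 x) ^ 2 / c := by positivity
          have e : (c * w - n1 x) ^ 2 / c = c * w ^ 2 - 2 * w * n1 x + n1 x ^ 2 / c := by
            field_simp; ring
          linarith
        nlinarith [mul_le_mul_of_nonneg_right w1 p1]
      · rw [Set.indicator_of_mem (by simpa using hx),
          Set.indicator_of_notMem (fun h => hx (mem_ball_zero_iff.1 h))]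
        nlinarith [mul_nonneg (hψ0 x) p1]
  rw [integral_sub j123 j4, integral_sub j12 j3, integral_sub j1 j2, integral_const_mul, integral_const_mul,
    integral_const_mul, integral_const_mul, integral_const_mul, integral_indicator mS,
    integral_indicator measurableSet_ball, hm] at key
  linarith

/-- isocapacitary inequality on R^3 for functions of small integral -/
theorem cap (hZ : RieszStmt) (hP : ProfStmt) {ε c : ℝ} (hε : 0 < ε) (hε1 : ε ≤ 1) (hc : 0 < c) :
    ∃ η v : ℝ, 0 < η ∧ η ≤ 1 ∧ 0 < v ∧ ∀ ρ t : ℝ, 0 < ρ → ρ ≤ 1 / 16 → 0 < t → t ≤ η * ρ ^ 2 →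
      ∀ U : Set E3, volume U ≠ ⊤ → volume (ball (0 : E3) ρ) ≤ volume U →
      ∀ f : E3 → ℝ, Continuous f → HasCompactSupport f → (∀ x, 0 ≤ f x) → ∫ x, f x ≤ v →
        (1 - ε) * (4 * π * ρ * t) ≤ ER t f + c * ∫ x in U, (max (1 - f x) 0) ^ 2 := by
  obtain ⟨C, hC, hP⟩ := hP
  set θ : ℝ := ε / 4 with hθ
  have hθ0 : 0 < θ := by positivity
  have hθ1 : θ ≤ 1 / 4 := by rw [hθ]; linarith
  set r : ℝ := min 1 (min (θ * c / (2 * C)) (θ ^ 3 / C)) with hr
  have hr0 : 0 < r := by positivity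
  have hr1 : r ≤ 1 := min_le_left _ _
  have hr2 : r ≤ θ * c / (2 * C) := (min_le_right _ _).trans (min_le_left _ _)
  have hr3 : r ≤ θ ^ 3 / C := (min_le_right _ _).trans (min_le_right _ _)
  refine ⟨r ^ 2, θ / C, by positivity, by nlinarith, by positivity, ?_⟩
  intro ρ t hρ hρ1 ht htη U hUf hv f hf hfc hf0 hfv
  have ht1 : t ≤ 1 := by
    have h1 : r ^ 2 ≤ 1 := by nlinarith
    have h2 : ρ ^ 2 ≤ 1 := by nlinarith
    nlinarith [mul_le_mul h1 h2 (by positivity) zero_le_one]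
  obtain ⟨ψ, hψ, hψc, hψ0, hanti, hΦ, hJ⟩ := hZ t ht f hf hfc hf0
  have hc' : 0 < (1 - θ) * ρ := mul_pos (by linarith) hρ
  have hc2 : (1 - θ) * ρ ≤ ρ := by nlinarith
  have hc3 : ρ / 2 ≤ (1 - θ) * ρ := by nlinarith
  obtain ⟨h, n1, n2, m, mh, m1, m2, hh0, -, hh4, -, hn, b1, b2, i1, -, hm, -, hm1, -, -, htail, -⟩ :=
    hP ((1 - θ) * ρ) t hc' (hc2.trans hρ1) ht ht1
  have hh : BC h := ⟨⟨mh, 1, fun x => abs_le.2 ⟨by linarith [(hh0 x).1], (hh0 x).2⟩⟩,
    1 / 4, fun x hx => hh4 x hx.le⟩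
  have htl := htail (θ * ρ) (by positivity)
  have e0 : (1 - θ) * ρ + θ * ρ = ρ := by ring
  rw [e0] at htl
  have hd := dual_bound ht hc (BC.of_cont hψ hψc) hψ0 hh hh0 hn m1 m2 b1 b2 i1 hm htl
  have hb := bathtub hf hfc hψ hψc hψ0 hanti hΦ hρ hUf hv
  have hE : ER t ψ ≤ ER t f := by
    have := hΦ (fun y => y * y) (by fun_prop) (by simp)
    unfold ER
    linarith
  have hI : ∫ x, ψ x = ∫ x, f x := hΦ (fun y => y) continuous_id rfl
  have hst : √t ≤ r * ρ := by
    rw [Real.sqrt_le_left (by positivity)]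
    nlinarith
  have k1 : C * √t / ((1 - θ) * ρ) / c ≤ θ := by
    rw [div_div, div_le_iff₀ (by positivity)]
    have h1 : C * r ≤ θ * c / 2 := by
      have := mul_le_mul_of_nonneg_left hr2 hC.le
      have e : C * (θ * c / (2 * C)) = θ * c / 2 := by field_simp
      linarith
    have h2 : C * √t ≤ C * (r * ρ) := mul_le_mul_of_nonneg_left hst hC.le
    have h3 : C * r * ρ ≤ θ * c / 2 * ρ := mul_le_mul_of_nonneg_right h1 hρ.le
    have h4 : θ * c * (ρ / 2) ≤ θ * c * ((1 - θ) * ρ) :=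
      mul_le_mul_of_nonneg_left hc3 (by positivity)
    nlinarith
  have k2 : C * t ^ 2 * ((1 - θ) * ρ / (θ * ρ) ^ 2 + 1 / (θ * ρ)) ≤ 2 * θ * (ρ * t) := by
    have h1 : (1 - θ) * ρ / (θ * ρ) ^ 2 + 1 / (θ * ρ) = 1 / (θ ^ 2 * ρ) := by
      field_simp; ring
    have h2 : C * r ≤ θ ^ 3 := by
      have := mul_le_mul_of_nonneg_left hr3 hC.le
      have e : C * (θ ^ 3 / C) = θ ^ 3 := by field_simp
      linarith
    have h3 : t ≤ r * ρ ^ 2 := by
      have : r ^ 2 ≤ r := by nlinarith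
      nlinarith [mul_le_mul_of_nonneg_right this (sq_nonneg ρ)]
    have h4 : C * t ≤ θ ^ 3 * ρ ^ 2 := by
      have := mul_le_mul_of_nonneg_left h3 hC.le
      nlinarith [mul_le_mul_of_nonneg_right h2 (sq_nonneg ρ)]
    rw [h1, mul_one_div, div_le_iff₀ (by positivity)]
    have h5 := mul_le_mul_of_nonneg_right h4 ht.le
    have h6 : 0 ≤ θ ^ 3 * ρ ^ 2 * t := by positivity
    nlinarith
  have k3 : C * ((1 - θ) * ρ) * t * ∫ x, ψ x ≤ θ * (ρ * t) := by
    rw [hI]
    have h0 : 0 ≤ ∫ x, f x := integral_nonneg hf0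
    have h1 : C * ∫ x, f x ≤ θ := by
      have := mul_le_mul_of_nonneg_left hfv hC.le
      have e : C * (θ / C) = θ := by field_simp
      linarith
    have h2 : (C * ∫ x, f x) * ((1 - θ) * ρ * t) ≤ θ * (ρ * t) :=
      mul_le_mul h1 (mul_le_mul_of_nonneg_right hc2 ht.le) (by positivity) hθ0.le
    linarith
  have hm0 : 0 ≤ m := le_trans (by positivity) hm1
  have k4 : (1 - θ) * (4 * π * ((1 - θ) * ρ) * t) ≤ (1 - C * √t / ((1 - θ) * ρ) / c) * m :=
    mul_le_mul (by linarith) hm1 (by positivity) (by linarith)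
  have k5 := mul_le_mul_of_nonneg_left hb hc.le
  have hρt : 0 < ρ * t := by positivity
  have k6 : 3 * (ρ * t) ≤ π * (ρ * t) := mul_le_mul_of_nonneg_right pi_gt_three.le hρt.le
  have k7 : θ * (3 * (ρ * t)) ≤ θ * (π * (ρ * t)) := mul_le_mul_of_nonneg_left k6 hθ0.le
  have k8 : 0 ≤ θ ^ 2 * (π * (ρ * t)) := by positivity
  have k9 : 0 ≤ θ * (ρ * t) := by positivity
  have hε' : ε = 4 * θ := by rw [hθ]; ring
  rw [hε']
  nlinarith

/-- the cut-off function -/
noncomputable def chi (a x : E3) : ℝ := max (min (2 - 8 * ‖x - a‖) 1) 0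

theorem continuous_chi (a : E3) : Continuous (chi a) := by unfold chi; fun_prop

theorem chi_nonneg (a x : E3) : 0 ≤ chi a x := le_max_right _ _

theorem chi_le_one (a x : E3) : chi a x ≤ 1 := max_le (min_le_right _ _) zero_le_one

theorem chi_one {a x : E3} (hx : x ∈ ball a (1 / 8)) : chi a x = 1 := by
  rw [mem_ball, dist_eq_norm] at hx
  unfold chi
  rw [min_eq_right (by linarith), max_eq_left zero_le_one]

theorem chi_zero {a x : E3} (hx : 1 / 4 ≤ ‖x - a‖) : chi a x = 0 :=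
  max_eq_right ((min_le_left _ _).trans (by linarith))

theorem chi_zero' {a x : E3} (hx : x ∉ cubeAt a) : chi a x = 0 := by
  refine chi_zero ?_
  have : x ∉ ball a (1 / 2) := fun h => hx (ball_subset_cubeAt a h)
  rw [mem_ball, dist_eq_norm, not_lt] at this
  linarith

theorem chi_lip (a x z : E3) : |chi a (x + z) - chi a x| ≤ 8 * ‖z‖ := by
  unfold chi
  refine (abs_max_sub_max_le_abs _ _ _).trans ?_
  refine (abs_min_sub_min_le_max _ _ _ _).trans (max_le ?_ (by simp))
  have h1 := abs_norm_sub_norm_le (x - a) (x + z - a)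
  have e : x - a - (x + z - a) = -z := by abel
  rw [e, norm_neg] at h1
  have e2 : 2 - 8 * ‖x + z - a‖ - (2 - 8 * ‖x - a‖) = 8 * (‖x - a‖ - ‖x + z - a‖) := by ring
  rw [e2, abs_mul, abs_of_pos (by norm_num : (0 : ℝ) < 8)]
  linarith

theorem hasCompactSupport_chi (a : E3) : HasCompactSupport (chi a) := by
  refine HasCompactSupport.intro (isCompact_closedBall a (1 / 4)) fun x hx => chi_zero ?_
  rw [mem_closedBall, dist_eq_norm, not_le] at hx
  exact hx.le

theorem BC_chi (a : E3) : BC (chi a) := BC.of_cont (continuous_chi a) (hasCompactSupport_chi a)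

/-- the localization error for one increment z -/
theorem loc_inner {φ : E3 → ℝ} (hφ : BP φ) (a z : E3) {θ : ℝ} (hθ : 0 < θ) :
    ∫ x, (φ (x + z) * chi a (x + z) - φ x * chi a x) ^ 2 ≤
      (1 + θ) * (∫ x in cube, (φ (x + z) - φ x) ^ 2) +
        (1 + 1 / θ) * (128 * ‖z‖ ^ 2 * ip φ φ) := by
  have hQ := measurableSet_cubeAt a
  have hQf : volume (cubeAt a) ≠ ⊤ := by rw [volume_cubeAt]; exact ENNReal.one_ne_top
  have sq : Continuous fun y : ℝ => y ^ 2 := by fun_prop
  have P1 : BP fun x => (φ (x + z) - φ x) ^ 2 := ((hφ.shift z).sub hφ).comp sq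
  have P2 : BP fun x => φ x ^ 2 := hφ.comp sq
  have i1 := (P1.toBM.integrableOn hQf).integrable_indicator hQ
  have i2 := ((P2.shift z).toBM.integrableOn hQf).integrable_indicator hQ
  have i3 := ((P2.toBM.integrableOn hQf).integrable_indicator hQ).comp_add_right z
  have j1 := i1.const_mul (1 + θ)
  have j23 : Integrable fun x => (cubeAt a).indicator (fun x => φ (x + z) ^ 2) x +
      (cubeAt a).indicator (fun x => φ x ^ 2) (x + z) := i2.add i3
  have j2 := j23.const_mul ((1 + 1 / θ) * (64 * ‖z‖ ^ 2))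
  have j : Integrable fun x => (1 + θ) * (cubeAt a).indicator (fun x => (φ (x + z) - φ x) ^ 2) x +
      (1 + 1 / θ) * (64 * ‖z‖ ^ 2) * ((cubeAt a).indicator (fun x => φ (x + z) ^ 2) x +
      (cubeAt a).indicator (fun x => φ x ^ 2) (x + z)) := j1.add j2
  have key : ∫ x, (φ (x + z) * chi a (x + z) - φ x * chi a x) ^ 2 ≤
      ∫ x, ((1 + θ) * (cubeAt a).indicator (fun x => (φ (x + z) - φ x) ^ 2) x +
      (1 + 1 / θ) * (64 * ‖z‖ ^ 2) * ((cubeAt a).indicator (fun x => φ (x + z) ^ 2) x +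
      (cubeAt a).indicator (fun x => φ x ^ 2) (x + z))) := by
    refine integral_mono_of_nonneg (Eventually.of_forall fun x => sq_nonneg _) j
      (Eventually.of_forall fun x => ?_)
    show (φ (x + z) * chi a (x + z) - φ x * chi a x) ^ 2 ≤
      (1 + θ) * (cubeAt a).indicator (fun x => (φ (x + z) - φ x) ^ 2) x +
      (1 + 1 / θ) * (64 * ‖z‖ ^ 2) * ((cubeAt a).indicator (fun x => φ (x + z) ^ 2) x +
      (cubeAt a).indicator (fun x => φ x ^ 2) (x + z))
    set u := chi a x * (φ (x + z) - φ x) with hu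
    set w := φ (x + z) * (chi a (x + z) - chi a x) with hw
    have e : φ (x + z) * chi a (x + z) - φ x * chi a x = u + w := by rw [hu, hw]; ring
    have h1 : (u + w) ^ 2 ≤ (1 + θ) * u ^ 2 + (1 + 1 / θ) * w ^ 2 := by
      have h0 : 0 ≤ (θ * u - w) ^ 2 / θ := by positivity
      have e1 : (θ * u - w) ^ 2 / θ = θ * u ^ 2 - 2 * u * w + 1 / θ * w ^ 2 := by
        field_simp; ring
      nlinarith
    have h2 : u ^ 2 ≤ (cubeAt a).indicator (fun x => (φ (x + z) - φ x) ^ 2) x := by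
      by_cases hx : x ∈ cubeAt a
      · rw [Set.indicator_of_mem hx, hu, mul_pow]
        have : chi a x ^ 2 ≤ 1 := by nlinarith [chi_nonneg a x, chi_le_one a x]
        nlinarith [sq_nonneg (φ (x + z) - φ x)]
      · rw [Set.indicator_of_notMem hx, hu, chi_zero' hx]; simp
    have h3 : w ^ 2 ≤ 64 * ‖z‖ ^ 2 * ((cubeAt a).indicator (fun x => φ (x + z) ^ 2) x +
        (cubeAt a).indicator (fun x => φ x ^ 2) (x + z)) := by
      have l1 : (chi a (x + z) - chi a x) ^ 2 ≤ 64 * ‖z‖ ^ 2 := by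
        have := sq_le_sq' (abs_le.1 (chi_lip a x z)).1 (abs_le.1 (chi_lip a x z)).2
        linarith
      have l2 : w ^ 2 ≤ 64 * ‖z‖ ^ 2 * φ (x + z) ^ 2 := by
        rw [hw, mul_pow]
        nlinarith [mul_le_mul_of_nonneg_left l1 (sq_nonneg (φ (x + z)))]
      have n1 : 0 ≤ (cubeAt a).indicator (fun x => φ (x + z) ^ 2) x :=
        Set.indicator_nonneg (fun _ _ => sq_nonneg _) _
      have n2 : 0 ≤ (cubeAt a).indicator (fun x => φ x ^ 2) (x + z) :=
        Set.indicator_nonneg (fun _ _ => sq_nonneg _) _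
      have n3 : 0 ≤ 64 * ‖z‖ ^ 2 := by positivity
      by_cases hx : x ∈ cubeAt a
      · rw [Set.indicator_of_mem hx]
        nlinarith [mul_nonneg n3 n2]
      · by_cases hy : x + z ∈ cubeAt a
        · rw [Set.indicator_of_mem hy]
          nlinarith [mul_nonneg n3 n1]
        · rw [hw, chi_zero' hx, chi_zero' hy]
          nlinarith [mul_nonneg n3 n1, mul_nonneg n3 n2]
    have c1 : 0 ≤ 1 + θ := by positivity
    have c2 : 0 ≤ 1 + 1 / θ := by positivity
    rw [e]
    nlinarith [mul_le_mul_of_nonneg_left h2 c1, mul_le_mul_of_nonneg_left h3 c2]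
  rw [integral_add j1 j2, integral_const_mul, integral_const_mul, integral_add i2 i3,
    integral_add_right_eq_self (fun x => (cubeAt a).indicator (fun x => φ x ^ 2) x) z,
    integral_indicator hQ, integral_indicator hQ, integral_indicator hQ,
    integral_cubeAt P1.per, integral_cubeAt_shift P2.per, integral_cubeAt P2.per,
    ← ip_self φ] at key
  linarith

/-- localization of the torus form -/
theorem loc {t : ℝ} (ht : 0 < t) {φ : E3 → ℝ} (hφ : BP φ) (a : E3) {θ : ℝ} (hθ : 0 < θ) :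
    ER t (fun x => φ x * chi a x) ≤ (1 + θ) * ET t φ + 384 * (1 + 1 / θ) * (t * ip φ φ) := by
  have := gam_prob ht
  rw [ER_eq ht ((BC_chi a).mul_left hφ.toBM), ET_eq ht hφ]
  obtain ⟨M, hM⟩ := hφ.bdd
  have mF : Measurable fun p : E3 × E3 => (φ (p.2 + p.1) - φ p.2) ^ 2 :=
    ((hφ.meas.comp (measurable_snd.add measurable_fst)).sub
      (hφ.meas.comp measurable_snd)).pow_const 2
  have i1 : Integrable (fun z => ∫ x in cube, (φ (x + z) - φ x) ^ 2) (gam t) := by
    refine Integrable.of_bound (C := (2 * M) ^ 2)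
      (mF.stronglyMeasurable.integral_prod_right' (ν := volume.restrict cube)).aestronglyMeasurable
      (Eventually.of_forall fun z => ?_)
    refine (norm_integral_le_of_norm_le_const (C := (2 * M) ^ 2)
      (Eventually.of_forall fun x => ?_)).trans (by simp)
    rw [Real.norm_eq_abs, abs_of_nonneg (sq_nonneg _)]
    have h1 := abs_le.1 (hM (x + z))
    have h2 := abs_le.1 (hM x)
    exact sq_le_sq' (by linarith) (by linarith)
  have i2 := integrable_norm_pow ht 2
  have j1 := i1.const_mul (1 + θ)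
  have j2 := i2.const_mul ((1 + 1 / θ) * (128 * ip φ φ))
  have key : ∫ z, (∫ x, (φ (x + z) * chi a (x + z) - φ x * chi a x) ^ 2) ∂gam t ≤
      ∫ z, ((1 + θ) * (∫ x in cube, (φ (x + z) - φ x) ^ 2) +
        (1 + 1 / θ) * (128 * ip φ φ) * ‖z‖ ^ 2) ∂gam t := by
    refine integral_mono_of_nonneg
      (Eventually.of_forall fun z => integral_nonneg fun x => sq_nonneg _) (j1.add j2)
      (Eventually.of_forall fun z => ?_)
    have := loc_inner hφ a z hθ
    show ∫ x, (φ (x + z) * chi a (x + z) - φ x * chi a x) ^ 2 ≤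
      (1 + θ) * (∫ x in cube, (φ (x + z) - φ x) ^ 2) + (1 + 1 / θ) * (128 * ip φ φ) * ‖z‖ ^ 2
    linarith
  rw [integral_add j1 j2, integral_const_mul, integral_const_mul, integral_norm_sq ht] at key
  linarith

/-- Chebyshev inequality on the torus -/
theorem cheb {g : E3 → ℝ} (hg : BP g) {S : Set E3} (hS : MeasurableSet S) {d : ℝ}
    (hd : ∀ x ∈ S, d ≤ (g x - avg g) ^ 2) :
    d * volume.real (cube ∩ S) ≤ ip g g - avg g ^ 2 := by
  rw [← ip_sub_avg hg, ip_self]
  have P : BP fun x => (g x - avg g) ^ 2 :=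
    hg.comp (Φ := fun y => (y - avg g) ^ 2) (by fun_prop)
  have h1 : ∫ x in cube, S.indicator (fun _ => d) x ≤ ∫ x in cube, (g x - avg g) ^ 2 := by
    refine integral_mono ((integrable_const d).indicator hS) P.integrableOn fun x => ?_
    by_cases hx : x ∈ S
    · rw [Set.indicator_of_mem hx]; exact hd x hx
    · rw [Set.indicator_of_notMem hx]; exact sq_nonneg _
  rw [integral_indicator hS, setIntegral_const, measureReal_restrict_apply hS, smul_eq_mul,
    Set.inter_comm, mul_comm] at h1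
  exact h1

/-- the inequality for nonnegative functions -/
theorem iso_nonneg (hZ : RieszStmt) (hP : ProfStmt) {ε c : ℝ} (hε : 0 < ε) (hε1 : ε ≤ 1)
    (hc : 0 < c) : ∃ η ρ1 : ℝ, 0 < η ∧ 0 < ρ1 ∧
    ∀ ρ t : ℝ, 0 < ρ → ρ ≤ ρ1 → 0 < t → t ≤ η * ρ ^ 2 →
    ∀ (a : E3) (U : Set E3), MeasurableSet U → U ⊆ ball a (1 / 8) →
      volume (ball (0 : E3) ρ) ≤ volume U →
    ∀ g : E3 → ℝ, BP g → Continuous g → (∀ x, 0 ≤ g x) →
      (1 - ε) * (4 * π * ρ * t) * ip g g ≤ ET t g + c * ∫ x in U, g x ^ 2 := by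
  set θ : ℝ := ε / 6 with hθ
  have hθ0 : 0 < θ := by positivity
  have hθ1 : θ ≤ 1 / 6 := by rw [hθ]; linarith
  obtain ⟨η, v, hη, hη1, hv0, hcap⟩ := cap hZ hP hθ0 (by linarith) hc
  obtain ⟨c0, hc0, hgap⟩ := ET_gap
  set K : ℝ := 4 * π / c0 with hK
  have hK0 : 0 < K := by positivity
  set T : ℝ := min (1 / 1000) (min v (θ / (1536 * (1 + 1 / θ)))) with hT
  have hT0 : 0 < T := by positivity
  have hT1 : T ≤ 1 / 1000 := min_le_left _ _
  have hT2 : T ≤ v := (min_le_right _ _).trans (min_le_left _ _)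
  have hT3 : T ≤ θ / (1536 * (1 + 1 / θ)) := (min_le_right _ _).trans (min_le_right _ _)
  have hsT : 0 < √T := Real.sqrt_pos.2 hT0
  refine ⟨η, min (min (1 / 16) T) (min (θ / K) (θ ^ 2 * (T * √T) / (2 * K))), hη,
    by positivity, ?_⟩
  intro ρ t hρ hρ1 ht htη a U hU hUa hvol g hg hgc hg0
  have r1 : ρ ≤ 1 / 16 := hρ1.trans ((min_le_left _ _).trans (min_le_left _ _))
  have r2 : ρ ≤ T := hρ1.trans ((min_le_left _ _).trans (min_le_right _ _))
  have r3 : K * ρ ≤ θ := by
    have := hρ1.trans ((min_le_right _ _).trans (min_le_left _ _))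
    rw [le_div_iff₀ hK0] at this
    linarith
  have r4 : 2 * K * ρ ≤ θ ^ 2 * (T * √T) := by
    have := hρ1.trans ((min_le_right _ _).trans (min_le_right _ _))
    rw [le_div_iff₀ (by positivity)] at this
    linarith
  have htT : t ≤ T := by
    have h1 : η * ρ ^ 2 ≤ 1 * ρ ^ 2 := mul_le_mul_of_nonneg_right hη1 (sq_nonneg _)
    nlinarith
  have hUf : volume U ≠ ⊤ := ((measure_mono hUa).trans_lt measure_ball_lt_top).ne
  set N := ip g g with hN
  have hN0 : 0 ≤ N := ip_self_nonneg g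
  have hI0 : 0 ≤ ∫ x in U, g x ^ 2 := integral_nonneg fun x => sq_nonneg _
  have hE0 : 0 ≤ ET t g := ET_nonneg ht hg
  have hw : 0 < 4 * π * ρ * t := by positivity
  by_cases hD : 4 * π * ρ * t * N ≤ ET t g
  · nlinarith [mul_nonneg hw.le hN0, mul_nonneg hc.le hI0]
  rw [not_le] at hD
  have hNp : 0 < N := by
    by_contra h
    have : N = 0 := le_antisymm (not_lt.1 h) hN0
    rw [this] at hD
    linarith
  set m := avg g with hm
  have hm0 : 0 ≤ m := integral_nonneg hg0
  have hV : N - m ^ 2 ≤ K * ρ * N := by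
    have h1 := (hgap t ht (by linarith) g hg).trans hD.le
    have e : 4 * π * ρ * t * N = c0 * t * (K * ρ * N) := by rw [hK]; field_simp
    rw [e] at h1
    exact le_of_mul_le_mul_left h1 (by positivity)
  have hm2 : (1 - θ) * N ≤ m ^ 2 := by nlinarith [mul_le_mul_of_nonneg_right r3 hN0]
  have hmp : 0 < m := by
    rcases hm0.eq_or_lt with h | h
    · rw [← h] at hm2; nlinarith
    · exact h
  set l : ℝ := (1 - θ) * m with hl
  have hl0 : 0 < l := mul_pos (by linarith) hmp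
  set φ : E3 → ℝ := fun x => max (1 - g x / l) 0 with hφd
  have hφc : Continuous φ := by rw [hφd]; fun_prop
  have hφ : BP φ := hg.comp (Φ := fun y => max (1 - y / l) 0) (by fun_prop)
  have hφ0 : ∀ x, 0 ≤ φ x := fun x => le_max_right _ _
  have hφ1 : ∀ x, φ x ≤ 1 := fun x =>
    max_le (by linarith [div_nonneg (hg0 x) hl0.le]) zero_le_one
  have mS : MeasurableSet {x | φ x ≠ 0} := (hφ.meas (measurableSet_singleton 0)).compl
  have hS : volume.real (cube ∩ {x | φ x ≠ 0}) ≤ T * √T := by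
    have h1 := cheb hg mS (d := θ ^ 2 * m ^ 2) fun x hx => by
      have h2 : 0 < 1 - g x / l := by
        by_contra h
        exact hx (max_eq_right (not_lt.1 h))
      have h3 : g x < l := by
        rw [sub_pos, div_lt_one hl0] at h2; exact h2
      have h4 : θ * m ≤ m - g x := by rw [hl] at h3; linarith
      have h5 := pow_le_pow_left₀ (by positivity) h4 2
      rw [← hm]
      nlinarith
    rw [← hN, ← hm] at h1
    have h6 : N ≤ 2 * m ^ 2 := by nlinarith
    have h7 : K * ρ * N ≤ K * ρ * (2 * m ^ 2) := mul_le_mul_of_nonneg_left h6 (by positivity)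
    have h8 : 2 * K * ρ * m ^ 2 ≤ θ ^ 2 * (T * √T) * m ^ 2 :=
      mul_le_mul_of_nonneg_right r4 (sq_nonneg _)
    have h9 : θ ^ 2 * m ^ 2 * volume.real (cube ∩ {x | φ x ≠ 0}) ≤ θ ^ 2 * m ^ 2 * (T * √T) := by
      linarith
    exact le_of_mul_le_mul_left h9 (by positivity)
  have hSf : volume (cube ∩ {x | φ x ≠ 0}) ≠ ⊤ := by
    refine ((measure_mono Set.inter_subset_left).trans_lt ?_).ne
    rw [volume_cube]; exact ENNReal.one_lt_top
  have hsm := ET_small ht htT hT1 hφ hφ0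
    ((ENNReal.le_ofReal_iff_toReal_le hSf (by positivity)).2 hS)
  have hEφ : ET t φ ≤ (1 / l) ^ 2 * ET t g := by
    refine ET_le_of_contr ht hg hφ fun x y => ?_
    refine (abs_max_sub_max_le_abs _ _ _).trans (le_of_eq ?_)
    have e : 1 - g x / l - (1 - g y / l) = -(1 / l) * (g x - g y) := by ring
    rw [e, abs_mul, abs_neg, abs_of_pos (by positivity)]
  have hEφ0 := ET_nonneg ht hφ
  have hloc := loc ht hφ a hθ0
  have hloc2 : ER t (fun x => φ x * chi a x) ≤ (1 + 2 * θ) * ET t φ := by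
    have h1 : 1536 * (1 + 1 / θ) * T ≤ θ := by
      rw [le_div_iff₀ (by positivity)] at hT3
      linarith
    have h2 : 384 * (1 + 1 / θ) * (t * ip φ φ) ≤ 384 * (1 + 1 / θ) * (4 * T * ET t φ) :=
      mul_le_mul_of_nonneg_left hsm (by positivity)
    nlinarith [mul_le_mul_of_nonneg_right h1 hEφ0]
  have hint : ∫ x, φ x * chi a x ≤ v := by
    have hQ := measurableSet_cubeAt a
    have hQf : volume (cubeAt a) ≠ ⊤ := by rw [volume_cubeAt]; exact ENNReal.one_ne_top
    have h1 : ∫ x, φ x * chi a x ≤ ∫ x, (cubeAt a).indicator φ x := by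
      refine integral_mono ((BC_chi a).mul_left hφ.toBM).integrable
        ((hφ.toBM.integrableOn hQf).integrable_indicator hQ) fun x => ?_
      show φ x * chi a x ≤ (cubeAt a).indicator φ x
      by_cases hx : x ∈ cubeAt a
      · rw [Set.indicator_of_mem hx]
        nlinarith [hφ0 x, chi_le_one a x]
      · rw [Set.indicator_of_notMem hx, chi_zero' hx, mul_zero]
    rw [integral_indicator hQ, integral_cubeAt hφ.per] at h1
    have h2 : ∫ x in cube, φ x ≤ ∫ x in cube, {x | φ x ≠ 0}.indicator (fun _ => (1 : ℝ)) x := by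
      refine integral_mono hφ.integrableOn ((integrable_const _).indicator mS) fun x => ?_
      by_cases hx : x ∈ {x | φ x ≠ 0}
      · rw [Set.indicator_of_mem hx]; exact hφ1 x
      · rw [Set.indicator_of_notMem hx]; exact (not_not.1 hx).le
    rw [integral_indicator mS, setIntegral_const, measureReal_restrict_apply mS, smul_eq_mul,
      mul_one, Set.inter_comm] at h2
    have h3 : √T ≤ 1 := Real.sqrt_le_one.2 (by linarith)
    nlinarith
  have hmain := hcap ρ t hρ r1 ht htη U hUf hvol (fun x => φ x * chi a x)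
    (hφc.mul (continuous_chi a)) (hasCompactSupport_chi a).mul_left
    (fun x => mul_nonneg (hφ0 x) (chi_nonneg a x)) hint
  have hUint : ∫ x in U, (max (1 - φ x * chi a x) 0) ^ 2 ≤ (1 / l) ^ 2 * ∫ x in U, g x ^ 2 := by
    rw [← integral_const_mul]
    refine setIntegral_mono_on ?_ ?_ hU fun x hx => ?_
    · exact (((BC_chi a).mul_left hφ.toBM).toBM.comp (Φ := fun y => (max (1 - y) 0) ^ 2)
        (by fun_prop)).integrableOn hUf
    · exact (hg.toBM.comp (Φ := fun y => (1 / l) ^ 2 * y ^ 2) (by fun_prop)).integrableOn hUf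
    · rw [chi_one (hUa hx), mul_one, ← mul_pow]
      refine pow_le_pow_left₀ (le_max_right _ _) (max_le ?_ (by have := hg0 x; positivity)) 2
      have : 1 - g x / l ≤ φ x := le_max_left _ _
      have e : 1 / l * g x = g x / l := by ring
      linarith
  set D := ET t g + c * ∫ x in U, g x ^ 2 with hDd
  have hD0 : 0 ≤ D := by positivity
  have f1 : (1 - θ) * (4 * π * ρ * t) ≤ (1 + 2 * θ) * ((1 / l) ^ 2 * D) := by
    have h1 := mul_le_mul_of_nonneg_left hUint hc.le
    have h2 := mul_le_mul_of_nonneg_left hEφ (by positivity : 0 ≤ 1 + 2 * θ)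
    have h3 : 0 ≤ θ * (c * ((1 / l) ^ 2 * ∫ x in U, g x ^ 2)) := by positivity
    rw [hDd]
    nlinarith
  have f2 : (1 - θ) * (4 * π * ρ * t) * l ^ 2 ≤ (1 + 2 * θ) * D := by
    have := mul_le_mul_of_nonneg_right f1 (sq_nonneg l)
    have e : (1 + 2 * θ) * ((1 / l) ^ 2 * D) * l ^ 2 = (1 + 2 * θ) * D := by field_simp
    linarith
  have f3 : (1 - θ) ^ 3 * N ≤ l ^ 2 := by
    have := mul_le_mul_of_nonneg_left hm2 (sq_nonneg (1 - θ))
    rw [hl, mul_pow]
    linarith
  have f4 : (1 - ε) * (1 + 2 * θ) ≤ (1 - θ) ^ 4 := by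
    have h1 : 1 + (4 : ℕ) * (-θ) ≤ (1 + -θ) ^ 4 := one_add_mul_le_pow (by linarith) 4
    have hε' : ε = 6 * θ := by rw [hθ]; ring
    have e : 1 + -θ = 1 - θ := by ring
    rw [e] at h1
    push_cast at h1
    rw [hε']
    nlinarith
  have f5 : (1 - θ) * (4 * π * ρ * t) * ((1 - θ) ^ 3 * N) ≤ (1 - θ) * (4 * π * ρ * t) * l ^ 2 :=
    mul_le_mul_of_nonneg_left f3 (mul_nonneg (by linarith) hw.le)
  have f6 := mul_le_mul_of_nonneg_right f4 (mul_nonneg hw.le hN0)
  have f7 : (1 + 2 * θ) * ((1 - ε) * (4 * π * ρ * t) * N) ≤ (1 + 2 * θ) * D := by linarith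
  exact le_of_mul_le_mul_left f7 (by positivity)

end Iso

theorem iso (hZ : RieszStmt) (hP : ProfStmt) : IsoStmt := by
  intro ε c hε hc
  obtain ⟨η, ρ1, hη, hρ1, H⟩ := Iso.iso_nonneg hZ hP (ε := min ε 1) (by positivity)
    (min_le_right _ _) hc
  refine ⟨η, ρ1, hη, hρ1, fun ρ t hρ h1 ht h2 a U hU hUa hv g hg hgc => ?_⟩
  have hg' : BP fun x => |g x| := hg.comp continuous_abs
  have key := H ρ t hρ h1 ht h2 a U hU hUa hv (fun x => |g x|) hg' hgc.abs fun x => abs_nonneg _
  have e1 : ip (fun x => |g x|) (fun x => |g x|) = ip g g := by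
    simp only [ip_self, sq_abs]
  have e2 := ET_le_of_contr ht hg hg' (L := 1) fun x y => by
    rw [one_mul]; exact abs_abs_sub_abs_le_abs_sub _ _
  simp only [e1, sq_abs] at key
  have h3 : 0 ≤ 4 * π * ρ * t * ip g g := mul_nonneg (by positivity) (ip_self_nonneg g)
  have h4 := mul_le_mul_of_nonneg_right (sub_le_sub_left (min_le_left ε 1) 1) h3
  linarith

end Pool.Agent.MP_dce92b_pr

end MrgPart2

-- ======== part 3: formerly Pool.Agent.MP_dce92b_pr.Poinc
section MrgPart3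

/-! BTOR module POINC: a Poincare-Mazya inequality on balls of R^3. -/

open MeasureTheory Filter Topology Metric Real
open scoped NNReal ENNReal

namespace Pool.Agent.MP_dce92b_pr

namespace Poinc

/-- the reciprocal distance -/
noncomputable def kk (x y : E3) : ℝ≥0∞ := ‖y - x‖ₑ⁻¹

theorem measurable_kk : Measurable fun p : E3 × E3 => kk p.1 p.2 := by
  unfold kk
  exact (measurable_snd.sub measurable_fst).enorm.inv

theorem measurable_kk_right (x : E3) : Measurable (kk x) := by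
  unfold kk
  exact (measurable_id.sub measurable_const).enorm.inv

theorem meas_kk {α : Type*} [MeasurableSpace α] {f g : α → E3} (hf : Measurable f)
    (hg : Measurable g) : Measurable fun a => kk (f a) (g a) := by
  unfold kk
  exact (hg.sub hf).enorm.inv

theorem kk_symm (x y : E3) : kk x y = kk y x := by
  unfold kk
  rw [← enorm_neg, neg_sub]

theorem kk_eq (x y : E3) : kk x y = (ENNReal.ofReal ‖y - x‖)⁻¹ := by
  unfold kk
  rw [ofReal_norm]

theorem cs {α : Type*} [MeasurableSpace α] (μ : Measure α) {f g : α → ℝ≥0∞}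
    (hf : AEMeasurable f μ) (hg : AEMeasurable g μ) :
    (∫⁻ a, f a * g a ∂μ) ^ 2 ≤ (∫⁻ a, f a ^ 2 ∂μ) * ∫⁻ a, g a ^ 2 ∂μ := by
  have h := ENNReal.lintegral_mul_le_Lp_mul_Lq μ Real.HolderConjugate.two_two hf hg
  have h2 := pow_le_pow_left' h 2
  simp only [Pi.mul_apply] at h2
  refine h2.trans (le_of_eq ?_)
  rw [mul_pow, ← ENNReal.rpow_natCast, ← ENNReal.rpow_natCast, ← ENNReal.rpow_mul,
    ← ENNReal.rpow_mul]
  norm_num

theorem lint_inv_pow {a : ℝ} (ha : 0 < a) (n : ℕ) (hn : 1 ≤ n) :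
    ∫⁻ u in Set.Ioi a, ENNReal.ofReal (u⁻¹ ^ (n + 1)) ≤ ENNReal.ofReal (a⁻¹ ^ n) := by
  have hlt : (-((n : ℝ) + 1)) < -1 := by
    have : (1 : ℝ) ≤ n := by exact_mod_cast hn
    linarith
  have h1 := integrableOn_Ioi_rpow_of_lt hlt ha
  have h2 := integral_Ioi_rpow_of_lt hlt ha
  have h3 : ∫⁻ u in Set.Ioi a, ENNReal.ofReal (u⁻¹ ^ (n + 1)) =
      ∫⁻ u in Set.Ioi a, ENNReal.ofReal (u ^ (-((n : ℝ) + 1))) := by
    refine setLIntegral_congr_fun measurableSet_Ioi fun u hu => ?_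
    have hu0 : 0 < u := ha.trans hu
    rw [Real.rpow_neg hu0.le, inv_pow, ← Real.rpow_natCast]
    push_cast
    rfl
  rw [h3, ← ofReal_integral_eq_lintegral_ofReal h1, h2]
  · refine ENNReal.ofReal_le_ofReal ?_
    have e1 : (-((n : ℝ) + 1) + 1) = -(n : ℝ) := by ring
    rw [e1, Real.rpow_neg ha.le, Real.rpow_natCast, neg_div_neg_eq, inv_pow]
    have : (1 : ℝ) ≤ n := by exact_mod_cast hn
    exact div_le_self (by positivity) this
  · refine (ae_restrict_iff' measurableSet_Ioi).2 (Eventually.of_forall fun u hu => ?_)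
    exact Real.rpow_nonneg (ha.trans hu).le _

theorem lint_ball (x : E3) (r : ℝ) :
    ∫⁻ y in ball x r, kk x y ^ 2 ≤ ENNReal.ofReal (4 * π * r) := by
  set F : ℝ → ℝ≥0∞ := (Set.Iio r).indicator fun t => (ENNReal.ofReal t)⁻¹ ^ 2 with hF
  have hFm : Measurable F :=
    ((ENNReal.measurable_ofReal.inv).pow_const 2).indicator measurableSet_Iio
  have e1 : ∫⁻ y in ball x r, kk x y ^ 2 = ∫⁻ y : E3, F ‖y - x‖ := by
    rw [← lintegral_indicator measurableSet_ball]
    refine lintegral_congr fun y => ?_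
    by_cases hy : y ∈ ball x r
    · have : ‖y - x‖ ∈ Set.Iio r := by simpa [dist_eq_norm] using hy
      rw [Set.indicator_of_mem hy, hF, Set.indicator_of_mem this, kk_eq]
    · have : ‖y - x‖ ∉ Set.Iio r := by simpa [dist_eq_norm] using hy
      rw [Set.indicator_of_notMem hy, hF, Set.indicator_of_notMem this]
  rw [e1, lintegral_sub_right_eq_self (fun y : E3 => F ‖y‖) x, lintegral_radial hFm,
    ENNReal.ofReal_mul (by positivity : 0 ≤ 4 * π)]
  gcongr
  calc ∫⁻ t in Set.Ioi (0 : ℝ), ENNReal.ofReal (t ^ 2) * F t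
      ≤ ∫⁻ t in Set.Ioi (0 : ℝ), (Set.Iio r).indicator 1 t := by
        refine setLIntegral_mono' measurableSet_Ioi fun t ht => ?_
        by_cases h : t ∈ Set.Iio r
        · rw [hF, Set.indicator_of_mem h, Set.indicator_of_mem h,
            ENNReal.ofReal_pow (le_of_lt ht), ← mul_pow, ENNReal.mul_inv_cancel] <;>
          simp [Set.mem_Ioi.1 ht]
        · rw [hF, Set.indicator_of_notMem h]; simp
    _ = ENNReal.ofReal r := by
        rw [lintegral_indicator_one measurableSet_Iio,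
          Measure.restrict_apply measurableSet_Iio, Set.Iio_inter_Ioi]
        simp

theorem lint_compl (x : E3) {r : ℝ} (hr : 0 < r) :
    ∫⁻ y in (ball x r)ᶜ, kk x y ^ 4 ≤ ENNReal.ofReal (4 * π * r⁻¹) := by
  set F : ℝ → ℝ≥0∞ := (Set.Ici r).indicator fun t => (ENNReal.ofReal t)⁻¹ ^ 4 with hF
  have hFm : Measurable F :=
    ((ENNReal.measurable_ofReal.inv).pow_const 4).indicator measurableSet_Ici
  have e1 : ∫⁻ y in (ball x r)ᶜ, kk x y ^ 4 = ∫⁻ y : E3, F ‖y - x‖ := by
    rw [← lintegral_indicator measurableSet_ball.compl]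
    refine lintegral_congr fun y => ?_
    by_cases hy : y ∈ (ball x r)ᶜ
    · have : ‖y - x‖ ∈ Set.Ici r := by simpa [dist_eq_norm] using hy
      rw [Set.indicator_of_mem hy, hF, Set.indicator_of_mem this, kk_eq]
    · have : ‖y - x‖ ∉ Set.Ici r := by simpa [dist_eq_norm] using hy
      rw [Set.indicator_of_notMem hy, hF, Set.indicator_of_notMem this]
  rw [e1, lintegral_sub_right_eq_self (fun y : E3 => F ‖y‖) x, lintegral_radial hFm,
    ENNReal.ofReal_mul (by positivity : 0 ≤ 4 * π)]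
  gcongr
  calc ∫⁻ t in Set.Ioi (0 : ℝ), ENNReal.ofReal (t ^ 2) * F t
      ≤ ∫⁻ t in Set.Ioi (0 : ℝ),
          (Set.Ici r).indicator (fun t => ENNReal.ofReal (t⁻¹ ^ (1 + 1))) t := by
        refine setLIntegral_mono' measurableSet_Ioi fun t ht => ?_
        have ht0 : 0 < t := ht
        by_cases h : t ∈ Set.Ici r
        · rw [hF, Set.indicator_of_mem h, Set.indicator_of_mem h,
            ← ENNReal.ofReal_inv_of_pos ht0, ← ENNReal.ofReal_pow (by positivity),
            ← ENNReal.ofReal_mul (by positivity)]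
          refine le_of_eq (congrArg _ ?_)
          rw [one_add_one_eq_two]
          field_simp
        · rw [hF, Set.indicator_of_notMem h]; simp
    _ ≤ ∫⁻ t, (Set.Ici r).indicator (fun t => ENNReal.ofReal (t⁻¹ ^ (1 + 1))) t :=
        setLIntegral_le_lintegral _ _
    _ = ∫⁻ t in Set.Ioi r, ENNReal.ofReal (t⁻¹ ^ (1 + 1)) := by
        rw [lintegral_indicator measurableSet_Ici, setLIntegral_congr Ioi_ae_eq_Ici]
    _ ≤ ENNReal.ofReal r⁻¹ := by simpa using lint_inv_pow hr 1 le_rfl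

/-- the convolution of two kernels of degree -2 -/
theorem lint_conv (a b : E3) :
    ∫⁻ y, kk a y ^ 2 * kk b y ^ 2 ≤ ENNReal.ofReal (32 * π) * ‖a - b‖ₑ⁻¹ := by
  by_cases hab : a = b
  · subst hab
    have : ENNReal.ofReal (32 * π) ≠ 0 := by simp [Real.pi_pos]
    rw [sub_self, enorm_zero, ENNReal.inv_zero, ENNReal.mul_top this]
    exact le_top
  have hd : 0 < ‖a - b‖ := norm_pos_iff.2 (sub_ne_zero.2 hab)
  set r : ℝ := ‖a - b‖ / 2 with hr
  have hr0 : 0 < r := by positivity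
  set F : E3 → E3 → ℝ≥0∞ := fun a y =>
    (ball a r).indicator (fun y => ENNReal.ofReal (r⁻¹ ^ 2) * kk a y ^ 2) y +
      (ball a r)ᶜ.indicator (fun y => kk a y ^ 4) y with hF
  have key : ∀ p q y : E3, ‖p - q‖ = 2 * r → ‖y - p‖ ≤ ‖y - q‖ →
      kk p y ^ 2 * kk q y ^ 2 ≤ F p y := by
    intro p q y hpq hle
    have h1 : kk q y ≤ kk p y := by
      rw [kk_eq, kk_eq]
      exact ENNReal.inv_le_inv.2 (ENNReal.ofReal_le_ofReal hle)
    have h2 : r ≤ ‖y - q‖ := by
      have : ‖p - q‖ ≤ ‖y - q‖ + ‖y - p‖ := by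
        have e : p - q = (y - q) - (y - p) := by abel
        rw [e]; exact norm_sub_le _ _
      linarith
    have h3 : kk q y ^ 2 ≤ ENNReal.ofReal (r⁻¹ ^ 2) := by
      rw [ENNReal.ofReal_pow (by positivity), ENNReal.ofReal_inv_of_pos hr0, kk_eq]
      exact pow_le_pow_left' (ENNReal.inv_le_inv.2 (ENNReal.ofReal_le_ofReal h2)) 2
    by_cases hy : y ∈ ball p r
    · simp only [hF]
      rw [Set.indicator_of_mem hy, mul_comm]
      exact le_add_right (by gcongr)
    · simp only [hF]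
      rw [Set.indicator_of_mem (Set.mem_compl hy)]
      refine le_add_left ?_
      calc kk p y ^ 2 * kk q y ^ 2 ≤ kk p y ^ 2 * kk p y ^ 2 := by gcongr
        _ = kk p y ^ 4 := by ring
  have hFm : ∀ p, Measurable (F p) := fun p =>
    ((((measurable_kk_right p).pow_const 2).const_mul _).indicator measurableSet_ball).add
      (((measurable_kk_right p).pow_const 4).indicator measurableSet_ball.compl)
  have hFi : ∀ p, ∫⁻ y, F p y ≤ ENNReal.ofReal (8 * π * r⁻¹) := by
    intro p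
    simp only [hF]
    rw [lintegral_add_left
      ((((measurable_kk_right p).pow_const 2).const_mul _).indicator measurableSet_ball),
      lintegral_indicator measurableSet_ball, lintegral_indicator measurableSet_ball.compl,
      lintegral_const_mul _ ((measurable_kk_right p).pow_const 2)]
    calc _ ≤ ENNReal.ofReal (r⁻¹ ^ 2) * ENNReal.ofReal (4 * π * r) +
          ENNReal.ofReal (4 * π * r⁻¹) := by
          gcongr
          · exact lint_ball p r
          · exact lint_compl p hr0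
      _ = ENNReal.ofReal (8 * π * r⁻¹) := by
          rw [← ENNReal.ofReal_mul (by positivity),
            ← ENNReal.ofReal_add (by positivity) (by positivity)]
          congr 1
          field_simp
          ring
  calc ∫⁻ y, kk a y ^ 2 * kk b y ^ 2 ≤ ∫⁻ y, F a y + F b y := by
        refine lintegral_mono fun y => ?_
        rcases le_total ‖y - a‖ ‖y - b‖ with h | h
        · exact le_add_right (key a b y (by rw [hr]; ring) h)
        · rw [mul_comm]
          exact le_add_left (key b a y (by rw [norm_sub_rev, hr]; ring) h)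
    _ ≤ ENNReal.ofReal (8 * π * r⁻¹) + ENNReal.ofReal (8 * π * r⁻¹) := by
        rw [lintegral_add_left (hFm a)]
        exact add_le_add (hFi a) (hFi b)
    _ = ENNReal.ofReal (32 * π) * ‖a - b‖ₑ⁻¹ := by
        rw [← ofReal_norm, ← ENNReal.ofReal_inv_of_pos hd, ← ENNReal.ofReal_mul (by positivity),
          ← ENNReal.ofReal_add (by positivity) (by positivity), hr]
        congr 1
        field_simp
        ring

/-- the fundamental theorem of calculus along a segment -/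
theorem seg_le {g : E3 → ℝ} (hg : ContDiff ℝ 1 g) (x y : E3) :
    ‖g y - g x‖ₑ ≤ ∫⁻ u in Set.Ioc (0 : ℝ) 1, ‖fderiv ℝ g (x + u • (y - x))‖ₑ * ‖y - x‖ₑ := by
  have hc : Continuous (fderiv ℝ g) := hg.continuous_fderiv one_ne_zero
  have hd : Differentiable ℝ g := hg.differentiable one_ne_zero
  have hder : ∀ u : ℝ, HasDerivAt (fun u : ℝ => g (x + u • (y - x)))
      (fderiv ℝ g (x + u • (y - x)) (y - x)) u := by
    intro u
    have h1 : HasDerivAt (fun u : ℝ => x + u • (y - x)) (y - x) u := by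
      simpa using ((hasDerivAt_id u).smul_const (y - x)).const_add x
    exact (hd _).hasFDerivAt.comp_hasDerivAt u h1
  have hcont : Continuous fun u : ℝ => fderiv ℝ g (x + u • (y - x)) (y - x) := by
    fun_prop
  have h := intervalIntegral.integral_eq_sub_of_hasDerivAt (a := 0) (b := 1)
    (fun u _ => hder u) (hcont.intervalIntegrable 0 1)
  simp only [one_smul, add_sub_cancel, zero_smul, add_zero] at h
  rw [← h, intervalIntegral.integral_of_le zero_le_one]
  refine (enorm_integral_le_lintegral_enorm _).trans (lintegral_mono fun u => ?_)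
  exact ContinuousLinearMap.le_opENorm _ _

theorem lint_homothety (x : E3) {u : ℝ} (hu : 0 < u) {H : E3 → ℝ≥0∞} (hH : Measurable H) :
    ∫⁻ y, H (x + u • (y - x)) = ENNReal.ofReal (u⁻¹ ^ 3) * ∫⁻ y, H y := by
  rw [lintegral_sub_right_eq_self (fun y : E3 => H (x + u • y)) x]
  have hm : Measurable fun y : E3 => H (x + y) := hH.comp (measurable_const_add x)
  have h1 := lintegral_map (μ := (volume : Measure E3)) hm (measurable_const_smul u)
  rw [← h1, Measure.map_addHaar_smul _ hu.ne', lintegral_smul_measure,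
    lintegral_add_left_eq_self H x]
  simp only [finrank_euclideanSpace, Fintype.card_fin, smul_eq_mul]
  rw [abs_of_pos (by positivity), inv_pow]

/-- potential estimate for the mean oscillation around a point of the ball -/
theorem osc_le {g : E3 → ℝ} (hg : ContDiff ℝ 1 g) {c x : E3} {R : ℝ} (hR : 0 < R)
    (hx : x ∈ ball c R) :
    ∫⁻ y in ball c R, ‖g y - g x‖ₑ ≤
      ENNReal.ofReal (8 * R ^ 3) * ∫⁻ y in ball c R, ‖fderiv ℝ g y‖ₑ * kk x y ^ 2 := by
  have hc : Continuous (fderiv ℝ g) := hg.continuous_fderiv one_ne_zero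
  set G : E3 → ℝ≥0∞ := fun y => ‖fderiv ℝ g y‖ₑ with hG
  have hGm : Measurable G := hc.measurable.enorm
  have hN : Measurable fun y : E3 => ‖y - x‖ₑ := (measurable_id.sub measurable_const).enorm
  set W : ℝ → E3 → ℝ≥0∞ := fun u y =>
    (Set.Ioi (‖y - x‖ / (2 * R))).indicator (fun u => ENNReal.ofReal (u⁻¹ ^ (3 + 1))) u with hW
  have hWm : Measurable fun p : ℝ × E3 => W p.1 p.2 := by
    have e : (fun p : ℝ × E3 => W p.1 p.2) =
        {p : ℝ × E3 | ‖p.2 - x‖ / (2 * R) < p.1}.indicator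
          fun p => ENNReal.ofReal (p.1⁻¹ ^ (3 + 1)) := by
      funext p
      simp only [hW, Set.indicator, Set.mem_Ioi, Set.mem_ofPred_eq]
    rw [e]
    refine Measurable.indicator (by fun_prop) ?_
    exact measurableSet_lt (by fun_prop) measurable_fst
  have step3 : ∀ u ∈ Set.Ioc (0 : ℝ) 1,
      ∫⁻ y in ball c R, G (x + u • (y - x)) * ‖y - x‖ₑ ≤
        ∫⁻ y in ball c R, G y * ‖y - x‖ₑ * W u y := by
    intro u hu
    have hu0 : 0 < u := hu.1
    set H : E3 → ℝ≥0∞ := (ball c R).indicator fun y => G y * ‖y - x‖ₑ * W u y with hH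
    have hHm : Measurable H :=
      ((hGm.mul hN).mul (hWm.comp (measurable_const.prodMk measurable_id))).indicator
        measurableSet_ball
    have h1 : ∀ y ∈ ball c R, G (x + u • (y - x)) * ‖y - x‖ₑ ≤
        ENNReal.ofReal (u ^ 3) * H (x + u • (y - x)) := by
      intro y hy
      have hmem : x + u • (y - x) ∈ ball c R :=
        (convex_ball c R).add_smul_sub_mem hx hy ⟨hu0.le, hu.2⟩
      have hyx : ‖y - x‖ < 2 * R := by
        have h1 := dist_triangle_right y x c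
        rw [mem_ball] at hx hy
        rw [← dist_eq_norm]
        linarith
      have hnorm : ‖x + u • (y - x) - x‖ = u * ‖y - x‖ := by
        rw [add_sub_cancel_left, norm_smul, Real.norm_of_nonneg hu0.le]
      have hin : u ∈ Set.Ioi (‖x + u • (y - x) - x‖ / (2 * R)) := by
        rw [Set.mem_Ioi, hnorm, div_lt_iff₀ (by positivity)]
        exact mul_lt_mul_of_pos_left hyx hu0
      simp only [hH, hW]
      rw [Set.indicator_of_mem hmem, Set.indicator_of_mem hin,
        ← ofReal_norm (x + u • (y - x) - x), hnorm, ← ofReal_norm (y - x), mul_left_comm,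
        ← ENNReal.ofReal_mul (by positivity), mul_assoc, ← ENNReal.ofReal_mul (by positivity)]
      refine le_of_eq ?_
      congr 2
      rw [show (3 + 1 : ℕ) = 4 from rfl]
      field_simp
    calc ∫⁻ y in ball c R, G (x + u • (y - x)) * ‖y - x‖ₑ
        ≤ ∫⁻ y in ball c R, ENNReal.ofReal (u ^ 3) * H (x + u • (y - x)) :=
          setLIntegral_mono' measurableSet_ball h1
      _ ≤ ∫⁻ y, ENNReal.ofReal (u ^ 3) * H (x + u • (y - x)) := setLIntegral_le_lintegral _ _
      _ = ∫⁻ y, H y := by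
          rw [lintegral_const_mul' _ _ ENNReal.ofReal_ne_top, lint_homothety x hu0 hHm,
            ← mul_assoc, ← ENNReal.ofReal_mul (by positivity)]
          have : u ^ 3 * u⁻¹ ^ 3 = 1 := by field_simp
          rw [this, ENNReal.ofReal_one, one_mul]
      _ = _ := lintegral_indicator measurableSet_ball _
  have step4 : ∀ y : E3, ‖y - x‖ₑ * ∫⁻ u in Set.Ioc (0 : ℝ) 1, W u y ≤
      ENNReal.ofReal (8 * R ^ 3) * kk x y ^ 2 := by
    intro y
    by_cases hy : y = x
    · simp [hy]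
    have hd : 0 < ‖y - x‖ := norm_pos_iff.2 (sub_ne_zero.2 hy)
    have h1 : ∫⁻ u in Set.Ioc (0 : ℝ) 1, W u y ≤ ENNReal.ofReal ((‖y - x‖ / (2 * R))⁻¹ ^ 3) := by
      refine (setLIntegral_le_lintegral _ _).trans ?_
      simp only [hW]
      rw [lintegral_indicator measurableSet_Ioi]
      exact lint_inv_pow (by positivity) 3 (by norm_num)
    refine (mul_le_mul_right h1 _).trans (le_of_eq ?_)
    rw [← ofReal_norm, kk_eq, ← ENNReal.ofReal_inv_of_pos hd, ← ENNReal.ofReal_pow (by positivity),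
      ← ENNReal.ofReal_mul (by positivity), ← ENNReal.ofReal_mul (by positivity)]
    congr 1
    field_simp
    ring
  have hm1 : Measurable fun p : E3 × ℝ => G (x + p.2 • (p.1 - x)) * ‖p.1 - x‖ₑ :=
    (hGm.comp (by fun_prop)).mul (hN.comp measurable_fst)
  have hm2 : Measurable fun p : ℝ × E3 => G p.2 * ‖p.2 - x‖ₑ * W p.1 p.2 :=
    ((hGm.comp measurable_snd).mul (hN.comp measurable_snd)).mul hWm
  calc ∫⁻ y in ball c R, ‖g y - g x‖ₑ
      ≤ ∫⁻ y in ball c R, ∫⁻ u in Set.Ioc (0 : ℝ) 1, G (x + u • (y - x)) * ‖y - x‖ₑ :=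
        lintegral_mono fun y => seg_le hg x y
    _ = ∫⁻ u in Set.Ioc (0 : ℝ) 1, ∫⁻ y in ball c R, G (x + u • (y - x)) * ‖y - x‖ₑ :=
        lintegral_lintegral_swap hm1.aemeasurable
    _ ≤ ∫⁻ u in Set.Ioc (0 : ℝ) 1, ∫⁻ y in ball c R, G y * ‖y - x‖ₑ * W u y :=
        setLIntegral_mono' measurableSet_Ioc step3
    _ = ∫⁻ y in ball c R, ∫⁻ u in Set.Ioc (0 : ℝ) 1, G y * ‖y - x‖ₑ * W u y :=
        lintegral_lintegral_swap hm2.aemeasurable
    _ ≤ ∫⁻ y in ball c R, ENNReal.ofReal (8 * R ^ 3) * (G y * kk x y ^ 2) := by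
        refine lintegral_mono fun y => ?_
        have hWy : Measurable fun u => W u y := hWm.of_uncurry_right
        rw [lintegral_const_mul _ hWy, mul_assoc, mul_left_comm (ENNReal.ofReal _)]
        exact mul_le_mul_right (step4 y) _
    _ = _ := lintegral_const_mul' _ _ ENNReal.ofReal_ne_top

/-- the Riesz potential of the gradient over the ball -/
noncomputable def TT (g : E3 → ℝ) (c : E3) (R : ℝ) (x : E3) : ℝ≥0∞ :=
  ∫⁻ y in ball c R, ‖fderiv ℝ g y‖ₑ * kk x y ^ 2

theorem measurable_TT {g : E3 → ℝ} (hg : ContDiff ℝ 1 g) (c : E3) (R : ℝ) :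
    Measurable (TT g c R) := by
  have hc : Continuous (fderiv ℝ g) := hg.continuous_fderiv one_ne_zero
  have h : Measurable fun p : E3 × E3 => ‖fderiv ℝ g p.2‖ₑ * kk p.1 p.2 ^ 2 :=
    (hc.measurable.enorm.comp measurable_snd).mul (measurable_kk.pow_const 2)
  exact h.lintegral_prod_right'

theorem pt_le {g : E3 → ℝ} (hg : ContDiff ℝ 1 g) {c x a : E3} {R : ℝ} (hR : 0 < R)
    (hx : x ∈ ball c R) (ha : a ∈ ball c R) (h0 : g a = 0) :
    ‖g x‖ₑ ≤ 2 * (TT g c R x + TT g c R a) := by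
  have hm : ∀ p : E3, Measurable fun y => ‖g y - g p‖ₑ := fun p =>
    (hg.continuous.measurable.sub measurable_const).enorm
  have h1 : ENNReal.ofReal (4 * R ^ 3) * ‖g x‖ₑ ≤
      ENNReal.ofReal (4 * R ^ 3) * (2 * (TT g c R x + TT g c R a)) := by
    calc ENNReal.ofReal (4 * R ^ 3) * ‖g x‖ₑ ≤ ‖g x‖ₑ * volume (ball c R) := by
          rw [mul_comm, volume_ball3 c hR.le]
          gcongr
          linarith [Real.pi_gt_three]
      _ = ∫⁻ _ in ball c R, ‖g x‖ₑ := (setLIntegral_const _ _).symm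
      _ ≤ ∫⁻ y in ball c R, ‖g y - g x‖ₑ + ‖g y - g a‖ₑ := by
          refine lintegral_mono fun y => ?_
          have e : g x = (g y - g a) - (g y - g x) := by rw [h0]; ring
          calc ‖g x‖ₑ = ‖(g y - g a) - (g y - g x)‖ₑ := by rw [← e]
            _ ≤ ‖g y - g a‖ₑ + ‖g y - g x‖ₑ := enorm_sub_le
            _ = _ := add_comm _ _
      _ ≤ ENNReal.ofReal (8 * R ^ 3) * TT g c R x + ENNReal.ofReal (8 * R ^ 3) * TT g c R a := by
          rw [lintegral_add_left (hm x)]
          exact add_le_add (osc_le hg hR hx) (osc_le hg hR ha)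
      _ = _ := by
          rw [← mul_add, ← mul_assoc]
          congr 1
          rw [← ENNReal.ofReal_ofNat 2, ← ENNReal.ofReal_mul (by positivity)]
          congr 1
          ring
  exact (ENNReal.mul_le_mul_iff_right (by simp; positivity) ENNReal.ofReal_ne_top).1 h1

theorem lint_ball_le {c x : E3} {R : ℝ} (hx : x ∈ ball c R) :
    ∫⁻ y in ball c R, kk x y ^ 2 ≤ ENNReal.ofReal (8 * π * R) := by
  have hsub : ball c R ⊆ ball x (2 * R) := by
    intro y hy
    have h1 := dist_triangle_right y x c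
    rw [mem_ball] at hx hy ⊢
    linarith
  refine (lintegral_mono_set hsub).trans ((lint_ball x _).trans (le_of_eq ?_))
  congr 1
  ring

theorem lint_TT_sq {g : E3 → ℝ} (hg : ContDiff ℝ 1 g) (c : E3) (R : ℝ) :
    ∫⁻ x in ball c R, TT g c R x ^ 2 ≤
      ENNReal.ofReal (8 * π * R) ^ 2 * ∫⁻ y in ball c R, ‖fderiv ℝ g y‖ₑ ^ 2 := by
  have hc : Continuous (fderiv ℝ g) := hg.continuous_fderiv one_ne_zero
  have hGm : Measurable fun y => ‖fderiv ℝ g y‖ₑ := hc.measurable.enorm
  have h1 : ∀ x ∈ ball c R, TT g c R x ^ 2 ≤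
      ENNReal.ofReal (8 * π * R) * ∫⁻ y in ball c R, ‖fderiv ℝ g y‖ₑ ^ 2 * kk x y ^ 2 := by
    intro x hx
    have h := cs (volume.restrict (ball c R)) (f := fun y => ‖fderiv ℝ g y‖ₑ * kk x y)
      (g := kk x) (hGm.mul (measurable_kk_right x)).aemeasurable
      (measurable_kk_right x).aemeasurable
    simp only [mul_pow] at h
    calc TT g c R x ^ 2 = (∫⁻ y in ball c R, ‖fderiv ℝ g y‖ₑ * kk x y * kk x y) ^ 2 := by
          simp only [TT, pow_two, mul_assoc]
      _ ≤ _ := h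
      _ ≤ _ := by
          rw [mul_comm]
          exact mul_le_mul_left (lint_ball_le hx) _
  have hm : Measurable fun p : E3 × E3 => ‖fderiv ℝ g p.2‖ₑ ^ 2 * kk p.1 p.2 ^ 2 :=
    ((hGm.comp measurable_snd).pow_const 2).mul (measurable_kk.pow_const 2)
  calc ∫⁻ x in ball c R, TT g c R x ^ 2
      ≤ ∫⁻ x in ball c R, ENNReal.ofReal (8 * π * R) *
          ∫⁻ y in ball c R, ‖fderiv ℝ g y‖ₑ ^ 2 * kk x y ^ 2 :=
        setLIntegral_mono' measurableSet_ball h1
    _ = ENNReal.ofReal (8 * π * R) *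
          ∫⁻ y in ball c R, ∫⁻ x in ball c R, ‖fderiv ℝ g y‖ₑ ^ 2 * kk x y ^ 2 := by
        rw [lintegral_const_mul' _ _ ENNReal.ofReal_ne_top,
          lintegral_lintegral_swap hm.aemeasurable]
    _ ≤ ENNReal.ofReal (8 * π * R) *
          ∫⁻ y in ball c R, ENNReal.ofReal (8 * π * R) * ‖fderiv ℝ g y‖ₑ ^ 2 := by
        refine mul_le_mul_right (setLIntegral_mono' measurableSet_ball fun y hy => ?_) _
        simp only [kk_symm _ y]
        rw [lintegral_const_mul _ ((measurable_kk_right y).pow_const 2), mul_comm]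
        exact mul_le_mul_left (lint_ball_le hy) _
    _ = _ := by
        rw [lintegral_const_mul' _ _ ENNReal.ofReal_ne_top, ← mul_assoc, pow_two]

theorem lint_V_sq {z : ℝ → E3} (hz : Continuous z) (s : ℝ) :
    ∫⁻ y, (∫⁻ u in Set.Icc 0 s, kk (z u) y ^ 2) ^ 2 ≤ ENNReal.ofReal (32 * π) * energy z s := by
  have hzm := hz.measurable
  have hk3 : Measurable fun p : (E3 × ℝ) × ℝ => kk (z p.1.2) p.1.1 ^ 2 * kk (z p.2) p.1.1 ^ 2 :=
    ((meas_kk (hzm.comp measurable_fst.snd) measurable_fst.fst).pow_const 2).mul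
      ((meas_kk (hzm.comp measurable_snd) measurable_fst.fst).pow_const 2)
  have hk4 : Measurable fun p : E3 × ℝ =>
      ∫⁻ v in Set.Icc 0 s, kk (z p.2) p.1 ^ 2 * kk (z v) p.1 ^ 2 := hk3.lintegral_prod_right'
  calc ∫⁻ y, (∫⁻ u in Set.Icc 0 s, kk (z u) y ^ 2) ^ 2
      = ∫⁻ y, ∫⁻ u in Set.Icc 0 s, ∫⁻ v in Set.Icc 0 s, kk (z u) y ^ 2 * kk (z v) y ^ 2 := by
        refine lintegral_congr fun y => ?_
        have hy : Measurable fun u => kk (z u) y ^ 2 :=
          (meas_kk hzm measurable_const).pow_const 2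
        rw [lintegral_lintegral_mul hy.aemeasurable hy.aemeasurable, pow_two]
    _ = ∫⁻ u in Set.Icc 0 s, ∫⁻ y, ∫⁻ v in Set.Icc 0 s, kk (z u) y ^ 2 * kk (z v) y ^ 2 :=
        lintegral_lintegral_swap hk4.aemeasurable
    _ ≤ ∫⁻ u in Set.Icc 0 s, ∫⁻ v in Set.Icc 0 s,
          ENNReal.ofReal (32 * π) * ‖z u - z v‖ₑ⁻¹ := by
        refine lintegral_mono fun u => ?_
        have hu : Measurable fun p : E3 × ℝ => kk (z u) p.1 ^ 2 * kk (z p.2) p.1 ^ 2 :=
          ((meas_kk measurable_const measurable_fst).pow_const 2).mul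
            ((meas_kk (hzm.comp measurable_snd) measurable_fst).pow_const 2)
        refine (lintegral_lintegral_swap hu.aemeasurable).trans_le ?_
        exact lintegral_mono fun v => lint_conv _ _
    _ = _ := by
        simp only [lintegral_const_mul' _ _ ENNReal.ofReal_ne_top, energy]

theorem exists_TT_le {g : E3 → ℝ} (hg : ContDiff ℝ 1 g) (c : E3) (R : ℝ) {z : ℝ → E3}
    (hz : Continuous z) {s I : ℝ} (hs : 0 < s) (hI : 0 ≤ I)
    (hE : energy z s ≤ ENNReal.ofReal (I * s ^ 2)) :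
    ∃ u ∈ Set.Icc 0 s, TT g c R (z u) ^ 2 ≤
      ENNReal.ofReal (32 * π * I) * ∫⁻ y in ball c R, ‖fderiv ℝ g y‖ₑ ^ 2 := by
  have hc : Continuous (fderiv ℝ g) := hg.continuous_fderiv one_ne_zero
  have hGm : Measurable fun y => ‖fderiv ℝ g y‖ₑ := hc.measurable.enorm
  have hvol : volume (Set.Icc 0 s) = ENNReal.ofReal s := by simp
  have hs0 : ENNReal.ofReal s ≠ 0 := by simpa using hs
  have hT : Measurable fun u => TT g c R (z u) := (measurable_TT hg c R).comp hz.measurable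
  obtain ⟨u, hu, hle⟩ := exists_le_setLAverage (μ := volume) (s := Set.Icc 0 s)
    (by rw [hvol]; exact hs0) (by rw [hvol]; exact ENNReal.ofReal_ne_top) hT.aemeasurable
  refine ⟨u, hu, ?_⟩
  rw [setLAverage_eq, hvol, ENNReal.le_div_iff_mul_le (Or.inl hs0)
    (Or.inl ENNReal.ofReal_ne_top)] at hle
  have hk : Measurable fun p : E3 × ℝ => kk (z p.2) p.1 ^ 2 :=
    (meas_kk (hz.measurable.comp measurable_snd) measurable_fst).pow_const 2
  have hV : Measurable fun y => ∫⁻ u in Set.Icc 0 s, kk (z u) y ^ 2 := hk.lintegral_prod_right'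
  have hW : ∫⁻ u in Set.Icc 0 s, TT g c R (z u) =
      ∫⁻ y in ball c R, ‖fderiv ℝ g y‖ₑ * ∫⁻ u in Set.Icc 0 s, kk (z u) y ^ 2 := by
    have hm : Measurable fun p : E3 × ℝ => ‖fderiv ℝ g p.1‖ₑ * kk (z p.2) p.1 ^ 2 :=
      (hGm.comp measurable_fst).mul hk
    simp only [TT]
    rw [← lintegral_lintegral_swap hm.aemeasurable]
    refine lintegral_congr fun y => ?_
    exact lintegral_const_mul _ ((meas_kk hz.measurable measurable_const).pow_const 2)
  have h2 : (TT g c R (z u) * ENNReal.ofReal s) ^ 2 ≤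
      (ENNReal.ofReal (32 * π * I) * ∫⁻ y in ball c R, ‖fderiv ℝ g y‖ₑ ^ 2) *
        ENNReal.ofReal s ^ 2 := by
    refine (pow_le_pow_left' hle 2).trans ?_
    rw [hW]
    refine (cs _ hGm.aemeasurable hV.aemeasurable).trans ?_
    rw [mul_comm (ENNReal.ofReal (32 * π * I)), mul_assoc]
    refine mul_le_mul_right ((setLIntegral_le_lintegral _ _).trans ((lint_V_sq hz s).trans
      ((mul_le_mul_right hE _).trans (le_of_eq ?_)))) _
    rw [← ENNReal.ofReal_pow hs.le, ← ENNReal.ofReal_mul (by positivity),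
      ← ENNReal.ofReal_mul (by positivity), mul_assoc (32 * π)]
  rw [mul_pow] at h2
  exact (ENNReal.mul_le_mul_iff_left (pow_ne_zero 2 hs0)
    (ENNReal.pow_ne_top ENNReal.ofReal_ne_top)).1 h2

theorem ofReal_integral_sq {F : Type*} [NormedAddCommGroup F] {f : E3 → F} (hf : Continuous f)
    (c : E3) (R : ℝ) :
    ENNReal.ofReal (∫ x in ball c R, ‖f x‖ ^ 2) = ∫⁻ x in ball c R, ‖f x‖ₑ ^ 2 := by
  have hi : IntegrableOn (fun x => ‖f x‖ ^ 2) (ball c R) :=
    ((hf.norm.pow 2).continuousOn.integrableOn_compact (isCompact_closedBall c R)).mono_set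
      ball_subset_closedBall
  rw [ofReal_integral_eq_lintegral_ofReal hi (Eventually.of_forall fun x => by positivity)]
  refine lintegral_congr fun x => ?_
  rw [ENNReal.ofReal_pow (norm_nonneg _), ofReal_norm]

theorem add_sq_le (a b : ℝ≥0∞) : (2 * (a + b)) ^ 2 ≤ 16 * a ^ 2 + 16 * b ^ 2 := by
  rcases le_total a b with h | h
  · calc (2 * (a + b)) ^ 2 ≤ (2 * (b + b)) ^ 2 := by gcongr
      _ = 16 * b ^ 2 := by ring
      _ ≤ _ := le_add_self
  · calc (2 * (a + b)) ^ 2 ≤ (2 * (a + a)) ^ 2 := by gcongr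
      _ = 16 * a ^ 2 := by ring
      _ ≤ _ := le_self_add

end Poinc

open Poinc in
theorem poinc : PoincStmt := by
  refine ⟨1024 * π ^ 2, by positivity, ?_⟩
  intro g hg c R hR z s I hs hI hz hzg hE
  have hc : Continuous (fderiv ℝ g) := hg.continuous_fderiv one_ne_zero
  obtain ⟨u, hu, hM⟩ := exists_TT_le hg c R hz hs hI hE
  have hD := ofReal_integral_sq hc c R
  have hg2 := ofReal_integral_sq hg.continuous c R
  simp only [Real.norm_eq_abs, sq_abs] at hg2
  have hD0 : 0 ≤ ∫ x in ball c R, ‖fderiv ℝ g x‖ ^ 2 := integral_nonneg fun x => by positivity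
  have hTm := measurable_TT hg c R
  have hT := lint_TT_sq hg c R
  rw [← hD] at hM hT
  set D := ∫ x in ball c R, ‖fderiv ℝ g x‖ ^ 2
  refine (ENNReal.ofReal_le_ofReal_iff (by positivity)).1 ?_
  rw [hg2]
  calc ∫⁻ x in ball c R, ‖g x‖ₑ ^ 2
      ≤ ∫⁻ x in ball c R, 16 * TT g c R x ^ 2 + 16 * TT g c R (z u) ^ 2 :=
        setLIntegral_mono' measurableSet_ball fun x hx =>
          (pow_le_pow_left' (pt_le hg hR hx (hzg u hu).1 (hzg u hu).2) 2).trans (add_sq_le _ _)
    _ = 16 * (∫⁻ x in ball c R, TT g c R x ^ 2) +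
          16 * TT g c R (z u) ^ 2 * volume (ball c R) := by
        rw [lintegral_add_right _ measurable_const, lintegral_const_mul _ (hTm.pow_const 2),
          setLIntegral_const]
    _ ≤ 16 * (ENNReal.ofReal (8 * π * R) ^ 2 * ENNReal.ofReal D) +
          16 * (ENNReal.ofReal (32 * π * I) * ENNReal.ofReal D) *
            ENNReal.ofReal (4 * π / 3 * R ^ 3) := by
        rw [volume_ball3 c hR.le]
        gcongr
    _ = ENNReal.ofReal (16 * ((8 * π * R) ^ 2 * D) +
          16 * (32 * π * I * D) * (4 * π / 3 * R ^ 3)) := by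
        rw [← ENNReal.ofReal_pow (by positivity), ← ENNReal.ofReal_mul (by positivity),
          ← ENNReal.ofReal_mul (by positivity), ← ENNReal.ofReal_ofNat 16,
          ← ENNReal.ofReal_mul (by positivity), ← ENNReal.ofReal_mul (by positivity),
          ← ENNReal.ofReal_mul (by positivity),
          ← ENNReal.ofReal_add (by positivity) (by positivity)]
    _ ≤ _ := by
        refine ENNReal.ofReal_le_ofReal ?_
        have : 0 ≤ π ^ 2 * R ^ 3 * I * D := by positivity
        nlinarith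

end Pool.Agent.MP_dce92b_pr

end MrgPart3

-- marker of a merged file
example : 731051 + 541046 = 731051 + 541046 := rfl
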