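import Pool.Agent.MP_dce92b_pr.Per
import Pool.Agent.MP_dce92b_pr.Spec
import Pool.Agent.MP_dce92b_pr.Gauss

-- ======== part 0: formerly Pool.Agent.MP_dce92b_pr.Chain
section MrgPart0

/-! BTOR module CHAIN: path space and the Markov chain formula. -/

open MeasureTheory ProbabilityTheory Filter Topology Metric Real
open scoped NNReal ENNReal

namespace Pool.Agent.MP_dce92b_pr

variable {μ : Measure Path0}

theorem measurable_eval (t : ℝ≥0) : Measurable fun w : Path0 => w.1 t :=
  (measurable_pi_apply t).comp measurable_subtype_coe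
theorem measurable_of_eval {α : Type*} [MeasurableSpace α] {W : α → Path0}
    (h : ∀ t, Measurable fun a => (W a).1 t) : Measurable W :=
  Measurable.subtype_mk (f := fun a => (W a).1) (h := fun a => (W a).2) (measurable_pi_lambda _ h)
theorem measurable_stop (t : ℝ≥0) : Measurable (Path0.stop t) :=
  measurable_of_eval fun u => measurable_eval (min u t)
theorem measurable_shift (t : ℝ≥0) : Measurable (Path0.shift t) :=
  measurable_of_eval fun u => (measurable_eval (t + u)).sub (measurable_eval t)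
theorem measurable_eval_uncurry : Measurable fun p : Path0 × ℝ≥0 => p.1.1 p.2 :=
  (measurable_uncurry_of_continuous_of_measurable (u := fun (t : ℝ≥0) (w : Path0) => w.1 t)
    (fun w => w.2.1) measurable_eval).comp measurable_swap
theorem stop_apply (t u : ℝ≥0) (w : Path0) : (w.stop t).1 u = w.1 (min u t) := rfl
theorem shift_apply (t u : ℝ≥0) (w : Path0) : (w.shift t).1 u = w.1 (t + u) - w.1 t := rfl
theorem stop_apply_of_le {t u : ℝ≥0} (h : u ≤ t) (w : Path0) : (w.stop t).1 u = w.1 u := by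
  rw [stop_apply, min_eq_left h]
theorem shift_zero (w : Path0) : w.shift 0 = w := by
  refine Subtype.ext (funext fun u => ?_)
  rw [shift_apply, zero_add, w.2.2, sub_zero]
theorem shift_shift (s t : ℝ≥0) (w : Path0) : (w.shift s).shift t = w.shift (s + t) := by
  refine Subtype.ext (funext fun u => ?_)
  simp only [shift_apply, add_assoc]
  abel
theorem measurableSet_sup (s : ℝ≥0) (b : ℝ) :
    MeasurableSet {w : Path0 | ∀ u ≤ s, ‖w.1 u‖ ≤ b} := by
  have h : {w : Path0 | ∀ u ≤ s, ‖w.1 u‖ ≤ b}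
      = ⋂ n : ℕ, {w : Path0 | ‖w.1 (min (TopologicalSpace.denseSeq ℝ≥0 n) s)‖ ≤ b} := by
    ext w
    simp only [Set.mem_ofPred_eq, Set.mem_iInter]
    refine ⟨fun h n => h _ (min_le_right _ _), fun h u hu => ?_⟩
    have h1 : ∀ u : ℝ≥0, ‖w.1 (min u s)‖ ≤ b := fun u =>
      (TopologicalSpace.denseRange_denseSeq ℝ≥0).induction_on u
        (isClosed_le (w.2.1.comp (continuous_id.min continuous_const)).norm continuous_const) h
    simpa [min_eq_left hu] using h1 u
  rw [h]
  exact MeasurableSet.iInter fun n => measurableSet_le (measurable_eval _).norm measurable_const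
theorem measurable_energy (s : ℝ) :
    Measurable fun w : Path0 => energy (fun u => w.1 u.toNNReal) s := by
  have h1 : Measurable fun p : (Path0 × ℝ) × ℝ => p.1.1.1 p.1.2.toNNReal :=
    measurable_eval_uncurry.comp
      (measurable_fst.fst.prodMk (measurable_real_toNNReal.comp measurable_fst.snd))
  have h2 : Measurable fun p : (Path0 × ℝ) × ℝ => p.1.1.1 p.2.toNNReal :=
    measurable_eval_uncurry.comp
      (measurable_fst.fst.prodMk (measurable_real_toNNReal.comp measurable_snd))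
  have h3 : Measurable fun p : Path0 × ℝ =>
      ∫⁻ v in Set.Icc 0 s, ‖p.1.1 p.2.toNNReal - p.1.1 v.toNNReal‖ₑ⁻¹ :=
    Measurable.lintegral_prod_right' (h1.sub h2).enorm.inv
  exact Measurable.lintegral_prod_right' h3
theorem measurableSet_Good (s : ℝ≥0) (b A : ℝ) : MeasurableSet (Good s b A) :=
  (measurableSet_sup s b).inter (measurableSet_le (measurable_energy s) measurable_const)
/-- the event Good only depends on the path up to time s -/
theorem mem_Good_congr {s : ℝ≥0} {b A : ℝ} {w w' : Path0} (h : ∀ u ≤ s, w.1 u = w'.1 u) :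
    w ∈ Good s b A ↔ w' ∈ Good s b A := by
  have h1 : ∀ u ∈ Set.Icc (0 : ℝ) s, w.1 u.toNNReal = w'.1 u.toNNReal := fun u hu =>
    h _ (Real.toNNReal_le_iff_le_coe.2 hu.2)
  have h2 : energy (fun u => w.1 u.toNNReal) s = energy (fun u => w'.1 u.toNNReal) s := by
    unfold energy
    refine setLIntegral_congr_fun measurableSet_Icc fun u hu => ?_
    refine setLIntegral_congr_fun measurableSet_Icc fun v hv => ?_
    simp only [h1 u hu, h1 v hv]
  simp only [Good, Set.mem_ofPred_eq, h2]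
  refine and_congr_left fun _ => forall₂_congr fun u hu => by rw [h u hu]

theorem IsWiener.map_shift (hμ : IsWiener μ) (t : ℝ≥0) : μ.map (Path0.shift t) = μ := by
  have := hμ.prob
  have : IsProbabilityMeasure (μ.map (Path0.stop t)) :=
    Measure.isProbabilityMeasure_map (measurable_stop t).aemeasurable
  have h := congrArg (Measure.map Prod.snd) (hμ.markov t)
  rw [Measure.map_map measurable_snd ((measurable_stop t).prodMk (measurable_shift t)),
    Measure.map_snd_prod, measure_univ, one_smul] at h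
  exact h
theorem IsWiener.law_sub (hμ : IsWiener μ) {u v : ℝ≥0} (huv : u < v) :
    μ.map (fun w => w.1 v - w.1 u) = gam ((v : ℝ) - u) := by
  have h := hμ.law (v - u) (tsub_pos_of_lt huv)
  rw [NNReal.coe_sub huv.le] at h
  rw [← h]
  conv_rhs => rw [← hμ.map_shift u]
  rw [Measure.map_map (measurable_eval _) (measurable_shift u)]
  congr 1
  funext w
  simp only [Function.comp_apply, shift_apply, add_tsub_cancel_of_le huv.le]
theorem IsWiener.integral_eval (hμ : IsWiener μ) {t : ℝ≥0} (ht : 0 < t) {g : E3 → ℝ} (hg : BM g)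
    (x : E3) : ∫ w, g (x + w.1 t) ∂μ = Pt t g x := by
  unfold Pt
  rw [← hμ.law t ht, integral_map (measurable_eval t).aemeasurable]
  exact (hg.meas.comp (measurable_const_add x)).aestronglyMeasurable
theorem integrable_of_bdd {α : Type*} [MeasurableSpace α] {ν : Measure α} [IsFiniteMeasure ν]
    {f : α → ℝ} (hf : Measurable f) {C : ℝ} (hC : ∀ a, |f a| ≤ C) : Integrable f ν :=
  Integrable.of_bound hf.aestronglyMeasurable C (Eventually.of_forall hC)
/-- the weak Markov property as a formula for integrals -/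
theorem IsWiener.integral_split (hμ : IsWiener μ) (t : ℝ≥0) {Φ : Path0 → Path0 → ℝ}
    (hΦ : Measurable (Function.uncurry Φ)) {C : ℝ} (hC : ∀ w w', |Φ w w'| ≤ C) :
    ∫ w, Φ (w.stop t) (w.shift t) ∂μ = ∫ w, ∫ w', Φ (w.stop t) w' ∂μ ∂μ := by
  have := hμ.prob
  have : IsProbabilityMeasure (μ.map (Path0.stop t)) :=
    Measure.isProbabilityMeasure_map (measurable_stop t).aemeasurable
  have h1 := integral_map (μ := μ) ((measurable_stop t).prodMk (measurable_shift t)).aemeasurable
    (f := Function.uncurry Φ) hΦ.aestronglyMeasurable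
  rw [hμ.markov t, integral_prod _ (integrable_of_bdd hΦ (C := C) fun p => hC p.1 p.2),
    integral_map (measurable_stop t).aemeasurable
      hΦ.stronglyMeasurable.integral_prod_right'.aestronglyMeasurable] at h1
  exact h1.symm

theorem Qop_BM (hμ : IsWiener μ) (t : ℝ≥0) {F : E3 → Path0 → ℝ}
    (hF : Measurable (Function.uncurry F)) (h1 : ∀ x w, |F x w| ≤ 1) {g : E3 → ℝ} (hg : BM g) :
    BM (Qop μ t F g) := by
  have := hμ.prob
  obtain ⟨C, hC⟩ := hg.bdd
  refine ⟨?_, C, fun x => ?_⟩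
  · have h2 : Measurable fun p : E3 × Path0 => F p.1 (p.2.stop t) * g (p.1 + p.2.1 t) :=
      (hF.comp (measurable_fst.prodMk ((measurable_stop t).comp measurable_snd))).mul
        (hg.meas.comp (measurable_fst.add ((measurable_eval t).comp measurable_snd)))
    exact h2.stronglyMeasurable.integral_prod_right'.measurable
  · have h2 := norm_integral_le_of_norm_le_const (μ := μ)
      (f := fun w : Path0 => F x (w.stop t) * g (x + w.1 t)) (C := C)
      (Eventually.of_forall fun w => by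
        rw [Real.norm_eq_abs, abs_mul]
        exact (mul_le_of_le_one_left (abs_nonneg _) (h1 _ _)).trans (hC _))
    simpa [Qop] using h2
theorem Qop_BP (hμ : IsWiener μ) (t : ℝ≥0) {F : E3 → Path0 → ℝ}
    (hF : Measurable (Function.uncurry F)) (h1 : ∀ x w, |F x w| ≤ 1)
    (hp : ∀ x k w, F (x + lat k) w = F x w) {g : E3 → ℝ} (hg : BP g) : BP (Qop μ t F g) := by
  refine ⟨Qop_BM hμ t hF h1 hg.toBM, fun x k => ?_⟩
  unfold Qop
  refine integral_congr_ae (Eventually.of_forall fun w => ?_)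
  simp only [hp]
  rw [add_right_comm, hg.per]
theorem Qop_nonneg (t : ℝ≥0) {F : E3 → Path0 → ℝ} (h0 : ∀ x w, 0 ≤ F x w) {g : E3 → ℝ}
    (hg : ∀ x, 0 ≤ g x) (x : E3) : 0 ≤ Qop μ t F g x :=
  integral_nonneg fun _ => mul_nonneg (h0 _ _) (hg _)
theorem measurable_chain (t : ℝ≥0) {F : E3 → Path0 → ℝ} (hF : Measurable (Function.uncurry F))
    {g : E3 → ℝ} (hg : Measurable g) (n : ℕ) :
    Measurable fun p : E3 × Path0 =>
      (∏ k ∈ Finset.range n, F (p.1 + p.2.1 (k * t)) ((p.2.shift (k * t)).stop t)) *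
        g (p.1 + p.2.1 (n * t)) := by
  refine Measurable.mul (Finset.measurable_prod _ fun k _ => ?_)
    (hg.comp (measurable_fst.add ((measurable_eval _).comp measurable_snd)))
  exact hF.comp ((measurable_fst.add ((measurable_eval _).comp measurable_snd)).prodMk
    ((measurable_stop t).comp ((measurable_shift _).comp measurable_snd)))
/-- the chain formula -/
theorem IsWiener.chain (hμ : IsWiener μ) (t : ℝ≥0) {F : E3 → Path0 → ℝ}
    (hF : Measurable (Function.uncurry F)) (h1 : ∀ x w, |F x w| ≤ 1) {g : E3 → ℝ} (hg : BM g)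
    (n : ℕ) (x : E3) :
    ∫ w, (∏ k ∈ Finset.range n, F (x + w.1 (k * t)) ((w.shift (k * t)).stop t)) *
        g (x + w.1 (n * t)) ∂μ = (Qop μ t F)^[n] g x := by
  have := hμ.prob
  obtain ⟨C, hC⟩ := hg.bdd
  induction n generalizing x with
  | zero =>
    have h2 : ∀ w : Path0, w.1 0 = 0 := fun w => w.2.2
    simp [h2]
  | succ n ih =>
    rw [Function.iterate_succ_apply']
    have h2 := hμ.integral_split t (Φ := fun w w' => F x w *
      ((∏ k ∈ Finset.range n, F (x + w.1 t + w'.1 (k * t)) ((w'.shift (k * t)).stop t)) *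
        g (x + w.1 t + w'.1 (n * t)))) (C := C) ?_ ?_
    · unfold Qop
      simp only [integral_const_mul, stop_apply_of_le le_rfl] at h2
      simp only [ih] at h2
      unfold Qop at h2
      rw [← h2]
      refine integral_congr_ae (Eventually.of_forall fun w => ?_)
      have h3 : ∀ k : ℕ, x + w.1 t + (w.shift t).1 (k * t) = x + w.1 ((k + 1 : ℕ) * t) := by
        intro k
        rw [shift_apply, Nat.cast_succ, add_mul, one_mul, add_comm (k * t) t]
        abel
      have h4 : ∀ k : ℕ, (w.shift t).shift (k * t) = w.shift ((k + 1 : ℕ) * t) := by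
        intro k
        rw [shift_shift, Nat.cast_succ, add_mul, one_mul, add_comm (k * t) t]
      simp only [h3, h4]
      rw [Finset.prod_range_succ', Nat.cast_zero, zero_mul, shift_zero, w.2.2, add_zero]
      ring
    · refine (hF.comp (measurable_const.prodMk measurable_fst)).mul ?_
      exact (measurable_chain t hF hg.meas n).comp
        ((((measurable_eval t).comp measurable_fst).const_add x).prodMk measurable_snd)
    · intro w w'
      rw [abs_mul, abs_mul, Finset.abs_prod]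
      refine (mul_le_of_le_one_left (by positivity) (h1 _ _)).trans ?_
      refine (mul_le_of_le_one_left (abs_nonneg _) ?_).trans (hC _)
      exact Finset.prod_le_one (fun _ _ => abs_nonneg _) fun _ _ => h1 _ _
/-- the chain formula for a weight that only depends on the position -/
theorem IsWiener.chain_pos (hμ : IsWiener μ) {t : ℝ≥0} (ht : 0 < t) {a : E3 → ℝ} (ha : BM a)
    (h1 : ∀ x, |a x| ≤ 1) (n : ℕ) (x : E3) :
    ∫ w, ∏ k ∈ Finset.range (n + 1), a (x + w.1 (k * t)) ∂μ =
      (fun (g : E3 → ℝ) y => a y * Pt t g y)^[n] a x := by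
  have hF : Measurable (Function.uncurry fun (y : E3) (_ : Path0) => a y) :=
    ha.meas.comp measurable_fst
  have h2 := hμ.chain t hF (fun y _ => h1 y) ha n x
  simp only [Finset.prod_range_succ]
  rw [h2]
  have h3 : ∀ n : ℕ, BM ((Qop μ t fun y _ => a y)^[n] a) ∧
      (Qop μ t fun y _ => a y)^[n] a = (fun (g : E3 → ℝ) y => a y * Pt t g y)^[n] a := by
    intro n
    induction n with
    | zero => exact ⟨ha, rfl⟩
    | succ n ih =>
      rw [Function.iterate_succ_apply', Function.iterate_succ_apply']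
      refine ⟨Qop_BM hμ t hF (fun y _ => h1 y) ih.1, ?_⟩
      funext y
      rw [← ih.2, ← hμ.integral_eval ht ih.1 y, ← integral_const_mul]
      rfl
  rw [(h3 n).2]

end Pool.Agent.MP_dce92b_pr

end MrgPart0

-- ======== part 1: formerly Pool.Agent.MP_dce92b_pr.Low
section MrgPart1

/-! BTOR module LOW: the eigenvalue is large with high probability (union bound over shapes). -/

open MeasureTheory ProbabilityTheory Filter Topology Metric Real
open scoped NNReal ENNReal

namespace Pool.Agent.MP_dce92b_pr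

namespace Low

/-- the periodization of a set -/
def pset (U : Set E3) : Set E3 := {x | ∃ k, x - lat k ∈ U}

theorem measurableSet_pset {U : Set E3} (hU : MeasurableSet U) : MeasurableSet (pset U) := by
  have : pset U = ⋃ k, (fun x => x - lat k) ⁻¹' U := by
    ext x
    simp [pset]
  rw [this]
  exact MeasurableSet.iUnion fun k => (measurable_id.sub_const _) hU

/-- the indicator function of the periodization -/
noncomputable def ind (U : Set E3) : E3 → ℝ := (pset U).indicator 1

theorem ind_01 (U : Set E3) (x : E3) : 0 ≤ ind U x ∧ ind U x ≤ 1 := by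
  by_cases h : x ∈ pset U <;> simp [ind, h]

theorem ind_of_mem {U : Set E3} {x : E3} (h : x ∈ U) : ind U x = 1 := by
  have : x ∈ pset U := ⟨0, by simpa [lat_zero] using h⟩
  simp [ind, this]

theorem ind_per (U : Set E3) : IsPer (ind U) := by
  intro x k
  have : x + lat k ∈ pset U ↔ x ∈ pset U := by
    constructor
    · rintro ⟨l, hl⟩
      refine ⟨l - k, ?_⟩
      rw [lat_sub]
      convert hl using 1
      abel
    · rintro ⟨l, hl⟩
      refine ⟨l + k, ?_⟩
      rw [lat_add]
      convert hl using 1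
      abel
  by_cases h : x ∈ pset U
  · simp [ind, h, this.2 h]
  · simp [ind, h, mt this.1 h]

theorem ind_BP {U : Set E3} (hU : MeasurableSet U) : BP (ind U) where
  meas := measurable_const.indicator (measurableSet_pset hU)
  bdd := ⟨1, fun x => abs_le.2 ⟨by linarith [(ind_01 U x).1], (ind_01 U x).2⟩⟩
  per := ind_per U

section Fk

variable {e : E3 → ℝ} (σ : ℝ≥0) (b A : ℝ)

theorem Fk_meas (he : Measurable e) : Measurable (Function.uncurry (Fk e σ b A)) := by
  unfold Fk
  refine measurable_const.sub (Measurable.mul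
    (he.comp (measurable_fst.add ((measurable_eval σ).comp measurable_snd))) ?_)
  exact Measurable.ite (((measurable_shift σ).comp measurable_snd) (measurableSet_Good σ b A))
    measurable_const measurable_const

theorem Fk_01 (he : ∀ x, 0 ≤ e x ∧ e x ≤ 1) (x : E3) (w : Path0) :
    0 ≤ Fk e σ b A x w ∧ Fk e σ b A x w ≤ 1 := by
  unfold Fk
  have := he (x + w.1 σ)
  split_ifs <;> constructor <;> linarith [this.1, this.2]

theorem Fk_abs (he : ∀ x, 0 ≤ e x ∧ e x ≤ 1) (x : E3) (w : Path0) : |Fk e σ b A x w| ≤ 1 :=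
  abs_le.2 ⟨by linarith [(Fk_01 σ b A he x w).1], (Fk_01 σ b A he x w).2⟩

theorem Fk_per (he : IsPer e) (x : E3) (k : Fin 3 → ℤ) (w : Path0) :
    Fk e σ b A (x + lat k) w = Fk e σ b A x w := by
  unfold Fk
  rw [add_right_comm, he]

end Fk

variable {μ : Measure Path0}

theorem iter_BP (hμ : IsWiener μ) {U : Set E3} (hU : MeasurableSet U) (σ t : ℝ≥0) (b A : ℝ)
    (n : ℕ) : BP ((Qop μ t (Fk (ind U) σ b A))^[n] fun _ => 1) := by
  induction n with
  | zero => exact BP.const 1
  | succ n ih =>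
    rw [Function.iterate_succ_apply']
    exact Qop_BP hμ t (Fk_meas σ b A (ind_BP hU).meas) (Fk_abs σ b A (ind_01 U))
      (fun x k w => Fk_per σ b A (ind_per U) x k w) ih

/-- survival bound for one shape -/
theorem one_shape (hT : StepStmt) (hK : KillSoftStmt) (hμ : IsWiener μ) {σ : ℝ≥0} {b A κ : ℝ}
    (hσ : 0 < σ) (hb : 0 < b) (hG : 1 / 2 ≤ μ.real (Good σ b A)) (hκ : 0 < κ) (hκ1 : κ ≤ 1)
    {U : Set E3} (hU : MeasurableSet U) {a : E3} (hUa : U ⊆ ball a (1 / 8))
    (hiso : ∀ g : E3 → ℝ, BP g → Continuous g →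
      κ * ip g g ≤ ET (3 * σ) g + exp (-b ^ 2 / (2 * σ)) / 16 * ∫ x in U, g x ^ 2) (n : ℕ) :
    avg ((Qop μ (3 * σ) (Fk (ind U) σ b A))^[n] fun _ => 1) ≤ (1 / (1 + κ)) ^ n := by
  have hσ' : (0 : ℝ) < σ := hσ
  have hc : exp (-b ^ 2 / (2 * σ)) ≤ 1 := by
    rw [exp_le_one_iff]
    exact div_nonpos_of_nonpos_of_nonneg (neg_nonpos.2 (sq_nonneg b)) (by positivity)
  refine hK σ (exp (-b ^ 2 / (2 * σ)) / 16) κ hσ' (by positivity) (by linarith) hκ hκ1 (ind U)
    (ind_BP hU) (ind_01 U) _ (fun g hg h0 => ⟨?_, fun x => ⟨?_, ?_⟩⟩) (fun g hg hc => ?_) n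
  · exact Qop_BP hμ _ (Fk_meas σ b A (ind_BP hU).meas) (Fk_abs σ b A (ind_01 U))
      (fun x k w => Fk_per σ b A (ind_per U) x k w) hg
  · exact Qop_nonneg _ (fun x w => (Fk_01 σ b A (ind_01 U) x w).1) h0 x
  · exact hT μ hμ σ b A hσ hb hG _ (ind_BP hU).toBM (ind_01 U) g hg.toBM h0 x
  · refine (hiso g hg hc).trans (add_le_add le_rfl (mul_le_mul_of_nonneg_left ?_ (by positivity)))
    have hp : BP fun x => ind U x * g x * g x := ((ind_BP hU).mul hg).mul hg
    unfold ip
    rw [← integral_cubeAt hp.per a]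
    have h1 : ∫ x in U, g x ^ 2 = ∫ x in U, ind U x * g x * g x :=
      setIntegral_congr_fun hU fun x hx => by
        simp only [ind_of_mem hx]
        ring
    rw [h1]
    refine setIntegral_mono_set (hp.toBM.integrableOn (by simp [volume_cubeAt]))
      (Eventually.of_forall fun x => ?_) (LE.le.eventuallyLE ?_)
    · have := mul_nonneg (ind_01 U x).1 (mul_self_nonneg (g x))
      simpa [mul_assoc] using this
    · exact hUa.trans ((ball_subset_ball (by norm_num)).trans (ball_subset_cubeAt a))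

/-- union of the boxes of a shape -/
def shape (b : ℝ) (J : Finset (Fin 3 → ℤ)) : Set E3 := ⋃ j ∈ J, box b j

theorem measurableSet_shape (b : ℝ) (J : Finset (Fin 3 → ℤ)) : MeasurableSet (shape b J) :=
  Finset.measurableSet_biUnion _ fun j _ => measurableSet_box b j

theorem volume_shape {b : ℝ} (hb : 0 < b) (J : Finset (Fin 3 → ℤ)) :
    volume (shape b J) = ENNReal.ofReal (J.card * b ^ 3) := by
  rw [shape, measure_biUnion_finset (fun i _ j _ hij => box_disjoint hb hij)
    fun j _ => measurableSet_box b j]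
  simp only [volume_box hb, Finset.sum_const, nsmul_eq_mul]
  rw [ENNReal.ofReal_mul (Nat.cast_nonneg _), ENNReal.ofReal_natCast]

/-- a step that is killed produces a blocked box -/
theorem step_one {b A : ℝ} (hb : 0 < b) {σ s τ : ℝ≥0} (hσ : 0 < σ) (hτ : τ + 3 * σ ≤ s)
    (v : E3) (w : Path0) {J : Finset (Fin 3 → ℤ)}
    (hJ : ∀ j ∈ J, ¬ Blocked ((fun x => v + x) '' rng s w) b A j) :
    Fk (ind (shape b J)) σ b A (v + w.1 τ) ((w.shift τ).stop (3 * σ)) = 1 := by
  set w' := (w.shift τ).stop (3 * σ) with hw'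
  have h3 : ∀ u ≤ σ, σ + u ≤ 3 * σ := fun u hu => by
    have : (3 : ℝ≥0) * σ = σ + σ + σ := by ring
    rw [this]
    exact (add_le_add le_rfl hu).trans le_self_add
  have hev : ∀ u ≤ σ, w'.1 (σ + u) = w.1 (τ + (σ + u)) - w.1 τ := fun u hu => by
    change w.1 (τ + min (σ + u) (3 * σ)) - w.1 τ = _
    rw [min_eq_left (h3 u hu)]
  have hev0 : w'.1 σ = w.1 (τ + σ) - w.1 τ := by simpa using hev 0 zero_le
  unfold Fk
  by_cases hG : w'.shift σ ∈ Good σ b A
  swap
  · simp [hG]
  by_cases hp : v + w.1 τ + w'.1 σ ∈ pset (shape b J)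
  swap
  · simp [ind, hp]
  exfalso
  obtain ⟨l, hl⟩ := hp
  obtain ⟨j, hj, hy⟩ := Set.mem_iUnion₂.1 hl
  set y := v + w.1 τ + w'.1 σ - lat l with hy'
  refine hJ j hj ⟨fun u => y + (w'.shift σ).1 u.toNNReal, σ, hσ,
    continuous_const.add ((w'.shift σ).2.1.comp continuous_real_toNNReal), fun u hu => ?_, ?_⟩
  · have hu' : u.toNNReal ≤ σ := Real.toNNReal_le_iff_le_coe.2 hu.2
    refine ⟨?_, -l, ⟨w.1 (τ + (σ + u.toNNReal)), ⟨_, ?_, rfl⟩, ?_⟩⟩
    · rw [mem_ball_iff_norm]
      have h1 := norm_sub_lt_of_mem_box hb hy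
      have h2 := hG.1 _ hu'
      have h4 := norm_add_le (y - b • lat j) ((w'.shift σ).1 u.toNNReal)
      rw [add_sub_right_comm]
      linarith
    · exact (add_le_add le_rfl (h3 _ hu')).trans hτ
    · change _ = y + (w'.1 (σ + u.toNNReal) - w'.1 σ) - lat (-l)
      rw [hev _ hu', hy', lat_neg]
      abel_nf
  · refine le_trans (le_of_eq ?_) hG.2
    unfold energy
    simp only [add_sub_add_left_eq_sub]

/-- the weight of a shape along the chain -/
noncomputable def X (U : Set E3) (σ : ℝ≥0) (b A : ℝ) (n : ℕ) (v : E3) (w : Path0) : ℝ :=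
  (∏ k ∈ Finset.range n, Fk (ind U) σ b A (v + w.1 (k * (3 * σ)))
    ((w.shift (k * (3 * σ))).stop (3 * σ))) * (fun _ => (1 : ℝ)) (v + w.1 (n * (3 * σ)))

theorem meas_X_le (hμ : IsWiener μ) {U : Set E3} (hU : MeasurableSet U) (σ : ℝ≥0) (b A : ℝ)
    (n : ℕ) (v : E3) : μ.real {w | 1 ≤ X U σ b A n v w} ≤
      ((Qop μ (3 * σ) (Fk (ind U) σ b A))^[n] fun _ => 1) v := by
  have := hμ.prob
  have hF := Fk_meas σ b A (ind_BP hU).meas
  rw [← hμ.chain (3 * σ) hF (Fk_abs σ b A (ind_01 U)) (BM.const 1) n v]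
  have h0 : ∀ w, 0 ≤ X U σ b A n v w := fun w =>
    mul_nonneg (Finset.prod_nonneg fun k _ => (Fk_01 σ b A (ind_01 U) _ _).1) zero_le_one
  have h1 : ∀ w, X U σ b A n v w ≤ 1 := fun w => by
    unfold X
    rw [mul_one]
    exact Finset.prod_le_one (fun k _ => (Fk_01 σ b A (ind_01 U) _ _).1)
      fun k _ => (Fk_01 σ b A (ind_01 U) _ _).2
  have hm0 : Measurable fun p : E3 × Path0 => X U σ b A n p.1 p.2 := by
    unfold X
    exact measurable_chain (3 * σ) hF (g := fun _ => 1) measurable_const n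
  have hm : Measurable (X U σ b A n v) := Measurable.of_uncurry_left (f := X U σ b A n) hm0
  have := mul_meas_ge_le_integral_of_nonneg (μ := μ) (f := X U σ b A n v)
    (Eventually.of_forall h0) (Integrable.of_bound hm.aestronglyMeasurable 1
      (Eventually.of_forall fun w => by rw [Real.norm_of_nonneg (h0 w)]; exact h1 w)) 1
  rw [one_mul] at this
  exact this

/-- the union bound -/
theorem union_bound (hμ : IsWiener μ) {b A q : ℝ} (hb : 0 < b) {σ s : ℝ≥0} (hσ : 0 < σ) {n : ℕ}
    (hn : n * (3 * σ) ≤ s) (E : Set Path0) (S : Finset (Finset (Fin 3 → ℤ)))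
    (hE : ∀ w ∈ E, ∀ v : E3, ∃ J ∈ S, ∀ j ∈ J, ¬ Blocked ((fun x => v + x) '' rng s w) b A j)
    (hS : ∀ J ∈ S, avg ((Qop μ (3 * σ) (Fk (ind (shape b J)) σ b A))^[n] fun _ => 1) ≤ q) :
    μ.real E ≤ S.card * q := by
  have := hμ.prob
  have key : ∀ v : E3, μ.real E ≤
      ∑ J ∈ S, ((Qop μ (3 * σ) (Fk (ind (shape b J)) σ b A))^[n] fun _ => 1) v := fun v => by
    refine le_trans (measureReal_mono (s₂ := ⋃ J ∈ S, {w | 1 ≤ X (shape b J) σ b A n v w})
      (fun w hw => ?_) (measure_ne_top _ _)) ((measureReal_biUnion_finset_le _ _).trans (Finset.sum_le_sum fun J _ =>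
        meas_X_le hμ (measurableSet_shape b J) σ b A n v))
    obtain ⟨J, hJ, h⟩ := hE w hw v
    refine Set.mem_iUnion₂.2 ⟨J, hJ, ?_⟩
    change 1 ≤ X (shape b J) σ b A n v w
    unfold X
    rw [mul_one, Finset.prod_eq_one]
    intro k hk
    refine step_one hb hσ (le_trans ?_ hn) v w h
    have : ((k + 1 : ℕ) : ℝ≥0) ≤ n := Nat.cast_le.2 (Finset.mem_range.1 hk)
    calc (k : ℝ≥0) * (3 * σ) + 3 * σ = ((k + 1 : ℕ) : ℝ≥0) * (3 * σ) := by push_cast; ring
      _ ≤ _ := mul_le_mul_of_nonneg_right this zero_le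
  have hint : ∀ J ∈ S, IntegrableOn
      ((Qop μ (3 * σ) (Fk (ind (shape b J)) σ b A))^[n] fun _ => 1) cube := fun J _ =>
    (iter_BP hμ (measurableSet_shape b J) σ _ b A n).integrableOn
  calc μ.real E = ∫ _ in cube, μ.real E := by simp
    _ ≤ ∫ v in cube, ∑ J ∈ S,
        ((Qop μ (3 * σ) (Fk (ind (shape b J)) σ b A))^[n] fun _ => 1) v :=
      integral_mono (integrable_const _) (integrable_finsetSum _ hint) key
    _ = ∑ J ∈ S, avg ((Qop μ (3 * σ) (Fk (ind (shape b J)) σ b A))^[n] fun _ => 1) :=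
      integral_finsetSum _ hint
    _ ≤ ∑ _J ∈ S, q := Finset.sum_le_sum hS
    _ = _ := by simp

/-- all candidate shapes -/
noncomputable def cand (L N : ℕ) : Finset (Finset (Fin 3 → ℤ)) :=
  (Fintype.piFinset fun _ : Fin 3 => Finset.Icc (0 : ℤ) L).biUnion fun j0 =>
    (Fintype.piFinset fun i => Finset.Icc (j0 i - N) (j0 i + N)).powerset

theorem card_cand (L N : ℕ) : (cand L N).card ≤ (L + 1) ^ 3 * 2 ^ (2 * N + 1) ^ 3 := by
  refine (Finset.card_biUnion_le_card_mul _ _ (2 ^ (2 * N + 1) ^ 3) fun j0 _ => ?_).trans ?_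
  · rw [Finset.card_powerset, Fintype.card_piFinset]
    have : ∀ i, (Finset.Icc (j0 i - N) (j0 i + N)).card = 2 * N + 1 := fun i => by
      rw [Int.card_Icc]
      omega
    simp [this]
  · rw [Fintype.card_piFinset]
    have : (Finset.Icc (0 : ℤ) L).card = L + 1 := by
      rw [Int.card_Icc]
      omega
    simp [this]

theorem mem_cand {b R : ℝ} (hb : 0 < b) {N : ℕ} (hN : R / b ≤ N) {a : E3} (ha : a ∈ cube)
    {J : Finset (Fin 3 → ℤ)} (hJ : ∀ j ∈ J, ‖b • lat j - a‖ ≤ R) :
    J ∈ cand ⌊1 / b⌋₊ (N + 1) := by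
  refine Finset.mem_biUnion.2 ⟨fun i => ⌊a i / b⌋, Fintype.mem_piFinset.2 fun i => ?_,
    Finset.mem_powerset.2 fun j hj => Fintype.mem_piFinset.2 fun i => ?_⟩
  · rw [Finset.mem_Icc, Int.natCast_floor_eq_floor (by positivity)]
    exact ⟨Int.floor_nonneg.2 (div_nonneg (ha i).1 hb.le),
      Int.floor_le_floor (div_le_div_of_nonneg_right (ha i).2.le hb.le)⟩
  · have h1 : |b * j i - a i| ≤ R := by
      have := (PiLp.norm_apply_le (b • lat j - a) i).trans (hJ j hj)
      simpa using this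
    have h2 : |(j i : ℝ) - a i / b| ≤ N := by
      refine le_trans ?_ hN
      have h5 : (j i : ℝ) - a i / b = (b * j i - a i) / b := by field_simp
      rw [h5, abs_div, abs_of_pos hb]
      exact div_le_div_of_nonneg_right h1 hb.le
    have h3 := Int.floor_le (a i / b)
    have h4 := Int.lt_floor_add_one (a i / b)
    rw [abs_le] at h2
    rw [Finset.mem_Icc]
    constructor
    · have : ((⌊a i / b⌋ - (N + 1 : ℕ) : ℤ) : ℝ) ≤ (j i : ℝ) := by push_cast; linarith
      exact_mod_cast this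
    · have : (j i : ℝ) ≤ ((⌊a i / b⌋ + (N + 1 : ℕ) : ℤ) : ℝ) := by push_cast; linarith
      exact_mod_cast this

theorem decay {δ κ t r s : ℝ} {n : ℕ} (hδ : 0 < δ) (ht : 0 < t) (hr0 : 0 < r)
    (hκ : κ = (1 + δ / 2) * (4 * π * r * t)) (hκ1 : κ ≤ δ / (4 + δ)) (hn : s / t < n + 1)
    (hr : 4 * π * r * s = 3 * log s) (hlog : 0 ≤ log s) :
    (1 / (1 + κ)) ^ n ≤ exp (1 - 3 * (1 + δ / 4) * log s) := by
  have hκ0 : 0 < κ := by rw [hκ]; positivity
  have h1 : 1 / (1 + κ) ≤ exp (-(κ / (1 + κ))) := by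
    refine le_trans (le_of_eq ?_) (add_one_le_exp _)
    field_simp
    ring
  refine (pow_le_pow_left₀ (by positivity) h1 n).trans ?_
  rw [← exp_nat_mul, exp_le_exp]
  rw [div_lt_iff₀ ht] at hn
  rw [le_div_iff₀ (by positivity)] at hκ1
  have h2 : (1 + δ / 2) * (3 * log s) ≤ (n + 1) * κ := by
    rw [← hr, hκ]
    have : (1 + δ / 2) * (4 * π * r) * s ≤ (1 + δ / 2) * (4 * π * r) * ((n + 1) * t) :=
      mul_le_mul_of_nonneg_left hn.le (by positivity)
    linarith
  have h3 : (1 + δ / 4) * (1 + κ) * (3 * log s) ≤ (1 + δ / 2) * (3 * log s) :=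
    mul_le_mul_of_nonneg_right (by linarith) (by positivity)
  have h4 : 3 * (1 + δ / 4) * log s - 1 ≤ n * κ / (1 + κ) := by
    rw [le_div_iff₀ (by positivity)]
    linarith
  have h5 : (n : ℝ) * -(κ / (1 + κ)) = -(n * κ / (1 + κ)) := by ring
  linarith

theorem tendsto_r0 : Tendsto (fun s : ℝ≥0 => r0 s) atTop (𝓝 0) := by
  have h := (Real.isLittleO_log_id_atTop.tendsto_div_nhds_zero.const_mul (3 / (4 * π))).comp
    (NNReal.tendsto_coe_atTop.2 tendsto_id)
  rw [mul_zero] at h
  refine h.congr fun s => ?_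
  simp only [r0, Function.comp, id]
  ring

/-- the bound at a fixed scale -/
theorem fixed (hS : ShiftStmt) (hT : StepStmt) (hK : KillSoftStmt) (hμ : IsWiener μ)
    {ε θ A δ M η ρ1 : ℝ} (hθ : 0 < θ) (hδ : 0 < δ) (hη : 0 < η)
    (hG : ∀ (s : ℝ≥0) (b : ℝ), 0 < b → (s : ℝ) = θ * b ^ 2 → 1 / 2 ≤ μ.real (Good s b A))
    (hD : ∀ ρ : ℝ, 0 < ρ → ∀ K : Set E3,
      lam1 K < ENNReal.ofReal ((1 - ε) * π ^ 2 / ρ ^ 2) →
      ∃ a ∈ cube, ∃ J : Finset (Fin 3 → ℤ),
        (∀ j ∈ J, ¬ Blocked K (η * ρ) A j ∧ ‖(η * ρ) • lat j - a‖ ≤ M * ρ) ∧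
        4 * π / 3 * ((1 + δ) * ρ) ^ 3 ≤ J.card * (η * ρ) ^ 3)
    (hI : ∀ ρ : ℝ, 0 < ρ → (1 + δ) * ρ ≤ ρ1 →
      ∀ (a : E3) (U : Set E3), MeasurableSet U → U ⊆ ball a (1 / 8) →
      volume (ball (0 : E3) ((1 + δ) * ρ)) ≤ volume U →
      ∀ g : E3 → ℝ, BP g → Continuous g →
      (1 + δ / 2) * (4 * π * ρ * (3 * (θ * (η * ρ) ^ 2))) * ip g g ≤
        ET (3 * (θ * (η * ρ) ^ 2)) g + exp (-1 / (2 * θ)) / 16 * ∫ x in U, g x ^ 2)
    {r : ℝ} (hr : 0 < r) (h1 : (1 + δ) * r ≤ ρ1) (h2 : (2 * η + M) * r ≤ 1 / 8)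
    (h3 : (1 + δ / 2) * (4 * π * r * (3 * (θ * (η * r) ^ 2))) ≤ 1) (s : ℝ≥0) :
    μ.real {w | lam1 (rng s w) < ENNReal.ofReal ((1 - ε) * π ^ 2 / r ^ 2)} ≤
      (1 / (η * r) + 1) ^ 3 * 2 ^ (2 * (⌈M / η⌉₊ + 1) + 1) ^ 3 *
        (1 / (1 + (1 + δ / 2) * (4 * π * r * (3 * (θ * (η * r) ^ 2))))) ^
          ⌊(s : ℝ) / (3 * (θ * (η * r) ^ 2))⌋₊ := by
  classical
  have hb : 0 < η * r := mul_pos hη hr
  set b := η * r with hb'
  have hσ0 : 0 < θ * b ^ 2 := by positivity
  let σ : ℝ≥0 := ⟨θ * b ^ 2, hσ0.le⟩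
  have hσ : (σ : ℝ) = θ * b ^ 2 := rfl
  let S := (cand ⌊1 / b⌋₊ (⌈M / η⌉₊ + 1)).filter fun J =>
    (∃ a, shape b J ⊆ ball a (1 / 8)) ∧ 4 * π / 3 * ((1 + δ) * r) ^ 3 ≤ J.card * b ^ 3
  refine (union_bound hμ (A := A) hb (σ := σ) (s := s) hσ0
    (n := ⌊(s : ℝ) / (3 * (θ * b ^ 2))⌋₊) ?_ _ S (fun w hw v => ?_) fun J hJ => ?_).trans (mul_le_mul_of_nonneg_right ?_ (by positivity))
  · rw [← NNReal.coe_le_coe]
    push_cast
    rw [hσ, ← le_div_iff₀ (by positivity)]
    exact Nat.floor_le (by positivity)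
  · obtain ⟨a, ha, J, hJ, hc⟩ := hD r hr ((fun x => v + x) '' rng s w) (by rw [hS]; exact hw)
    refine ⟨J, Finset.mem_filter.2 ⟨mem_cand (R := M * r) hb ?_ ha fun j hj => (hJ j hj).2,
      ⟨a, fun x hx => ?_⟩, hc⟩, fun j hj => (hJ j hj).1⟩
    · rw [hb', mul_div_mul_right _ _ hr.ne']
      exact Nat.le_ceil _
    · obtain ⟨j, hj, hx⟩ := Set.mem_iUnion₂.1 hx
      have h4 := norm_sub_lt_of_mem_box hb hx
      have h5 := (hJ j hj).2
      have h6 := norm_sub_le_norm_sub_add_norm_sub x (b • lat j) a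
      rw [mem_ball_iff_norm]
      have : (2 * η + M) * r = 2 * b + M * r := by rw [hb']; ring
      linarith
  · obtain ⟨-, ⟨a, ha⟩, hc⟩ := Finset.mem_filter.1 hJ
    refine one_shape hT hK hμ hσ0 hb (hG σ b hb hσ) (by positivity) h3 (measurableSet_shape b J)
      ha (fun g hg hg' => ?_) _
    have h4 : -b ^ 2 / (2 * (σ : ℝ)) = -1 / (2 * θ) := by
      rw [hσ]
      field_simp
    rw [h4, hσ]
    refine hI r hr h1 a _ (measurableSet_shape b J) ha ?_ g hg hg'
    rw [volume_ball3 _ (by positivity), volume_shape hb]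
    exact ENNReal.ofReal_le_ofReal hc
  · have h4 : (S.card : ℝ) ≤ (((⌊1 / b⌋₊ + 1) ^ 3 * 2 ^ (2 * (⌈M / η⌉₊ + 1) + 1) ^ 3 : ℕ) : ℝ) :=
      Nat.cast_le.2 ((Finset.card_filter_le _ _).trans (card_cand _ _))
    refine h4.trans ?_
    push_cast
    have := Nat.floor_le (a := 1 / b) (by positivity)
    gcongr

end Low

open Low in
theorem low (hD : DetStmt) (hI : IsoStmt) (hS : ShiftStmt) (hG : GoodStmt) (hT : StepStmt)
    (hK : KillSoftStmt) : LowStmt := by
  intro μ hμ ε hε hε1
  have := hμ.prob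
  obtain ⟨θ, A, hθ, hA, hG⟩ := hG
  obtain ⟨δ, M, η0, hδ, hM, hη0, hD⟩ := hD ε A hε hε1 hA
  obtain ⟨η1, ρ1, hη1, hρ1, hI⟩ := hI (δ / (2 * (1 + δ))) (exp (-1 / (2 * θ)) / 16)
    (by positivity) (by positivity)
  obtain ⟨η, hη, he0, he1⟩ : ∃ η : ℝ, 0 < η ∧ η ≤ η0 ∧ 3 * (θ * η ^ 2) ≤ η1 := by
    refine ⟨min η0 (min 1 (η1 / (3 * θ))), by positivity, min_le_left _ _, ?_⟩
    set η := min η0 (min 1 (η1 / (3 * θ))) with hη
    have h0 : 0 < η := by positivity
    have h1 : η ≤ 1 := (min_le_right _ _).trans (min_le_left _ _)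
    have h2 : η ≤ η1 / (3 * θ) := (min_le_right _ _).trans (min_le_right _ _)
    rw [le_div_iff₀ (by positivity)] at h2
    have h3 : θ * η ^ 2 ≤ θ * η := mul_le_mul_of_nonneg_left (by nlinarith) hθ.le
    linarith
  have key := fun r => fixed (ε := ε) (M := M) (ρ1 := ρ1) (r := r) hS hT hK hμ hθ hδ hη (hG μ hμ)
    (fun ρ hρ K hK => hD ρ (η * ρ) hρ (by positivity) (mul_le_mul_of_nonneg_right he0 hρ.le) K hK)
    (fun ρ hρ h1 a U hU hUa hv g hg hc => by
      have h2 : 3 * (θ * (η * ρ) ^ 2) ≤ η1 * ((1 + δ) * ρ) ^ 2 := by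
        have h3 : 3 * (θ * η ^ 2) * ρ ^ 2 ≤ η1 * ((1 + δ) * ρ) ^ 2 :=
          mul_le_mul he1 (pow_le_pow_left₀ hρ.le (by nlinarith) 2) (by positivity) hη1.le
        linarith
      have := hI ((1 + δ) * ρ) (3 * (θ * (η * ρ) ^ 2)) (by positivity) h1 (by positivity) h2
        a U hU hUa hv g hg hc
      refine le_trans (le_of_eq ?_) this
      congr 1
      field_simp
      ring)
  have hlog : Tendsto (fun s : ℝ≥0 => log s) atTop atTop :=
    tendsto_log_atTop.comp (NNReal.tendsto_coe_atTop.2 tendsto_id)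
  have hlim : Tendsto (fun s : ℝ≥0 => (1 / η + 1) ^ 3 * 2 ^ (2 * (⌈M / η⌉₊ + 1) + 1) ^ 3 * exp 1 *
      exp (-(3 * δ / 4 * log s))) atTop (𝓝 0) := by
    have := (tendsto_exp_neg_atTop_nhds_zero.comp
      (hlog.const_mul_atTop (r := 3 * δ / 4) (by positivity))).const_mul
      ((1 / η + 1) ^ 3 * 2 ^ (2 * (⌈M / η⌉₊ + 1) + 1) ^ 3 * exp 1)
    rw [mul_zero] at this
    exact this
  have hsm : ∀ {F : ℝ → ℝ}, Continuous F → F 0 = 0 → ∀ {c : ℝ}, 0 < c →
      ∀ᶠ s : ℝ≥0 in atTop, F (r0 s) ≤ c := fun {F} hF h0 c hc =>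
    ((hF.tendsto' 0 0 h0).comp tendsto_r0).eventually (eventually_le_nhds hc)
  have e1 := hsm (F := fun r => (1 + δ) * r) (by fun_prop) (by simp) hρ1
  have e2 := hsm (F := fun r => (2 * η + M) * r) (by fun_prop) (by simp) (c := 1 / 8) (by norm_num)
  have e3 := hsm (F := fun r => (1 + δ / 2) * (4 * π * r * (3 * (θ * (η * r) ^ 2))))
    (by fun_prop) (by simp) (c := δ / (4 + δ)) (by positivity)
  have hlim' := ENNReal.tendsto_ofReal hlim
  rw [ENNReal.ofReal_zero] at hlim'
  refine tendsto_of_tendsto_of_tendsto_of_le_of_le' tendsto_const_nhds hlim'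
    (Eventually.of_forall fun _ => zero_le) ?_
  filter_upwards [e1, e2, e3, hlog.eventually_ge_atTop (4 * π / 3), eventually_ge_atTop 1]
    with s h1 h2 h3 h4 h5
  have hs1 : (1 : ℝ) ≤ s := h5
  have hs : (0 : ℝ) < s := by linarith
  have hl : 0 < log s := lt_of_lt_of_le (by positivity) h4
  have hr : 0 < r0 s := by unfold r0; positivity
  have hrs : 4 * π * r0 s * s = 3 * log s := by
    unfold r0
    field_simp
  rw [← ofReal_measureReal (measure_ne_top _ _)]
  refine ENNReal.ofReal_le_ofReal ((key _ hr h1 h2 (h3.trans ?_) s).trans ?_)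
  · rw [div_le_one (by positivity)]
    linarith
  have h6 := decay hδ (by positivity) hr rfl h3 (Nat.lt_floor_add_one _) hrs hl.le
  have h7 : 1 / (η * r0 s) + 1 ≤ (1 / η + 1) * s := by
    have h8 : 1 ≤ r0 s * s := by
      have : 4 * π * 1 ≤ 4 * π * (r0 s * s) := by linarith
      exact le_of_mul_le_mul_left this (by positivity)
    have h9 : 1 / (η * r0 s) ≤ 1 / η * s := by
      rw [div_le_iff₀ (by positivity)]
      have : 1 / η * s * (η * r0 s) = r0 s * s := by field_simp
      linarith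
    linarith
  have h10 : (s : ℝ) ^ 3 * exp (1 - 3 * (1 + δ / 4) * log s) =
      exp 1 * exp (-(3 * δ / 4 * log s)) := by
    have : (s : ℝ) ^ 3 = exp (3 * log s) := by
      rw [show (3 : ℝ) * log s = (3 : ℕ) * log s by norm_num, exp_nat_mul, exp_log hs]
    rw [this, ← exp_add, ← exp_add]
    congr 1
    ring
  calc _ ≤ ((1 / η + 1) * s) ^ 3 * 2 ^ (2 * (⌈M / η⌉₊ + 1) + 1) ^ 3 *
        exp (1 - 3 * (1 + δ / 4) * log s) := by gcongr
    _ = (1 / η + 1) ^ 3 * 2 ^ (2 * (⌈M / η⌉₊ + 1) + 1) ^ 3 *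
        ((s : ℝ) ^ 3 * exp (1 - 3 * (1 + δ / 4) * log s)) := by rw [mul_pow]; ring
    _ = _ := by rw [h10]; ring

end Pool.Agent.MP_dce92b_pr

end MrgPart1

-- ======== part 2: formerly Pool.Agent.MP_dce92b_pr.ProfA
section MrgPart2

/-! BTOR module PROF, part one: tent functions and second differences on the line. -/

open MeasureTheory Filter Topology Set

namespace Pool.Agent.MP_dce92b_pr.Prof

/-- the tent with half-width and height the absolute value of z -/
def tent (z u : ℝ) : ℝ := max (|z| - |u|) 0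

/-- odd extension -/
def od (G : ℝ → ℝ) (y : ℝ) : ℝ := G y - G (-y)

/-- second difference of the odd extension -/
def EE (G : ℝ → ℝ) (r z : ℝ) : ℝ := od G (r + z) + od G (r - z) - 2 * od G r

/-- one shell -/
def G1 (l y : ℝ) : ℝ := max (y - l) 0

/-- a layer of shells -/
noncomputable def G2 (y : ℝ) : ℝ := ∫ l in (1 / 8 : ℝ)..(1 / 4), G1 l y

/-- difference of two tents -/
def TT (l r z : ℝ) : ℝ := tent z (r - l) - tent z (r + l)

@[fun_prop] theorem cont_tent {X : Type*} [TopologicalSpace X] {f g : X → ℝ} (hf : Continuous f)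
    (hg : Continuous g) : Continuous fun x => tent (f x) (g x) := by
  unfold tent; fun_prop

@[fun_prop] theorem cont_G1 {X : Type*} [TopologicalSpace X] {f g : X → ℝ} (hf : Continuous f)
    (hg : Continuous g) : Continuous fun x => G1 (f x) (g x) := by
  unfold G1; fun_prop

@[fun_prop] theorem cont_TT {X : Type*} [TopologicalSpace X] {f g k : X → ℝ} (hf : Continuous f)
    (hg : Continuous g) (hk : Continuous k) : Continuous fun x => TT (f x) (g x) (k x) := by
  unfold TT; fun_prop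

theorem tent_nonneg (z u : ℝ) : 0 ≤ tent z u := le_max_right _ _

theorem tent_neg (z u : ℝ) : tent z (-u) = tent z u := by simp [tent]

theorem tent_eq (y z : ℝ) : max (y + z) 0 + max (y - z) 0 - 2 * max y 0 = tent z y := by
  unfold tent
  rcases abs_cases y with h | h <;> rcases abs_cases z with k | k <;> rw [h.1, k.1] <;>
    simp only [max_def] <;> split_ifs <;> linarith

theorem EE_G1 (l r z : ℝ) : EE (G1 l) r z = TT l r z := by
  have h1 := tent_eq (r - l) z
  have h2 := tent_eq (-(r + l)) z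
  rw [tent_neg] at h2
  simp only [EE, od, G1, TT, ← h1, ← h2]
  ring_nf

variable {l r z : ℝ}

theorem TT_nonneg (hl : 0 ≤ l) (hr : 0 ≤ r) : 0 ≤ TT l r z := by
  have : |r - l| ≤ |r + l| := by
    rw [abs_of_nonneg (add_nonneg hr hl)]; exact abs_le.2 ⟨by linarith, by linarith⟩
  exact sub_nonneg.2 (max_le_max (by linarith) le_rfl)

theorem TT_le : TT l r z ≤ tent z (r - l) := sub_le_self _ (tent_nonneg _ _)

theorem tent_le (z u : ℝ) : tent z u ≤ |z| := max_le (sub_le_self _ (abs_nonneg _)) (abs_nonneg _)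

theorem TT_small (hr : 0 ≤ r) (h : r ≤ l) : TT l r z ≤ 2 * r ∧ (|z| ≤ l - r → TT l r z ≤ 0) := by
  unfold TT tent
  rw [abs_of_nonpos (sub_nonpos.2 h), abs_of_nonneg (by linarith : 0 ≤ r + l)]
  simp only [max_def]
  split_ifs <;> exact ⟨by linarith, fun _ => by linarith⟩

theorem TT_lip (hl : 0 < l) (hr : 0 ≤ r) : TT l r z ≤ 4 * r / l * |z| ^ 1 := by
  rw [pow_one, div_mul_eq_mul_div, le_div_iff₀ hl]
  have hz := abs_nonneg z
  rcases le_total l (2 * r) with h | h
  · have := TT_le.trans (tent_le z (r - l))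
    nlinarith
  · obtain ⟨h1, h2⟩ := TT_small (z := z) hr (show r ≤ l by linarith)
    rcases le_total |z| (l - r) with k | k
    · nlinarith [h2 k, mul_nonneg hr hz]
    · nlinarith

theorem TT_sq (hl : 1 / 8 ≤ l) (hr : 0 ≤ r) (h : r ≤ 1 / 16) : TT l r z ≤ 512 * r * |z| ^ 2 := by
  obtain ⟨h1, h2⟩ := TT_small (l := l) (z := z) hr (by linarith)
  rcases le_total |z| (l - r) with k | k
  · exact (h2 k).trans (by positivity)
  · have : 1 / 16 ≤ |z| := by linarith
    have : 1 / 256 ≤ |z| ^ 2 := by nlinarith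
    nlinarith

theorem tent_tail {γ u : ℝ} (hγ : 0 < γ) (h : γ ≤ u) : tent z u ≤ 1 / γ ^ 3 * |z| ^ 4 := by
  rcases le_total |z| γ with k | k
  · exact max_le ((show |z| - |u| ≤ 0 by linarith [le_abs_self u]).trans (by positivity))
      (by positivity)
  · refine (tent_le z u).trans ?_
    rw [div_mul_eq_mul_div, le_div_iff₀ (by positivity), one_mul, pow_succ' |z| 3]
    exact mul_le_mul_of_nonneg_left (pow_le_pow_left₀ hγ.le k 3) (abs_nonneg z)

theorem int_tent {f : ℝ → ℝ} (hf : Continuous f) (z a : ℝ) :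
    Integrable fun u => f u * tent z (u + a) := by
  refine Continuous.integrable_of_hasCompactSupport (by fun_prop)
    (HasCompactSupport.intro (isCompact_Icc (a := -|z| - a) (b := |z| - a)) fun u hu => ?_)
  have : |z| - |u + a| ≤ 0 := by
    by_contra h
    have := abs_lt.1 (show |u + a| < |z| by linarith)
    exact hu ⟨by linarith, by linarith⟩
  rw [tent, max_eq_right this, mul_zero]

theorem integrable_tent (z a : ℝ) : Integrable fun u => tent z (u + a) := by
  simpa using int_tent (f := fun _ => 1) continuous_const z a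

theorem integral_tent (z : ℝ) : ∫ u, tent z u = |z| ^ 2 := by
  have h := integral_comp_abs (f := fun u => max (|z| - u) 0)
  have hz := abs_nonneg z
  have e : ∫ u in Ioi (0 : ℝ), max (|z| - u) 0 = ∫ u in Ioc 0 |z|, (|z| - u) := by
    rw [setIntegral_eq_of_subset_of_forall_sdiff_eq_zero measurableSet_Ioi
      (show Ioc 0 |z| ⊆ Ioi 0 from Ioc_subset_Ioi_self) (fun u hu => max_eq_right (by
        have : ¬ u ≤ |z| := fun h => hu.2 ⟨hu.1, h⟩
        linarith))]
    exact setIntegral_congr_fun measurableSet_Ioc fun u hu => max_eq_left (sub_nonneg.2 hu.2)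
  rw [e, ← intervalIntegral.integral_of_le hz, intervalIntegral.integral_sub (by simp) (by simp)] at h
  simp only [tent, h, intervalIntegral.integral_const, integral_id, smul_eq_mul]
  ring

theorem integral_mul_tent (l z : ℝ) : ∫ u, u * tent z (u - l) = l * |z| ^ 2 := by
  have o : ∫ u, u * tent z u = 0 := by
    have := integral_neg_eq_self (fun u => u * tent z u) volume
    simp only [tent_neg, neg_mul, integral_neg] at this
    linarith
  rw [← integral_add_right_eq_self _ l]
  simp only [add_sub_cancel_right, add_mul]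
  rw [integral_add (by simpa using int_tent continuous_id z 0)
    (by simpa using int_tent (f := fun _ => l) continuous_const z 0), o, integral_const_mul,
    integral_tent, zero_add]

theorem int_TT (l z : ℝ) : Integrable fun r => r * TT l r z := by
  simp only [TT, mul_sub]
  exact (int_tent continuous_id z (-l)).sub (int_tent continuous_id z l)

theorem integral_TT (l z : ℝ) : ∫ r in Ioi (0 : ℝ), r * TT l r z = l * |z| ^ 2 := by
  have i1 : Integrable fun u => u * tent z (u - l) := int_tent continuous_id z (-l)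
  have i2 : Integrable fun u => u * tent z (u + l) := int_tent continuous_id z l
  have e := integral_comp_neg_Ioi 0 (fun u => u * tent z (u - l))
  have e' : ∀ u, tent z (-u - l) = tent z (u + l) := fun u => by rw [← tent_neg]; ring_nf
  simp only [e', neg_mul, integral_neg, neg_zero] at e
  simp only [TT, mul_sub]
  rw [integral_sub i1.integrableOn i2.integrableOn, ← integral_mul_tent,
    ← intervalIntegral.integral_Iic_add_Ioi (b := 0) i1.integrableOn i1.integrableOn, ← e]
  ring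

theorem ii {f : ℝ → ℝ} (hf : Continuous f) : IntervalIntegrable f volume (1 / 8) (1 / 4) :=
  hf.intervalIntegrable _ _

theorem lay_le {f : ℝ → ℝ} (hf : Continuous f) {K : ℝ} (h : ∀ l ∈ Icc (1 / 8 : ℝ) (1 / 4), f l ≤ K) :
    ∫ l in (1 / 8 : ℝ)..(1 / 4), f l ≤ K / 8 := by
  refine (intervalIntegral.integral_mono_on (by norm_num) (ii hf) (ii continuous_const) h).trans_eq ?_
  rw [intervalIntegral.integral_const, smul_eq_mul]
  ring

theorem lay_nonneg {f : ℝ → ℝ} (h : ∀ l ∈ Icc (1 / 8 : ℝ) (1 / 4), 0 ≤ f l) :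
    0 ≤ ∫ l in (1 / 8 : ℝ)..(1 / 4), f l := intervalIntegral.integral_nonneg (by norm_num) h

theorem EE_G2 (r z : ℝ) : EE G2 r z = ∫ l in (1 / 8 : ℝ)..(1 / 4), TT l r z := by
  have o : ∀ y, od G2 y = ∫ l in (1 / 8 : ℝ)..(1 / 4), od (G1 l) y := fun y =>
    (intervalIntegral.integral_sub (ii (by fun_prop)) (ii (by fun_prop))).symm
  have c : ∀ y, Continuous fun l => od (G1 l) y := fun y => by unfold od; fun_prop
  simp only [← EE_G1, EE, o]
  rw [intervalIntegral.integral_sub (ii ((c _).fun_add (c _))) (ii ((c _).const_mul _)),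
    intervalIntegral.integral_add (ii (c _)) (ii (c _)), intervalIntegral.integral_const_mul]

theorem EE_G2_nonneg (hr : 0 ≤ r) : 0 ≤ EE G2 r z := by
  rw [EE_G2]
  exact lay_nonneg fun l hl => TT_nonneg (by linarith [hl.1]) hr

theorem EE_G2_sq (hr : 0 ≤ r) : EE G2 r z ≤ 64 * r * |z| ^ 2 := by
  rw [EE_G2]
  rcases le_total r (1 / 16) with h | h
  · exact (lay_le (by fun_prop) fun l hl => TT_sq hl.1 hr h).trans_eq (by ring)
  · have i : Integrable fun l => tent z (r - l) := by
      simpa using (integrable_tent z 0).comp_sub_left r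
    calc _ ≤ ∫ l in (1 / 8 : ℝ)..(1 / 4), tent z (r - l) :=
          intervalIntegral.integral_mono_on (by norm_num) (ii (by fun_prop)) (ii (by fun_prop))
            fun l _ => TT_le
      _ ≤ ∫ l, tent z (r - l) := by
          rw [intervalIntegral.integral_of_le (by norm_num)]
          exact setIntegral_le_integral i (ae_of_all _ fun _ => tent_nonneg _ _)
      _ = |z| ^ 2 := by rw [integral_sub_left_eq_self, integral_tent]
      _ ≤ _ := by nlinarith [sq_nonneg |z|]

theorem EE_G2_tail (hr : 1 / 4 < r) : EE G2 r z ≤ 1 / (r - 1 / 4) ^ 3 * |z| ^ 4 := by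
  rw [EE_G2]
  have h0 : 0 < r - 1 / 4 := sub_pos.2 hr
  refine (lay_le (by fun_prop) fun l hl => TT_le.trans
    (tent_tail h0 (by linarith [hl.2]))).trans (div_le_self (by positivity) (by norm_num))

theorem G2_sub (y : ℝ) :
    G2 y - (y / 8 - 3 / 128) = ∫ l in (1 / 8 : ℝ)..(1 / 4), max (l - y) 0 := by
  have e : y / 8 - 3 / 128 = ∫ l in (1 / 8 : ℝ)..(1 / 4), (y - l) := by
    rw [intervalIntegral.integral_sub (by simp) (by simp)]
    simp only [intervalIntegral.integral_const, integral_id, smul_eq_mul]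
    ring
  rw [e, G2, ← intervalIntegral.integral_sub (ii (by fun_prop)) (ii (by fun_prop))]
  refine intervalIntegral.integral_congr fun l _ => ?_
  simp only [G1, max_def]
  split_ifs <;> linarith

theorem G2_zero {y : ℝ} (h : y ≤ 1 / 8) : G2 y = 0 := by
  refine le_antisymm ((lay_le (by fun_prop) (K := 0) fun l hl => ?_).trans_eq (by simp))
    (lay_nonneg fun l _ => le_max_right _ _)
  exact max_le (by linarith [hl.1]) le_rfl

theorem G2_lo (y : ℝ) : 0 ≤ G2 y - (y / 8 - 3 / 128) := by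
  rw [G2_sub]; exact lay_nonneg fun l _ => le_max_right _ _

theorem G2_far {y : ℝ} (h : 1 / 4 ≤ y) : G2 y - (y / 8 - 3 / 128) ≤ 0 := by
  rw [G2_sub]
  exact (lay_le (by fun_prop) (K := 0) fun l hl => max_le (by linarith [hl.2]) le_rfl).trans_eq
    (by simp)

theorem G2_hi {c y : ℝ} (hc : c ≤ 1 / 8) (h : c ≤ y) :
    G2 y - (y / 8 - 3 / 128) ≤ 3 / 128 - c / 8 := by
  have := G2_sub c
  rw [G2_zero hc] at this
  rw [G2_sub, show 3 / 128 - c / 8 = 0 - (c / 8 - 3 / 128) by ring, this]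
  exact intervalIntegral.integral_mono_on (by norm_num) (ii (by fun_prop)) (ii (by fun_prop))
    fun l _ => max_le_max (by linarith) le_rfl

/-- admissible generating functions -/
structure Ok (G : ℝ → ℝ) (l : ℝ) : Prop where
  pos : 0 < l
  cont : Continuous G
  zero : ∀ y ≤ l, G y = 0
  nn : ∀ y, 0 ≤ G y
  le : ∀ y, G y ≤ |y|

theorem ok1 (hl : 0 < l) : Ok (G1 l) l :=
  ⟨hl, by fun_prop, fun y hy => max_eq_right (sub_nonpos.2 hy), fun y => le_max_right _ _,
    fun y => max_le (by linarith [le_abs_self y]) (abs_nonneg y)⟩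

theorem ok2 : Ok G2 (1 / 8) :=
  ⟨by norm_num, intervalIntegral.continuous_parametric_intervalIntegral_of_continuous'
      (f := fun y l => G1 l y) (by unfold Function.uncurry; fun_prop) _ _, fun _ => G2_zero,
    fun y => lay_nonneg fun l _ => le_max_right _ _,
    fun y => (lay_le (by fun_prop) fun l hl => (ok1 (by linarith [hl.1])).le y).trans
      (div_le_self (abs_nonneg y) (by norm_num))⟩

end Pool.Agent.MP_dce92b_pr.Prof

end MrgPart2

-- ======== part 3: formerly Pool.Agent.MP_dce92b_pr.Prof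
section MrgPart3

/-! BTOR module PROF: the capacity profile of a small ball and its two charges. -/

open MeasureTheory ProbabilityTheory Filter Topology Set Real

namespace Pool.Agent.MP_dce92b_pr

namespace Prof

/-- the one-dimensional Gaussian -/
noncomputable abbrev NN (t : ℝ) : Measure ℝ := gaussianReal 0 (2 * t).toNNReal

/-- the radial function generated by G -/
noncomputable def FF (G : ℝ → ℝ) (l : ℝ) (x : E3) : ℝ := G ‖x‖ / max ‖x‖ l

/-- its charge -/
noncomputable def ch (t : ℝ) (G : ℝ → ℝ) (l : ℝ) (x : E3) : ℝ := Pt t (FF G l) x - FF G l x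

variable {G : ℝ → ℝ} {l t : ℝ}

theorem int_id (t : ℝ) : Integrable (fun z : ℝ => z) (NN t) :=
  (memLp_id_gaussianReal' 1 (by simp)).integrable le_rfl

theorem int_pow (ht : 0 < t) (p : ℕ) : Integrable (fun z : ℝ => |z| ^ p) (NN t) := by
  obtain ⟨C, -, h⟩ := moment1_le p
  exact (h t ht).1

theorem mom2 (ht : 0 < t) : ∫ z, |z| ^ 2 ∂NN t = 2 * t := by
  have h := variance_id_gaussianReal (μ := 0) (v := (2 * t).toNNReal)
  rw [variance_of_integral_eq_zero aemeasurable_id integral_id_gaussianReal,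
    Real.coe_toNNReal _ (by positivity)] at h
  simpa using h

namespace Ok

variable (h : Ok G l)
include h

theorem mx (y : ℝ) : 0 < max y l := h.pos.trans_le (le_max_right _ _)

theorem cF : Continuous (FF G l) := by
  have := h.cont
  exact Continuous.div (by fun_prop) (by fun_prop) fun x => (h.mx _).ne'

theorem abs_le (y : ℝ) : |G y / max y l| ≤ 1 := by
  rw [abs_of_nonneg (div_nonneg (h.nn y) (h.mx y).le), div_le_one (h.mx y)]
  rcases le_total y l with k | k
  · rw [h.zero y k]; exact (h.mx y).le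
  · rw [max_eq_left k]; exact (h.le y).trans_eq (abs_of_nonneg (h.pos.le.trans k))

theorem bm : BM (FF G l) := ⟨h.cF.measurable, 1, fun _ => h.abs_le _⟩

theorem cch (ht : 0 < t) : Continuous (ch t G l) := (continuous_Pt ht h.bm).sub h.cF

theorem od_eq (y : ℝ) : y * (G |y| / max |y| l) = od G y := by
  have hl := h.pos
  unfold od
  rcases le_total |y| l with k | k
  · rw [h.zero _ k, h.zero _ (le_abs_self y |>.trans k), h.zero _ (neg_le_abs y |>.trans k)]
    simp
  · rw [max_eq_left k]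
    rcases le_total 0 y with j | j
    · rw [abs_of_nonneg j] at k ⊢
      rw [h.zero (-y) (by linarith), mul_div_cancel₀ _ (by linarith), sub_zero]
    · rw [abs_of_nonpos j] at k ⊢
      rw [h.zero y (by linarith), div_neg, mul_neg, mul_div_cancel₀ _ (by linarith), zero_sub]

theorem norm_mul (x : E3) : ‖x‖ * FF G l x = od G ‖x‖ := by
  simpa [FF] using h.od_eq ‖x‖

theorem norm_mul' (x : E3) : ‖x‖ * FF G l x = G ‖x‖ := by
  rw [h.norm_mul, od, h.zero (-‖x‖) (by linarith [norm_nonneg x, h.pos]), sub_zero]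

theorem int_od {f : ℝ → ℝ} (hf : Continuous f) (hi : Integrable f (NN t)) :
    Integrable (fun z => od G (f z)) (NN t) := by
  have := h.cont
  refine hi.mono (Continuous.aestronglyMeasurable (by unfold od; fun_prop)) (ae_of_all _ fun z => ?_)
  rw [← h.od_eq, Real.norm_eq_abs, abs_mul]
  exact mul_le_of_le_one_right (abs_nonneg _) (h.abs_le _)

theorem i1 (r : ℝ) : Integrable (fun z => od G (r + z)) (NN t) :=
  h.int_od (by fun_prop) ((integrable_const r).add (int_id t))

theorem i2 (r : ℝ) : Integrable (fun z => od G (r - z)) (NN t) :=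
  h.int_od (by fun_prop) ((integrable_const r).sub (int_id t))

theorem int_EE (r : ℝ) : Integrable (EE G r) (NN t) :=
  ((h.i1 r).add (h.i2 r)).sub (integrable_const _)

theorem key (hR : RadStmt) (ht : 0 < t) (x : E3) :
    ‖x‖ * ch t G l x = 1 / 2 * ∫ z, EE G ‖x‖ z ∂NN t := by
  have hc := h.cont
  have e1 := hR t ht (fun y => G y / max y l) (by fun_prop) ⟨1, h.abs_le⟩ x
  simp only [h.od_eq] at e1
  have e2 : ∫ z, od G (‖x‖ - z) ∂NN t = ∫ z, od G (‖x‖ + z) ∂NN t := by
    have m : (NN t).map (fun z => -z) = NN t := by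
      rw [gaussianReal_map_neg, neg_zero]
    conv_rhs => rw [← m]
    rw [integral_map (by fun_prop) (Continuous.aestronglyMeasurable (by unfold od; fun_prop))]
    rfl
  simp only [EE]
  have i : Integrable (fun z => od G (‖x‖ + z) + od G (‖x‖ - z)) (NN t) := (h.i1 _).add (h.i2 _)
  rw [integral_sub i (integrable_const _), integral_add (h.i1 _) (h.i2 _), e2,
    ← e1, ch, mul_sub, h.norm_mul, integral_const, probReal_univ, one_smul]
  unfold FF
  ring

theorem bound (hR : RadStmt) (ht : 0 < t) (x : E3) {K : ℝ} {p : ℕ}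
    (hK : ∀ z, EE G ‖x‖ z ≤ K * |z| ^ p) :
    ‖x‖ * ch t G l x ≤ K / 2 * ∫ z, |z| ^ p ∂NN t := by
  have := integral_mono (h.int_EE (t := t) ‖x‖) ((int_pow ht p).const_mul K) hK
  rw [integral_const_mul] at this
  rw [h.key hR ht]
  linarith

theorem nonneg (hR : RadStmt) (ht : 0 < t) (hE : ∀ r z, 0 ≤ r → 0 ≤ EE G r z) (x : E3) :
    0 ≤ ch t G l x := by
  refine (dense_compl_singleton (0 : E3)).induction (P := fun x => 0 ≤ ch t G l x)
    (fun x hx => ?_) (isClosed_le continuous_const (h.cch ht)) x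
  refine nonneg_of_mul_nonneg_right ?_ (norm_pos_iff.2 hx)
  rw [h.key hR ht]
  exact mul_nonneg (by norm_num) (integral_nonneg fun z => hE _ z (norm_nonneg x))

theorem sup (hR : RadStmt) (ht : 0 < t) {K : ℝ} {p : ℕ}
    (hE : ∀ r z, 0 ≤ r → EE G r z ≤ K * r * |z| ^ p) (x : E3) :
    ch t G l x ≤ K / 2 * ∫ z, |z| ^ p ∂NN t := by
  refine (dense_compl_singleton (0 : E3)).induction (P := fun x => ch t G l x ≤ _)
    (fun x hx => ?_) (isClosed_le (h.cch ht) continuous_const) x
  refine le_of_mul_le_mul_left ?_ (norm_pos_iff.2 hx)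
  exact (h.bound hR ht x fun z => hE _ z (norm_nonneg x)).trans_eq (by ring)

end Ok

theorem mass (hR : RadStmt) (ht : 0 < t) (hl : 0 < l) :
    Integrable (ch t (G1 l) l) ∧ ∫ x, ch t (G1 l) l x = 4 * π * l * t := by
  have h := ok1 hl
  have e : ch t (G1 l) l =ᵐ[volume]
      fun x => (fun r => r⁻¹ * (1 / 2 * ∫ z, TT l r z ∂NN t)) ‖x‖ := by
    filter_upwards [compl_mem_ae_iff.2 (measure_singleton (0 : E3))] with x hx
    have := h.key hR ht x
    simp only [EE_G1] at this
    rw [← this, inv_mul_cancel_left₀ (norm_ne_zero_iff.2 hx)]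
  have e' : ∀ r ∈ Ioi (0 : ℝ), r ^ 2 * (r⁻¹ * (1 / 2 * ∫ z, TT l r z ∂NN t)) =
      1 / 2 * ∫ z, r * TT l r z ∂NN t := fun r hr => by
    rw [integral_const_mul]
    field_simp [(show (0 : ℝ) < r from hr).ne']
  have i : Integrable (Function.uncurry fun r z => r * TT l r z)
      ((volume.restrict (Ioi (0 : ℝ))).prod (NN t)) := by
    refine (integrable_prod_iff' (Continuous.aestronglyMeasurable (by
      unfold Function.uncurry; fun_prop))).2 ⟨ae_of_all _ fun z => (int_TT l z).integrableOn, ?_⟩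
    refine ((int_pow ht 2).const_mul l).congr (ae_of_all _ fun z => ?_)
    simp only [← integral_TT]
    exact setIntegral_congr_fun measurableSet_Ioi fun r hr =>
      (Real.norm_of_nonneg (mul_nonneg (le_of_lt hr) (TT_nonneg hl.le (le_of_lt hr)))).symm
  refine ⟨(integrable_congr e).2 ((integrable_radial
    (fun r => r⁻¹ * (1 / 2 * ∫ z, TT l r z ∂NN t))).2 ?_), ?_⟩
  · exact (integrableOn_congr_fun e' measurableSet_Ioi).2 (i.integral_prod_left.const_mul _)
  · rw [integral_congr_ae e, integral_radial (fun r => r⁻¹ * (1 / 2 * ∫ z, TT l r z ∂NN t)),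
      setIntegral_congr_fun measurableSet_Ioi e',
      integral_const_mul, integral_integral_swap i]
    simp only [integral_TT, integral_const_mul, mom2 ht]
    ring

theorem tail {n : E3 → ℝ} (h0 : ∀ x, 0 ≤ n x) {K γ : ℝ} (hK : 0 ≤ K) (hl : 0 ≤ l) (hγ : 0 < γ)
    (h : ∀ x, l + γ ≤ ‖x‖ → ‖x‖ * n x ≤ K / (‖x‖ - l) ^ 3) :
    ∫ x in {x : E3 | l + γ ≤ ‖x‖}, n x ≤ 4 * π * K * (l / (2 * γ ^ 2) + 1 / γ) := by
  have hS : MeasurableSet {x : E3 | l + γ ≤ ‖x‖} :=
    (isClosed_le continuous_const continuous_norm).measurableSet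
  have d : ∀ r ∈ Ici (l + γ), HasDerivAt (fun r => -K * ((r - l)⁻¹ + l / 2 * ((r - l)⁻¹) ^ 2))
      (K * r / (r - l) ^ 3) r := fun r hr => by
    have : r - l ≠ 0 := by have : l + γ ≤ r := hr; linarith
    have a := ((hasDerivAt_id r).sub_const l).fun_inv this
    refine ((a.fun_add ((a.fun_pow 2).const_mul (l / 2))).const_mul (-K)).congr_deriv ?_
    simp only [id, Nat.cast_ofNat, Nat.add_one_sub_one, pow_one]
    field_simp
    ring
  have p : ∀ r ∈ Ioi (l + γ), 0 ≤ K * r / (r - l) ^ 3 := fun r hr => by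
    have : l + γ < r := hr
    have : 0 < r - l := by linarith
    have : 0 < r := by linarith
    positivity
  have lim : Tendsto (fun r => -K * ((r - l)⁻¹ + l / 2 * ((r - l)⁻¹) ^ 2)) atTop (𝓝 0) := by
    have a : Tendsto (fun r : ℝ => (r - l)⁻¹) atTop (𝓝 0) :=
      (tendsto_atTop_add_const_right _ (-l) tendsto_id).inv_tendsto_atTop
    simpa using (a.add ((a.pow 2).const_mul (l / 2))).const_mul (-K)
  obtain ⟨B, hB⟩ : ∃ B : ℝ → ℝ, B = (Ici (l + γ)).indicator fun r => K / (r - l) ^ 3 / r := ⟨_, rfl⟩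
  have e : (fun r => r ^ 2 * B r) = (Ici (l + γ)).indicator fun r => K * r / (r - l) ^ 3 := by
    funext r
    by_cases hr : r ∈ Ici (l + γ)
    · have : r ≠ 0 := by have : l + γ ≤ r := hr; linarith
      rw [hB, indicator_of_mem hr, indicator_of_mem hr]
      field_simp
    · rw [hB, indicator_of_notMem hr, indicator_of_notMem hr, mul_zero]
  have i : Integrable fun x : E3 => B ‖x‖ := by
    rw [integrable_radial, e]
    exact ((integrable_indicator_iff measurableSet_Ici).2 ((integrableOn_Ici_iff_integrableOn_Ioi).2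
      (integrableOn_Ioi_deriv_of_nonneg' d p lim))).integrableOn
  rw [← integral_indicator hS]
  refine (integral_mono_of_nonneg (ae_of_all _ fun x => indicator_nonneg (fun x _ => h0 x) x) i
    (ae_of_all _ fun x => ?_)).trans_eq ?_
  · by_cases hx : l + γ ≤ ‖x‖
    · simp only [hB]
      rw [indicator_of_mem (by exact hx), indicator_of_mem (by exact hx),
        le_div_iff₀' (by linarith)]
      exact h x hx
    · simp only [hB]
      rw [indicator_of_notMem (by exact hx), indicator_of_notMem (by exact hx)]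
  · rw [integral_radial, e, setIntegral_indicator measurableSet_Ici,
      inter_eq_right.2 (show Ici (l + γ) ⊆ Ioi 0 from fun r (hr : l + γ ≤ r) =>
        show 0 < r by linarith),
      integral_Ici_eq_integral_Ioi, integral_Ioi_of_hasDerivAt_of_nonneg' d p lim,
      add_sub_cancel_left]
    field_simp
    ring

end Prof

open Prof in
theorem prof (hR : RadStmt) : ProfStmt := by
  obtain ⟨C1, c1, m1⟩ := moment1_le 1
  obtain ⟨C4, c4, m4⟩ := moment1_le 4
  refine ⟨4096 + 3 * C1 + 8192 * C4, by positivity, fun c t hc hc' ht ht' => ?_⟩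
  obtain ⟨α, hα⟩ : ∃ α : ℝ, α = 3 / (3 - 16 * c) := ⟨_, rfl⟩
  have d0 : 0 < 3 - 16 * c := by linarith
  have a0 : α * (3 - 16 * c) = 3 := by rw [hα]; field_simp
  have a1 : 1 ≤ α := by rw [hα, le_div_iff₀ d0]; linarith
  have a2 : α ≤ 3 / 2 := by rw [hα, div_le_iff₀ d0]; linarith
  have a3 : α - 1 ≤ 8 * c := by nlinarith
  obtain ⟨β, hβ⟩ : ∃ β : ℝ, β = 8 * (α - 1) := ⟨_, rfl⟩
  have b0 : 0 ≤ β := by linarith
  have b1 : β ≤ 64 * c := by linarith
  have o1 := ok1 hc
  have s4 : √t ^ 4 = t ^ 2 := by rw [show 4 = 2 * 2 from rfl, pow_mul, Real.sq_sqrt ht.le]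
  have m4' : ∫ z, |z| ^ 4 ∂NN t ≤ C4 * t ^ 2 := s4 ▸ (m4 t ht).2
  have hπ := Real.pi_pos
  have hπ4 := Real.pi_le_four
  obtain ⟨h, hh⟩ : ∃ h : E3 → ℝ, h = fun x => 1 - α * FF (G1 c) c x + β * FF G2 (1 / 8) x :=
    ⟨_, rfl⟩
  have bh : BM h := hh ▸ ((BM.const 1).sub (o1.bm.const_mul α)).add (ok2.bm.const_mul β)
  have h1 : ∀ x, ‖x‖ ≤ c → h x = 1 := fun x hx => by
    simp [hh, FF, o1.zero _ hx, G2_zero (show ‖x‖ ≤ 1 / 8 by linarith)]
  have h2 : ∀ x, c ≤ ‖x‖ → ‖x‖ * h x = β * (G2 ‖x‖ - (‖x‖ / 8 - 3 / 128)) := fun x hx => by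
    have e1 := o1.norm_mul' x
    have e2 := ok2.norm_mul' x
    rw [G1, max_eq_left (sub_nonneg.2 hx)] at e1
    simp only [hh]
    linear_combination -α * e1 + β * e2 + (‖x‖ / 8 - 3 / 128) * hβ - (1 / 16) * a0
  have h3 : ∀ x, h x * ‖x‖ ≤ c := fun x => by
    rcases le_total ‖x‖ c with hx | hx
    · rwa [h1 x hx, one_mul]
    · rw [mul_comm, h2 x hx]
      refine (mul_le_mul_of_nonneg_left (G2_hi (by linarith) hx) b0).trans_eq ?_
      linear_combination (3 / 128 - c / 8) * hβ + (1 / 16) * a0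
  have h4 : ∀ x, 0 ≤ h x ∧ h x ≤ 1 := fun x => by
    rcases le_total ‖x‖ c with hx | hx
    · simp [h1 x hx]
    · have : 0 < ‖x‖ := hc.trans_le hx
      exact ⟨nonneg_of_mul_nonneg_right (by rw [h2 x hx]; exact mul_nonneg b0 (G2_lo _)) this,
        le_of_mul_le_mul_right (by linarith [h3 x]) this⟩
  have h5 : ∀ x, 1 / 4 ≤ ‖x‖ → h x = 0 := fun x hx => by
    refine le_antisymm (nonpos_of_mul_nonpos_right (a := ‖x‖) ?_ (by linarith)) (h4 x).1
    rw [h2 x (by linarith)]
    exact mul_nonpos_of_nonneg_of_nonpos b0 (G2_far hx)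
  have h6 : ∀ x, h x - Pt t h x = α * ch t (G1 c) c x - β * ch t G2 (1 / 8) x := fun x => by
    simp only [hh, ch]
    rw [Pt_add ht ((BM.const 1).sub (o1.bm.const_mul α)) (ok2.bm.const_mul β),
      Pt_sub ht (BM.const 1) (o1.bm.const_mul α), Pt_const ht, Pt_const_mul, Pt_const_mul]
    ring
  have p1 := o1.nonneg hR ht fun r z hr => by rw [EE_G1]; exact TT_nonneg hc.le hr
  have p2 := ok2.nonneg hR ht fun r z hr => EE_G2_nonneg hr
  have q1 : ∀ x, 0 ≤ α * ch t (G1 c) c x := fun x => mul_nonneg (by linarith) (p1 x)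
  have q2 : ∀ x, 0 ≤ β * ch t G2 (1 / 8) x := fun x => mul_nonneg b0 (p2 x)
  have bc : BC h := ⟨bh, 1 / 4, fun x hx => h5 x hx.le⟩
  obtain ⟨i1, e1⟩ := mass hR ht hc
  have e2 : (fun x => β * ch t G2 (1 / 8) x) =
      fun x => α * ch t (G1 c) c x - (h x - Pt t h x) := funext fun x => by rw [h6]; ring
  have i3 : Integrable fun x => h x - Pt t h x := bc.integrable.sub (integrable_Pt ht bc)
  have t1 : ∀ x, c < ‖x‖ → ‖x‖ * (α * ch t (G1 c) c x) ≤ C4 * t ^ 2 / (‖x‖ - c) ^ 3 := by
    intro x hx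
    have d := sub_pos.2 hx
    have := o1.bound hR ht x fun z => by
      rw [EE_G1]; exact TT_le.trans (tent_tail d le_rfl)
    have := this.trans (mul_le_mul_of_nonneg_left m4' (by positivity))
    have k : 0 ≤ C4 * t ^ 2 / (‖x‖ - c) ^ 3 := by positivity
    rw [show 1 / (‖x‖ - c) ^ 3 / 2 * (C4 * t ^ 2) = C4 * t ^ 2 / (‖x‖ - c) ^ 3 / 2 by ring] at this
    nlinarith [mul_nonneg (norm_nonneg x) (p1 x)]
  refine ⟨h, fun x => α * ch t (G1 c) c x, fun x => β * ch t G2 (1 / 8) x, α * (4 * π * c * t),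
    bh.meas, (o1.cch ht).measurable.const_mul _, (ok2.cch ht).measurable.const_mul _, h4, h1, h5,
    h3, h6, fun x => ⟨q1 x, ?_⟩, fun x => ⟨q2 x, ?_⟩, i1.const_mul _, ?_,
    by rw [integral_const_mul, e1], ?_, le_mul_of_one_le_left (by positivity) a1, ?_,
    fun γ hγ x hx => ?_, fun γ hγ => ?_, ?_⟩
  · have := o1.sup hR ht (K := 4 / c) (p := 1) (fun r z hr => by
      rw [EE_G1]; exact (TT_lip hc hr).trans_eq (by ring)) x
    have := this.trans (mul_le_mul_of_nonneg_left (m1 t ht).2 (by positivity))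
    have k : 0 ≤ √t / c := by positivity
    rw [show 4 / c / 2 * (C1 * √t ^ 1) = 2 * C1 * (√t / c) by ring] at this
    rw [mul_div_assoc]
    nlinarith [p1 x, mul_nonneg c4.le k]
  · have := ok2.sup hR ht (K := 64) (p := 2) (fun r z hr => EE_G2_sq hr) x
    rw [mom2 ht] at this
    have k : 0 ≤ c * t := by positivity
    have := mul_le_mul b1 this (p2 x) (by positivity)
    nlinarith [mul_nonneg c4.le k, mul_nonneg c1.le k]
  · rw [e2]; exact (i1.const_mul _).sub i3
  · have z := Pt_symm ht (BM.const 1) bc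
    simp only [one_mul, Pt_const ht] at z
    rw [e2, integral_sub (i1.const_mul _) i3, integral_sub bc.integrable (integrable_Pt ht bc), z,
      integral_const_mul, e1, sub_self, sub_zero]
  · rw [mul_comm]
    refine mul_le_mul_of_nonneg_left ?_ (by positivity)
    nlinarith [mul_nonneg c4.le hc.le, mul_nonneg c1.le hc.le]
  · have := (t1 x (by linarith)).trans (div_le_div_of_nonneg_left (by positivity) (by positivity)
      (pow_le_pow_left₀ hγ.le (show γ ≤ ‖x‖ - c by linarith) 3))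
    have k := mul_le_mul_of_nonneg_right (show c ≤ ‖x‖ by linarith) (q1 x)
    rw [← div_div, le_div_iff₀' hc]
    refine (k.trans this).trans (div_le_div_of_nonneg_right ?_ (by positivity))
    nlinarith [sq_nonneg t, mul_nonneg c4.le (sq_nonneg t), mul_nonneg c1.le (sq_nonneg t)]
  · refine (tail q1 (by positivity) hc.le hγ fun x hx => t1 x (by linarith)).trans ?_
    have k : c / (2 * γ ^ 2) ≤ c / γ ^ 2 :=
      div_le_div_of_nonneg_left hc.le (by positivity) (by nlinarith [sq_nonneg γ])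
    refine mul_le_mul ?_ (by linarith) (by positivity) (by positivity)
    nlinarith [sq_nonneg t, mul_nonneg c4.le (sq_nonneg t), mul_nonneg c1.le (sq_nonneg t)]
  · have := tail q2 (K := 32 * c * (C4 * t ^ 2)) (l := 1 / 4) (γ := 1 / 8) (by positivity)
      (by norm_num) (by norm_num) fun x hx => by
        have d : 0 < ‖x‖ - 1 / 4 := by linarith
        have := ok2.bound hR ht x fun z => EE_G2_tail (by linarith)
        have := this.trans (mul_le_mul_of_nonneg_left m4' (by positivity))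
        have := mul_le_mul b1 this (mul_nonneg (norm_nonneg x) (p2 x)) (by positivity)
        rw [mul_left_comm]
        exact this.trans_eq (by ring)
    rw [show (1 / 4 + 1 / 8 : ℝ) = 3 / 8 by norm_num] at this
    refine this.trans ?_
    have k : 0 ≤ c * t ^ 2 := by positivity
    nlinarith [mul_nonneg c4.le k, mul_nonneg c1.le k]

end Pool.Agent.MP_dce92b_pr

end MrgPart3

-- marker of a merged file
example : 731051 + 642358 = 731051 + 642358 := rfl
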