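import Mathlib.Analysis.SpecialFunctions.SmoothTransition
import Mathlib.Analysis.Calculus.FDeriv.Norm
import Mathlib.Combinatorics.SimpleGraph.Basic
import Pool.Agent.MP_dce92b_pr.Spec
import Pool.Agent.MP_dce92b_pr.Per
import Pool.Agent.MP_dce92b_pr.Gauss
import Pool.Agent.MP_dce92b_pr.Prof

-- ======== part 0: formerly Pool.Agent.MP_dce92b_pr.Ball
section MrgPart0

/-! BTOR module BALL: test function in a hole, and translation invariance of the eigenvalue. -/

open MeasureTheory Filter Topology Metric Real Set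
open scoped NNReal ENNReal

namespace Pool.Agent.MP_dce92b_pr

namespace Ball

/-! translation -/

theorem shift_le (K : Set E3) (v : E3) : lam1 ((fun x => v + x) '' K) ≤ lam1 K := by
  refine le_iInf₂ fun f hf => ?_
  obtain ⟨h1, h2, h3, h4⟩ := hf
  have hA : Adm ((fun x => v + x) '' K) fun y => f (y + -v) := by
    refine ⟨h1.comp (contDiff_id.add contDiff_const), fun x k => ?_, ?_, fun h => h4 ?_⟩
    · have := h2 (x + -v) k
      rwa [add_right_comm] at this
    · rintro _ ⟨x, hx, rfl⟩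
      have ht : Tendsto (fun y : E3 => y + -v) (𝓝 (v + x)) (𝓝 x) := by
        have : Tendsto (fun y : E3 => y + -v) (𝓝 (v + x)) (𝓝 (v + x + -v)) :=
          (continuous_id.add continuous_const).tendsto _
        simpa using this
      exact ht.eventually (h3 x hx)
    · funext x
      simpa using congrFun h (x + v)
  refine (iInf₂_le _ hA).trans (le_of_eq ?_)
  have e1 : IsPer fun x => ‖fderiv ℝ f x‖ ^ 2 := fun x k => by simp only [h2.fderiv_add]
  have e2 : IsPer fun x => f x ^ 2 := fun x k => by simp only [h2 x k]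
  rw [← integral_cube_shift e1 (-v), ← integral_cube_shift e2 (-v)]
  simp only [fderiv_comp_add_right]

/-! periodization -/

theorem red_ev {y : E3} (hy : ‖red y‖ < 1 / 2) : ∀ᶠ z in 𝓝 y, red z = z + (red y - y) := by
  have hc : Continuous fun z : E3 => ‖z + (red y - y)‖ := by fun_prop
  have h1 : ∀ᶠ z in 𝓝 y, ‖z + (red y - y)‖ < 1 / 2 :=
    hc.continuousAt.eventually_lt continuousAt_const (by simpa using hy)
  filter_upwards [h1] with z hz
  have e : z + (red y - y) = z - lat fun i => round (y i) := by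
    simp only [red]; abel
  rw [e] at hz ⊢
  rw [← red_sub_lat z fun i => round (y i)]
  exact red_of_mem (ball_subset_cubeAt 0 (by simpa using hz))

theorem far_ev {y : E3} {r : ℝ} (hy : r < ‖red y‖) : ∀ᶠ z in 𝓝 y, r ≤ ‖red z‖ := by
  have hc : Continuous fun z : E3 => r + ‖y - z‖ := by fun_prop
  have h1 : ∀ᶠ z in 𝓝 y, r + ‖y - z‖ < ‖red y‖ :=
    hc.continuousAt.eventually_lt continuousAt_const (by simpa using hy)
  filter_upwards [h1] with z hz
  linarith [norm_red_lip y z]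

section
variable {F : E3 → ℝ} {r : ℝ}

theorem fderiv_zero (h0 : ∀ x, r ≤ ‖x‖ → F x = 0) {x : E3} (hx : r < ‖x‖) : fderiv ℝ F x = 0 := by
  have h1 : ∀ᶠ z in 𝓝 x, r < ‖z‖ := continuousAt_const.eventually_lt continuous_norm.continuousAt hx
  have h2 : F =ᶠ[𝓝 x] fun _ => 0 := h1.mono fun z hz => h0 z hz.le
  rw [h2.fderiv_eq]; simp

theorem per_smooth (hF : ContDiff ℝ (⊤ : ℕ∞) F) (hr : r < 1 / 2) (h0 : ∀ x, r ≤ ‖x‖ → F x = 0) :
    ContDiff ℝ (⊤ : ℕ∞) fun y => F (red y) := by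
  refine contDiff_iff_contDiffAt.2 fun y => ?_
  rcases lt_or_ge ‖red y‖ (1 / 2) with h | h
  · have h1 : ContDiff ℝ (⊤ : ℕ∞) fun z : E3 => F (z + (red y - y)) :=
      hF.comp (contDiff_id.add contDiff_const)
    exact h1.contDiffAt.congr_of_eventuallyEq ((red_ev h).mono fun z hz => by simp only [hz])
  · exact (contDiffAt_const (c := (0 : ℝ))).congr_of_eventuallyEq
      ((far_ev (hr.trans_le h)).mono fun z hz => h0 _ hz)

theorem per_fderiv (hr : r < 1 / 2) (h0 : ∀ x, r ≤ ‖x‖ → F x = 0) (y : E3) :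
    fderiv ℝ (fun y => F (red y)) y = fderiv ℝ F (red y) := by
  rcases lt_or_ge ‖red y‖ (1 / 2) with h | h
  · have h1 : (fun z => F (red z)) =ᶠ[𝓝 y] fun z => F (z + (red y - y)) :=
      (red_ev h).mono fun z hz => by simp only [hz]
    rw [h1.fderiv_eq, fderiv_comp_add_right]
    simp
  · have h1 : (fun z => F (red z)) =ᶠ[𝓝 y] fun _ => 0 :=
      (far_ev (hr.trans_le h)).mono fun z hz => h0 _ hz
    rw [h1.fderiv_eq, fderiv_zero h0 (hr.trans_le h)]
    simp

theorem int_red {h : E3 → ℝ} (hh : ∀ x, 1 / 2 ≤ ‖x‖ → h x = 0) :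
    ∫ x in cube, h (red x) = ∫ x, h x := by
  have := integral_red (f := fun _ => 1) (fun _ _ => rfl) hh 0
  simpa using this

theorem lam1_le {ρ : ℝ} (hF : ContDiff ℝ (⊤ : ℕ∞) F) (hr : r < ρ) (hρ : ρ ≤ 1 / 4)
    (h0 : ∀ x, r ≤ ‖x‖ → F x = 0) (hp : 0 < ∫ x, F x ^ 2) {K : Set E3}
    (hK : ∀ y ∈ K, ∀ k, ρ ≤ ‖y - lat k‖) :
    lam1 K ≤ ENNReal.ofReal ((∫ x, ‖fderiv ℝ F x‖ ^ 2) / ∫ x, F x ^ 2) := by
  have hr2 : r < 1 / 2 := by linarith
  have e1 : ∫ x in cube, F (red x) ^ 2 = ∫ x, F x ^ 2 :=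
    int_red (h := fun x => F x ^ 2) fun x hx => by simp [h0 x (by linarith)]
  have e2 : ∫ x in cube, ‖fderiv ℝ (fun y => F (red y)) x‖ ^ 2 = ∫ x, ‖fderiv ℝ F x‖ ^ 2 := by
    simp only [per_fderiv hr2 h0]
    exact int_red (h := fun x => ‖fderiv ℝ F x‖ ^ 2) fun x hx => by
      simp [fderiv_zero h0 (hr2.trans_le hx)]
  have hA : Adm K fun y => F (red y) := by
    refine ⟨per_smooth hF hr2 h0, fun x k => by simp only [red_add_lat], fun y hy => ?_,
      fun h => ?_⟩
    · exact (far_ev (hr.trans_le (hK y hy _))).mono fun z hz => h0 _ hz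
    · have : ∀ y, F (red y) = 0 := fun y => congrFun h y
      simp [← e1, this] at hp
  refine (iInf₂_le _ hA).trans (le_of_eq ?_)
  rw [e1, e2]

end

/-! the one-dimensional profile -/

/-- smooth version of the positive part of y - 2 η -/
noncomputable def G (η y : ℝ) : ℝ := ∫ t in (0 : ℝ)..y, smoothTransition (t / η - 1)

theorem cont_h (η : ℝ) : Continuous fun t : ℝ => smoothTransition (t / η - 1) :=
  smoothTransition.continuous.comp (by fun_prop)

theorem G_deriv (η y : ℝ) : HasDerivAt (G η) (smoothTransition (y / η - 1)) y :=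
  ((cont_h η).integral_hasStrictDerivAt 0 y).hasDerivAt

theorem G_smooth (η : ℝ) : ContDiff ℝ (⊤ : ℕ∞) (G η) := by
  refine contDiff_infty_iff_deriv.2 ⟨fun y => (G_deriv η y).differentiableAt, ?_⟩
  have : deriv (G η) = fun y => smoothTransition (y / η - 1) := funext fun y => (G_deriv η y).deriv
  rw [this]
  exact smoothTransition.contDiff.comp ((contDiff_id.div_const η).sub contDiff_const)

theorem G_zero {η y : ℝ} (hη : 0 < η) (hy : y ≤ η) : G η y = 0 := by
  have : G η y = ∫ _ in (0 : ℝ)..y, (0 : ℝ) := by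
    refine intervalIntegral.integral_congr fun t ht => smoothTransition.zero_of_nonpos ?_
    have : t ≤ η := ht.2.trans (max_le hη.le hy)
    have := (div_le_one hη).2 this
    linarith
  simpa using this

theorem G_nonneg (η : ℝ) {y : ℝ} (hy : 0 ≤ y) : 0 ≤ G η y :=
  intervalIntegral.integral_nonneg hy fun _ _ => smoothTransition.nonneg _

theorem G_ge {η y : ℝ} (hη : 0 < η) (hy : 2 * η ≤ y) : y - 2 * η ≤ G η y := by
  have h1 : G η (2 * η) + ∫ t in (2 * η)..y, smoothTransition (t / η - 1) = G η y :=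
    intervalIntegral.integral_add_adjacent_intervals ((cont_h η).intervalIntegrable _ _)
      ((cont_h η).intervalIntegrable _ _)
  have h2 : ∫ t in (2 * η)..y, smoothTransition (t / η - 1) = ∫ _ in (2 * η)..y, (1 : ℝ) := by
    refine intervalIntegral.integral_congr fun t ht => smoothTransition.one_of_one_le ?_
    rw [uIcc_of_le hy] at ht
    have := (le_div_iff₀ hη).2 ht.1
    linarith
  have h3 := G_nonneg η (y := 2 * η) (by positivity)
  simp only [intervalIntegral.integral_const, smul_eq_mul, mul_one] at h2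
  linarith

theorem G_sq {η y : ℝ} (hη : 0 < η) (h0 : 0 ≤ y) (h1 : y ≤ 1) : y ^ 2 - 4 * η ≤ G η y ^ 2 := by
  rcases le_total y (2 * η) with h | h
  · nlinarith [sq_nonneg (G η y)]
  · have h2 := G_ge hη h
    have h3 : (y - 2 * η) ^ 2 ≤ G η y ^ 2 := by gcongr
    nlinarith

theorem exists_g {η ρ : ℝ} (hη : 0 < η) (hρ : 0 < ρ) :
    ∃ (g : ℝ → ℝ) (a b : ℝ), 0 < a ∧ b < ρ ∧ ContDiff ℝ (⊤ : ℕ∞) g ∧ (∀ r, r ≤ a → g r = 0) ∧
      (∀ r, b ≤ r → g r = 0) ∧ (1 / 2 - 4 * η) * ρ ≤ ∫ r in (0 : ℝ)..ρ, g r ^ 2 ∧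
      ∫ r in (0 : ℝ)..ρ, deriv g r ^ 2 ≤ π ^ 2 / ρ ^ 2 * (ρ / 2) := by
  classical
  set c := π / ρ with hc
  have hc0 : 0 < c := by positivity
  have hcρ : c * ρ = π := by rw [hc]; field_simp
  let u : ℝ → ℝ := fun r => G η (sin (c * r))
  have hu : ContDiff ℝ (⊤ : ℕ∞) u :=
    (G_smooth η).comp (contDiff_sin.comp (contDiff_const.mul contDiff_id))
  let g : ℝ → ℝ := fun r => if r ∈ Ioo 0 ρ then u r else 0
  have ha : ∀ r, r ≤ η / c → g r = 0 := by
    intro r hr
    simp only [g]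
    split_ifs with h
    · refine G_zero hη ((sin_le (mul_pos hc0 h.1).le).trans ?_)
      rw [le_div_iff₀ hc0] at hr
      linarith
    · rfl
  have hb : ∀ r, ρ - η / c ≤ r → g r = 0 := by
    intro r hr
    simp only [g]
    split_ifs with h
    · refine G_zero hη ?_
      rw [← sin_pi_sub]
      have h1 : π - c * r = c * (ρ - r) := by rw [← hcρ]; ring
      rw [h1]
      refine (sin_le (mul_pos hc0 (sub_pos.2 h.2)).le).trans ?_
      have : ρ - r ≤ η / c := by linarith
      rw [le_div_iff₀ hc0] at this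
      linarith
    · rfl
  have hev : ∀ r ∈ Ioo 0 ρ, g =ᶠ[𝓝 r] u := fun r hr => by
    filter_upwards [isOpen_Ioo.mem_nhds hr] with z hz
    simp only [g, if_pos hz]
  have hηc : 0 < η / c := by positivity
  have hg : ContDiff ℝ (⊤ : ℕ∞) g := by
    refine contDiff_iff_contDiffAt.2 fun r => ?_
    by_cases h : r ∈ Ioo 0 ρ
    · exact hu.contDiffAt.congr_of_eventuallyEq (hev r h)
    · refine (contDiffAt_const (c := (0 : ℝ))).congr_of_eventuallyEq ?_
      rcases not_and_or.1 h with h | h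
      · filter_upwards [Iio_mem_nhds (show r < η / c by linarith [not_lt.1 h])] with z hz
        exact ha z (le_of_lt hz)
      · filter_upwards [Ioi_mem_nhds (show ρ - η / c < r by linarith [not_lt.1 h])] with z hz
        exact hb z (le_of_lt hz)
  refine ⟨g, η / c, ρ - η / c, hηc, by linarith, hg, ha, hb, ?_, ?_⟩
  · have h1 : ∫ r in (0 : ℝ)..ρ, (sin (c * r) ^ 2 - 4 * η) = (1 / 2 - 4 * η) * ρ := by
      rw [intervalIntegral.integral_sub (Continuous.intervalIntegrable (by fun_prop) _ _)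
        (Continuous.intervalIntegrable (by fun_prop) _ _),
        intervalIntegral.integral_comp_mul_left (fun x => sin x ^ 2) hc0.ne', integral_sin_sq, hcρ]
      simp [hc]
      field_simp
    rw [← h1]
    refine intervalIntegral.integral_mono_on_of_le_Ioo hρ.le
      (Continuous.intervalIntegrable (by fun_prop) _ _)
      ((hg.continuous.pow 2).intervalIntegrable _ _) fun r hr => ?_
    simp only [g, if_pos hr]
    refine G_sq hη (sin_nonneg_of_nonneg_of_le_pi (mul_pos hc0 hr.1).le ?_) (sin_le_one _)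
    rw [← hcρ]
    exact mul_le_mul_of_nonneg_left hr.2.le hc0.le
  · have h1 : ∫ r in (0 : ℝ)..ρ, c ^ 2 * cos (c * r) ^ 2 = π ^ 2 / ρ ^ 2 * (ρ / 2) := by
      rw [intervalIntegral.integral_const_mul,
        intervalIntegral.integral_comp_mul_left (fun x => cos x ^ 2) hc0.ne', integral_cos_sq, hcρ]
      simp [hc]
      field_simp
    rw [← h1]
    refine intervalIntegral.integral_mono_on_of_le_Ioo hρ.le
      (((hg.continuous_deriv (by simp)).pow 2).intervalIntegrable _ _)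
      (Continuous.intervalIntegrable (by fun_prop) _ _) fun r hr => ?_
    have h2 : HasDerivAt u (smoothTransition (sin (c * r) / η - 1) * (cos (c * r) * c)) r :=
      (G_deriv η _).comp r (by simpa using ((hasDerivAt_id r).const_mul c).sin)
    rw [(hev r hr).deriv_eq, h2.deriv, mul_pow]
    have h3 : smoothTransition (sin (c * r) / η - 1) ^ 2 ≤ 1 :=
      pow_le_one₀ (smoothTransition.nonneg _) (smoothTransition.le_one _)
    nlinarith [sq_nonneg (cos (c * r) * c)]

/-! the radial test function -/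

theorem int_Ioi {h : ℝ → ℝ} {ρ : ℝ} (hρ : 0 ≤ ρ) (h0 : ∀ r, ρ < r → h r = 0) :
    ∫ r in Ioi (0 : ℝ), h r = ∫ r in (0 : ℝ)..ρ, h r := by
  rw [intervalIntegral.integral_of_le hρ]
  refine setIntegral_eq_of_subset_of_forall_sdiff_eq_zero measurableSet_Ioi Ioc_subset_Ioi_self ?_
  intro r hr
  refine h0 r (not_le.1 fun h => hr.2 ⟨hr.1, h⟩)

theorem radial {g : ℝ → ℝ} {a b ρ : ℝ} (ha : 0 < a) (hb : b < ρ) (hρ : 0 < ρ)
    (hg : ContDiff ℝ (⊤ : ℕ∞) g) (h0 : ∀ r, r ≤ a → g r = 0) (h1 : ∀ r, b ≤ r → g r = 0) :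
    ∃ F : E3 → ℝ, ContDiff ℝ (⊤ : ℕ∞) F ∧ (∀ x, b ≤ ‖x‖ → F x = 0) ∧
      ∫ x, F x ^ 2 = 4 * π * ∫ r in (0 : ℝ)..ρ, g r ^ 2 ∧
      ∫ x, ‖fderiv ℝ F x‖ ^ 2 ≤ 4 * π * ∫ r in (0 : ℝ)..ρ, deriv g r ^ 2 := by
  let φ : ℝ → ℝ := fun r => g r / r
  have hφ0 : ∀ r, r ≤ a → φ r = 0 := fun r hr => by simp [φ, h0 r hr]
  have hφ1 : ∀ r, b ≤ r → φ r = 0 := fun r hr => by simp [φ, h1 r hr]
  have hφ : ContDiff ℝ (⊤ : ℕ∞) φ := by
    refine contDiff_iff_contDiffAt.2 fun r => ?_
    rcases eq_or_ne r 0 with rfl | h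
    · refine (contDiffAt_const (c := (0 : ℝ))).congr_of_eventuallyEq ?_
      filter_upwards [Iio_mem_nhds ha] with z hz
      exact hφ0 z (le_of_lt hz)
    · exact hg.contDiffAt.div contDiffAt_id h
  have hgφ : g = fun r => r * φ r := by
    funext r
    rcases eq_or_ne r 0 with rfl | h
    · simp [h0 0 ha.le]
    · simp only [φ]; field_simp
  have hd : ∀ r, HasDerivAt φ (deriv φ r) r := fun r =>
    (hφ.differentiable (by simp) r).hasDerivAt
  have hdc : Continuous (deriv φ) := hφ.continuous_deriv (by simp)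
  have hc : Continuous φ := hφ.continuous
  have hd1 : ∀ r, b < r → deriv φ r = 0 := fun r hr => by
    have : φ =ᶠ[𝓝 r] fun _ => 0 := by
      filter_upwards [Ioi_mem_nhds hr] with z hz
      exact hφ1 z (le_of_lt hz)
    rw [this.deriv_eq]; simp
  have hev : (fun x : E3 => φ ‖x‖) =ᶠ[𝓝 0] fun _ => 0 := by
    filter_upwards [ball_mem_nhds (0 : E3) ha] with z hz
    exact hφ0 _ (le_of_lt (by simpa using hz))
  refine ⟨fun x => φ ‖x‖, ?_, fun x hx => hφ1 _ hx, ?_, ?_⟩
  · refine contDiff_iff_contDiffAt.2 fun x => ?_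
    rcases eq_or_ne x 0 with rfl | h
    · exact (contDiffAt_const (c := (0 : ℝ))).congr_of_eventuallyEq hev
    · exact hφ.contDiffAt.comp x (contDiffAt_norm ℝ h)
  · rw [integral_radial fun r => φ r ^ 2, int_Ioi hρ.le fun r hr => by simp [hφ1 r (by linarith)],
      hgφ]
    simp only [mul_pow]
  · have hle : ∀ x : E3, ‖fderiv ℝ (fun x : E3 => φ ‖x‖) x‖ ^ 2 ≤ deriv φ ‖x‖ ^ 2 := by
      intro x
      rcases eq_or_ne x 0 with rfl | h
      · rw [hev.fderiv_eq]; simp [sq_nonneg]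
      · have hn : DifferentiableAt ℝ (fun x : E3 => ‖x‖) x :=
          (contDiffAt_norm ℝ (n := 1) h).differentiableAt one_ne_zero
        have h2 := ((hd ‖x‖).comp_hasFDerivAt x hn.hasFDerivAt).fderiv
        rw [show (fun x : E3 => φ ‖x‖) = φ ∘ fun x : E3 => ‖x‖ from rfl, h2, norm_smul,
          norm_fderiv_norm hn, mul_one, Real.norm_eq_abs, sq_abs]
    have hi : Integrable fun x : E3 => deriv φ ‖x‖ ^ 2 := by
      refine Continuous.integrable_of_hasCompactSupport (by fun_prop) ?_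
      refine HasCompactSupport.intro (isCompact_closedBall (0 : E3) b) fun x hx => ?_
      simp [hd1 ‖x‖ (by simpa using hx)]
    refine (integral_mono_of_nonneg (ae_of_all _ fun x => sq_nonneg _) hi (ae_of_all _ hle)).trans ?_
    rw [integral_radial fun r => deriv φ r ^ 2,
      int_Ioi hρ.le fun r hr => by simp [hd1 r (by linarith)]]
    refine mul_le_mul_of_nonneg_left (le_of_eq ?_) (by positivity)
    have hdg : ∀ r, deriv g r = φ r + r * deriv φ r := fun r => by
      rw [hgφ]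
      simpa using ((hasDerivAt_id' r).fun_mul (hd r)).deriv
    have hψ : ∀ r, HasDerivAt (fun r => r * φ r ^ 2) (φ r ^ 2 + 2 * r * φ r * deriv φ r) r :=
      fun r => by
        refine ((hasDerivAt_id' r).fun_mul ((hd r).fun_pow 2)).congr_deriv ?_
        simp; ring
    have hint := intervalIntegral.integral_eq_sub_of_hasDerivAt (a := 0) (b := ρ)
      (fun r _ => hψ r) (Continuous.intervalIntegrable (by fun_prop) _ _)
    simp only [hφ1 ρ hb.le] at hint
    have e : ∀ r, deriv g r ^ 2 =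
        r ^ 2 * deriv φ r ^ 2 + (φ r ^ 2 + 2 * r * φ r * deriv φ r) := fun r => by
      rw [hdg]; ring
    simp only [e]
    rw [intervalIntegral.integral_add (Continuous.intervalIntegrable (by fun_prop) _ _)
      (Continuous.intervalIntegrable (by fun_prop) _ _), hint]
    simp

theorem exists_F {ε ρ : ℝ} (hε : 0 < ε) (hρ : 0 < ρ) :
    ∃ (F : E3 → ℝ) (r : ℝ), ContDiff ℝ (⊤ : ℕ∞) F ∧ r < ρ ∧ (∀ x, r ≤ ‖x‖ → F x = 0) ∧
      0 < ∫ x, F x ^ 2 ∧
      ∫ x, ‖fderiv ℝ F x‖ ^ 2 ≤ (1 + ε) * π ^ 2 / ρ ^ 2 * ∫ x, F x ^ 2 := by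
  obtain ⟨g, a, b, ha, hb, hg, h0, h1, hl, hu⟩ :=
    exists_g (η := ε / (8 * (1 + ε))) (by positivity) hρ
  obtain ⟨F, hF, hF0, e1, e2⟩ := radial ha hb hρ hg h0 h1
  have e : (1 / 2 - 4 * (ε / (8 * (1 + ε)))) * ρ = ρ / (2 * (1 + ε)) := by
    field_simp; ring
  rw [e] at hl
  have hp : 0 < ρ / (2 * (1 + ε)) := by positivity
  refine ⟨F, b, hF, hb, hF0, ?_, e2.trans ?_⟩
  · rw [e1]
    exact mul_pos (by positivity) (hp.trans_le hl)
  · rw [e1]
    calc 4 * π * ∫ r in (0 : ℝ)..ρ, deriv g r ^ 2 ≤ 4 * π * (π ^ 2 / ρ ^ 2 * (ρ / 2)) := by gcongr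
      _ = (1 + ε) * π ^ 2 / ρ ^ 2 * (4 * π * (ρ / (2 * (1 + ε)))) := by field_simp
      _ ≤ _ := by gcongr

end Ball

theorem shift_stmt : ShiftStmt := by
  intro K v
  refine le_antisymm (Ball.shift_le K v) ?_
  have h := Ball.shift_le ((fun x => v + x) '' K) (-v)
  rw [image_image] at h
  simpa only [neg_add_cancel_left, image_id'] using h

theorem ball_stmt : BallStmt := by
  rintro ε hε K ρ hρ hρ4 ⟨a, ha⟩
  obtain ⟨F, r, hF, hr, h0, hp, hle⟩ := Ball.exists_F hε hρ
  rw [← shift_stmt K (-a)]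
  refine (Ball.lam1_le hF hr hρ4 h0 hp ?_).trans (ENNReal.ofReal_le_ofReal ?_)
  · rintro _ ⟨y, hy, rfl⟩ k
    have := ha y hy k
    rwa [sub_eq_neg_add y a] at this
  · rwa [div_le_iff₀ hp]

end Pool.Agent.MP_dce92b_pr

end MrgPart0

-- ======== part 1: formerly Pool.Agent.MP_dce92b_pr.RieszA
section MrgPart1

/-! BTOR module RIESZ, first part: reflections and polarization in R^3. -/

open MeasureTheory Filter Topology Metric Set

namespace Pool.Agent.MP_dce92b_pr.Riesz

variable {n : E3} {c : ℝ}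

/-- reflection in the plane of points whose inner product with n equals c -/
noncomputable def refl (n : E3) (c : ℝ) (x : E3) : E3 := x + (2 * (c - inner ℝ n x)) • n

theorem inner_refl (hn : ‖n‖ = 1) (x : E3) :
    c - inner ℝ n (refl n c x) = -(c - inner ℝ n x) := by
  simp only [refl, inner_add_right, real_inner_smul_right, real_inner_self_eq_norm_sq, hn]
  ring

theorem refl_refl (hn : ‖n‖ = 1) (x : E3) : refl n c (refl n c x) = x := by
  have h := inner_refl (c := c) hn x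
  rw [refl, h, refl, add_assoc, ← add_smul]
  have : 2 * (c - inner ℝ n x) + 2 * -(c - inner ℝ n x) = 0 := by ring
  rw [this, zero_smul, add_zero]

theorem norm_sub_refl_sq (hn : ‖n‖ = 1) (x y : E3) :
    ‖x - refl n c y‖ ^ 2 = ‖x - y‖ ^ 2 + 4 * ((c - inner ℝ n x) * (c - inner ℝ n y)) := by
  have h : x - refl n c y = (x - y) - (2 * (c - inner ℝ n y)) • n := by
    rw [refl]; abel
  rw [h, norm_sub_sq_real, real_inner_smul_right, norm_smul, hn, inner_sub_left,
    real_inner_comm n x, real_inner_comm n y, mul_one, Real.norm_eq_abs, sq_abs]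
  ring

theorem norm_refl_sq (hn : ‖n‖ = 1) (x : E3) :
    ‖refl n c x‖ ^ 2 = ‖x‖ ^ 2 + 4 * (c * (c - inner ℝ n x)) := by
  simpa using norm_sub_refl_sq (c := c) hn 0 x

theorem norm_refl_sub (hn : ‖n‖ = 1) (x y : E3) : ‖refl n c x - y‖ = ‖x - refl n c y‖ := by
  rw [← sq_eq_sq₀ (norm_nonneg _) (norm_nonneg _), norm_sub_rev, norm_sub_refl_sq hn,
    norm_sub_refl_sq hn, norm_sub_rev y x]
  ring

theorem norm_refl_sub_refl (hn : ‖n‖ = 1) (x y : E3) :
    ‖refl n c x - refl n c y‖ = ‖x - y‖ := by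
  rw [norm_refl_sub hn, refl_refl hn]

theorem continuous_refl : Continuous (refl n c) := by
  unfold refl
  fun_prop

theorem measurePreserving_refl (hn : ‖n‖ = 1) : MeasurePreserving (refl n c) := by
  have h1 := ((ℝ ∙ n)ᗮ.reflection).measurePreserving
  have h2 := measurePreserving_add_right (volume : Measure E3) ((2 * c) • n)
  have h3 := h2.comp h1
  have h4 : refl n c = (fun x => x + (2 * c) • n) ∘ ((ℝ ∙ n)ᗮ.reflection) := by
    funext x
    simp only [Function.comp, Submodule.reflection_orthogonal_apply,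
      Submodule.reflection_singleton_apply, hn, refl]
    simp only [RCLike.ofReal_real_eq_id, id_eq, one_pow, div_one, neg_sub]
    rw [two_smul, mul_sub, sub_smul, mul_smul 2 (inner ℝ n x), two_smul]
    abel
  rw [h4]
  exact h3

/-- the reflection as a measurable equivalence -/
noncomputable def reflEquiv (c : ℝ) (hn : ‖n‖ = 1) : E3 ≃ᵐ E3 :=
  MeasurableEquiv.ofInvolutive (refl n c) (refl_refl hn) continuous_refl.measurable

theorem integral_comp_refl (hn : ‖n‖ = 1) (F : E3 → ℝ) : ∫ x, F (refl n c x) = ∫ x, F x :=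
  (measurePreserving_refl hn).integral_comp (reflEquiv c hn).measurableEmbedding F

theorem integrable_comp_refl (hn : ‖n‖ = 1) {F : E3 → ℝ} (hF : Integrable F) :
    Integrable fun x => F (refl n c x) :=
  (measurePreserving_refl hn).integrable_comp_of_integrable hF

theorem integral_two (hn : ‖n‖ = 1) {F : E3 → ℝ} (hF : Integrable F) :
    ∫ x, (F x + F (refl n c x)) = 2 * ∫ x, F x := by
  rw [integral_add hF (integrable_comp_refl hn hF), integral_comp_refl hn F]
  ring

/-- Lebesgue measure on pairs of points -/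
noncomputable abbrev vol2 : Measure (E3 × E3) := (volume : Measure E3).prod volume

theorem integral_four (hn : ‖n‖ = 1) {F : E3 × E3 → ℝ} (hF : Integrable F vol2) :
    Integrable (fun p : E3 × E3 => F (p.1, p.2) + F (refl n c p.1, p.2) +
      F (p.1, refl n c p.2) + F (refl n c p.1, refl n c p.2)) vol2 ∧
    ∫ p, (F (p.1, p.2) + F (refl n c p.1, p.2) +
      F (p.1, refl n c p.2) + F (refl n c p.1, refl n c p.2)) ∂vol2 =
      4 * ∫ p, F p ∂vol2 := by
  have m := measurePreserving_refl (c := c) hn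
  have i := MeasurePreserving.id (volume : Measure E3)
  have e := (reflEquiv c hn).measurableEmbedding
  have ie : MeasurableEmbedding (id : E3 → E3) := MeasurableEmbedding.id
  have i1 : Integrable (fun p : E3 × E3 => F (p.1, p.2)) vol2 := hF
  have i2 : Integrable (fun p : E3 × E3 => F (refl n c p.1, p.2)) vol2 :=
    (m.prod i).integrable_comp_of_integrable hF
  have i3 : Integrable (fun p : E3 × E3 => F (p.1, refl n c p.2)) vol2 :=
    (i.prod m).integrable_comp_of_integrable hF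
  have i4 : Integrable (fun p : E3 × E3 => F (refl n c p.1, refl n c p.2)) vol2 :=
    (m.prod m).integrable_comp_of_integrable hF
  have e2 : ∫ p, F (refl n c p.1, p.2) ∂vol2 = ∫ p, F p ∂vol2 :=
    (m.prod i).integral_comp (e.prodMap ie) F
  have e3 : ∫ p, F (p.1, refl n c p.2) ∂vol2 = ∫ p, F p ∂vol2 :=
    (i.prod m).integral_comp (ie.prodMap e) F
  have e4 : ∫ p, F (refl n c p.1, refl n c p.2) ∂vol2 = ∫ p, F p ∂vol2 :=
    (m.prod m).integral_comp (e.prodMap e) F
  have i12 : Integrable (fun p : E3 × E3 => F (p.1, p.2) + F (refl n c p.1, p.2)) vol2 :=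
    i1.add i2
  have i123 : Integrable (fun p : E3 × E3 => F (p.1, p.2) + F (refl n c p.1, p.2) +
      F (p.1, refl n c p.2)) vol2 := i12.add i3
  refine ⟨i123.add i4, ?_⟩
  rw [integral_add i123 i4, integral_add i12 i3, integral_add i1 i2, e2, e3, e4]
  ring

open Classical in
/-- polarization of a function -/
noncomputable def pol (n : E3) (c : ℝ) (φ : E3 → ℝ) (x : E3) : ℝ :=
  if inner ℝ n x < c then max (φ x) (φ (refl n c x)) else min (φ x) (φ (refl n c x))

/-- the two values of the polarization on a pair of mirror points -/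
theorem pol_pair (hn : ‖n‖ = 1) (φ : E3 → ℝ) (x : E3) :
    (0 ≤ c - inner ℝ n x → pol n c φ x = max (φ x) (φ (refl n c x)) ∧
      pol n c φ (refl n c x) = min (φ x) (φ (refl n c x))) ∧
    (c - inner ℝ n x ≤ 0 → pol n c φ x = min (φ x) (φ (refl n c x)) ∧
      pol n c φ (refl n c x) = max (φ x) (φ (refl n c x))) := by
  have h := inner_refl (c := c) hn x
  rcases lt_trichotomy (c - inner ℝ n x) 0 with h0 | h0 | h0
  · have m1 : ¬ inner ℝ n x < c := by linarith
    have m2 : inner ℝ n (refl n c x) < c := by linarith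
    simp only [pol, if_pos m2, if_neg m1, refl_refl hn]
    exact ⟨fun h1 => by linarith, fun _ => ⟨trivial, max_comm _ _⟩⟩
  · have e : refl n c x = x := by simp [refl, h0]
    simp [e, pol]
  · have m1 : inner ℝ n x < c := by linarith
    have m2 : ¬ inner ℝ n (refl n c x) < c := by linarith
    simp only [pol, if_pos m1, if_neg m2, refl_refl hn]
    exact ⟨fun _ => ⟨trivial, min_comm _ _⟩, fun h1 => by linarith⟩

theorem pol_sum (hn : ‖n‖ = 1) (φ : E3 → ℝ) (Φ : ℝ → ℝ) (x : E3) :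
    Φ (pol n c φ x) + Φ (pol n c φ (refl n c x)) = Φ (φ x) + Φ (φ (refl n c x)) := by
  obtain ⟨h1, h2⟩ := pol_pair (c := c) hn φ x
  rcases le_total 0 (c - inner ℝ n x) with h | h
  · rw [(h1 h).1, (h1 h).2]
    rcases le_total (φ x) (φ (refl n c x)) with k | k
    · rw [max_eq_right k, min_eq_left k, add_comm]
    · rw [max_eq_left k, min_eq_right k]
  · rw [(h2 h).1, (h2 h).2]
    rcases le_total (φ x) (φ (refl n c x)) with k | k
    · rw [max_eq_right k, min_eq_left k]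
    · rw [max_eq_left k, min_eq_right k, add_comm]

theorem pol_add (hn : ‖n‖ = 1) (φ : E3 → ℝ) (x : E3) :
    pol n c φ x + pol n c φ (refl n c x) = φ x + φ (refl n c x) := pol_sum hn φ id x

theorem integral_pol (hn : ‖n‖ = 1) {φ : E3 → ℝ} {Φ : ℝ → ℝ}
    (h1 : Integrable fun x => Φ (pol n c φ x)) (h2 : Integrable fun x => Φ (φ x)) :
    ∫ x, Φ (pol n c φ x) = ∫ x, Φ (φ x) := by
  have e1 := integral_two (c := c) hn h1
  have e2 := integral_two (c := c) hn h2
  simp_rw [pol_sum hn] at e1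
  linarith

/-- the modulus of continuity is kept -/
theorem pol_mod (hn : ‖n‖ = 1) {φ : E3 → ℝ} {r ε : ℝ}
    (h : ∀ u v, ‖u - v‖ ≤ r → |φ u - φ v| ≤ ε) (x y : E3) (hxy : ‖x - y‖ ≤ r) :
    |pol n c φ x - pol n c φ y| ≤ ε := by
  have a1 := abs_le.1 (h x y hxy)
  have a2 := abs_le.1 (h (refl n c x) (refl n c y) (by rwa [norm_refl_sub_refl hn]))
  have opp : (c - inner ℝ n x) * (c - inner ℝ n y) ≤ 0 → ‖x - refl n c y‖ ≤ r := by
    intro h0
    refine le_trans ?_ hxy
    rw [← sq_le_sq₀ (norm_nonneg _) (norm_nonneg _), norm_sub_refl_sq hn]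
    linarith
  obtain ⟨x1, x2⟩ := pol_pair (c := c) hn φ x
  obtain ⟨y1, y2⟩ := pol_pair (c := c) hn φ y
  rcases le_total 0 (c - inner ℝ n x) with hx | hx <;>
    rcases le_total 0 (c - inner ℝ n y) with hy | hy
  · rw [(x1 hx).1, (y1 hy).1]
    exact (abs_max_sub_max_le_max _ _ _ _).trans (max_le (abs_le.2 a1) (abs_le.2 a2))
  · have k := opp (mul_nonpos_of_nonneg_of_nonpos hx hy)
    have a3 := h x _ k
    have a4 := h (refl n c x) y (by rwa [norm_refl_sub hn])
    rw [(x1 hx).1, (y2 hy).1]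
    rcases max_choice (φ x) (φ (refl n c x)) with e | e <;>
      rcases min_choice (φ y) (φ (refl n c y)) with e' | e' <;> rw [e, e']
    exacts [abs_le.2 a1, a3, a4, abs_le.2 a2]
  · have k := opp (mul_nonpos_of_nonpos_of_nonneg hx hy)
    have a3 := h x _ k
    have a4 := h (refl n c x) y (by rwa [norm_refl_sub hn])
    rw [(x2 hx).1, (y1 hy).1]
    rcases min_choice (φ x) (φ (refl n c x)) with e | e <;>
      rcases max_choice (φ y) (φ (refl n c y)) with e' | e' <;> rw [e, e']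
    exacts [abs_le.2 a1, a3, a4, abs_le.2 a2]
  · rw [(x2 hx).1, (y2 hy).1]
    exact (abs_min_sub_min_le_max _ _ _ _).trans (max_le (abs_le.2 a1) (abs_le.2 a2))

theorem pol_supp (hn : ‖n‖ = 1) (hc : 0 ≤ c) {φ : E3 → ℝ} {R : ℝ} (h0 : ∀ x, 0 ≤ φ x)
    (h : ∀ x, R < ‖x‖ → φ x = 0) (x : E3) (hx : R < ‖x‖) : pol n c φ x = 0 := by
  obtain ⟨x1, x2⟩ := pol_pair (c := c) hn φ x
  rcases le_total 0 (c - inner ℝ n x) with k | k
  · have : ‖x‖ ≤ ‖refl n c x‖ := by
      rw [← sq_le_sq₀ (norm_nonneg _) (norm_nonneg _), norm_refl_sq hn]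
      linarith [mul_nonneg hc k]
    rw [(x1 k).1, h x hx, h _ (hx.trans_le this), max_self]
  · rw [(x2 k).1, h x hx, min_eq_left (h0 _)]

theorem four_ineq {k1 k2 a a' b b' A A' B B' : ℝ} (hA : A + A' = a + a') (hB : B + B' = b + b')
    (h : (k1 - k2) * ((a - a') * (b - b')) ≤ (k1 - k2) * ((A - A') * (B - B'))) :
    a * (k1 * b) + a' * (k2 * b) + a * (k2 * b') + a' * (k1 * b') ≤
      A * (k1 * B) + A' * (k2 * B) + A * (k2 * B') + A' * (k1 * B') := by
  have e1 : a * (k1 * b) + a' * (k2 * b) + a * (k2 * b') + a' * (k1 * b') =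
      (1 / 2) * ((k1 + k2) * ((a + a') * (b + b')) + (k1 - k2) * ((a - a') * (b - b'))) := by ring
  have e2 : A * (k1 * B) + A' * (k2 * B) + A * (k2 * B') + A' * (k1 * B') =
      (1 / 2) * ((k1 + k2) * ((A + A') * (B + B')) + (k1 - k2) * ((A - A') * (B - B'))) := by ring
  rw [e1, e2, hA, hB]
  linarith

/-- the integrand of the quadratic form of the heat kernel -/
noncomputable def ker (t : ℝ) (φ : E3 → ℝ) (p : E3 × E3) : ℝ := φ p.1 * (pk t (p.2 - p.1) * φ p.2)

theorem form_le_form_pol (hn : ‖n‖ = 1) {t : ℝ} (ht : 0 < t) {φ : E3 → ℝ}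
    (h1 : Integrable (ker t φ) vol2) (h2 : Integrable (ker t (pol n c φ)) vol2) :
    ∫ p, ker t φ p ∂vol2 ≤ ∫ p, ker t (pol n c φ) p ∂vol2 := by
  obtain ⟨i1, e1⟩ := integral_four (c := c) hn h1
  obtain ⟨i2, e2⟩ := integral_four (c := c) hn h2
  have hrad : ∀ x y : E3, ‖x‖ = ‖y‖ → pk t x = pk t y :=
    fun x y h => le_antisymm (pk_anti ht h.ge) (pk_anti ht h.le)
  have h := integral_mono i1 i2 ?_
  · rw [e1, e2] at h
    linarith
  rintro ⟨x, y⟩
  simp only [ker]
  have k1 : pk t (refl n c y - refl n c x) = pk t (y - x) :=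
    hrad _ _ (norm_refl_sub_refl hn y x)
  have k2 : pk t (refl n c y - x) = pk t (y - refl n c x) := hrad _ _ (norm_refl_sub hn y x)
  rw [k1, k2]
  obtain ⟨x2, x3⟩ := pol_pair (c := c) hn φ x
  obtain ⟨y2, y3⟩ := pol_pair (c := c) hn φ y
  have hsq := norm_sub_refl_sq (c := c) hn y x
  have hge : 0 ≤ (c - inner ℝ n x) * (c - inner ℝ n y) →
      0 ≤ pk t (y - x) - pk t (y - refl n c x) := by
    intro h0
    refine sub_nonneg.mpr (pk_anti ht ?_)
    rw [← sq_le_sq₀ (norm_nonneg _) (norm_nonneg _)]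
    linarith
  have hle : (c - inner ℝ n x) * (c - inner ℝ n y) ≤ 0 →
      pk t (y - x) - pk t (y - refl n c x) ≤ 0 := by
    intro h0
    refine sub_nonpos.mpr (pk_anti ht ?_)
    rw [← sq_le_sq₀ (norm_nonneg _) (norm_nonneg _)]
    linarith
  have b1 : (φ x - φ (refl n c x)) * (φ y - φ (refl n c y)) ≤
      |φ x - φ (refl n c x)| * |φ y - φ (refl n c y)| := by
    rw [← abs_mul]; exact le_abs_self _
  have b2 : -(|φ x - φ (refl n c x)| * |φ y - φ (refl n c y)|) ≤
      (φ x - φ (refl n c x)) * (φ y - φ (refl n c y)) := by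
    rw [← abs_mul]; exact neg_abs_le _
  have mm : ∀ a b : ℝ, max a b - min a b = |a - b| := fun a b => max_sub_min_eq_abs' a b
  have mm' : ∀ a b : ℝ, min a b - max a b = -|a - b| := fun a b => by rw [← mm, neg_sub]
  apply four_ineq (pol_add hn φ x) (pol_add hn φ y)
  rcases le_total 0 (c - inner ℝ n x) with hx | hx <;>
    rcases le_total 0 (c - inner ℝ n y) with hy | hy
  · rw [(x2 hx).1, (x2 hx).2, (y2 hy).1, (y2 hy).2, mm, mm]
    exact mul_le_mul_of_nonneg_left b1 (hge (mul_nonneg hx hy))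
  · rw [(x2 hx).1, (x2 hx).2, (y3 hy).1, (y3 hy).2, mm, mm', mul_neg]
    exact mul_le_mul_of_nonpos_left b2 (hle (mul_nonpos_of_nonneg_of_nonpos hx hy))
  · rw [(x3 hx).1, (x3 hx).2, (y2 hy).1, (y2 hy).2, mm, mm', neg_mul]
    exact mul_le_mul_of_nonpos_left b2 (hle (mul_nonpos_of_nonpos_of_nonneg hx hy))
  · rw [(x3 hx).1, (x3 hx).2, (y3 hy).1, (y3 hy).2, mm', mm', neg_mul_neg]
    exact mul_le_mul_of_nonneg_left b1 (hge (mul_nonneg_of_nonpos_of_nonpos hx hy))

/-- polarization lowers the second moment, strictly if it changes a value -/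
theorem moment_pol_lt (hn : ‖n‖ = 1) (hc : 0 < c) {φ : E3 → ℝ} (c1 : Continuous φ)
    (c2 : Continuous (pol n c φ)) (h1 : Integrable fun x => φ x * ‖x‖ ^ 2)
    (h2 : Integrable fun x => pol n c φ x * ‖x‖ ^ 2) {x0 : E3} (hx : 0 < c - inner ℝ n x0)
    (hlt : φ x0 < φ (refl n c x0)) : ∫ x, pol n c φ x * ‖x‖ ^ 2 < ∫ x, φ x * ‖x‖ ^ 2 := by
  have e1 := integral_two (c := c) hn h1
  have e2 := integral_two (c := c) hn h2
  have i1 : Integrable fun x => φ x * ‖x‖ ^ 2 + φ (refl n c x) * ‖refl n c x‖ ^ 2 :=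
    h1.add (integrable_comp_refl (c := c) hn h1)
  have i2 : Integrable fun x =>
      pol n c φ x * ‖x‖ ^ 2 + pol n c φ (refl n c x) * ‖refl n c x‖ ^ 2 :=
    h2.add (integrable_comp_refl (c := c) hn h2)
  have key : ∀ x, φ x * ‖x‖ ^ 2 + φ (refl n c x) * ‖refl n c x‖ ^ 2 -
      (pol n c φ x * ‖x‖ ^ 2 + pol n c φ (refl n c x) * ‖refl n c x‖ ^ 2) =
      4 * c * ((φ (refl n c x) - pol n c φ (refl n c x)) * (c - inner ℝ n x)) := by
    intro x
    have := pol_add (c := c) hn φ x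
    rw [norm_refl_sq hn, show pol n c φ x = φ x + φ (refl n c x) - pol n c φ (refl n c x) by
      linarith]
    ring
  have cr := continuous_refl (n := n) (c := c)
  have hpos := integral_pos_of_integrable_nonneg_nonzero (μ := volume) (x := x0)
    (f := fun x => φ x * ‖x‖ ^ 2 + φ (refl n c x) * ‖refl n c x‖ ^ 2 -
      (pol n c φ x * ‖x‖ ^ 2 + pol n c φ (refl n c x) * ‖refl n c x‖ ^ 2))
    (by fun_prop) (i1.sub i2) (fun x => ?_) ?_
  · rw [integral_sub i1 i2, e1, e2] at hpos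
    linarith
  · simp only [key]
    refine mul_nonneg (by positivity) ?_
    obtain ⟨x1, x2⟩ := pol_pair (c := c) hn φ x
    rcases le_total 0 (c - inner ℝ n x) with k | k
    · rw [(x1 k).2]
      exact mul_nonneg (sub_nonneg.2 (min_le_right _ _)) k
    · rw [(x2 k).2]
      exact mul_nonneg_of_nonpos_of_nonpos (sub_nonpos.2 (le_max_right _ _)) k
  · simp only [key]
    rw [((pol_pair (c := c) hn φ x0).1 hx.le).2, min_eq_left hlt.le]
    exact (mul_pos (by positivity) (mul_pos (sub_pos.2 hlt) hx)).ne'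

/-- the bisector plane of two points at different distances from the origin -/
theorem exists_refl {x y : E3} (h : ‖x‖ < ‖y‖) :
    ∃ (n : E3) (c : ℝ), ‖n‖ = 1 ∧ 0 < c ∧ 0 < c - inner ℝ n x ∧ refl n c x = y := by
  have hne : y - x ≠ 0 := fun e => h.ne (by rw [sub_eq_zero.1 e])
  have hd : 0 < ‖y - x‖ := norm_pos_iff.2 hne
  have hn : ‖‖y - x‖⁻¹ • (y - x)‖ = 1 := by
    rw [norm_smul, norm_inv, norm_norm, inv_mul_cancel₀ hd.ne']
  have hr : refl (‖y - x‖⁻¹ • (y - x)) (inner ℝ (‖y - x‖⁻¹ • (y - x)) x + ‖y - x‖ / 2) x = y := by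
    rw [refl, add_sub_cancel_left, smul_smul,
      show 2 * (‖y - x‖ / 2) * ‖y - x‖⁻¹ = 1 by field_simp, one_smul, add_sub_cancel]
  refine ⟨_, _, hn, ?_, by rw [add_sub_cancel_left]; positivity, hr⟩
  have h2 := norm_refl_sq (c := inner ℝ (‖y - x‖⁻¹ • (y - x)) x + ‖y - x‖ / 2) hn x
  rw [hr, add_sub_cancel_left] at h2
  have h3 : ‖x‖ ^ 2 < ‖y‖ ^ 2 := by gcongr
  by_contra hc
  nlinarith [mul_nonneg (neg_nonneg.2 (not_lt.1 hc)) hd.le]

end Pool.Agent.MP_dce92b_pr.Riesz

end MrgPart1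

-- ======== part 2: formerly Pool.Agent.MP_dce92b_pr.RieszB
section MrgPart2

/-! BTOR module RIESZ: consequences of equimeasurability for a radial nonincreasing function. -/

open MeasureTheory Filter Topology Metric Set Real

namespace Pool.Agent.MP_dce92b_pr.Riesz

variable {f g : E3 → ℝ}

theorem integrable_comp (hf : Continuous f) (hc : HasCompactSupport f) {Φ : ℝ → ℝ}
    (hΦ : Continuous Φ) (h0 : Φ 0 = 0) : Integrable fun x => Φ (f x) :=
  (hΦ.comp hf).integrable_of_hasCompactSupport (hc.comp_left h0)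

/-- (a) the support of the rearrangement lies in a ball of the same volume -/
theorem zero_of_vol (hf : Continuous f) (hfc : HasCompactSupport f) (hf0 : ∀ x, 0 ≤ f x)
    (hg : Continuous g) (hgc : HasCompactSupport g) (hg0 : ∀ x, 0 ≤ g x)
    (hr : ∀ x y, ‖x‖ ≤ ‖y‖ → g y ≤ g x)
    (hΦ : ∀ Φ : ℝ → ℝ, Continuous Φ → Φ 0 = 0 → ∫ x, Φ (g x) = ∫ x, Φ (f x))
    {R : ℝ} (hR : 0 ≤ R) (hv : volume {x | 0 < f x} ≤ volume (ball (0 : E3) R))
    (x : E3) (hx : R ≤ ‖x‖) : g x = 0 := by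
  have key : ∀ y : E3, R < ‖y‖ → g y = 0 := by
    intro y hy
    by_contra hn
    have ha : 0 < g y := lt_of_le_of_ne (hg0 y) (Ne.symm hn)
    have c1 : Continuous fun s : ℝ => min 1 (s / g y) := by fun_prop
    have z1 : min 1 (0 / g y) = 0 := by simp
    have e := hΦ _ c1 z1
    have mo : MeasurableSet {x | 0 < f x} := (isOpen_lt continuous_const hf).measurableSet
    have fin : volume {x | 0 < f x} ≠ ⊤ := (hv.trans_lt measure_ball_lt_top).ne
    have l1 : volume.real (closedBall (0 : E3) ‖y‖) ≤ ∫ x, min 1 (g x / g y) := by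
      rw [← integral_indicator_one measurableSet_closedBall]
      refine integral_mono ((integrable_indicator_iff measurableSet_closedBall).2
        (integrableOn_const measure_closedBall_lt_top.ne)) (integrable_comp hg hgc c1 z1)
        fun z => ?_
      by_cases hz : z ∈ closedBall (0 : E3) ‖y‖
      · rw [indicator_of_mem hz]
        exact le_min le_rfl ((one_le_div ha).2 (hr z y (by simpa using hz)))
      · rw [indicator_of_notMem hz]
        exact le_min zero_le_one (div_nonneg (hg0 z) ha.le)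
    have l2 : ∫ x, min 1 (f x / g y) ≤ volume.real {x | 0 < f x} := by
      rw [← integral_indicator_one mo]
      refine integral_mono (integrable_comp hf hfc c1 z1)
        ((integrable_indicator_iff mo).2 (integrableOn_const fin)) fun z => ?_
      by_cases hz : z ∈ {x | 0 < f x}
      · rw [indicator_of_mem hz]
        exact min_le_left _ _
      · rw [indicator_of_notMem hz]
        have : f z = 0 := le_antisymm (not_lt.1 hz) (hf0 z)
        simp [this]
    have l3 : volume.real {x | 0 < f x} ≤ volume.real (ball (0 : E3) R) :=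
      ENNReal.toReal_mono measure_ball_lt_top.ne hv
    have l4 := (l1.trans e.le).trans (l2.trans l3)
    rw [Measure.real, Measure.real, volume_closedBall3 _ (norm_nonneg y), volume_ball3 _ hR,
      ENNReal.toReal_ofReal (by positivity), ENNReal.toReal_ofReal (by positivity)] at l4
    have l5 : R ^ 3 < ‖y‖ ^ 3 := by gcongr
    nlinarith [pi_pos]
  have hcl : closure {y : E3 | R < ‖y‖} ⊆ {y | g y = 0} :=
    closure_minimal key (isClosed_eq hg continuous_const)
  refine hcl ?_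
  have : {y : E3 | R < ‖y‖} = (closedBall (0 : E3) R)ᶜ := by
    ext y
    simp
  rw [this, closure_compl, interior_closedBall' (0 : E3) R]
  simpa using hx

/-- (b) the rearrangement has the same upper bounds -/
theorem le_of_le (hf0 : ∀ x, 0 ≤ f x) (hg : Continuous g) (hgc : HasCompactSupport g)
    (hΦ : ∀ Φ : ℝ → ℝ, Continuous Φ → Φ 0 = 0 → ∫ x, Φ (g x) = ∫ x, Φ (f x))
    {M : ℝ} (hM : ∀ x, f x ≤ M) (x : E3) : g x ≤ M := by
  have hM0 : 0 ≤ M := (hf0 0).trans (hM 0)
  have c1 : Continuous fun s : ℝ => max (s - M) 0 := by fun_prop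
  have z1 : max (0 - M) 0 = 0 := max_eq_right (by linarith)
  have e := hΦ _ c1 z1
  have e' : ∫ x, max (f x - M) 0 = 0 := by
    simp [fun x => max_eq_right (sub_nonpos.2 (hM x))]
  by_contra hn
  have := integral_pos_of_integrable_nonneg_nonzero (μ := volume) (x := x) (c1.comp hg)
    (integrable_comp hg hgc c1 z1) (fun _ => le_max_right _ _)
    (lt_max_of_lt_left (sub_pos.2 (not_le.1 hn))).ne'
  exact this.ne' (e.trans e')

/-- (c) bathtub principle -/
theorem bathtub (hf : Continuous f) (hfc : HasCompactSupport f) (hf0 : ∀ x, 0 ≤ f x)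
    (hf1 : ∀ x, f x ≤ 1) (hg : Continuous g) (hgc : HasCompactSupport g) (hg0 : ∀ x, 0 ≤ g x)
    (hr : ∀ x y, ‖x‖ ≤ ‖y‖ → g y ≤ g x)
    (hΦ : ∀ Φ : ℝ → ℝ, Continuous Φ → Φ 0 = 0 → ∫ x, Φ (g x) = ∫ x, Φ (f x))
    {U : Set E3} (hfin : volume U ≠ ⊤) {r : ℝ}
    (hv : volume (ball (0 : E3) r) ≤ volume U) :
    ∫ x in ball (0 : E3) r, (1 - g x) ^ 2 ≤ ∫ x in U, (1 - f x) ^ 2 := by
  rcases le_or_gt r 0 with h | h
  · rw [ball_eq_empty.2 h, setIntegral_empty]
    exact integral_nonneg fun _ => sq_nonneg _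
  obtain ⟨e, he⟩ := exists_norm_eq E3 h.le
  have hg1 := le_of_le hf0 hg hgc hΦ hf1
  have c1 : Continuous fun s : ℝ => max ((1 - g e) ^ 2 - (1 - s) ^ 2) 0 := by fun_prop
  have z1 : max ((1 - g e) ^ 2 - (1 - 0) ^ 2) 0 = 0 :=
    max_eq_right (by nlinarith [hg0 e, hg1 e])
  have e1 := hΦ _ c1 z1
  have i1 := integrable_comp hf hfc c1 z1
  have bd : ∀ {φ : E3 → ℝ} {V : Set E3}, Continuous φ → (∀ x, 0 ≤ φ x) → (∀ x, φ x ≤ 1) →
      volume V ≠ ⊤ → IntegrableOn (fun x => (1 - φ x) ^ 2) V := by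
    intro φ V k1 k2 k3 k4
    refine Measure.integrableOn_of_bounded (M := 1) k4 (by fun_prop)
      (Eventually.of_forall fun x => ?_)
    rw [Real.norm_of_nonneg (sq_nonneg _)]
    nlinarith [k2 x, k3 x]
  have ic : ∀ {V : Set E3}, volume V ≠ ⊤ → IntegrableOn (fun _ => (1 - g e) ^ 2) V :=
    fun k => integrableOn_const k
  have l1 : volume.real U * (1 - g e) ^ 2 - ∫ x in U, (1 - f x) ^ 2 ≤
      ∫ x, max ((1 - g e) ^ 2 - (1 - f x) ^ 2) 0 := by
    refine le_trans ?_ (setIntegral_le_integral (s := U) i1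
      (Eventually.of_forall fun _ => le_max_right _ _))
    rw [← smul_eq_mul, ← setIntegral_const, ← integral_sub (ic hfin)
      (bd hf hf0 hf1 hfin)]
    exact integral_mono ((ic hfin).sub (bd hf hf0 hf1 hfin)) i1.integrableOn
      fun _ => le_max_left _ _
  have l2 : ∫ x, max ((1 - g e) ^ 2 - (1 - g x) ^ 2) 0 =
      volume.real (ball (0 : E3) r) * (1 - g e) ^ 2 - ∫ x in ball (0 : E3) r, (1 - g x) ^ 2 := by
    have fin : volume (ball (0 : E3) r) ≠ ⊤ := measure_ball_lt_top.ne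
    rw [← smul_eq_mul, ← setIntegral_const, ← integral_sub (ic fin)
      (bd hg hg0 hg1 fin), ← setIntegral_eq_integral_of_forall_compl_eq_zero
        (s := ball (0 : E3) r) fun x hx => ?_]
    · refine setIntegral_congr_fun measurableSet_ball fun x hx => max_eq_left ?_
      have := hr x e (by rw [he]; exact (mem_ball_zero_iff.1 hx).le)
      nlinarith [hg1 x, hg1 e]
    · have := hr e x (by rw [he]; simpa using hx)
      exact max_eq_right (by nlinarith [hg1 x, hg1 e])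
  have l3 : volume.real (ball (0 : E3) r) ≤ volume.real U := ENNReal.toReal_mono hfin hv
  have := mul_le_mul_of_nonneg_right l3 (sq_nonneg (1 - g e))
  linarith

/-- the squares have the same integral, and the form does not increase -/
theorem ER_le {t : ℝ}
    (hΦ : ∀ Φ : ℝ → ℝ, Continuous Φ → Φ 0 = 0 → ∫ x, Φ (g x) = ∫ x, Φ (f x))
    (hJ : ∫ x, f x * Pt t f x ≤ ∫ x, g x * Pt t g x) : ER t g ≤ ER t f := by
  have := hΦ (fun s => s * s) (by fun_prop) (by simp)
  unfold ER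
  linarith

end Pool.Agent.MP_dce92b_pr.Riesz

end MrgPart2

-- ======== part 3: formerly Pool.Agent.MP_dce92b_pr.Second
section MrgPart3

/-! BTOR module SECOND: the second moment bound. -/

open MeasureTheory ProbabilityTheory Filter Topology Metric Real
open scoped NNReal ENNReal

namespace Pool.Agent.MP_dce92b_pr

namespace Second

/-- survival function of the killed chain -/
noncomputable def sv (t : ℝ) (n : ℕ) (a : E3 → ℝ) : E3 → ℝ :=
  (fun (g : E3 → ℝ) x => a x * Pt t g x)^[n] a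

theorem sv_BP {t : ℝ} (ht : 0 < t) {a : E3 → ℝ} (ha : BP a) (n : ℕ) : BP (sv t n a) := by
  unfold sv
  induction n with
  | zero => exact ha
  | succ n ih => rw [Function.iterate_succ_apply']; exact ha.mul (ih.Pt ht)

/-- survival indicator -/
noncomputable def XX (t : ℝ≥0) (n : ℕ) (a : E3 → ℝ) (v : E3) (w : Path0) : ℝ :=
  ∏ k ∈ Finset.range (n + 1), a (v + w.1 (k * t))

theorem XX_meas (t : ℝ≥0) (n : ℕ) {a : E3 → ℝ} (ha : BP a) (v : E3) : Measurable (XX t n a v) :=
  Finset.measurable_prod _ fun _ _ => ha.meas.comp ((measurable_eval _).const_add v)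

theorem abs_le_of01 {a : E3 → ℝ} (h : ∀ x, a x = 0 ∨ a x = 1) (x : E3) : |a x| ≤ 1 := by
  rcases h x with h | h <;> simp [h]

theorem XX_abs (t : ℝ≥0) (n : ℕ) {a : E3 → ℝ} (h : ∀ x, a x = 0 ∨ a x = 1) (v : E3) (w : Path0) :
    |XX t n a v w| ≤ 1 := by
  rw [XX, Finset.abs_prod]
  exact Finset.prod_le_one (fun _ _ => abs_nonneg _) fun _ _ => abs_le_of01 h _

theorem XX_mul (t : ℝ≥0) (n : ℕ) (a b : E3 → ℝ) (v : E3) (w : Path0) :
    XX t n a v w * XX t n b v w = XX t n (fun x => a x * b x) v w := by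
  simp only [XX, Finset.prod_mul_distrib]

theorem mul01 {a b : E3 → ℝ} (h : ∀ x, a x = 0 ∨ a x = 1) (h' : ∀ x, b x = 0 ∨ b x = 1) (x : E3) :
    a x * b x = 0 ∨ a x * b x = 1 := by
  rcases h x with h | h <;> rcases h' x with h' | h' <;> simp [h, h']

theorem moment {μ : Measure Path0} (hμ : IsWiener μ) {t : ℝ≥0} (ht : 0 < t) (n : ℕ) {ι : Type}
    [Fintype ι] [Nonempty ι] {a : ι → E3 → ℝ} (ha : ∀ i, BP (a i))
    (h01 : ∀ i x, a i x = 0 ∨ a i x = 1) {p q : ℝ} (hp : 0 < p) (hq : 0 ≤ q)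
    (h1 : ∀ i, p ≤ avg (sv t n (a i)))
    (h2 : ∀ i j, i ≠ j → avg (sv t n fun x => a i x * a j x) ≤ q) :
    μ.real {w | ∀ v i, XX t n (a i) v w = 0} ≤ 1 / (Fintype.card ι * p) + q / p ^ 2 - 1 := by
  classical
  have := hμ.prob
  have ht' : (0 : ℝ) < t := ht
  set N : ℝ := (Fintype.card ι : ℝ) with hN
  have hN0 : 0 < N := by rw [hN]; exact_mod_cast Fintype.card_pos
  set m := ∑ i, avg (sv t n (a i)) with hm
  have hm1 : N * p ≤ m := by
    have := Finset.sum_le_sum fun i (_ : i ∈ Finset.univ) => h1 i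
    simpa using this
  have hm0 : 0 < m := lt_of_lt_of_le (by positivity) hm1
  have iX : ∀ {b : E3 → ℝ}, BP b → (∀ x, b x = 0 ∨ b x = 1) → ∀ v, Integrable (XX t n b v) μ :=
    fun hb hb' v => Integrable.of_bound (XX_meas t n hb v).aestronglyMeasurable 1
      (Eventually.of_forall fun w => XX_abs t n hb' v w)
  have eX : ∀ {b : E3 → ℝ}, BP b → (∀ x, b x = 0 ∨ b x = 1) → ∀ v,
      ∫ w, XX t n b v w ∂μ = sv t n b v := fun hb hb' v =>
    hμ.chain_pos ht hb.toBM (abs_le_of01 hb') n v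
  have key : ∀ v, μ.real {w | ∀ v i, XX t n (a i) v w = 0} ≤
      1 - 2 / m * ∑ i, sv t n (a i) v +
        1 / m ^ 2 * ∑ i, ∑ j, sv t n (fun x => a i x * a j x) v := by
    intro v
    have hS : Measurable fun w => ∑ i, XX t n (a i) v w :=
      Finset.measurable_sum _ fun i _ => XX_meas t n (ha i) v
    have hE : MeasurableSet {w | ∑ i, XX t n (a i) v w = 0} := hS (measurableSet_singleton 0)
    have i1 : Integrable (fun w => ∑ i, XX t n (a i) v w) μ :=
      integrable_finsetSum _ fun i _ => iX (ha i) (h01 i) v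
    have i2 : Integrable (fun w => ∑ i, ∑ j, XX t n (fun x => a i x * a j x) v w) μ :=
      integrable_finsetSum _ fun i _ => integrable_finsetSum _ fun j _ =>
        iX ((ha i).mul (ha j)) (mul01 (h01 i) (h01 j)) v
    have i3 : Integrable (fun w => 1 - 2 / m * ∑ i, XX t n (a i) v w) μ :=
      (integrable_const 1).sub (i1.const_mul _)
    calc _ ≤ μ.real {w | ∑ i, XX t n (a i) v w = 0} :=
          measureReal_mono (fun w (hw : ∀ v i, XX t n (a i) v w = 0) =>
            Finset.sum_eq_zero fun i _ => hw v i) (measure_ne_top _ _)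
      _ = ∫ w, Set.indicator {w | ∑ i, XX t n (a i) v w = 0} 1 w ∂μ :=
          (integral_indicator_one hE).symm
      _ ≤ ∫ w, (1 - 2 / m * ∑ i, XX t n (a i) v w +
            1 / m ^ 2 * ∑ i, ∑ j, XX t n (fun x => a i x * a j x) v w) ∂μ := by
          refine integral_mono ((integrable_const 1).indicator hE) (i3.add (i2.const_mul _))
            fun w => ?_
          have e : ∑ i, ∑ j, XX t n (fun x => a i x * a j x) v w = (∑ i, XX t n (a i) v w) ^ 2 := by
            rw [sq, Finset.sum_mul_sum]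
            simp only [XX_mul]
          dsimp only
          rw [e, show 1 - 2 / m * ∑ i, XX t n (a i) v w + 1 / m ^ 2 * (∑ i, XX t n (a i) v w) ^ 2 =
            (1 - (∑ i, XX t n (a i) v w) / m) ^ 2 by field_simp; ring]
          by_cases hw : w ∈ {w | ∑ i, XX t n (a i) v w = 0}
          · rw [Set.indicator_of_mem hw, show ∑ i, XX t n (a i) v w = 0 from hw]; simp
          · rw [Set.indicator_of_notMem hw]; positivity
      _ = _ := by
          rw [integral_add i3 (i2.const_mul _), integral_sub (integrable_const 1) (i1.const_mul _),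
            integral_const_mul, integral_const_mul,
            integral_finsetSum _ fun i _ => iX (ha i) (h01 i) v,
            integral_finsetSum _ fun i _ => integrable_finsetSum _ fun j _ =>
              iX ((ha i).mul (ha j)) (mul01 (h01 i) (h01 j)) v]
          simp only [integral_const, probReal_univ, smul_eq_mul, mul_one]
          congr 2
          · congr 1
            exact Finset.sum_congr rfl fun i _ => eX (ha i) (h01 i) v
          · refine Finset.sum_congr rfl fun i _ => ?_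
            rw [integral_finsetSum _ fun j _ => iX ((ha i).mul (ha j)) (mul01 (h01 i) (h01 j)) v]
            exact Finset.sum_congr rfl fun j _ => eX ((ha i).mul (ha j)) (mul01 (h01 i) (h01 j)) v
  have j0 : ∀ i, Integrable (sv t n (a i)) (volume.restrict cube) := fun i =>
    (sv_BP ht' (ha i) n).integrableOn
  have j0' : ∀ i j, Integrable (sv t n fun x => a i x * a j x) (volume.restrict cube) := fun i j =>
    (sv_BP ht' ((ha i).mul (ha j)) n).integrableOn
  have j1 : Integrable (fun v => ∑ i, sv t n (a i) v) (volume.restrict cube) :=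
    integrable_finsetSum _ fun i _ => j0 i
  have j2 : Integrable (fun v => ∑ i, ∑ j, sv t n (fun x => a i x * a j x) v)
      (volume.restrict cube) := integrable_finsetSum _ fun i _ => integrable_finsetSum _ fun j _ =>
    j0' i j
  have j3 : Integrable (fun v => 1 - 2 / m * ∑ i, sv t n (a i) v) (volume.restrict cube) :=
    (integrable_const 1).sub (j1.const_mul _)
  have k2 := integral_mono (μ := volume.restrict cube) (integrable_const _)
    (j3.add (j2.const_mul (1 / m ^ 2))) key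
  simp only [Pi.add_apply] at k2
  rw [integral_add j3 (j2.const_mul _), integral_sub (integrable_const 1) (j1.const_mul _),
    integral_const_mul, integral_const_mul, integral_finsetSum _ fun i _ => j0 i,
    integral_finsetSum _ fun i _ => integrable_finsetSum _ fun j _ => j0' i j] at k2
  simp only [integral_const, probReal_univ, smul_eq_mul, one_mul] at k2
  have k3 : ∑ i, ∫ v in cube, ∑ j, sv t n (fun x => a i x * a j x) v ≤ m + N ^ 2 * q := by
    have : ∀ i, ∫ v in cube, ∑ j, sv t n (fun x => a i x * a j x) v ≤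
        avg (sv t n (a i)) + N * q := by
      intro i
      rw [integral_finsetSum _ fun j _ => j0' i j]
      have : ∀ j, ∫ v in cube, sv t n (fun x => a i x * a j x) v ≤
          (if j = i then avg (sv t n (a i)) else 0) + q := by
        intro j
        split_ifs with h
        · subst h
          have : (fun x => a j x * a j x) = a j := funext fun x => by
            rcases h01 j x with h | h <;> simp [h]
          rw [this]
          exact le_add_of_nonneg_right hq
        · rw [zero_add]; exact h2 i j (Ne.symm h)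
      refine (Finset.sum_le_sum fun j _ => this j).trans (le_of_eq ?_)
      simp [Finset.sum_add_distrib, hN]
    refine (Finset.sum_le_sum fun i _ => this i).trans (le_of_eq ?_)
    simp [Finset.sum_add_distrib, hN, hm]
    ring
  have k4 : ∑ i, ∫ v in cube, sv t n (a i) v = m := rfl
  rw [k4] at k2
  have k5 : 1 / m ≤ 1 / (N * p) := one_div_le_one_div_of_le (by positivity) hm1
  have k6 : 1 / m ^ 2 * (N ^ 2 * q) ≤ q / p ^ 2 := by
    calc 1 / m ^ 2 * (N ^ 2 * q) ≤ 1 / (N * p) ^ 2 * (N ^ 2 * q) := by gcongr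
      _ = _ := by field_simp
  have k7 : 1 / m ^ 2 * (m + N ^ 2 * q) = 1 / m + 1 / m ^ 2 * (N ^ 2 * q) := by field_simp
  have k8 : 2 / m * m = 2 := by field_simp
  have k9 : 1 / m ^ 2 * ∑ i, ∫ v in cube, ∑ j, sv t n (fun x => a i x * a j x) v ≤
      1 / m ^ 2 * (m + N ^ 2 * q) := by gcongr
  linarith

/-- indicator of the complement of a closed ball of the torus -/
noncomputable def AA (r : ℝ) (a x : E3) : ℝ := if r < ‖red (x - a)‖ then 1 else 0

theorem AA_BP (r : ℝ) (a : E3) : BP (AA r a) :=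
  BM.red (h := fun x => if r < ‖x‖ then 1 else 0)
    ⟨Measurable.ite (measurableSet_lt measurable_const measurable_norm) measurable_const
      measurable_const, 1, fun x => by split_ifs <;> simp⟩ a

theorem AA_01 (r : ℝ) (a x : E3) : AA r a x = 0 ∨ AA r a x = 1 := by
  unfold AA; split_ifs <;> simp

theorem AA_zero {r : ℝ} {a x : E3} (h : ‖x - a‖ ≤ r) : AA r a x = 0 := by
  have := norm_red_le (x - a) 0
  rw [lat_zero, sub_zero] at this
  exact if_neg (not_lt.2 (this.trans h))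

theorem hole_of {s t : ℝ≥0} {n : ℕ} {c γ : ℝ} (ht : 0 < t) (hγ : 0 < γ) (hs : s ≤ n * t) {a v : E3}
    {w : Path0} (h1 : ∀ k < n, ∀ u ≤ t, ‖w.1 (k * t + u) - w.1 (k * t)‖ ≤ γ)
    (h2 : XX t n (AA (c + γ) a) v w ≠ 0) : Hole (rng s w) c := by
  refine ⟨a - v, ?_⟩
  rintro _ ⟨u, hu, rfl⟩ l
  have hu' : u ≤ n * t := le_trans hu hs
  obtain ⟨k, hk, hk'⟩ : ∃ k ≤ n, ‖w.1 u - w.1 (k * t)‖ ≤ γ := by
    rcases eq_or_lt_of_le hu' with h | h
    · exact ⟨n, le_rfl, by rw [h, sub_self, norm_zero]; exact hγ.le⟩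
    · have a1 : (⌊u / t⌋₊ : ℝ≥0) * t ≤ u := (le_div_iff₀ ht).1 (Nat.floor_le (by positivity))
      have a2 : u < (⌊u / t⌋₊ + 1 : ℝ≥0) * t := (div_lt_iff₀ ht).1 (Nat.lt_floor_add_one _)
      have a3 : ⌊u / t⌋₊ < n := (Nat.floor_lt (by positivity)).2 ((div_lt_iff₀ ht).2 h)
      refine ⟨_, a3.le, ?_⟩
      have := h1 _ a3 (u - ⌊u / t⌋₊ * t) (by
        rw [tsub_le_iff_left]
        exact a2.le.trans (le_of_eq (by ring)))
      rwa [add_tsub_cancel_of_le a1] at this
  have b1 : AA (c + γ) a (v + w.1 (k * t)) ≠ 0 :=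
    Finset.prod_ne_zero_iff.1 h2 k (Finset.mem_range.2 (by omega))
  have b2 : c + γ < ‖red (v + w.1 (k * t) - a)‖ := by
    by_contra h
    exact b1 (if_neg h)
  have b3 := norm_red_lip (v + w.1 (k * t) - a) (w.1 u - (a - v))
  rw [show v + w.1 (k * t) - a - (w.1 u - (a - v)) = -(w.1 u - w.1 (k * t)) by abel, norm_neg] at b3
  have b4 := norm_red_le (w.1 u - (a - v)) l
  linarith

theorem sep {d : ℝ} (hd : 0 < d) (hd' : d ≤ 1 / 4) {N : ℕ} (hN : N * d ≤ 1 / 2)
    {i j : Fin 3 → Fin N} (hij : i ≠ j) (k : Fin 3 → ℤ) :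
    d ≤ ‖d • lat (fun l => (i l : ℕ)) - d • lat (fun l => (j l : ℕ)) - lat k‖ := by
  obtain ⟨l, hl⟩ := Function.ne_iff.1 hij
  refine le_trans ?_ (PiLp.norm_apply_le _ l)
  simp only [PiLp.sub_apply, PiLp.smul_apply, lat_apply, smul_eq_mul, Real.norm_eq_abs,
    Int.cast_natCast]
  have a1 : ((i l : ℕ) : ℝ) ≤ N := by exact_mod_cast (i l).2.le
  have a2 : ((j l : ℕ) : ℝ) ≤ N := by exact_mod_cast (j l).2.le
  have a3 : (0 : ℝ) ≤ (i l : ℕ) := Nat.cast_nonneg _
  have a4 : (0 : ℝ) ≤ (j l : ℕ) := Nat.cast_nonneg _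
  rw [le_abs]
  rcases lt_trichotomy (k l) 0 with h | h | h
  · have : (k l : ℝ) ≤ -1 := by exact_mod_cast Int.le_sub_one_of_lt h
    left; nlinarith
  · rw [h]
    rcases lt_or_gt_of_ne (Fin.val_ne_of_ne hl) with h' | h'
    · have : ((i l : ℕ) : ℝ) + 1 ≤ (j l : ℕ) := by exact_mod_cast h'
      right; push_cast; nlinarith
    · have : ((j l : ℕ) : ℝ) + 1 ≤ (i l : ℕ) := by exact_mod_cast h'
      left; push_cast; nlinarith
  · have : (1 : ℝ) ≤ k l := by exact_mod_cast h
    right; nlinarith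

theorem exp_le_one_sub {b : ℝ} (h0 : 0 ≤ b) (h1 : b ≤ 1 / 2) : exp (-(b * (1 + 2 * b))) ≤ 1 - b := by
  rw [exp_neg, inv_le_comm₀ (exp_pos _) (by linarith), inv_eq_one_div]
  refine le_trans ?_ (add_one_le_exp _)
  rw [div_le_iff₀ (by linarith)]
  nlinarith [mul_nonneg (mul_nonneg h0 h0) (show 0 ≤ 1 - 2 * b by linarith)]

theorem exp_mul_le {K y : ℝ} (h0 : 0 ≤ y) (h1 : y ≤ 1) : exp (K * y) ≤ 1 + exp K * y := by
  have := convexOn_exp.2 (Set.mem_univ 0) (Set.mem_univ K) (show 0 ≤ 1 - y by linarith) h0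
    (by ring)
  simp only [smul_eq_mul, mul_zero, zero_add, exp_zero, mul_one] at this
  rw [mul_comm]
  linarith

theorem prod3 {r1 r2 r3 : ℝ} (a1 : 0 ≤ r1) (b1 : r1 ≤ 1) (a2 : 0 ≤ r2) (b2 : r2 ≤ 1) (a3 : 0 ≤ r3)
    (b3 : r3 ≤ 1) : (1 + r1) * (1 + r2) * (1 + r3) ≤ 1 + 3 * (r1 + r2 + r3) := by
  nlinarith [mul_le_of_le_one_right a1 b2, mul_le_of_le_one_right a2 b3,
    mul_le_of_le_one_left a3 b1, mul_le_of_le_one_right a1 (mul_le_one₀ b2 a3 b3)]

theorem num_low {C1 c γ t E I F : ℝ} {n : ℕ} (hC1 : 0 < C1) (hγ : 0 < γ) (hγc : γ ≤ c)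
    (ht : 0 < t) (ht1 : t ≤ 1) (hx1 : C1 * (c + γ) ≤ 1 / 4) (hc' : c + γ ≤ 1 / 400)
    (hE1 : √c ≤ E) (p4 : 1 - C1 * (c + γ) ≤ I)
    (p5 : F ≤ 4 * π * (c + γ) * t * (1 + C1 * (c + γ))) :
    (1 - C1 * (c + γ)) * exp (-(4 * π * (n * t * c) +
      4 * π * (18 * C1 + 6) * (n * t * c * (E + γ / c + t)))) ≤ I * (1 - F / I) ^ n := by
  have hp := pi_pos
  have hp4 := pi_lt_four
  have hc0 : 0 < c := hγ.trans_le hγc
  have hγc0 : 0 < γ / c := by positivity
  have hsq : c ≤ √c := by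
    rw [le_sqrt hc0.le hc0.le]; nlinarith
  have hE0 : 0 ≤ E := (sqrt_nonneg c).trans hE1
  obtain ⟨x, hx⟩ : ∃ x, x = C1 * (c + γ) := ⟨_, rfl⟩
  have hx0 : 0 < x := by rw [hx]; positivity
  have u2 : 3 * x ≤ 6 * C1 * √c := by
    have : c + γ ≤ 2 * √c := by linarith
    calc 3 * x ≤ 3 * (C1 * (2 * √c)) := by rw [hx]; gcongr
      _ = _ := by ring
  rw [← hx] at hx1 p4 p5 ⊢
  clear hx
  have q0 : 0 < I := by linarith
  obtain ⟨b, hb⟩ : ∃ b, b = 4 * π * (c + γ) * t * (1 + 3 * x) := ⟨_, rfl⟩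
  have b0 : 0 ≤ b := by rw [hb]; positivity
  have b1 : b ≤ t / 2 := by
    calc b ≤ 4 * 4 * (1 / 400) * t * (1 + 3 * (1 / 4)) := by rw [hb]; gcongr
      _ ≤ _ := by linarith
  have b2 : F / I ≤ b := by
    rw [div_le_iff₀ q0]
    refine p5.trans ?_
    have : 1 + x ≤ (1 + 3 * x) * (1 - x) := by nlinarith
    calc _ ≤ 4 * π * (c + γ) * t * ((1 + 3 * x) * (1 - x)) := by gcongr
      _ ≤ 4 * π * (c + γ) * t * ((1 + 3 * x) * I) := by gcongr
      _ = _ := by rw [hb]; ring
  have b3 := exp_le_one_sub b0 (by linarith)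
  have b4 : n * (b * (1 + 2 * b)) ≤ 4 * π * (n * t * c) +
      4 * π * (18 * C1 + 6) * (n * t * c * (E + γ / c + t)) := by
    have u3 := prod3 hγc0.le ((div_le_one hc0).2 hγc) (show 0 ≤ 3 * x by linarith)
      (show 3 * x ≤ 1 by linarith) (show 0 ≤ 2 * b by linarith) (show 2 * b ≤ 1 by linarith)
    have u4 : 3 * (γ / c + 3 * x + 2 * b) ≤ (18 * C1 + 6) * (E + γ / c + t) := by
      have w1 : C1 * √c ≤ C1 * E := by gcongr
      have w2 := mul_pos hC1 hγc0
      have w3 := mul_pos hC1 ht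
      have : (18 * C1 + 6) * (E + γ / c + t) = 18 * (C1 * E) + 18 * (C1 * (γ / c)) +
        18 * (C1 * t) + 6 * (E + γ / c + t) := by ring
      linarith
    calc n * (b * (1 + 2 * b)) =
          4 * π * (n * t * c) * ((1 + γ / c) * (1 + 3 * x) * (1 + 2 * b)) := by
          nth_rewrite 1 [hb]; field_simp
      _ ≤ 4 * π * (n * t * c) * (1 + (18 * C1 + 6) * (E + γ / c + t)) :=
          mul_le_mul_of_nonneg_left (by linarith) (by positivity)
      _ = _ := by ring
  calc _ ≤ I * exp (n * -(b * (1 + 2 * b))) :=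
        mul_le_mul p4 (exp_le_exp.2 (by linarith)) (exp_pos _).le q0.le
    _ ≤ _ := by
        rw [exp_nat_mul]
        exact mul_le_mul_of_nonneg_left (pow_le_pow_left₀ (exp_pos _).le (by linarith) n) q0.le

theorem num_k1 {C2 c t E : ℝ} (hC2 : 0 < C2) (hc0 : 0 < c) (hc : c ≤ 1 / 400) (ht : 0 < t)
    (ht1 : t ≤ 1) (hE0 : 0 ≤ E) : 8 * π * c * t * (1 - C2 * E) ≤ 1 := by
  have hp := pi_pos
  have hp4 := pi_lt_four
  have := mul_nonneg hC2.le hE0
  calc _ ≤ 8 * π * c * t * 1 := by gcongr; linarith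
    _ ≤ 8 * 4 * (1 / 400) * 1 * 1 := by gcongr
    _ ≤ 1 := by norm_num

theorem num_up {C2 c t E r : ℝ} {n : ℕ} (hC2 : 0 < C2) (hc0 : 0 < c) (ht : 0 < t) (hr : 0 ≤ r)
    (k1 : 8 * π * c * t * (1 - C2 * E) ≤ 1) :
    (1 - 8 * π * c * t * (1 - C2 * E)) ^ n ≤
      exp (-(2 * (4 * π * (n * t * c))) + 8 * π * C2 * (n * t * c * (E + r + t))) := by
  have hp := pi_pos
  calc _ ≤ exp (-(8 * π * c * t * (1 - C2 * E))) ^ n :=
        pow_le_pow_left₀ (by linarith)
          (by linarith [add_one_le_exp (-(8 * π * c * t * (1 - C2 * E)))]) n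
    _ ≤ _ := by
        rw [← exp_nat_mul]
        refine exp_le_exp.2 ?_
        have : 8 * π * C2 * (n * t * c * E) ≤ 8 * π * C2 * (n * t * c * (E + r + t)) := by
          gcongr; linarith
        refine le_trans (le_of_eq ?_) (add_le_add_right this _)
        ring

theorem num_f1 {K1 B y x d C : ℝ} {N : ℕ} (hK : 0 < K1) (hy : y ≤ 1) (hx1 : x ≤ 1 / 4)
    (hd0 : 0 < d) (hN0 : 0 < N) (hN2 : 1 / 4 ≤ N * d) (hC : 100 * exp K1 ≤ C) :
    1 / ((N : ℝ) ^ 3 * ((1 - x) * exp (-(B + K1 * y)))) ≤ C * (d ^ 3 * exp B) := by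
  have hN : (0 : ℝ) < N := by exact_mod_cast hN0
  rw [div_le_iff₀ (mul_pos (by positivity) (mul_pos (by linarith) (exp_pos _)))]
  have g1 : exp K1 * exp B * exp (-(B + K1)) = 1 := by
    rw [← exp_add, ← exp_add, show K1 + B + -(B + K1) = 0 by ring, exp_zero]
  have g0 : 0 ≤ 1 - x := by linarith
  have hC0 : 0 ≤ C := le_trans (by positivity) hC
  have g2 : K1 * y ≤ K1 := mul_le_of_le_one_right hK.le hy
  calc (1 : ℝ) ≤ 100 * (1 / 4) ^ 3 * (3 / 4) * 1 := by norm_num
    _ ≤ 100 * (N * d) ^ 3 * (1 - x) * (exp K1 * exp B * exp (-(B + K1))) := by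
        rw [g1]; gcongr; linarith
    _ = 100 * exp K1 * (d ^ 3 * exp B) * (N ^ 3 * ((1 - x) * exp (-(B + K1)))) := by ring
    _ ≤ _ := by gcongr

theorem num_f2 {K1 K2 B y x c C C1 : ℝ} (hK1 : 0 < K1) (hK2 : 0 < K2) (hy0 : 0 ≤ y) (hy : y ≤ 1)
    (hx0 : 0 < x) (hx1 : x ≤ 1 / 4) (hc0 : 0 < c) (hC1 : 0 < C1) (hxc : 4 * x ≤ 8 * C1 * c)
    (hC : exp (K2 + 2 * K1) * (8 * C1 + 1) ≤ C) :
    exp (-(2 * B) + K2 * y) / ((1 - x) * exp (-(B + K1 * y))) ^ 2 - 1 ≤ C * (c + y) := by
  have e2 := exp_pos (K2 + 2 * K1)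
  have g1 : exp (-(2 * B) + K2 * y) = exp ((K2 + 2 * K1) * y) * exp (-(B + K1 * y)) ^ 2 := by
    rw [← exp_nat_mul, ← exp_add]; congr 1; push_cast; ring
  have g2 := exp_mul_le (K := K2 + 2 * K1) hy0 hy
  have g3 : exp ((K2 + 2 * K1) * y) ≤ exp (K2 + 2 * K1) :=
    exp_le_exp.2 (mul_le_of_le_one_right (by positivity) hy)
  have g4 : exp ((K2 + 2 * K1) * y) / (1 - x) ^ 2 ≤ exp ((K2 + 2 * K1) * y) * (1 + 4 * x) := by
    rw [div_le_iff₀ (pow_pos (by linarith) 2), mul_assoc]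
    refine le_mul_of_one_le_right (exp_pos _).le ?_
    nlinarith [mul_nonneg hx0.le (show 0 ≤ 2 - 7 * x + 4 * x ^ 2 by nlinarith)]
  have g5 : exp ((K2 + 2 * K1) * y) * (4 * x) ≤ exp (K2 + 2 * K1) * (8 * C1 * c) := by gcongr
  have g6 : exp (K2 + 2 * K1) * (8 * C1 + 1) * (c + y) ≤ C * (c + y) := by gcongr
  rw [g1, mul_pow, mul_div_mul_right _ _ (pow_pos (exp_pos _) 2).ne']
  generalize exp (K2 + 2 * K1) = A at *
  generalize exp ((K2 + 2 * K1) * y) = A' at *
  generalize A' / (1 - x) ^ 2 = A'' at *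
  have w1 := mul_pos e2 hc0
  have w2 := mul_nonneg (mul_pos e2 hC1).le hy0
  have : A * (8 * C1 + 1) * (c + y) = A * (8 * C1 * c) + A * c + 8 * (A * C1 * y) + A * y := by
    ring
  linarith

theorem num_N {d : ℝ} (hd0 : 0 < d) (hd : d ≤ 1 / 4) :
    ∃ N : ℕ, 0 < N ∧ N * d ≤ 1 / 2 ∧ 1 / 4 ≤ N * d := by
  have hN2 : 1 / 4 ≤ ⌊1 / (2 * d)⌋₊ * d := by
    have := Nat.lt_floor_add_one (1 / (2 * d))
    rw [div_lt_iff₀ (by positivity)] at this
    nlinarith
  refine ⟨⌊1 / (2 * d)⌋₊, ?_, ?_, hN2⟩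
  · rcases Nat.eq_zero_or_pos ⌊1 / (2 * d)⌋₊ with h | h
    · rw [h] at hN2; norm_num at hN2
    · exact h
  · have := Nat.floor_le (show 0 ≤ 1 / (2 * d) by positivity)
    rw [le_div_iff₀ (by positivity)] at this
    linarith

theorem num_C {C1 C c γ : ℝ} (hC1 : 0 < C1) (hγ : 0 < γ) (hγc : γ ≤ c) (hC : 400 * (C1 + 1) ≤ C)
    (h : C * (c + γ) ≤ 1 / 4) :
    C1 * (c + γ) ≤ 1 / 4 ∧ c + γ ≤ 1 / 400 ∧ 4 * (C1 * (c + γ)) ≤ 8 * C1 * c := by
  have h0 : 0 < c + γ := by linarith
  have hsm : 400 * (C1 + 1) * (c + γ) ≤ 1 / 4 := le_trans (by gcongr) h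
  have := mul_pos hC1 h0
  refine ⟨by nlinarith, by nlinarith, by nlinarith⟩

theorem exC (a b c d : ℝ) (ha : 0 < a) (hb : 0 < b) (hc : 0 < c) (hd : 0 < d) :
    ∃ C, 0 < C ∧ a ≤ C ∧ b ≤ C ∧ c ≤ C ∧ d ≤ C :=
  ⟨a + b + c + d, by linarith, by linarith, by linarith, by linarith, by linarith⟩

end Second

open Second in
theorem second (h1 : OneStmt) (h2 : TwoStmt) (hU : KillUpStmt) (hL : KillLowStmt) (hS : SupStmt) :
    SecondStmt := by
  obtain ⟨C1, hC1, h1⟩ := h1
  obtain ⟨C2, hC2, h2⟩ := h2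
  obtain ⟨C3, hC3, hS⟩ := hS 4 le_rfl
  have hK10 : 0 < 4 * π * (18 * C1 + 6) := by positivity
  have hK20 : 0 < 8 * π * C2 := by positivity
  obtain ⟨C, hC, hCa, hCb, hCc, hCd⟩ := exC (400 * (C1 + 1)) C3
    (100 * exp (4 * π * (18 * C1 + 6)))
    (exp (8 * π * C2 + 2 * (4 * π * (18 * C1 + 6))) * (8 * C1 + 1)) (by positivity) hC3
    (by positivity) (by positivity)
  refine ⟨C, hC, fun μ hμ s t n c γ d ht ht1 hs hγ hγc hc hcd hd hCc' hy => ?_⟩
  have := hμ.prob
  have ht' : (0 : ℝ) < t := ht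
  have ht1' : (t : ℝ) ≤ 1 := ht1
  have hc0 : 0 < c := hγ.trans_le hγc
  have hd0 : 0 < d := lt_of_lt_of_le (by positivity) hcd
  obtain ⟨hx1, hc', hxc⟩ := num_C hC1 hγ hγc hCa hCc'
  have hx0 : 0 < C1 * (c + γ) := by positivity
  have hx2 : 0 < 1 - C1 * (c + γ) := sub_pos.2 (hx1.trans_lt (by norm_num))
  have hcc : c ≤ c + γ := le_add_of_nonneg_right hγ.le
  obtain ⟨E, hE⟩ : ∃ E, E = √c + c / d + t / (γ ^ 3 * c ^ 2) := ⟨_, rfl⟩
  have hE1 : √c ≤ E := by
    rw [hE, add_assoc]; exact le_add_of_nonneg_right (by positivity)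
  have hE0 : 0 ≤ E := (sqrt_nonneg c).trans hE1
  have h2' := h2 c γ d t hγ hγc (hcc.trans hc) hcd ht' ht1'
  rw [← hE] at hy h2' ⊢
  clear hE h2
  have hγc0 : 0 < γ / c := by positivity
  have hy0 : 0 ≤ n * (t : ℝ) * c * (E + γ / c + t) := by positivity
  obtain ⟨N, hN0, hN1, hN2⟩ := num_N hd0 hd
  have : Nonempty (Fin N) := ⟨⟨0, hN0⟩⟩
  have k1 := num_k1 hC2 hc0 (hcc.trans hc') ht' ht1' hE0
  have key := moment hμ ht n
    (a := fun i : Fin 3 → Fin N => AA (c + γ) (d • lat fun l => (i l : ℕ))) (fun i => AA_BP _ _)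
    (fun i => AA_01 _ _) (mul_pos hx2 (exp_pos (-(4 * π * (n * t * c) +
      4 * π * (18 * C1 + 6) * (n * t * c * (E + γ / c + t))))))
    (exp_pos (-(2 * (4 * π * (n * t * c))) + 8 * π * C2 * (n * t * c * (E + γ / c + t)))).le
    (fun i => by
      obtain ⟨φ, p1, p2, p3, p4, p5⟩ := h1 (c + γ) t (by positivity) hc ht' ht1'
        (d • lat fun l => (i l : ℕ))
      refine (num_low hC1 hγ hγc ht' ht1' hx1 hc' hE1 p4 p5).trans
        (hL t ht' _ (AA_BP _ _) (AA_01 _ _) φ p1 (fun z => ⟨(p2 z).1, ?_⟩) (hx2.trans_le p4) n)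
      unfold AA
      split_ifs with h
      · exact (p2 z).2
      · exact (p3 z (not_lt.1 h)).le) (fun i j hij => by
      refine (hU t _ ht' k1 _ ((AA_BP _ _).mul (AA_BP _ _)) (mul01 (AA_01 _ _) (AA_01 _ _))
        (fun g g1 g2 g3 => h2' _ _ (sep hd0 hd hN1 hij) g g1 g2 (fun z hz => g3 z ?_)
          fun z hz => g3 z ?_) n).trans (num_up hC2 hc0 ht' hγc0.le k1)
      · rw [AA_zero hz, zero_mul]
      · rw [AA_zero hz, mul_zero])
  simp only [Fintype.card_fun, Fintype.card_fin, Nat.cast_pow] at key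
  have f1 := num_f1 (B := 4 * π * (n * t * c)) hK10 hy hx1 hd0 hN0 hN2 hCc
  have f2 := num_f2 (B := 4 * π * (n * t * c)) hK10 hK20 hy0 hy hx0 hx1 hc0 hC1 hxc hCd
  have f3 := key.trans (le_of_eq_of_le (add_sub_assoc _ _ _) (add_le_add f1 f2))
  clear key f1 f2 h1 h2' hU hL
  have sub : {w | ¬ Hole (rng s w) c} ⊆
      (⋃ k ∈ Finset.range n, {w | ∃ u ≤ t, γ < ‖w.1 (k * t + u) - w.1 (k * t)‖}) ∪
        {w | ∀ v (i : Fin 3 → Fin N),
          XX t n (AA (c + γ) (d • lat fun l => (i l : ℕ))) v w = 0} := by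
    intro w hw
    by_contra hcon
    simp only [Set.mem_union, Set.mem_iUnion, Set.mem_ofPred_eq, not_or, not_exists, not_and,
      not_lt, not_forall, Finset.mem_range] at hcon
    obtain ⟨c1, v, i, c2⟩ := hcon
    exact hw (hole_of ht hγ hs c1 c2)
  have hr : 0 ≤ n * (√t / γ) ^ 4 := by positivity
  have t1 : μ (⋃ k ∈ Finset.range n, {w | ∃ u ≤ t, γ < ‖w.1 (k * t + u) - w.1 (k * t)‖}) ≤
      ENNReal.ofReal (C * (n * (√t / γ) ^ 4)) := by
    refine (measure_biUnion_finset_le _ _).trans ((Finset.sum_le_sum fun (k : ℕ) _ =>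
      hS μ hμ (k * t) t γ ht hγ).trans ?_)
    rw [Finset.sum_const, Finset.card_range, nsmul_eq_mul, ← ENNReal.ofReal_natCast,
      ← ENNReal.ofReal_mul (Nat.cast_nonneg _)]
    apply ENNReal.ofReal_le_ofReal
    calc _ = C3 * (n * (√t / γ) ^ 4) := by ring
      _ ≤ _ := mul_le_mul_of_nonneg_right hCb hr
  have t2 := (ofReal_measureReal (measure_ne_top μ _)).symm.trans_le (ENNReal.ofReal_le_ofReal f3)
  refine ((measure_mono sub).trans (measure_union_le _ _)).trans
    ((add_le_add t1 t2).trans (le_of_eq ?_))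
  rw [← ENNReal.ofReal_add (by positivity) (by positivity)]
  congr 1
  rw [show 4 * π * (n * (t : ℝ) * c) = 4 * π * c * (n * t) by ring]
  ring

end Pool.Agent.MP_dce92b_pr

end MrgPart3

-- ======== part 4: formerly Pool.Agent.MP_dce92b_pr.Two
section MrgPart4

/-! BTOR module TWO: test function for one ball and lower bound for two balls. -/

open MeasureTheory ProbabilityTheory Filter Topology Metric Real
open scoped NNReal ENNReal

namespace Pool.Agent.MP_dce92b_pr

namespace Two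

variable {h n1 n2 f g : E3 → ℝ} {c t m : ℝ}

theorem int_h_le (hc : 0 < c) (h0 : ∀ x, 0 ≤ h x) (hz : ∀ x, 1 / 4 ≤ ‖x‖ → h x = 0)
    (hb : ∀ x, h x * ‖x‖ ≤ c) : ∫ x, h x ≤ c / 2 := by
  set F : ℝ → ℝ := Set.indicator (Set.Iic (1 / 4)) fun r => c / r with hF
  have e1 : ∀ r ∈ Set.Ioi (0 : ℝ), r ^ 2 * F r =
      Set.indicator (Set.Iic (1 / 4)) (fun r => c * r) r := by
    intro r hr
    have hr' : r ≠ 0 := ne_of_gt hr
    by_cases h4 : r ∈ Set.Iic (1 / 4 : ℝ)
    · simp only [hF, Set.indicator_of_mem h4]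
      field_simp
    · simp only [hF, Set.indicator_of_notMem h4, mul_zero]
  have e2 : Set.Ioi (0 : ℝ) ∩ Set.Iic (1 / 4) = Set.Ioc 0 (1 / 4) := rfl
  have i1 : IntegrableOn (fun r => r ^ 2 * F r) (Set.Ioi (0 : ℝ)) := by
    rw [integrableOn_congr_fun e1 measurableSet_Ioi, IntegrableOn,
      integrable_indicator_iff measurableSet_Iic, IntegrableOn,
      Measure.restrict_restrict measurableSet_Iic, Set.inter_comm, e2]
    exact (continuous_const.mul continuous_id).integrableOn_Ioc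
  have i2 : Integrable fun x : E3 => F ‖x‖ := (integrable_radial F).2 i1
  have e3 : ∫ x : E3, F ‖x‖ = 4 * π * (c / 32) := by
    rw [integral_radial, setIntegral_congr_fun measurableSet_Ioi e1,
      setIntegral_indicator measurableSet_Iic, e2,
      ← intervalIntegral.integral_of_le (by norm_num), intervalIntegral.integral_const_mul,
      integral_id]
    ring
  have hle : ∫ x, h x ≤ ∫ x : E3, F ‖x‖ := by
    refine integral_mono_of_nonneg (Eventually.of_forall h0) i2 ?_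
    have hne : ∀ᵐ x : E3, x ≠ 0 := by
      rw [ae_iff]
      simp
    filter_upwards [hne] with x hx
    have hx0 : 0 < ‖x‖ := norm_pos_iff.2 hx
    by_cases h4 : ‖x‖ ∈ Set.Iic (1 / 4 : ℝ)
    · simp only [hF, Set.indicator_of_mem h4]
      rw [le_div_iff₀ hx0]
      exact hb x
    · simp only [hF, Set.indicator_of_notMem h4]
      rw [hz x (le_of_lt (not_le.1 h4))]
  rw [e3] at hle
  nlinarith [pi_le_four]

theorem form_eq (ht : 0 < t) (hh : BM h) (hz : ∀ x, 1 / 4 ≤ ‖x‖ → h x = 0)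
    (hn : ∀ x, h x - Pt t h x = n1 x - n2 x) (hf : BP f) (a : E3) :
    ip f (fun x => h (red (x - a))) - ip f (Pt t fun x => h (red (x - a))) =
      ∫ y, f (y + a) * (n1 y - n2 y) := by
  rw [ip_red_sub ht hf hh (fun x hx => hz x (by linarith)) a,
    ← integral_add_right_eq_self _ a]
  simp only [add_sub_cancel_right, hn]

theorem int_mul (hf : BM f) (hn : Integrable n1) : Integrable fun y => f y * n1 y := by
  obtain ⟨B, hB⟩ := hf.bdd
  exact hn.bdd_mul (c := B) hf.meas.aestronglyMeasurable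
    (Eventually.of_forall fun x => by simpa [Real.norm_eq_abs] using hB x)

theorem cross_le (hf : BM f) (hf0 : ∀ x, 0 ≤ f x ∧ f x ≤ 1) (p1 : ∀ x, 0 ≤ n1 x)
    (p2 : ∀ x, 0 ≤ n2 x) (i1 : Integrable n1) (i2 : Integrable n2) {β r : ℝ} (hβ : 0 ≤ β)
    (hb : ∀ y, ‖y‖ < r → f y ≤ β) :
    ∫ y, f y * (n1 y - n2 y) ≤ β * (∫ y, n1 y) + ∫ y in {y : E3 | r ≤ ‖y‖}, n1 y := by
  have hS : MeasurableSet {y : E3 | r ≤ ‖y‖} := measurableSet_le measurable_const measurable_norm
  rw [← integral_indicator hS, ← integral_const_mul,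
    ← integral_add (i1.const_mul β) (i1.indicator hS)]
  refine integral_mono (int_mul hf (i1.sub i2)) ((i1.const_mul β).add (i1.indicator hS)) ?_
  intro y
  have a1 := p1 y
  have a2 := p2 y
  obtain ⟨b1, b2⟩ := hf0 y
  by_cases hy : y ∈ {y : E3 | r ≤ ‖y‖}
  · simp only [Set.indicator_of_mem hy]
    nlinarith [mul_nonneg b1 a2, mul_nonneg hβ a1, mul_nonneg (sub_nonneg.2 b2) a1]
  · simp only [Set.indicator_of_notMem hy]
    have := hb y (not_le.1 hy)
    nlinarith [mul_nonneg b1 a2, mul_nonneg (sub_nonneg.2 this) a1]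

theorem self_le (hf : BM f) (hf0 : ∀ x, 0 ≤ f x ∧ f x ≤ 1) (p1 : ∀ x, 0 ≤ n1 x)
    (p2 : ∀ x, 0 ≤ n2 x) (i1 : Integrable n1) (i2 : Integrable n2) :
    ∫ y, f y * (n1 y - n2 y) ≤ ∫ y, n1 y := by
  refine integral_mono (int_mul hf (i1.sub i2)) i1 ?_
  intro y
  have a1 := p1 y
  have a2 := p2 y
  obtain ⟨b1, b2⟩ := hf0 y
  show f y * (n1 y - n2 y) ≤ n1 y
  nlinarith [mul_nonneg b1 a2, mul_nonneg (sub_nonneg.2 b2) a1]

theorem ball_le (hf : BP f) (h0 : ∀ x, 0 ≤ f x) :
    ∫ y in ball (0 : E3) (3 / 8), f y ≤ avg f := by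
  unfold avg
  rw [← integral_cubeAt hf.per 0]
  refine setIntegral_mono_set (hf.toBM.integrable _) (Eventually.of_forall h0) ?_
  exact ((ball_subset_ball (by norm_num)).trans (ball_subset_cubeAt 0)).eventuallyLE

theorem avg_abs_le (hg : BP g) {σ : ℝ} (hσ : 0 ≤ σ) (hv : ip g g - avg g ^ 2 ≤ σ ^ 2) :
    avg (fun x => |g x - avg g|) ≤ σ := by
  have hb : BP fun x => |g x - avg g| :=
    (hg.sub (BP.const (avg g))).comp (Φ := fun y => |y|) continuous_abs
  have h1 := avg_sq_le hb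
  have h2 : ip (fun x => |g x - avg g|) (fun x => |g x - avg g|) =
      ip (fun x => g x - avg g) (fun x => g x - avg g) := by
    simp only [ip, abs_mul_abs_self]
  rw [h2, ip_sub_avg hg] at h1
  exact abs_le_of_sq_le_sq' (h1.trans hv) hσ |>.2

theorem main_lower (hg : BP g) (h0 : ∀ x, 0 ≤ g x) (p2 : ∀ x, 0 ≤ n2 x)
    (i1 : Integrable n1) (i2 : Integrable n2) {b1 b2 r σ : ℝ} (hb1 : 0 ≤ b1) (hb2 : 0 ≤ b2)
    (hz : ∀ x, ‖x‖ ≤ r → g x = 0) (u1 : ∀ x, r ≤ ‖x‖ → n1 x ≤ b1) (u2 : ∀ x, n2 x ≤ b2)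
    (hout : ∀ x, 3 / 8 ≤ ‖x‖ → n1 x ≤ n2 x) (hσ : 0 ≤ σ) (hv : ip g g - avg g ^ 2 ≤ σ ^ 2) :
    ∫ y, g y * (n1 y - n2 y) ≤ -(avg g * (∫ y, n2 y)) +
      avg g * (∫ y in {y : E3 | 3 / 8 ≤ ‖y‖}, n2 y) + b2 * σ + b1 * avg g := by
  set A := avg g with hA
  have hS : MeasurableSet {y : E3 | 3 / 8 ≤ ‖y‖} :=
    measurableSet_le measurable_const measurable_norm
  have hB : MeasurableSet (ball (0 : E3) (3 / 8)) := measurableSet_ball
  have hfin : volume (ball (0 : E3) (3 / 8)) ≠ ⊤ := measure_ball_lt_top.ne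
  have hb : BP fun x => |g x - A| :=
    (hg.sub (BP.const A)).comp (Φ := fun y => |y|) continuous_abs
  have j1 : Integrable ((ball (0 : E3) (3 / 8)).indicator fun x => |g x - A|) :=
    (integrable_indicator_iff hB).2 (hb.toBM.integrableOn hfin)
  have j2 : Integrable ((ball (0 : E3) (3 / 8)).indicator g) :=
    (integrable_indicator_iff hB).2 (hg.toBM.integrableOn hfin)
  have k1 : Integrable fun y => -(A * n2 y) := (i2.const_mul A).neg
  have k2 : Integrable fun y => A * {y : E3 | 3 / 8 ≤ ‖y‖}.indicator n2 y :=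
    (i2.indicator hS).const_mul A
  have k3 : Integrable fun y => b2 * (ball (0 : E3) (3 / 8)).indicator (fun x => |g x - A|) y :=
    j1.const_mul b2
  have k4 : Integrable fun y => b1 * (ball (0 : E3) (3 / 8)).indicator g y := j2.const_mul b1
  have k12 : Integrable fun y => -(A * n2 y) + A * {y : E3 | 3 / 8 ≤ ‖y‖}.indicator n2 y :=
    k1.add k2
  have k123 : Integrable fun y => -(A * n2 y) + A * {y : E3 | 3 / 8 ≤ ‖y‖}.indicator n2 y +
      b2 * (ball (0 : E3) (3 / 8)).indicator (fun x => |g x - A|) y := k12.add k3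
  have key : ∫ y, g y * (n1 y - n2 y) ≤ ∫ y, (-(A * n2 y) +
      A * {y : E3 | 3 / 8 ≤ ‖y‖}.indicator n2 y +
      b2 * (ball (0 : E3) (3 / 8)).indicator (fun x => |g x - A|) y +
      b1 * (ball (0 : E3) (3 / 8)).indicator g y) := by
    refine integral_mono (int_mul hg.toBM (i1.sub i2)) (k123.add k4) ?_
    intro y
    have g0 := h0 y
    by_cases hy : y ∈ ball (0 : E3) (3 / 8)
    · have hy' : y ∉ {y : E3 | 3 / 8 ≤ ‖y‖} := by
        simpa using hy
      simp only [Set.indicator_of_mem hy, Set.indicator_of_notMem hy']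
      have e1 : g y * n1 y ≤ b1 * g y := by
        rcases le_total ‖y‖ r with hr | hr
        · rw [hz y hr]; simp
        · nlinarith [u1 y hr]
      have e2 : -((g y - A) * n2 y) ≤ b2 * |g y - A| := by
        have := neg_abs_le (g y - A)
        nlinarith [p2 y, u2 y, abs_nonneg (g y - A)]
      nlinarith
    · have hy' : y ∈ {y : E3 | 3 / 8 ≤ ‖y‖} := by
        simpa using hy
      simp only [Set.indicator_of_notMem hy, Set.indicator_of_mem hy']
      nlinarith [hout y hy']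
  rw [integral_add k123 k4, integral_add k12 k3, integral_add k1 k2,
    integral_neg, integral_const_mul, integral_const_mul, integral_const_mul, integral_const_mul,
    integral_indicator hS, integral_indicator hB, integral_indicator hB] at key
  have l1 := (ball_le hb fun x => abs_nonneg _).trans (avg_abs_le hg hσ hv)
  have l2 := ball_le hg h0
  nlinarith [mul_le_mul_of_nonneg_left l1 hb2, mul_le_mul_of_nonneg_left l2 hb1]

theorem avg_shift (hg : BP g) (a : E3) : avg (fun y => g (y + a)) = avg g :=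
  integral_cube_shift hg.per a

theorem ip_shift (hg : BP g) (a : E3) :
    ip (fun y => g (y + a)) (fun y => g (y + a)) = ip g g :=
  integral_cube_shift (hg.mul hg).per a

theorem far_le (hc : 0 < c) (hb : ∀ x, h x * ‖x‖ ≤ c) (h0 : ∀ x, 0 ≤ h x) {d : ℝ}
    (hd : 4 * c ≤ d) {a b : E3} (hab : ∀ k, d ≤ ‖a - b - lat k‖) {y : E3} (hy : ‖y‖ < c + c) :
    h (red (y + a - b)) ≤ 2 * (c / d) := by
  have h1 : d ≤ ‖red (a - b)‖ := hab _
  have h2 := norm_red_lip (a - b) (y + a - b)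
  have h3 : ‖a - b - (y + a - b)‖ = ‖y‖ := by
    rw [← norm_neg]; congr 1; abel
  have h4 : d / 2 ≤ ‖red (y + a - b)‖ := by linarith
  have hd0 : 0 < d := by linarith
  have h5 := hb (red (y + a - b))
  have h6 := mul_le_mul_of_nonneg_left h4 (h0 (red (y + a - b)))
  rw [← mul_div_assoc, le_div_iff₀ hd0]
  linarith

/-- the final numerical inequality -/
theorem numeric {C K c γ d t m l A E : ℝ} (hC : 0 < C) (hK : 0 < K) (hγ : 0 < γ) (hγc : γ ≤ c)
    (hc : c ≤ 1 / 16) (hd : 4 * c ≤ d) (ht : 0 < t) (hl : 0 ≤ l)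
    (m1 : 4 * π * c * t ≤ m) (m2 : m ≤ 4 * π * c * t * (1 + C * c))
    (A0 : 0 ≤ A) (A1 : A ≤ l) (A2 : l * (1 - K * c) ≤ A)
    (hE : 4 * l * (A * m - A * (C * c * t ^ 2) - C * c * t * (√K * √c * l) -
        C * t ^ 2 / (γ ^ 3 * c) * A) -
      l ^ 2 * (2 * m + 2 * (2 * (c / d) * m + C * t ^ 2 * (c / c ^ 2 + 1 / c))) ≤ E) :
    8 * π * c * t * (1 - (2 * K * (1 + C) + 2 * (1 + C) + 3 * C + C * √K) *
      (√c + c / d + t / (γ ^ 3 * c ^ 2))) * l ^ 2 ≤ E := by
  have c0 : 0 < c := lt_of_lt_of_le hγ hγc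
  have d0 : 0 < d := by linarith
  have p3 : 3 < π := pi_gt_three
  obtain ⟨u, hu⟩ : ∃ u, u = √c := ⟨_, rfl⟩
  obtain ⟨v, hv⟩ : ∃ v, v = c / d := ⟨_, rfl⟩
  obtain ⟨w, hw⟩ : ∃ w, w = t / (γ ^ 3 * c ^ 2) := ⟨_, rfl⟩
  obtain ⟨k, hk⟩ : ∃ k, k = √K := ⟨_, rfl⟩
  rw [← hu, ← hv, ← hk] at hE
  rw [← hu, ← hv, ← hk, ← hw]
  have u0 : 0 ≤ u := hu ▸ sqrt_nonneg _
  have k0 : 0 ≤ k := hk ▸ sqrt_nonneg _
  have v0 : 0 ≤ v := by rw [hv]; positivity
  have w0 : 0 ≤ w := by rw [hw]; positivity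
  have cu : c ≤ u := by
    rw [hu, le_sqrt c0.le c0.le]
    nlinarith
  have g1 : γ ^ 3 ≤ 1 := pow_le_one₀ hγ.le (by linarith)
  have c1 : c ^ 2 ≤ 1 := pow_le_one₀ c0.le (by linarith)
  have tw2 : t / c ^ 2 ≤ w := by
    rw [hw]
    refine div_le_div_of_nonneg_left ht.le (by positivity) ?_
    nlinarith [sq_nonneg c]
  have tw : t ≤ w := by
    refine le_trans ?_ tw2
    rw [le_div_iff₀ (by positivity)]
    nlinarith
  obtain ⟨S, hS⟩ : ∃ S, S = c * t := ⟨_, rfl⟩
  have S0 : 0 < S := by rw [hS]; positivity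
  have e1 : C * t ^ 2 / (γ ^ 3 * c) = C * S * w := by
    rw [hS, hw]; field_simp
  have e2 : C * t ^ 2 * (c / c ^ 2 + 1 / c) = 2 * C * S * (t / c ^ 2) := by
    rw [hS]; field_simp; ring
  have e3 : C * c * t ^ 2 = C * S * t := by rw [hS]; ring
  have e4 : C * c * t * (k * u * l) = C * S * (k * u) * l := by rw [hS]; ring
  have m1' : 4 * π * S ≤ m := by rw [hS]; linarith
  have m2' : m ≤ 4 * π * S * (1 + C) := by
    refine m2.trans ?_
    rw [hS]
    have : 4 * π * c * t * (1 + C * c) = 4 * π * (c * t) * (1 + C * c) := by ring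
    rw [this]
    refine mul_le_mul_of_nonneg_left ?_ (by positivity)
    nlinarith
  have m0 : 0 ≤ m := le_trans (by positivity) m1'
  rw [e1, e2, e3, e4] at hE
  refine le_trans ?_ hE
  have hS1 : S ≤ π * S := by nlinarith
  obtain ⟨Q, hQ⟩ : ∃ Q, Q = π * S := ⟨_, rfl⟩
  rw [← hQ] at hS1
  have Q0 : 0 ≤ Q := by rw [hQ]; positivity
  have f1 : l * (1 - K * c) * m ≤ A * m := mul_le_mul_of_nonneg_right A2 m0
  have f2 : A * (C * S * t) ≤ l * (C * Q * w) := by
    refine mul_le_mul A1 ?_ (by positivity) hl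
    exact mul_le_mul (mul_le_mul_of_nonneg_left hS1 hC.le) tw ht.le (by positivity)
  have f3 : C * S * (k * u) * l ≤ C * Q * (k * u) * l := by gcongr
  have f4 : C * S * w * A ≤ C * Q * w * l := by gcongr
  have f5 : C * S * (t / c ^ 2) ≤ C * Q * w := by gcongr
  have f6 : K * c * m ≤ K * u * (4 * Q * (1 + C)) := by
    refine mul_le_mul (mul_le_mul_of_nonneg_left cu hK.le) ?_ m0 (by positivity)
    rw [hQ]; linarith
  have f7 : v * m ≤ v * (4 * Q * (1 + C)) := by
    refine mul_le_mul_of_nonneg_left ?_ v0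
    rw [hQ]; linarith
  have f8 : 4 * Q ≤ m := by rw [hQ]; linarith
  have g : 8 * Q * (1 - (2 * K * (1 + C) + 2 * (1 + C) + 3 * C + C * k) * (u + v + w)) ≤
      4 * ((1 - K * c) * m - C * Q * w - C * Q * (k * u) - C * Q * w) -
        (2 * m + 2 * (2 * v * m + 2 * (C * Q * w))) := by
    have p1 : 0 ≤ Q * (K * (1 + C)) * (v + w) := by positivity
    have p2 : 0 ≤ Q * (1 + C) * (u + w) := by positivity
    have p3 : 0 ≤ Q * C * (u + v + w) := by positivity
    have p4 : 0 ≤ Q * (C * k) * (u + v + w) := by positivity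
    have p5 : 0 ≤ Q * C * (u + v) := by positivity
    have p6 : 0 ≤ Q * (C * k) * (v + w) := by positivity
    linarith
  have e5 : 8 * π * c * t = 8 * Q := by rw [hQ, hS]; ring
  rw [e5]
  have g' := mul_le_mul_of_nonneg_right g (sq_nonneg l)
  refine g'.trans ?_
  have l2 : 0 ≤ l ^ 2 := sq_nonneg l
  linarith [mul_le_mul_of_nonneg_left f1 hl, mul_le_mul_of_nonneg_left f2 hl,
    mul_le_mul_of_nonneg_left f3 hl, mul_le_mul_of_nonneg_left f4 hl,
    mul_le_mul_of_nonneg_left f5 l2]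

end Two

open Two in
theorem one (hP : ProfStmt) : OneStmt := by
  obtain ⟨C, hC, hP⟩ := hP
  refine ⟨C + 1, by linarith, fun c t hc hc1 ht ht1 a => ?_⟩
  obtain ⟨h, n1, n2, m, mh, -, -, h01, hin, hz, hb, hn, b1, b2, i1, i2, e1, -, -, m2, -, -, -⟩ :=
    hP c t hc hc1 ht ht1
  have hh : BM h := ⟨mh, 1, fun x => abs_le.2 ⟨by linarith [(h01 x).1], (h01 x).2⟩⟩
  have hH : BP fun x => h (red (x - a)) := hh.red a
  have hφ : BP fun x => 1 - h (red (x - a)) := (BP.const 1).sub hH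
  refine ⟨fun x => 1 - h (red (x - a)), hφ, fun x => ?_, fun x hx => ?_, ?_, ?_⟩
  · constructor
    · linarith [(h01 (red (x - a))).2]
    · linarith [(h01 (red (x - a))).1]
  · simp [hin _ hx]
  · have a1 : ∫ x in cube, h (red (x - a)) ≤ c / 2 := by
      have := integral_red (f := fun _ => (1 : ℝ)) (h := h) (fun _ _ => rfl)
        (fun x hx => hz x (by linarith)) a
      simp only [one_mul] at this
      rw [this, integral_sub_right_eq_self h a]
      exact int_h_le hc (fun x => (h01 x).1) hz hb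
    have a2 : ∫ x in cube, (1 - 2 * h (red (x - a))) ≤
        ip (fun x => 1 - h (red (x - a))) (fun x => 1 - h (red (x - a))) := by
      refine integral_mono ((BP.const 1).sub (hH.const_mul 2)).integrableOn
        (hφ.mul hφ).integrableOn fun x => ?_
      show 1 - 2 * h (red (x - a)) ≤ (1 - h (red (x - a))) * (1 - h (red (x - a)))
      nlinarith [sq_nonneg (h (red (x - a)))]
    rw [integral_sub (BP.const 1).integrableOn (hH.const_mul 2).integrableOn,
      integral_const_mul] at a2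
    simp only [integral_const, probReal_univ, smul_eq_mul, mul_one] at a2
    nlinarith [mul_pos hC hc]
  · have a1 := ET_le_of_contr ht hH hφ (L := 1) fun x y => by
      rw [one_mul, abs_sub_comm]
      apply le_of_eq
      congr 1
      ring
    have a2 : ET t (fun x => h (red (x - a))) ≤ m := by
      unfold ET
      rw [form_eq ht hh hz hn hH a, ← e1]
      exact self_le (hH.shift a).toBM (fun x => h01 _) (fun x => (b1 x).1) (fun x => (b2 x).1)
        i1 i2
    have a3 : 4 * π * c * t * (1 + C * c) ≤ 4 * π * c * t * (1 + (C + 1) * c) := by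
      have := pi_pos
      gcongr
      linarith
    linarith

open Two in
theorem two (hP : ProfStmt) : TwoStmt := by
  obtain ⟨C, hC, hP⟩ := hP
  obtain ⟨c0, hc0, hgap⟩ := ET_gap
  have pp := pi_pos
  set K := 8 * π / c0 with hK
  have K0 : 0 < K := by positivity
  refine ⟨2 * K * (1 + C) + 2 * (1 + C) + 3 * C + C * √K, by positivity,
    fun c γ d t hγ hγc hc1 hd ht ht1 a1 a2 ha g hg g0 z1 z2 => ?_⟩
  have hc : 0 < c := lt_of_lt_of_le hγ hγc
  have d0 : 0 < d := by linarith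
  have N0 := ip_self_nonneg g
  rcases le_total (8 * π * c * t * ip g g) (ET t g) with hw | hw
  · refine le_trans (mul_le_mul_of_nonneg_right ?_ N0) hw
    refine mul_le_of_le_one_right (by positivity) ?_
    have : 0 ≤ (2 * K * (1 + C) + 2 * (1 + C) + 3 * C + C * √K) *
      (√c + c / d + t / (γ ^ 3 * c ^ 2)) := by positivity
    linarith
  obtain ⟨h, n1, n2, m, mh, -, -, h01, -, hz, hb, hn, b1, b2, i1, i2, e1, e2, m1, m2, u1, t1,
    t2⟩ := hP c t hc hc1 ht ht1
  have hh : BM h := ⟨mh, 1, fun x => abs_le.2 ⟨by linarith [(h01 x).1], (h01 x).2⟩⟩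
  set l := √(ip g g) with hl
  have l0 : 0 ≤ l := sqrt_nonneg _
  have l2 : l ^ 2 = ip g g := sq_sqrt N0
  have var : ip g g - avg g ^ 2 ≤ K * c * ip g g := by
    have h1 := (hgap t ht ht1 g hg).trans hw
    have h2 : 8 * π * c * t * ip g g = c0 * t * (K * c * ip g g) := by
      rw [hK]; field_simp
    rw [h2] at h1
    exact le_of_mul_le_mul_left h1 (by positivity)
  have var' : ip g g - avg g ^ 2 ≤ (√K * √c * l) ^ 2 := by
    rw [mul_pow, mul_pow, sq_sqrt K0.le, sq_sqrt hc.le, l2]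
    exact var
  have A0 : 0 ≤ avg g := integral_nonneg g0
  have A1 : avg g ≤ l := by
    refine (abs_le_of_sq_le_sq' ?_ l0).2
    rw [l2]
    exact avg_sq_le hg
  have A2 : l * (1 - K * c) ≤ avg g := by
    rcases le_total (1 - K * c) 0 with hk | hk
    · exact (mul_nonpos_of_nonneg_of_nonpos l0 hk).trans A0
    · refine (abs_le_of_sq_le_sq' ?_ A0).2
      rw [mul_pow, l2]
      have : 0 ≤ K * c := by positivity
      nlinarith [mul_nonneg N0 (mul_nonneg hk this)]
  have hout : ∀ x, 3 / 8 ≤ ‖x‖ → n1 x ≤ n2 x := by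
    intro x hx
    have q1 := hn x
    rw [hz x (by linarith)] at q1
    have q2 : 0 ≤ Pt t h x := Pt_nonneg (fun y => (h01 y).1) x
    linarith
  have low : ∀ a : E3, (∀ x, ‖x - a‖ ≤ c + γ → g x = 0) →
      ip g (fun x => h (red (x - a))) - ip g (Pt t fun x => h (red (x - a))) ≤
        -(avg g * m) + avg g * (C * c * t ^ 2) + C * c * t * (√K * √c * l) +
          C * t ^ 2 / (γ ^ 3 * c) * avg g := by
    intro a z
    rw [form_eq ht hh hz hn hg a]
    have q := main_lower (g := fun y => g (y + a)) (hg.shift a) (fun x => g0 _)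
      (fun x => (b2 x).1) i1 i2 (b1 := C * t ^ 2 / (γ ^ 3 * c)) (b2 := C * c * t) (r := c + γ)
      (σ := √K * √c * l) (by positivity) (by positivity)
      (fun x hx => z _ (by simpa using hx)) (u1 γ hγ) (fun x => (b2 x).2) hout (by positivity)
      (by rw [ip_shift hg, avg_shift hg]; exact var')
    rw [avg_shift hg, e2] at q
    linarith [mul_le_mul_of_nonneg_left t2 A0]
  have slf : ∀ a : E3, ip (fun x => h (red (x - a))) (fun x => h (red (x - a))) -
      ip (fun x => h (red (x - a))) (Pt t fun x => h (red (x - a))) ≤ m := by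
    intro a
    rw [form_eq ht hh hz hn (hh.red a) a, ← e1]
    exact self_le ((hh.red a).shift a).toBM (fun x => h01 _) (fun x => (b1 x).1)
      (fun x => (b2 x).1) i1 i2
  have crs : ∀ a b : E3, (∀ k, d ≤ ‖a - b - lat k‖) →
      ip (fun x => h (red (x - b))) (fun x => h (red (x - a))) -
      ip (fun x => h (red (x - b))) (Pt t fun x => h (red (x - a))) ≤
        2 * (c / d) * m + C * t ^ 2 * (c / c ^ 2 + 1 / c) := by
    intro a b hab
    rw [form_eq ht hh hz hn (hh.red b) a]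
    have q := cross_le ((hh.red b).shift a).toBM (fun x => h01 _) (fun x => (b1 x).1)
      (fun x => (b2 x).1) i1 i2 (β := 2 * (c / d)) (r := c + c) (by positivity)
      (fun y hy => far_le hc hb (fun x => (h01 x).1) hd hab hy)
    rw [e1] at q
    linarith [t1 c hc]
  have ha' : ∀ k, d ≤ ‖a2 - a1 - lat k‖ := by
    intro k
    have q := ha (-k)
    rw [lat_neg] at q
    have e : a2 - a1 - lat k = -(a1 - a2 - -lat k) := by abel
    rw [e, norm_neg]
    exact q
  have H1 : BP fun x => h (red (x - a1)) := hh.red a1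
  have H2 : BP fun x => h (red (x - a2)) := hh.red a2
  have HH := H1.add H2
  have ePt : Pt t (fun x => h (red (x - a1)) + h (red (x - a2))) =
      fun x => Pt t (fun x => h (red (x - a1))) x + Pt t (fun x => h (red (x - a2))) x :=
    funext fun x => Pt_add ht H1.toBM H2.toBM x
  have ePt2 : Pt t (fun x => -l * (h (red (x - a1)) + h (red (x - a2)))) =
      fun x => -l * Pt t (fun x => h (red (x - a1)) + h (red (x - a2))) x :=
    funext fun x => Pt_const_mul _ _ x
  have dual := ET_dual ht hg (HH.const_mul (-l))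
  rw [ET_const_mul, ePt2, ip_const_mul_right, ip_const_mul_right, ET, ePt,
    ip_add_right H1 H2 hg, ip_add_right (H1.Pt ht) (H2.Pt ht) hg,
    ip_add_right H1 H2 HH, ip_add_right (H1.Pt ht) (H2.Pt ht) HH,
    ip_add_left H1 H2 H1, ip_add_left H1 H2 H2, ip_add_left H1 H2 (H1.Pt ht),
    ip_add_left H1 H2 (H2.Pt ht)] at dual
  rw [← l2]
  refine numeric hC K0 hγ hγc hc1 hd ht l0 m1 m2 A0 A1 A2 (le_trans ?_ dual)
  have ll : 0 ≤ l ^ 2 := sq_nonneg l
  linarith [mul_le_mul_of_nonneg_left (low a1 z1) l0, mul_le_mul_of_nonneg_left (low a2 z2) l0,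
    mul_le_mul_of_nonneg_left (slf a1) ll, mul_le_mul_of_nonneg_left (slf a2) ll,
    mul_le_mul_of_nonneg_left (crs a1 a2 ha) ll, mul_le_mul_of_nonneg_left (crs a2 a1 ha') ll]

end Pool.Agent.MP_dce92b_pr

end MrgPart4

-- marker of a merged file
example : 731051 + 240896 = 731051 + 240896 := rfl
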