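import Mathlib.Analysis.Complex.ExponentialBounds
import Mathlib.Topology.UniformSpace.Ascoli
import Mathlib.Topology.ContinuousMap.SecondCountableSpace
import Mathlib.Topology.Metrizable.ContinuousMap
import Pool.Agent.MP_dce92b_pr.Spec
import Pool.Agent.MP_dce92b_pr.Gauss
import Pool.Agent.MP_dce92b_pr.Prof
import Pool.Agent.MP_dce92b_pr.Two
import Pool.Agent.MP_dce92b_pr.Poinc
import Pool.Agent.MP_dce92b_pr.Ops

-- ======== part 0: formerly Pool.Agent.MP_dce92b_pr.Limit
section MrgPart0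

/-! BTOR module LIMIT: the limit on path space from the two-sided probability estimates. -/

open MeasureTheory ProbabilityTheory Filter Topology Metric Real
open scoped NNReal ENNReal

namespace Pool.Agent.MP_dce92b_pr

namespace Limit

theorem norm_const {s : ℝ} (hs : 1 < s) (a : ℝ) :
    (log s / s) ^ 2 * (a * π ^ 2 / r0 s ^ 2) = a * ((2 * π) ^ 4 / 9) := by
  have h1 : 0 < log s := log_pos hs
  have h2 : 0 < s := by linarith
  unfold r0
  field_simp
  ring

theorem r0_pos {s : ℝ} (hs : 1 < s) : 0 < r0 s := by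
  have h1 : 0 < log s := log_pos hs
  have h2 : 0 < s := by linarith
  unfold r0
  positivity

theorem r0_tendsto : Tendsto (fun s : ℝ≥0 => r0 s) atTop (𝓝 0) := by
  have h1 : Tendsto (fun s : ℝ => log s / s) atTop (𝓝 0) := by
    have := Real.tendsto_pow_log_div_mul_add_atTop 1 0 1 one_ne_zero
    simpa using this
  have h2 : Tendsto (fun s : ℝ => 3 / (4 * π) * (log s / s)) atTop (𝓝 (3 / (4 * π) * 0)) :=
    h1.const_mul _
  rw [mul_zero] at h2
  have h3 := h2.comp (NNReal.tendsto_coe_atTop.2 tendsto_id)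
  refine h3.congr fun s => ?_
  simp only [Function.comp, r0, id]
  ring

/-- pointwise dyadic bound -/
theorem lam_le (hB : BallStmt) {ε ρ δ : ℝ} (hε : 0 < ε) (hρ : 0 < ρ) (hρ' : ρ ≤ 1 / 4)
    (hδ : 0 < δ) (hδ' : δ ≤ 1 / 4) {α : Type*} (K : α → Set E3) (A : Set α) (D : ℕ → Set α)
    (hA : ∀ w, ¬ Hole (K w) ρ → w ∈ A) (hD : ∀ j w, ¬ Hole (K w) (δ / 2 ^ j) → w ∈ D j) (w : α) :
    lam1 (K w) ≤ ENNReal.ofReal ((1 + ε) * π ^ 2 / ρ ^ 2) +
      A.indicator (fun _ => ENNReal.ofReal (2 * π ^ 2 / δ ^ 2)) w +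
      ∑' j, (D j).indicator (fun _ => ENNReal.ofReal (2 * π ^ 2 / (δ / 2 ^ (j + 1)) ^ 2)) w := by
  classical
  by_cases h1 : Hole (K w) ρ
  · exact (hB ε hε _ ρ hρ hρ' h1).trans (le_self_add.trans le_self_add)
  by_cases h2 : ∃ j : ℕ, Hole (K w) (δ / 2 ^ j)
  · have hj := Nat.find_spec h2
    have hb : ∀ j : ℕ, Hole (K w) (δ / 2 ^ j) →
        lam1 (K w) ≤ ENNReal.ofReal (2 * π ^ 2 / (δ / 2 ^ j) ^ 2) := by
      intro j h
      have h3 : δ / 2 ^ j ≤ 1 / 4 :=
        (div_le_self hδ.le (one_le_pow₀ (by norm_num))).trans hδ'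
      have := hB 1 one_pos _ _ (by positivity) h3 h
      rwa [one_add_one_eq_two] at this
    rcases h0 : Nat.find h2 with _ | j
    · rw [h0] at hj
      have := hb 0 hj
      rw [pow_zero, div_one] at this
      refine this.trans (le_trans ?_ le_self_add)
      rw [Set.indicator_of_mem (hA w h1)]
      exact le_add_self
    · rw [h0] at hj
      have h4 : ¬ Hole (K w) (δ / 2 ^ j) := Nat.find_min h2 (by omega)
      refine (hb _ hj).trans (le_trans ?_ le_add_self)
      refine le_trans ?_ (ENNReal.le_tsum j)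
      rw [Set.indicator_of_mem (hD j w h4)]
  · push Not at h2
    have h5 : (∑' j, (D j).indicator
        (fun _ => ENNReal.ofReal (2 * π ^ 2 / (δ / 2 ^ (j + 1)) ^ 2)) w) = ⊤ := by
      have h6 : (∑' _ : ℕ, ENNReal.ofReal (2 * π ^ 2 / δ ^ 2)) = ⊤ :=
        ENNReal.tsum_const_eq_top_of_ne_zero
          (ENNReal.ofReal_pos.2 (by positivity)).ne'
      refine top_le_iff.1 (h6.symm.le.trans (ENNReal.tsum_le_tsum fun j => ?_))
      rw [Set.indicator_of_mem (hD j w (h2 j))]
      refine ENNReal.ofReal_le_ofReal ?_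
      have h7 : δ / 2 ^ (j + 1) ≤ δ := div_le_self hδ.le (one_le_pow₀ (by norm_num))
      have h8 : 0 < δ / 2 ^ (j + 1) := by positivity
      gcongr
    rw [h5]
    simp

theorem lint_le (hB : BallStmt) {ε ρ δ : ℝ} (hε : 0 < ε) (hρ : 0 < ρ) (hρ' : ρ ≤ 1 / 4)
    (hδ : 0 < δ) (hδ' : δ ≤ 1 / 4) {α : Type*} [MeasurableSpace α] (μ : Measure α)
    [IsProbabilityMeasure μ] (K : α → Set E3) :
    ∫⁻ w, lam1 (K w) ∂μ ≤ ENNReal.ofReal ((1 + ε) * π ^ 2 / ρ ^ 2) +
      ENNReal.ofReal (2 * π ^ 2 / δ ^ 2) * μ {w | ¬ Hole (K w) ρ} +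
      ∑' j : ℕ, ENNReal.ofReal (2 * π ^ 2 / (δ / 2 ^ (j + 1)) ^ 2) *
        μ {w | ¬ Hole (K w) (δ / 2 ^ j)} := by
  have h := lam_le hB hε hρ hρ' hδ hδ' K (toMeasurable μ {w | ¬ Hole (K w) ρ})
    (fun j => toMeasurable μ {w | ¬ Hole (K w) (δ / 2 ^ j)})
    (fun w hw => subset_toMeasurable μ _ hw) (fun j w hw => subset_toMeasurable μ _ hw)
  refine (lintegral_mono h).trans (le_of_eq ?_)
  rw [lintegral_add_left, lintegral_add_left measurable_const, lintegral_tsum]
  · simp only [lintegral_indicator_const (measurableSet_toMeasurable _ _), measure_toMeasurable,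
      lintegral_const, measure_univ, mul_one]
  · intro j
    exact (measurable_const.indicator (measurableSet_toMeasurable _ _)).aemeasurable
  · exact Measurable.const_add (measurable_const.indicator (measurableSet_toMeasurable _ _)) _

theorem log_sq_rpow {c : ℝ} (hc : 0 < c) :
    Tendsto (fun s : ℝ≥0 => log s ^ 2 * (s : ℝ) ^ (-c)) atTop (𝓝 0) := by
  have h1 := (isLittleO_log_rpow_rpow_atTop 2 hc).tendsto_div_nhds_zero
  have h3 := h1.comp (NNReal.tendsto_coe_atTop.2 tendsto_id)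
  refine h3.congr' ?_
  filter_upwards with s
  simp only [Function.comp, id]
  rw [Real.rpow_neg s.coe_nonneg, div_eq_mul_inv, Real.rpow_two]

theorem term_le {s x L C y : ℝ} {p : ℕ} (hs : 0 < s) (hx : 0 < x) (hC : 0 < C) (hy : 1 ≤ y)
    (hp : 1 ≤ p) (hxp : x ^ p * s ^ 4 ≤ 1) :
    (L / s) ^ 2 * (2 * π ^ 2 / (x / s / (y * 2)) ^ 2 *
      (C * (s * (x / s / y)) ^ (p + 5) / (x / s / y) ^ 3)) ≤ 8 * π ^ 2 * C * (L ^ 2 * s⁻¹) * y⁻¹ := by
  have hy0 : 0 < y := by linarith
  have e1 : s * (x / s / y) = x / y := by field_simp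
  have e2 : (L / s) ^ 2 * (2 * π ^ 2 / (x / s / (y * 2)) ^ 2 *
      (C * (x / y) ^ (p + 5) / (x / s / y) ^ 3)) =
      8 * π ^ 2 * C * (L ^ 2 * s⁻¹) * ((x ^ p * s ^ 4) * (y ^ p)⁻¹) := by
    rw [pow_add, div_pow x y p]
    field_simp
    ring
  rw [e1, e2]
  have h1 : y ≤ y ^ p := le_self_pow₀ hy (by omega)
  have h2 : (y ^ p)⁻¹ ≤ y⁻¹ := inv_anti₀ hy0 h1
  have h3 : (x ^ p * s ^ 4) * (y ^ p)⁻¹ ≤ 1 * y⁻¹ := by gcongr
  rw [one_mul] at h3
  gcongr

theorem upper (hH : HoleStmt) (hS : SmallStmt) (hB : BallStmt) {μ : Measure Path0}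
    (hμ : IsWiener μ) {ε : ℝ} (hε : 0 < ε) (hε1 : ε < 1) :
    ∃ e : ℝ≥0 → ℝ, Tendsto e atTop (𝓝 0) ∧ ∀ᶠ s : ℝ≥0 in atTop,
      ENNReal.ofReal ((log s / s) ^ 2) * ∫⁻ w, lam1 (rng s w) ∂μ ≤
        ENNReal.ofReal ((1 + ε) / (1 - ε) ^ 2 * ((2 * π) ^ 4 / 9) + e s) := by
  have := hμ.prob
  obtain ⟨c, hc, hev⟩ := hH μ hμ ε hε hε1
  obtain ⟨p, hp⟩ := exists_nat_ge (16 / c)
  have hp1 : 1 ≤ p := by
    have : (0 : ℝ) < p := lt_of_lt_of_le (by positivity) hp
    exact_mod_cast this
  obtain ⟨C, hC, hsm⟩ := hS (p + 5) (by omega)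
  refine ⟨fun s => 2 * π ^ 2 * (log s ^ 2 * (s : ℝ) ^ (-(c / 2))) +
    16 * π ^ 2 * C * (log s ^ 2 * (s : ℝ) ^ (-(1 : ℝ))), ?_, ?_⟩
  · have h1 := ((log_sq_rpow (c := c / 2) (by positivity)).const_mul (2 * π ^ 2)).add
      ((log_sq_rpow (c := 1) one_pos).const_mul (16 * π ^ 2 * C))
    simpa using h1
  have hx : Tendsto (fun s : ℝ≥0 => (s : ℝ) ^ (-(c / 4))) atTop (𝓝 0) :=
    (tendsto_rpow_neg_atTop (by positivity)).comp (NNReal.tendsto_coe_atTop.2 tendsto_id)
  filter_upwards [hev, eventually_gt_atTop 1,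
    hx.eventually (ge_mem_nhds (show (0 : ℝ) < 1 / 100 by norm_num)),
    r0_tendsto.eventually (ge_mem_nhds (show (0 : ℝ) < 1 / 4 by norm_num))] with s h1 h2 h3 h4
  have hs : (1 : ℝ) < s := by exact_mod_cast h2
  have hs0 : (0 : ℝ) < s := by linarith
  have hr := r0_pos hs
  set x : ℝ := (s : ℝ) ^ (-(c / 4)) with hxd
  have hx0 : 0 < x := rpow_pos_of_pos hs0 _
  have hρ : 0 < (1 - ε) * r0 s := mul_pos (by linarith) hr
  have hρ' : (1 - ε) * r0 s ≤ 1 / 4 := by nlinarith
  have hδ : 0 < x / s := by positivity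
  have hδ' : x / s ≤ 1 / 4 := (div_le_self hx0.le hs.le).trans (by linarith)
  have hxp : x ^ p * (s : ℝ) ^ 4 ≤ 1 := by
    rw [hxd, ← rpow_natCast, ← rpow_mul hs0.le, ← rpow_natCast, ← rpow_add hs0]
    refine rpow_le_one_of_one_le_of_nonpos hs.le ?_
    have : 16 ≤ p * c := by rwa [div_le_iff₀ hc] at hp
    push_cast
    nlinarith
  have key := lint_le hB hε hρ hρ' hδ hδ' μ (rng s)
  have hl : 0 ≤ (log s / s) ^ 2 := sq_nonneg _
  refine (mul_le_mul_right key _).trans ?_
  rw [mul_add, mul_add, ← ENNReal.tsum_mul_left]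
  have t1 : ENNReal.ofReal ((log s / s) ^ 2) *
      ENNReal.ofReal ((1 + ε) * π ^ 2 / ((1 - ε) * r0 s) ^ 2) =
      ENNReal.ofReal ((1 + ε) / (1 - ε) ^ 2 * ((2 * π) ^ 4 / 9)) := by
    rw [← ENNReal.ofReal_mul hl, ← norm_const hs]
    congr 2
    have : 1 - ε ≠ 0 := by linarith
    field_simp
  have t2 : ENNReal.ofReal ((log s / s) ^ 2) * (ENNReal.ofReal (2 * π ^ 2 / (x / s) ^ 2) *
      μ {w | ¬ Hole (rng s w) ((1 - ε) * r0 s)}) ≤
      ENNReal.ofReal (2 * π ^ 2 * (log s ^ 2 * (s : ℝ) ^ (-(c / 2)))) := by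
    refine (mul_le_mul_right (mul_le_mul_right h1 _) _).trans (le_of_eq ?_)
    rw [← ENNReal.ofReal_mul (by positivity), ← ENNReal.ofReal_mul hl]
    congr 1
    have e1 : (s : ℝ) ^ (-c) = x ^ 2 * (s : ℝ) ^ (-(c / 2)) := by
      rw [hxd, ← rpow_natCast, ← rpow_mul hs0.le, ← rpow_add hs0]
      congr 1
      push_cast
      ring
    rw [e1]
    field_simp
  have t3 : ∀ j : ℕ, ENNReal.ofReal ((log s / s) ^ 2) *
      (ENNReal.ofReal (2 * π ^ 2 / (x / s / 2 ^ (j + 1)) ^ 2) *
        μ {w | ¬ Hole (rng s w) (x / s / 2 ^ j)}) ≤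
      ENNReal.ofReal (8 * π ^ 2 * C * (log s ^ 2 * (s : ℝ)⁻¹) * (1 / 2) ^ j) := by
    intro j
    have hy : (1 : ℝ) ≤ 2 ^ j := one_le_pow₀ (by norm_num)
    have h5 : 100 * (s : ℝ) * (x / s / 2 ^ j) ≤ 1 := by
      have e1 : 100 * (s : ℝ) * (x / s / 2 ^ j) = 100 * x / 2 ^ j := by field_simp
      rw [e1]
      exact (div_le_self (by positivity) hy).trans (by linarith)
    have h6 := hsm μ hμ s (x / s / 2 ^ j) h2.le (by positivity) h5
    refine (mul_le_mul_right (mul_le_mul_right h6 _) _).trans ?_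
    rw [← ENNReal.ofReal_mul (by positivity), ← ENNReal.ofReal_mul hl]
    refine ENNReal.ofReal_le_ofReal ?_
    have := term_le (L := log s) hs0 hx0 hC hy hp1 hxp
    rw [pow_succ, one_div, inv_pow]
    exact this
  have t4 : (∑' j : ℕ, ENNReal.ofReal (8 * π ^ 2 * C * (log s ^ 2 * (s : ℝ)⁻¹) * (1 / 2) ^ j)) =
      ENNReal.ofReal (16 * π ^ 2 * C * (log s ^ 2 * (s : ℝ) ^ (-(1 : ℝ)))) := by
    rw [← ENNReal.ofReal_tsum_of_nonneg (fun j => by positivity)
      (summable_geometric_two.mul_left _), tsum_mul_left, tsum_geometric_two, rpow_neg_one]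
    congr 1
    ring
  have hA : 0 ≤ (1 + ε) / (1 - ε) ^ 2 * ((2 * π) ^ 4 / 9) := by positivity
  rw [t1, ← add_assoc, ENNReal.ofReal_add (by positivity) (by positivity),
    ENNReal.ofReal_add hA (by positivity), ← t4]
  gcongr with j
  exact t3 j

theorem lower (hL : LowStmt) (hM : MeasStmt) {μ : Measure Path0}
    (hμ : IsWiener μ) {ε : ℝ} (hε : 0 < ε) (hε1 : ε < 1) :
    ∃ e : ℝ≥0 → ℝ≥0∞, Tendsto e atTop (𝓝 1) ∧ ∀ᶠ s : ℝ≥0 in atTop,
      ENNReal.ofReal ((1 - ε) * ((2 * π) ^ 4 / 9)) * e s ≤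
        ENNReal.ofReal ((log s / s) ^ 2) * ∫⁻ w, lam1 (rng s w) ∂μ := by
  have := hμ.prob
  refine ⟨fun s => 1 - μ {w | lam1 (rng s w) < ENNReal.ofReal ((1 - ε) * π ^ 2 / r0 s ^ 2)},
    ?_, ?_⟩
  · have := ENNReal.Tendsto.sub (tendsto_const_nhds (x := (1 : ℝ≥0∞))) (hL μ hμ ε hε hε1)
      (Or.inl ENNReal.one_ne_top)
    simpa using this
  filter_upwards [eventually_gt_atTop 1] with s h2
  have hs : (1 : ℝ) < s := by exact_mod_cast h2
  rw [← norm_const hs, ENNReal.ofReal_mul (sq_nonneg _), mul_assoc]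
  refine mul_le_mul_right ?_ _
  have hm : MeasurableSet
      {w | lam1 (rng s w) < ENNReal.ofReal ((1 - ε) * π ^ 2 / r0 s ^ 2)} :=
    measurableSet_lt (hM s) measurable_const
  rw [← prob_compl_eq_one_sub hm]
  refine le_trans (le_of_eq ?_) (mul_meas_ge_le_lintegral (hM s)
    (ENNReal.ofReal ((1 - ε) * π ^ 2 / r0 s ^ 2)))
  congr 2
  ext w
  simp

end Limit

theorem limit (hL : LowStmt) (hH : HoleStmt) (hS : SmallStmt) (hB : BallStmt) (hM : MeasStmt) :
    LimitStmt := by
  intro μ hμ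
  have hev : ∀ᶠ ε : ℝ in 𝓝[>] 0, 0 < ε ∧ ε < 1 :=
    Ioo_mem_nhdsGT one_pos
  refine tendsto_order.2 ⟨fun a ha => ?_, fun a ha => ?_⟩
  · have h1 : Tendsto (fun ε : ℝ => ENNReal.ofReal ((1 - ε) * ((2 * π) ^ 4 / 9))) (𝓝[>] 0)
        (𝓝 (ENNReal.ofReal ((1 - 0) * ((2 * π) ^ 4 / 9)))) := by
      refine (ENNReal.tendsto_ofReal ?_).mono_left nhdsWithin_le_nhds
      exact Continuous.tendsto (by fun_prop) _
    rw [sub_zero, one_mul] at h1
    obtain ⟨ε, h2, h3, h4⟩ := ((h1.eventually (lt_mem_nhds ha)).and hev).exists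
    obtain ⟨e, he, h5⟩ := Limit.lower hL hM hμ h3 h4
    have h6 := ENNReal.Tendsto.const_mul (a := ENNReal.ofReal ((1 - ε) * ((2 * π) ^ 4 / 9))) he
      (Or.inl one_ne_zero)
    rw [mul_one] at h6
    filter_upwards [h5, h6.eventually (lt_mem_nhds h2)] with s h7 h8
    exact h8.trans_le h7
  · have h1 : Tendsto (fun ε : ℝ => ENNReal.ofReal ((1 + ε) / (1 - ε) ^ 2 * ((2 * π) ^ 4 / 9)))
        (𝓝[>] 0) (𝓝 (ENNReal.ofReal ((1 + 0) / (1 - 0) ^ 2 * ((2 * π) ^ 4 / 9)))) := by
      refine (ENNReal.tendsto_ofReal ?_).mono_left nhdsWithin_le_nhds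
      refine ContinuousAt.tendsto ?_
      refine ContinuousAt.mul (ContinuousAt.div (by fun_prop) (by fun_prop) (by norm_num))
        continuousAt_const
    rw [sub_zero, add_zero, one_pow, div_one, one_mul] at h1
    obtain ⟨ε, h2, h3, h4⟩ := ((h1.eventually (gt_mem_nhds ha)).and hev).exists
    obtain ⟨e, he, h5⟩ := Limit.upper hH hS hB hμ h3 h4
    have h6 := ENNReal.tendsto_ofReal
      (he.const_add ((1 + ε) / (1 - ε) ^ 2 * ((2 * π) ^ 4 / 9)))
    rw [add_zero] at h6
    filter_upwards [h5, h6.eventually (gt_mem_nhds h2)] with s h7 h8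
    exact h7.trans_lt h8

end Pool.Agent.MP_dce92b_pr

end MrgPart0

-- ======== part 1: formerly Pool.Agent.MP_dce92b_pr.BM
section MrgPart1

/-! BTOR module BM: three independent Brownian motions give a Wiener measure on path space. -/

open MeasureTheory ProbabilityTheory Filter Topology Metric Real
open scoped NNReal ENNReal

namespace Pool.Agent.MP_dce92b_pr

namespace BMm

universe u

variable {Ω : Type u} [MeasurableSpace Ω] {P : Measure Ω}

/-- a measurable version with continuous paths started at the origin -/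
theorem exists_version {B : ℝ≥0 → Ω → ℝ} (hB : IsBrownianReal B P) :
    ∃ C : ℝ≥0 → Ω → ℝ, (∀ t, Measurable (C t)) ∧ (∀ ω, Continuous fun t => C t ω) ∧
      (∀ ω, C 0 ω = 0) ∧ ∀ᵐ ω ∂P, ∀ t, C t ω = B t ω := by
  classical
  let d : ℕ → ℝ≥0 := TopologicalSpace.denseSeq ℝ≥0
  have hd : DenseRange d := TopologicalSpace.denseRange_denseSeq ℝ≥0
  let X : ℕ → Ω → ℝ := fun n => (hB.toIsPreBrownianReal.aemeasurable (d n)).mk _
  have hX : ∀ n, Measurable (X n) := fun n => AEMeasurable.measurable_mk _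
  let S : Set Ω := {ω | Continuous (fun t => B t ω) ∧ B 0 ω = 0 ∧ ∀ n, B (d n) ω = X n ω}
  have hS : ∀ᵐ ω ∂P, ω ∈ S := by
    have h3 : ∀ᵐ ω ∂P, ∀ n, B (d n) ω = X n ω :=
      ae_all_iff.2 fun n => (hB.toIsPreBrownianReal.aemeasurable (d n)).ae_eq_mk
    filter_upwards [hB.cont, hB.toIsPreBrownianReal.eval_zero_ae_eq_zero, h3] with ω h1 h2 h3
    exact ⟨h1, h2, h3⟩
  let N : Set Ω := toMeasurable P Sᶜ
  have hN : MeasurableSet N := measurableSet_toMeasurable _ _
  have hN0 : P N = 0 := by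
    rw [measure_toMeasurable]
    exact hS
  have hNS : ∀ ω, ω ∉ N → ω ∈ S := fun ω h => by
    by_contra h'
    exact h (subset_toMeasurable P Sᶜ h')
  refine ⟨fun t => Nᶜ.indicator (B t), fun t => ?_, fun ω => ?_, fun ω => ?_, ?_⟩
  · obtain ⟨q, hq, hlim⟩ := mem_closure_iff_seq_limit.1 (hd t)
    choose n hn using hq
    refine measurable_of_tendsto_metrizable (f := fun k => Nᶜ.indicator (X (n k)))
      (fun k => (hX _).indicator hN.compl) ?_
    rw [tendsto_pi_nhds]
    intro ω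
    by_cases h : ω ∈ N
    · simp [Set.indicator, h]
    · obtain ⟨h1, -, h3⟩ := hNS ω h
      have e : ∀ k, Nᶜ.indicator (X (n k)) ω = B (q k) ω := fun k => by
        rw [Set.indicator_of_mem (by simpa using h), ← h3, hn]
      simp only [e]
      rw [Set.indicator_of_mem (by simpa using h)]
      exact (h1.tendsto t).comp hlim
  · by_cases h : ω ∈ N
    · simp only [Set.indicator, Set.mem_compl_iff, h, not_true_eq_false, if_false]
      exact continuous_const
    · simp only [Set.indicator, Set.mem_compl_iff, h, not_false_eq_true, if_true]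
      exact (hNS ω h).1
  · by_cases h : ω ∈ N
    · simp [Set.indicator, h]
    · simp [Set.indicator, h, (hNS ω h).2.1]
  · have : ∀ᵐ ω ∂P, ω ∉ N := measure_eq_zero_iff_ae_notMem.1 hN0
    filter_upwards [this] with ω h t
    exact Set.indicator_of_mem (by simpa using h) _

/-- independent pairs of independent variables give two independent vectors -/
theorem indep_vec {ι α β : Type*} [Fintype ι] [MeasurableSpace α] [MeasurableSpace β]
    [IsProbabilityMeasure P] {X : ι → Ω → α} {Y : ι → Ω → β} (hX : ∀ i, Measurable (X i))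
    (hY : ∀ i, Measurable (Y i)) (h : iIndepFun (fun i ω => (X i ω, Y i ω)) P)
    (h2 : ∀ i, IndepFun (X i) (Y i) P) :
    IndepFun (fun ω i => X i ω) (fun ω i => Y i ω) P := by
  have mX : Measurable fun ω i => X i ω := measurable_pi_lambda _ hX
  have mY : Measurable fun ω i => Y i ω := measurable_pi_lambda _ hY
  have iX : iIndepFun X P := h.comp (fun _ => Prod.fst) fun _ => measurable_fst
  have iY : iIndepFun Y P := h.comp (fun _ => Prod.snd) fun _ => measurable_snd
  rw [indepFun_iff_map_prod_eq_prod_map_map mX.aemeasurable mY.aemeasurable,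
    iX.map_fun_eq_pi_map fun i => (hX i).aemeasurable,
    iY.map_fun_eq_pi_map fun i => (hY i).aemeasurable]
  have e1 := h.map_fun_eq_pi_map fun i => ((hX i).prodMk (hY i)).aemeasurable
  have e2 : ∀ i, P.map (fun ω => (X i ω, Y i ω)) = (P.map (X i)).prod (P.map (Y i)) := fun i =>
    (h2 i).map_prod_eq_prod_map_map (hX i).aemeasurable (hY i).aemeasurable
  simp only [e2] at e1
  have e3 := (measurePreserving_arrowProdEquivProdArrow α β ι (fun i => P.map (X i))
    (fun i => P.map (Y i))).map_eq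
  rw [← e3, ← e1, Measure.map_map (MeasurableEquiv.measurable _)
    (measurable_pi_lambda _ fun i => (hX i).prodMk (hY i))]
  rfl

/-- two measurable pre-Brownian processes have the same law -/
theorem map_eq_of_pre [IsProbabilityMeasure P] {X Y : ℝ≥0 → Ω → ℝ} (hX : IsPreBrownianReal X P)
    (hY : IsPreBrownianReal Y P) (mX : ∀ t, Measurable (X t)) (mY : ∀ t, Measurable (Y t)) :
    P.map (fun ω t => X t ω) = P.map (fun ω t => Y t ω) := by
  rw [map_eq_iff_forall_finset_map_restrict_eq (measurable_pi_lambda _ mX).aemeasurable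
    (measurable_pi_lambda _ mY).aemeasurable]
  intro I
  rw [(hX.hasLaw I).map_eq, (hY.hasLaw I).map_eq]

/-- three real paths as one path in Euclidean space -/
noncomputable def glue (x : Fin 3 → ℝ≥0 → ℝ) (u : ℝ≥0) : E3 :=
  WithLp.toLp 2 fun i => Real.sqrt 2 * x i u

theorem measurable_glue : Measurable glue := by
  refine measurable_pi_lambda _ fun u => ?_
  refine (MeasurableEquiv.toLp 2 (Fin 3 → ℝ)).measurable.comp
    (measurable_pi_lambda _ fun i => ?_)
  exact measurable_const.mul ((measurable_pi_apply u).comp (measurable_pi_apply i))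

theorem meas_val : Measurable fun w : Path0 => w.1 := measurable_subtype_coe

theorem meas_mk {α : Type*} [MeasurableSpace α] {W : α → Path0}
    (h : Measurable fun a => (W a).1) : Measurable W := h.subtype_mk

theorem meas_stop (t : ℝ≥0) : Measurable (Path0.stop t) :=
  meas_mk (measurable_pi_lambda _ fun u => (measurable_pi_apply (min u t)).comp meas_val)

theorem meas_shift (t : ℝ≥0) : Measurable (Path0.shift t) :=
  meas_mk (measurable_pi_lambda _ fun u =>
    ((measurable_pi_apply (t + u)).comp meas_val).sub ((measurable_pi_apply t).comp meas_val))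

theorem exists_preimage {s : Set Path0} (hs : MeasurableSet s) :
    ∃ s' : Set (ℝ≥0 → E3), MeasurableSet s' ∧ (fun w : Path0 => w.1) ⁻¹' s' = s := hs

end BMm

open BMm in
theorem bm_stmt.{u} : BMStmt.{u} := by
  intro Ω _ P B hB hI
  have : IsProbabilityMeasure P := hI.isProbabilityMeasure
  choose C mC cC zC eC using fun i => exists_version (hB i)
  have eC' : ∀ᵐ ω ∂P, ∀ i t, C i t ω = B i t ω := ae_all_iff.2 eC
  have pC : ∀ i, IsPreBrownianReal (C i) P := fun i =>
    (hB i).toIsPreBrownianReal.congr fun t => by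
      filter_upwards [eC i] with ω h using (h t).symm
  have iC : iIndepFun (fun i ω t => C i t ω) P :=
    hI.congr fun i => by
      filter_upwards [eC i] with ω h using funext fun t => (h t).symm
  have mZ : ∀ i, Measurable fun ω t => C i t ω := fun i => measurable_pi_lambda _ (mC i)
  let W : Ω → Path0 := fun ω => ⟨glue fun i t => C i t ω, by
    refine (PiLp.continuous_toLp 2 _).comp (continuous_pi fun i => ?_)
    exact continuous_const.mul (cC i ω), by
    ext i
    simp [glue, zC]⟩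
  have mW1 : Measurable fun ω => (W ω).1 := measurable_glue.comp (measurable_pi_lambda _ mZ)
  have mW : Measurable W := meas_mk mW1
  refine ⟨W, mW, ⟨Measure.isProbabilityMeasure_map mW.aemeasurable, fun t ht => ?_, fun t => ?_⟩, ?_⟩
  · have ht' : (0 : ℝ) < t := ht
    have m0 : Measurable fun w : Path0 => w.1 t := (measurable_pi_apply t).comp meas_val
    rw [Measure.map_map m0 mW, gam_eq_map_pi ht']
    have m1 : ∀ i, Measurable fun ω => Real.sqrt 2 * C i t ω := fun i =>
      measurable_const.mul (mC i t)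
    have i1 : iIndepFun (fun i ω => Real.sqrt 2 * C i t ω) P :=
      iC.comp (fun _ x => Real.sqrt 2 * x t) fun _ => measurable_const.mul (measurable_pi_apply t)
    have e1 := i1.map_fun_eq_pi_map fun i => (m1 i).aemeasurable
    have e2 : ∀ i, P.map (fun ω => Real.sqrt 2 * C i t ω) = gaussianReal 0 (2 * (t : ℝ)).toNNReal := by
      intro i
      rw [(gaussianReal_const_mul ((pC i).hasLaw_eval t) (Real.sqrt 2)).map_eq, mul_zero]
      congr 1
      apply NNReal.eq
      rw [Real.coe_toNNReal _ (by positivity)]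
      simp
    simp only [e2] at e1
    rw [← e1]
    have m2 : Measurable (WithLp.toLp 2 : (Fin 3 → ℝ) → E3) :=
      (MeasurableEquiv.toLp 2 (Fin 3 → ℝ)).measurable
    rw [Measure.map_map m2 (measurable_pi_lambda _ m1)]
    rfl
  · let X : Fin 3 → Ω → ℝ≥0 → ℝ := fun i ω u => C i (min u t) ω
    let Y : Fin 3 → Ω → ℝ≥0 → ℝ := fun i ω u => C i (t + u) ω - C i t ω
    have mX : ∀ i, Measurable (X i) := fun i => measurable_pi_lambda _ fun u => mC i _
    have mY : ∀ i, Measurable (Y i) := fun i =>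
      measurable_pi_lambda _ fun u => (mC i _).sub (mC i _)
    have iXY : iIndepFun (fun i ω => (X i ω, Y i ω)) P :=
      iC.comp (fun _ x => (fun u => x (min u t), fun u => x (t + u) - x t)) fun _ =>
        (measurable_pi_lambda _ fun u => measurable_pi_apply _).prodMk
          (measurable_pi_lambda _ fun u => (measurable_pi_apply _).sub (measurable_pi_apply _))
    have iY : iIndepFun Y P := iXY.comp (fun _ => Prod.snd) fun _ => measurable_snd
    have h2 : ∀ i, IndepFun (X i) (Y i) P := fun i =>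
      (((pC i).indepFun_shift t).symm.comp
        (φ := fun (x : Set.Iic t → ℝ) (u : ℝ≥0) => x ⟨min u t, min_le_right u t⟩) (ψ := id)
        (measurable_pi_lambda _ fun u => measurable_pi_apply _) measurable_id)
    have hA := (indep_vec mX mY iXY h2).comp measurable_glue measurable_glue
    have hB' : P.map (fun ω i => Y i ω) = P.map (fun ω i t => C i t ω) := by
      rw [iY.map_fun_eq_pi_map fun i => (mY i).aemeasurable,
        iC.map_fun_eq_pi_map fun i => (mZ i).aemeasurable]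
      congr 1
      funext i
      exact map_eq_of_pre ((pC i).shift t) (pC i) (fun u => (mC i _).sub (mC i _)) (mC i)
    have eX : ∀ ω, (Path0.stop t (W ω)).1 = glue fun i => X i ω := fun ω => rfl
    have eY : ∀ ω, (Path0.shift t (W ω)).1 = glue fun i => Y i ω := fun ω => by
      funext u
      ext i
      simp [Path0.shift, W, glue, Y, mul_sub]
    have : IsProbabilityMeasure (P.map W) := Measure.isProbabilityMeasure_map mW.aemeasurable
    symm
    refine Measure.prod_eq fun s s2 hs hs2 => ?_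
    obtain ⟨a, ha, rfl⟩ := exists_preimage hs
    obtain ⟨b, hb, rfl⟩ := exists_preimage hs2
    rw [Measure.map_map ((meas_stop t).prodMk (meas_shift t)) mW,
      Measure.map_map (meas_stop t) mW,
      Measure.map_apply (((meas_stop t).prodMk (meas_shift t)).comp mW) (hs.prod hs2),
      Measure.map_apply ((meas_stop t).comp mW) hs, Measure.map_apply mW hs2]
    have k1 := (indepFun_iff_measure_inter_preimage_eq_mul.1 hA) a b ha hb
    have k2 : P ((glue ∘ fun ω i => Y i ω) ⁻¹' b) = P (W ⁻¹' ((fun w : Path0 => w.1) ⁻¹' b)) := by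
      rw [Set.preimage_comp, ← Measure.map_apply (measurable_pi_lambda _ mY) (measurable_glue hb),
        hB', Measure.map_apply (measurable_pi_lambda _ mZ) (measurable_glue hb)]
      rfl
    rw [← k2]
    refine Eq.trans ?_ (k1.trans ?_)
    · congr 1
      ext ω
      simp only [Set.mem_preimage, Function.comp_apply, Set.mem_prod, Set.mem_inter_iff, eX, eY]
    · congr 2
  · filter_upwards [eC'] with ω h u
    show glue (fun i t => C i t ω) u = bm B u ω
    simp only [glue, bm, h]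

end Pool.Agent.MP_dce92b_pr

end MrgPart1

-- ======== part 2: formerly Pool.Agent.MP_dce92b_pr.Meas
section MrgPart2

/-! BTOR module MEAS: the eigenvalue is a measurable function of the path. -/

open MeasureTheory Filter Topology Metric Set
open scoped NNReal ENNReal

namespace Pool.Agent.MP_dce92b_pr

namespace Meas

theorem isCompact_Iic' (s : ℝ≥0) : IsCompact (Iic s) := by
  rw [← Icc_bot]; exact isCompact_Icc

theorem meas_closed (s : ℝ≥0) {F : Set E3} (hF : IsClosed F) :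
    MeasurableSet {w : Path0 | MapsTo w.1 (Iic s) F} := by
  obtain ⟨D, hDc, hDd⟩ := TopologicalSpace.exists_countable_dense ℝ≥0
  have h : {w : Path0 | MapsTo w.1 (Iic s) F} = ⋂ q ∈ D, (fun w : Path0 => w.1 (min q s)) ⁻¹' F := by
    ext w
    simp only [mem_ofPred_eq, mem_iInter, mem_preimage]
    constructor
    · intro h q _
      exact h (min_le_right q s)
    · intro h u hu
      have hc : Continuous fun q : ℝ≥0 => w.1 (min q s) :=
        w.2.1.comp (continuous_id.min continuous_const)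
      have hcl : IsClosed {q : ℝ≥0 | w.1 (min q s) ∈ F} := hF.preimage hc
      have hsub : D ⊆ {q : ℝ≥0 | w.1 (min q s) ∈ F} := fun q hq => h q hq
      have := closure_minimal hsub hcl (hDd u)
      simpa [min_eq_left (mem_Iic.1 hu)] using this
  rw [h]
  exact MeasurableSet.biInter hDc fun q _ => measurable_eval _ hF.measurableSet

theorem meas_open (s : ℝ≥0) {U : Set E3} (hU : IsOpen U) :
    MeasurableSet {w : Path0 | MapsTo w.1 (Iic s) U} := by
  have h : {w : Path0 | MapsTo w.1 (Iic s) U} =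
      ⋃ n : ℕ, {w : Path0 | MapsTo w.1 (Iic s) (thickening (1 / ((n : ℝ) + 1)) Uᶜ)ᶜ} := by
    ext w
    simp only [mem_ofPred_eq, mem_iUnion]
    constructor
    · intro h
      have hK : IsCompact (w.1 '' Iic s) := (isCompact_Iic' s).image w.2.1
      have hd : Disjoint (w.1 '' Iic s) Uᶜ := disjoint_compl_right_iff_subset.2 h.image_subset
      obtain ⟨δ, hδ, hdis⟩ := hd.exists_thickenings hK hU.isClosed_compl
      obtain ⟨n, hn⟩ := exists_nat_one_div_lt hδ
      refine ⟨n, fun u hu hmem => ?_⟩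
      exact disjoint_left.1 hdis (self_subset_thickening hδ _ (mem_image_of_mem _ hu))
        (thickening_mono hn.le _ hmem)
    · rintro ⟨n, hn⟩ u hu
      by_contra hmem
      exact hn hu (self_subset_thickening Nat.one_div_pos_of_nat _ hmem)
  rw [h]
  exact MeasurableSet.iUnion fun n => meas_closed s isOpen_thickening.isClosed_compl

end Meas

theorem meas_stmt : MeasStmt := by
  intro s
  refine measurable_of_Iio fun c => ?_
  let O : (E3 → ℝ) → Set C(ℝ≥0, E3) := fun f => {γ | MapsTo γ (Iic s) (interior {x | f x = 0})}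
  let T : Set (E3 → ℝ) := {f | ContDiff ℝ (⊤ : ℕ∞) f ∧ IsPer f ∧ f ≠ 0 ∧
    ENNReal.ofReal ((∫ x in cube, ‖fderiv ℝ f x‖ ^ 2) / ∫ x in cube, f x ^ 2) < c}
  obtain ⟨T', -, hTc, hT⟩ := TopologicalSpace.isOpen_biUnion_countable T O fun f _ =>
    ContinuousMap.isOpen_setOfPred_mapsTo (Meas.isCompact_Iic' s) isOpen_interior
  have h : (fun w : Path0 => lam1 (rng s w)) ⁻¹' Iio c =
      ⋃ f ∈ T', {w : Path0 | MapsTo w.1 (Iic s) (interior {x | f x = 0})} := by
    ext w
    have h1 : (⟨w.1, w.2.1⟩ : C(ℝ≥0, E3)) ∈ ⋃ f ∈ T', O f ↔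
        (⟨w.1, w.2.1⟩ : C(ℝ≥0, E3)) ∈ ⋃ f ∈ T, O f := by rw [hT]
    have h2 : w ∈ ⋃ f ∈ T', {w : Path0 | MapsTo w.1 (Iic s) (interior {x | f x = 0})} ↔
        (⟨w.1, w.2.1⟩ : C(ℝ≥0, E3)) ∈ ⋃ f ∈ T', O f := by
      simp only [mem_iUnion, mem_ofPred_eq, O]
      rfl
    rw [h2, h1]
    simp only [mem_preimage, mem_Iio, lam1, iInf_lt_iff, mem_iUnion, exists_prop]
    refine exists_congr fun f => ?_
    have h3 : (∀ x ∈ rng s w, f =ᶠ[𝓝 x] 0) ↔ (⟨w.1, w.2.1⟩ : C(ℝ≥0, E3)) ∈ O f := by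
      constructor
      · intro h u hu
        exact mem_interior_iff_mem_nhds.2 (h _ (mem_image_of_mem _ hu))
      · rintro h x ⟨u, hu, rfl⟩
        exact mem_interior_iff_mem_nhds.1 (h hu)
    constructor
    · rintro ⟨⟨a1, a2, a3, a4⟩, a5⟩
      exact ⟨⟨a1, a2, a4, a5⟩, h3.1 a3⟩
    · rintro ⟨⟨a1, a2, a4, a5⟩, a3⟩
      exact ⟨⟨a1, a2, h3.2 a3, a4⟩, a5⟩
  rw [h]
  exact MeasurableSet.biUnion hTc fun f _ => Meas.meas_open s isOpen_interior

end Pool.Agent.MP_dce92b_pr

end MrgPart2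

-- ======== part 3: formerly Pool.Agent.MP_dce92b_pr.FK
section MrgPart3

/-! BTOR module FK: the sharp Faber-Krahn inequality by a Schur test. -/

open MeasureTheory ProbabilityTheory Filter Topology Metric Real
open scoped NNReal ENNReal

namespace Pool.Agent.MP_dce92b_pr

namespace FK

theorem integral_sin_gauss (v : ℝ≥0) (w r : ℝ) :
    ∫ z, sin (w * (r + z)) ∂gaussianReal 0 v = exp (-(v * w ^ 2 / 2)) * sin (w * r) := by
  have h1 := charFun_gaussianReal (μ := 0) (v := v) w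
  rw [charFun_apply_real] at h1
  have h2 : ∀ z : ℝ, sin (w * (r + z)) =
      (Complex.exp ((w * r : ℝ) * Complex.I) * Complex.exp (w * z * Complex.I)).im := fun z => by
    rw [← Complex.exp_add, ← Complex.exp_ofReal_mul_I_im]
    congr 2
    push_cast; ring
  have h3 : Integrable (fun z : ℝ => Complex.exp ((w * r : ℝ) * Complex.I) *
      Complex.exp (w * z * Complex.I)) (gaussianReal 0 v) := by
    refine Integrable.const_mul ((integrable_const (1 : ℝ)).mono' (by fun_prop)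
      (Eventually.of_forall fun z => ?_)) _
    rw [← Complex.ofReal_mul, Complex.norm_exp_ofReal_mul_I]
  simp only [h2]
  have h4 := integral_im h3
  simp only [RCLike.im_to_complex] at h4
  rw [h4, integral_const_mul, h1]
  have h5 : Complex.exp (w * (0 : ℝ) * Complex.I - v * w ^ 2 / 2) =
      ((exp (-(v * w ^ 2 / 2)) : ℝ) : ℂ) := by
    rw [Complex.ofReal_exp]; congr 1; push_cast; ring
  rw [h5, Complex.im_mul_ofReal, Complex.exp_ofReal_mul_I_im, mul_comm]

/-- the ground state of a ball -/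
noncomputable def ph (w : ℝ) (x : E3) : ℝ := sinc (w * ‖x‖)

theorem ph_cont (w : ℝ) : Continuous (ph w) := continuous_sinc.comp (by fun_prop)

theorem ph_bm (w : ℝ) : BM (ph w) := ⟨(ph_cont w).measurable, 1, fun _ => abs_sinc_le_one _⟩

theorem mul_sinc (x : ℝ) : x * sinc x = sin x := by
  rcases eq_or_ne x 0 with rfl | h
  · simp
  · rw [sinc_of_ne_zero h]; field_simp

theorem Pt_ph (hR : RadStmt) {t w : ℝ} (ht : 0 < t) (hw : 0 < w) (x : E3) :
    Pt t (ph w) x = exp (-(w ^ 2 * t)) * ph w x := by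
  refine congrFun (Continuous.ext_on (dense_compl_singleton (0 : E3)) (continuous_Pt ht (ph_bm w))
    (continuous_const.mul (ph_cont w)) fun x hx => ?_) x
  have h0 : w * ‖x‖ ≠ 0 := mul_ne_zero hw.ne' (norm_ne_zero_iff.mpr hx)
  have h1 := hR t ht (fun r => sinc (w * r)) (continuous_sinc.comp (by fun_prop)).measurable
    ⟨1, fun _ => abs_sinc_le_one _⟩ x
  have h2 : ∀ u : ℝ, u * sinc (w * |u|) = w⁻¹ * sin (w * u) := fun u => by
    have : sinc (w * |u|) = sinc (w * u) := by
      rcases abs_choice u with h | h <;> rw [h]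
      rw [mul_neg, sinc_neg]
    rw [this, ← mul_sinc]; field_simp
  simp only [h2] at h1
  rw [integral_const_mul, integral_sin_gauss, Real.coe_toNNReal _ (by positivity),
    ← mul_sinc] at h1
  refine mul_left_cancel₀ h0 ?_
  show w * ‖x‖ * Pt t (fun y => sinc (w * ‖y‖)) x = w * ‖x‖ * (_ * sinc (w * ‖x‖))
  rw [mul_assoc, h1, show 2 * t * w ^ 2 / 2 = w ^ 2 * t by ring]
  field_simp

theorem sinc_nonneg {x : ℝ} (h0 : 0 ≤ x) (h1 : x ≤ π) : 0 ≤ sinc x := by
  rcases h0.eq_or_lt with rfl | h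
  · simp
  · rw [sinc_of_ne_zero h.ne']
    exact div_nonneg (sin_nonneg_of_nonneg_of_le_pi h0 h1) h0

theorem sinc_pos {x : ℝ} (h0 : 0 ≤ x) (h1 : x < π) : 0 < sinc x := by
  rcases h0.eq_or_lt with rfl | h
  · simp
  · rw [sinc_of_ne_zero h.ne']
    exact div_pos (sin_pos_of_pos_of_lt_pi h h1) h

/-- the Schur test -/
theorem schur {t L m : ℝ} (ht : 0 < t) (hm : 0 < m) {B : Set E3} {ψ φ : E3 → ℝ} (hψ : BC ψ)
    (hφ : BC φ) (h0 : ∀ x, x ∉ B → ψ x = 0 ∧ φ x = 0) (h1 : ∀ x ∈ B, m ≤ φ x)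
    (h2 : ∀ x ∈ B, Pt t φ x ≤ L * φ x) : ∫ x, ψ x * Pt t ψ x ≤ L * ∫ x, ψ x * ψ x := by
  have hv : BC fun x => (φ x)⁻¹ * (ψ x * ψ x) := by
    refine (hψ.mul_left hψ.toBM).mul_left ⟨hφ.meas.inv, m⁻¹, fun x => ?_⟩
    by_cases hx : x ∈ B
    · have := h1 x hx
      rw [abs_of_pos (inv_pos.mpr (by linarith))]
      exact inv_anti₀ hm this
    · simp [(h0 x hx).2, hm.le]
  set v : E3 → ℝ := fun x => (φ x)⁻¹ * (ψ x * ψ x) with hvd
  have k1 : ∀ x, ψ x * Pt t ψ x ≤ 1 / 2 * (Pt t φ x * v x) + 1 / 2 * (φ x * Pt t v x) := by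
    intro x
    by_cases hx : x ∈ B
    · have a1 := Pt_mono ht (hψ.toBM.const_mul (ψ x))
        ((hφ.toBM.const_mul (v x / 2)).add (hv.toBM.const_mul (φ x / 2))) (fun y => ?_) x
      · rw [Pt_add ht (hφ.toBM.const_mul _) (hv.toBM.const_mul _), Pt_const_mul, Pt_const_mul,
          Pt_const_mul] at a1
        linarith
      · by_cases hy : y ∈ B
        · have b1 : 0 < φ x := hm.trans_le (h1 x hx)
          have b2 : 0 < φ y := hm.trans_le (h1 y hy)
          have b3 : v x / 2 * φ y + φ x / 2 * v y - ψ x * ψ y =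
              (ψ x * φ y - ψ y * φ x) ^ 2 / (2 * φ x * φ y) := by
            simp only [hvd]; field_simp; ring
          have b4 : 0 ≤ (ψ x * φ y - ψ y * φ x) ^ 2 / (2 * φ x * φ y) := by positivity
          linarith
        · simp [hvd, h0 y hy]
    · simp [hvd, h0 x hx]
  have i1 : Integrable fun x => Pt t φ x * v x := (hv.mul_left (hφ.toBM.Pt ht)).integrable
  have i2 : Integrable fun x => φ x * Pt t v x := by
    simpa only [mul_comm] using (hφ.mul_left (hv.toBM.Pt ht)).integrable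
  have i3 : Integrable fun x => ψ x * Pt t ψ x := by
    simpa only [mul_comm] using (hψ.mul_left (hψ.toBM.Pt ht)).integrable
  calc ∫ x, ψ x * Pt t ψ x
      ≤ ∫ x, (1 / 2 * (Pt t φ x * v x) + 1 / 2 * (φ x * Pt t v x)) :=
        integral_mono i3 ((i1.const_mul _).add (i2.const_mul _)) k1
    _ = ∫ x, Pt t φ x * v x := by
        rw [integral_add (i1.const_mul _) (i2.const_mul _), integral_const_mul,
          integral_const_mul]
        linarith [Pt_symm ht hφ.toBM hv]
    _ ≤ ∫ x, L * (ψ x * ψ x) := by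
        refine integral_mono i1 ((hψ.mul_left hψ.toBM).integrable.const_mul _) fun x => ?_
        by_cases hx : x ∈ B
        · have b1 : 0 < φ x := hm.trans_le (h1 x hx)
          calc Pt t φ x * v x ≤ L * φ x * v x :=
                mul_le_mul_of_nonneg_right (h2 x hx)
                  (mul_nonneg (inv_pos.mpr b1).le (mul_self_nonneg _))
            _ = L * (ψ x * ψ x) := by simp only [hvd]; field_simp
        · simp [hvd, h0 x hx]
    _ = _ := integral_const_mul _ _

theorem ball_bound (hR : RadStmt) {R R' : ℝ} (h0 : 0 < R) (h1 : R < R') : ∃ K : ℝ, 0 ≤ K ∧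
    ∀ t, 0 < t → ∀ ψ : E3 → ℝ, BC ψ → (∀ x, R < ‖x‖ → ψ x = 0) →
      ∫ x, ψ x * Pt t ψ x ≤ (exp (-((π / R') ^ 2 * t)) + K * t ^ 2) * ∫ x, ψ x * ψ x := by
  have hR' : 0 < R' := h0.trans h1
  set w := π / R' with hw
  have hw0 : 0 < w := div_pos pi_pos hR'
  have hwR : w * R' = π := div_mul_cancel₀ _ hR'.ne'
  obtain ⟨m, hm, hm'⟩ : ∃ m, 0 < m ∧ ∀ x ∈ closedBall (0 : E3) R, m ≤ ph w x := by
    obtain ⟨x0, hx0, h⟩ := (isCompact_closedBall (0 : E3) R).exists_isMinOn
      (nonempty_closedBall.mpr h0.le) (ph_cont w).continuousOn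
    refine ⟨ph w x0, sinc_pos (by positivity) ?_, fun x hx => h hx⟩
    rw [mem_closedBall_zero_iff] at hx0
    rw [← hwR]
    exact mul_lt_mul_of_pos_left (hx0.trans_lt h1) hw0
  obtain ⟨C, hC, htail⟩ := tail_le 4
  refine ⟨C / (R' - R) ^ 4 / m, by have := sub_pos.mpr h1; positivity, fun t ht ψ hψ hs => ?_⟩
  have := gam_prob ht
  have hφ : BC ((closedBall (0 : E3) R).indicator (ph w)) :=
    ⟨⟨(ph_cont w).measurable.indicator measurableSet_closedBall, 1, fun x => by
      by_cases hx : x ∈ closedBall (0 : E3) R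
      · rw [Set.indicator_of_mem hx]; exact abs_sinc_le_one _
      · simp [hx]⟩, R, fun x hx => Set.indicator_of_notMem (by simpa using hx) _⟩
  refine schur ht hm (B := closedBall 0 R) hψ hφ
    (fun x hx => ⟨hs x (by simpa using hx), Set.indicator_of_notMem hx _⟩)
    (fun x hx => by rw [Set.indicator_of_mem hx]; exact hm' x hx) fun x hx => ?_
  have hU : MeasurableSet {y : E3 | R' ≤ ‖y‖} := measurableSet_le measurable_const measurable_norm
  have hI : BM ({y : E3 | R' ≤ ‖y‖}.indicator fun _ => (1 : ℝ)) :=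
    ⟨measurable_const.indicator hU, 1, fun y => by
      by_cases hy : y ∈ {y : E3 | R' ≤ ‖y‖} <;> simp [hy]⟩
  have a1 := Pt_mono ht hφ.toBM ((ph_bm w).add hI) (fun y => ?_) x
  · rw [Pt_add ht (ph_bm w) hI, Pt_ph hR ht hw0] at a1
    have a2 : Pt t ({y : E3 | R' ≤ ‖y‖}.indicator fun _ => (1 : ℝ)) x ≤
        (gam t).real {z | R' - R ≤ ‖z‖} := by
      have hU' : MeasurableSet {z : E3 | R' - R ≤ ‖z‖} :=
        measurableSet_le measurable_const measurable_norm
      rw [← integral_indicator_one hU']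
      refine integral_mono_of_nonneg (Eventually.of_forall fun z => ?_)
        ((integrable_const _).indicator hU') (Eventually.of_forall fun z => ?_)
      · exact Set.indicator_nonneg (fun _ _ => zero_le_one) _
      · by_cases hz : x + z ∈ {y : E3 | R' ≤ ‖y‖}
        · have b1 : z ∈ {z : E3 | R' - R ≤ ‖z‖} := by
            have c1 : R' ≤ ‖x + z‖ := hz
            have c2 := norm_add_le x z
            rw [mem_closedBall_zero_iff] at hx
            show R' - R ≤ ‖z‖
            linarith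
          simp only [Set.indicator_of_mem hz, Set.indicator_of_mem b1, Pi.one_apply, le_refl]
        · simp only [Set.indicator_of_notMem hz]
          exact Set.indicator_nonneg (fun _ _ => zero_le_one) _
    have a3 := htail t (R' - R) ht (sub_pos.mpr h1)
    have a4 : C * (√t / (R' - R)) ^ 4 = C / (R' - R) ^ 4 / m * t ^ 2 * m := by
      rw [div_pow, show √t ^ 4 = (√t ^ 2) ^ 2 by ring, sq_sqrt ht.le]
      field_simp
    have a5 : C / (R' - R) ^ 4 / m * t ^ 2 * m ≤ C / (R' - R) ^ 4 / m * t ^ 2 * ph w x :=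
      mul_le_mul_of_nonneg_left (hm' x hx) (by have := sub_pos.mpr h1; positivity)
    rw [Set.indicator_of_mem hx]
    linarith
  · by_cases hy : y ∈ closedBall (0 : E3) R
    · rw [Set.indicator_of_mem hy]
      exact le_add_of_nonneg_right (Set.indicator_nonneg (fun _ _ => zero_le_one) _)
    · rw [Set.indicator_of_notMem hy]
      by_cases hy' : y ∈ {y : E3 | R' ≤ ‖y‖}
      · rw [Set.indicator_of_mem hy']
        linarith [(abs_le.mp (abs_sinc_le_one (w * ‖y‖))).1, show ph w y = sinc (w * ‖y‖) from rfl]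
      · rw [Set.indicator_of_notMem hy', add_zero]
        refine sinc_nonneg (by positivity) ?_
        rw [← hwR]
        exact mul_le_mul_of_nonneg_left (not_le.mp hy').le hw0.le

/-- the support of the rearrangement -/
theorem supp_le {f g : E3 → ℝ} (hf : Continuous f) (hf0 : ∀ x, 0 ≤ f x) (hg : Continuous g)
    (hgc : HasCompactSupport g) (hg0 : ∀ x, 0 ≤ g x) (hmono : ∀ x y, ‖x‖ ≤ ‖y‖ → g y ≤ g x)
    (heq : ∀ Φ : ℝ → ℝ, Continuous Φ → Φ 0 = 0 → ∫ x, Φ (g x) = ∫ x, Φ (f x)) {R : ℝ}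
    (hR : 0 < R) (hvol : volume {x | 0 < f x} ≤ volume (ball (0 : E3) R)) (x : E3)
    (hx : R < ‖x‖) : g x = 0 := by
  by_contra hne
  have hp : 0 < g x := lt_of_le_of_ne (hg0 x) (Ne.symm hne)
  have hΦ : Continuous fun y : ℝ => min 1 (|y| / g x) := by fun_prop
  have h1 := heq _ hΦ (by simp)
  have hU : MeasurableSet {x | 0 < f x} := measurableSet_lt measurable_const hf.measurable
  have hfin : volume {x | 0 < f x} ≠ ⊤ := ne_top_of_le_ne_top measure_ball_lt_top.ne hvol
  have h2 : ∫ y, min 1 (|f y| / g x) ≤ volume.real {x | 0 < f x} := by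
    rw [← integral_indicator_one hU]
    refine integral_mono_of_nonneg (Eventually.of_forall fun y => by positivity)
      ((integrableOn_const hfin).integrable_indicator hU) (Eventually.of_forall fun y => ?_)
    by_cases hy : y ∈ {x | 0 < f x}
    · simp [hy]
    · have : f y = 0 := le_antisymm (not_lt.mp hy) (hf0 y)
      simp [hy, this]
  have h3 : volume.real (closedBall (0 : E3) ‖x‖) ≤ ∫ y, min 1 (|g y| / g x) := by
    rw [← integral_indicator_one measurableSet_closedBall]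
    refine integral_mono_of_nonneg (Eventually.of_forall fun y =>
      Set.indicator_nonneg (fun _ _ => zero_le_one) _)
      ((hΦ.comp hg).integrable_of_hasCompactSupport
        (hgc.comp_left (g := fun y : ℝ => min 1 (|y| / g x)) (by simp)))
      (Eventually.of_forall fun y => ?_)
    by_cases hy : y ∈ closedBall (0 : E3) ‖x‖
    · have := hmono y x (mem_closedBall_zero_iff.mp hy)
      simp only [Set.indicator_of_mem hy, Pi.one_apply, le_min_iff, le_refl, true_and]
      rw [le_div_iff₀ hp, one_mul]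
      exact this.trans (le_abs_self _)
    · simp only [Set.indicator_of_notMem hy]
      positivity
  have h4 : volume.real {x | 0 < f x} ≤ volume.real (ball (0 : E3) R) :=
    ENNReal.toReal_mono measure_ball_lt_top.ne hvol
  rw [measureReal_def (s := ball _ _), volume_ball3 _ hR.le, ENNReal.toReal_ofReal (by positivity)]
    at h4
  rw [measureReal_def, volume_closedBall3 _ (norm_nonneg _),
    ENNReal.toReal_ofReal (by positivity)] at h3
  have h5 : 4 * π / 3 * R ^ 3 < 4 * π / 3 * ‖x‖ ^ 3 := by gcongr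
  linarith

end FK

open FK

theorem fk (hZ : RieszStmt) (hR : RadStmt) : FKStmt := by
  intro g hg hgc a R ha h0 hvol
  set h : E3 → ℝ := fun x => max (|g x| - a) 0 with hh
  have hc : Continuous h := by have := hg.continuous; fun_prop
  have hcs : HasCompactSupport h :=
    hgc.comp_left (g := fun y : ℝ => max (|y| - a) 0) (by simp [ha])
  have hnn : ∀ x, 0 ≤ h x := fun x => le_max_right _ _
  have hvol' : volume {x | 0 < h x} ≤ volume (ball (0 : E3) R) := by
    refine le_trans (measure_mono fun x hx => ?_) hvol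
    simpa [hh] using hx
  set H := ∫ x, h x * h x with hH
  set D := ∫ x, ‖fderiv ℝ g x‖ ^ 2
  have hH0 : 0 ≤ H := integral_nonneg fun x => mul_self_nonneg _
  have key : ∀ R', R < R' → (π / R') ^ 2 * H ≤ D := by
    intro R' h1
    obtain ⟨K, hK, hb⟩ := ball_bound hR h0 h1
    set w := (π / R') ^ 2 with hw
    have hw0 : 0 ≤ w := sq_nonneg _
    have k1 : ∀ t, 0 < t → w * H ≤ D + t * ((w ^ 2 + K) * H) := by
      intro t ht
      obtain ⟨ψ, a1, a2, a3, a4, a5, a6⟩ := hZ t ht h hc hcs hnn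
      have b1 := hb t ht ψ (BC.of_cont a1 a2) (supp_le hc hnn a1 a2 a3 a4 a5 h0 hvol')
      have b2 : ∫ x, ψ x * ψ x = H := a5 (fun y => y * y) (by fun_prop) (by simp)
      have b3 := (ER_le_of_contr ht (BC.of_cont hg.continuous hgc) (BC.of_cont hc hcs)
        fun x y => (abs_max_sub_max_le_abs _ _ _).trans (by
          rw [sub_sub_sub_cancel_right]; exact abs_abs_sub_abs_le_abs_sub _ _)).trans
        (ER_le_grad ht hg hgc)
      have b4 : exp (-(w * t)) ≤ 1 - w * t + (w * t) ^ 2 := by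
        have c0 : 0 ≤ w * t := by positivity
        have c1 := add_one_le_exp (w * t)
        rw [exp_neg, inv_le_iff_one_le_mul₀ (exp_pos _)]
        have c2 : 0 ≤ 1 - w * t + (w * t) ^ 2 := by nlinarith [sq_nonneg (w * t - 1)]
        nlinarith [mul_le_mul_of_nonneg_left c1 c2, pow_nonneg c0 3]
      rw [b2] at b1
      unfold ER at b3
      refine le_of_mul_le_mul_left ?_ ht
      nlinarith [mul_le_mul_of_nonneg_right b4 hH0]
    have k2 : Tendsto (fun t : ℝ => D + t * ((w ^ 2 + K) * H)) (𝓝[>] 0)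
        (𝓝 (D + 0 * ((w ^ 2 + K) * H))) :=
      (Continuous.tendsto (by fun_prop) 0).mono_left nhdsWithin_le_nhds
    simpa using ge_of_tendsto k2 (eventually_nhdsWithin_of_forall k1)
  have k3 : Tendsto (fun R' : ℝ => (π / R') ^ 2 * H) (𝓝[>] R) (𝓝 ((π / R) ^ 2 * H)) :=
    (ContinuousAt.tendsto (by fun_prop (disch := exact h0.ne'))).mono_left nhdsWithin_le_nhds
  have k4 := le_of_tendsto k3 (eventually_nhdsWithin_of_forall key)
  simp only [sq (max _ _)]
  rwa [← div_pow]

end Pool.Agent.MP_dce92b_pr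

end MrgPart3

-- ======== part 4: formerly Pool.Agent.MP_dce92b_pr.Hole
section MrgPart4

/-! BTOR module HOLE: parameter asymptotics for the second moment bound and a volume count. -/

open MeasureTheory ProbabilityTheory Filter Topology Metric Real
open scoped NNReal ENNReal

namespace Pool.Agent.MP_dce92b_pr

namespace HoleAux

/-- a lattice translate of p near a point of the ball of radius 1/4 is the reduced point -/
theorem mem_ball_red {p x : E3} {r : ℝ} (hr : r ≤ 1 / 4) (hx : x ∈ ball (0 : E3) (1 / 4))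
    {k : Fin 3 → ℤ} (hk : ‖p - x - lat k‖ < r) : x ∈ ball (red p) r := by
  have hk' : k = fun i => round (p i) := by
    funext i
    have h1 : |(p - x - lat k) i| ≤ ‖p - x - lat k‖ := by
      simpa using PiLp.norm_apply_le (p - x - lat k) i
    have h2 : |x i| ≤ ‖x‖ := by simpa using PiLp.norm_apply_le x i
    have h3 : ‖x‖ < 1 / 4 := by simpa using hx
    have h4 : (p - x - lat k) i = p i - x i - k i := rfl
    rw [h4] at h1
    have h5 := abs_lt.1 (h1.trans_lt (hk.trans_le hr))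
    have h6 := abs_lt.1 (h2.trans_lt h3)
    symm
    rw [round_eq, Int.floor_eq_iff]
    constructor <;> linarith [h5.1, h5.2, h6.1, h6.2]
  subst hk'
  rw [mem_ball, dist_comm, dist_eq_norm]
  have : red p - x = p - x - lat fun i => round (p i) := by
    unfold red; abel
  rwa [this]

/-- few small balls do not cover the torus -/
theorem exists_far (N : ℕ) (p : ℕ → E3) {r : ℝ} (hr0 : 0 < r) (hr : r ≤ 1 / 4)
    (hN : N * r ^ 3 < 1 / 64) : ∃ x : E3, ∀ j < N, ∀ k, r ≤ ‖p j - x - lat k‖ := by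
  by_contra hcon
  push Not at hcon
  have hsub : ball (0 : E3) (1 / 4) ⊆ ⋃ j ∈ Finset.range N, ball (red (p j)) r := by
    intro x hx
    obtain ⟨j, hj, k, hk⟩ := hcon x
    exact Set.mem_biUnion (Finset.mem_coe.2 (Finset.mem_range.2 hj)) (mem_ball_red hr hx hk)
  have h1 := (measure_mono (μ := volume) hsub).trans (measure_biUnion_finset_le _ _)
  have hb : ∀ (a : E3) (ρ : ℝ), 0 ≤ ρ →
      volume (ball a ρ) = ENNReal.ofReal (ρ ^ 3) * volume (ball (0 : E3) 1) := by
    intro a ρ hρ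
    rw [Measure.addHaar_ball volume a hρ]
    simp
  simp only [hb _ _ hr0.le, Finset.sum_const, Finset.card_range, nsmul_eq_mul] at h1
  rw [hb _ _ (by norm_num), ← mul_assoc] at h1
  have hpos : volume (ball (0 : E3) 1) ≠ 0 := (measure_ball_pos _ _ one_pos).ne'
  have hfin : volume (ball (0 : E3) 1) ≠ ⊤ := measure_ball_lt_top.ne
  rw [ENNReal.mul_le_mul_iff_left hpos hfin, ← ENNReal.ofReal_natCast,
    ← ENNReal.ofReal_mul (Nat.cast_nonneg _),
    ENNReal.ofReal_le_ofReal_iff (by positivity)] at h1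
  norm_num at h1 hN
  linarith

/-- small oscillation on all steps gives a hole -/
theorem hole_of_osc (s t : ℝ≥0) (ht : 0 < t) {δ : ℝ} (hδ0 : 0 < δ) (hδ : δ ≤ 1 / 8) (w : Path0)
    (hN : ((⌊s / t⌋₊ + 1 : ℕ) : ℝ) * (2 * δ) ^ 3 < 1 / 64)
    (hosc : ∀ j < ⌊s / t⌋₊ + 1, ∀ u ≤ t, ‖w.1 (j * t + u) - w.1 (j * t)‖ ≤ δ) :
    Hole (rng s w) δ := by
  obtain ⟨x, hx⟩ := exists_far (⌊s / t⌋₊ + 1) (fun j => w.1 (j * t)) (r := 2 * δ)
    (by linarith) (by linarith) hN
  refine ⟨x, ?_⟩
  rintro _ ⟨v, hv, rfl⟩ k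
  have hvs : v ≤ s := hv
  set j := ⌊v / t⌋₊ with hj
  have hjN : j < ⌊s / t⌋₊ + 1 :=
    Nat.lt_succ_of_le (Nat.floor_le_floor (by gcongr))
  have h1 : (j : ℝ≥0) * t ≤ v := by
    rw [← le_div_iff₀ ht]; exact Nat.floor_le zero_le
  have h2 : v ≤ j * t + t := by
    have := (Nat.lt_floor_add_one (v / t)).le
    rw [div_le_iff₀ ht] at this
    simpa [add_mul] using this
  have h3 := hosc j hjN (v - j * t) (tsub_le_iff_left.2 h2)
  rw [add_tsub_cancel_of_le h1] at h3
  have h4 := hx j hjN k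
  have h5 : w.1 (j * t) - x - lat k = (w.1 v - x - lat k) - (w.1 v - w.1 (j * t)) := by abel
  have h6 := norm_sub_le (w.1 v - x - lat k) (w.1 v - w.1 (j * t))
  rw [h5] at h4
  linarith

/-- the parameter inequalities, with v = 1/s and u a small power of v -/
theorem params {C u v c L N E : ℝ} (hC : 0 < C) (hu : 0 < u) (hv : 0 < v) (hu1 : u ≤ 1 / 32)
    (hCu : 11 * C * u ≤ 1) (hvu : v ≤ u ^ 8) (hL0 : 0 ≤ L) (hL : L * u ≤ 1) (hvc : v ≤ c)
    (hc : c ≤ L * v / 2) (hN0 : 0 ≤ N) (hN : N * v ≤ 2) (hE : E * v ^ 3 ≤ 3 * u ^ 24) :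
    v ^ 2 ≤ c ∧ c + v ^ 2 ≤ 1 / 16 ∧ 4 * c ≤ v / u ^ 4 ∧ v / u ^ 4 ≤ 1 / 4 ∧
      C * (c + v ^ 2) ≤ 1 / 4 ∧
      N * c * (√c + c / (v / u ^ 4) + v ^ 12 / ((v ^ 2) ^ 3 * c ^ 2) + v ^ 2 / c + v ^ 12) ≤ 1 ∧
      C * (N * v ^ 4 + (v / u ^ 4) ^ 3 * E + c +
        N * c * (√c + c / (v / u ^ 4) + v ^ 12 / ((v ^ 2) ^ 3 * c ^ 2) + v ^ 2 / c + v ^ 12))
        ≤ u := by
  have hu1' : u ≤ 1 := by linarith
  have hpow : ∀ {a b : ℕ}, a ≤ b → u ^ b ≤ u ^ a := fun h => pow_le_pow_of_le_one hu.le hu1' h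
  have hv1 : v ≤ 1 := hvu.trans (pow_le_one₀ hu.le hu1')
  have hvpow : ∀ {a b : ℕ}, a ≤ b → v ^ b ≤ v ^ a := fun h => pow_le_pow_of_le_one hv.le hv1 h
  have hc0 : 0 < c := hv.trans_le hvc
  have hcu : c * u ≤ v / 2 := by
    calc c * u ≤ L * v / 2 * u := by gcongr
      _ = L * u * v / 2 := by ring
      _ ≤ 1 * v / 2 := by gcongr
      _ = v / 2 := by ring
  have hc7 : c ≤ u ^ 7 := by
    have : c * u ≤ u ^ 7 * u := by
      have : u ^ 7 * u = u ^ 8 := by ring
      linarith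
    exact le_of_mul_le_mul_right this hu
  have hc1 : c ≤ u := by simpa using hc7.trans (hpow (a := 1) (by norm_num))
  have hγ : v ^ 2 ≤ c := by
    have := hvpow (a := 1) (b := 2) (by norm_num)
    simp only [pow_one] at this
    linarith
  have hcd : c / (v / u ^ 4) ≤ u ^ 3 := by
    rw [div_le_iff₀ (by positivity)]
    have : u ^ 3 * (v / u ^ 4) = v / u := by field_simp
    rw [this, le_div_iff₀ hu]
    linarith
  have hsq : √c ≤ u ^ 3 := by
    rw [sqrt_le_left (by positivity)]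
    have : (u ^ 3) ^ 2 = u ^ 6 := by ring
    rw [this]
    exact hc7.trans (hpow (by norm_num))
  have hv3 : v ≤ u ^ 3 := hvu.trans (hpow (by norm_num))
  have h3 : v ^ 12 / ((v ^ 2) ^ 3 * c ^ 2) ≤ u ^ 3 := by
    refine le_trans ?_ hv3
    rw [div_le_iff₀ (by positivity)]
    calc v ^ 12 ≤ v ^ 9 := hvpow (by norm_num)
      _ = v * ((v ^ 2) ^ 3 * v ^ 2) := by ring
      _ ≤ v * ((v ^ 2) ^ 3 * c ^ 2) := by gcongr
  have h4 : v ^ 2 / c ≤ u ^ 3 := by
    refine le_trans ?_ hv3
    rw [div_le_iff₀ hc0, sq]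
    gcongr
  have h5 : v ^ 12 ≤ u ^ 3 := by
    refine le_trans ?_ hv3
    simpa using hvpow (a := 1) (b := 12) (by norm_num)
  have hNc : N * c ≤ L := by
    calc N * c ≤ N * (L * v / 2) := by gcongr
      _ = N * v * L / 2 := by ring
      _ ≤ 2 * L / 2 := by gcongr
      _ = L := by ring
  have hbr : N * c * (√c + c / (v / u ^ 4) + v ^ 12 / ((v ^ 2) ^ 3 * c ^ 2) + v ^ 2 / c + v ^ 12)
      ≤ 5 * u ^ 2 := by
    calc _ ≤ L * (5 * u ^ 3) := by
          refine mul_le_mul hNc (by linarith) (by positivity) hL0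
      _ = 5 * u ^ 2 * (L * u) := by ring
      _ ≤ 5 * u ^ 2 * 1 := by gcongr
      _ = _ := by ring
  have hu2 : u ^ 2 ≤ u / 32 := by nlinarith
  have hu3 : u ^ 3 ≤ u ^ 2 := hpow (by norm_num)
  refine ⟨hγ, by linarith, ?_, ?_, ?_, by linarith, ?_⟩
  · rw [le_div_iff₀ (by positivity)]
    calc 4 * c * u ^ 4 = 4 * u ^ 3 * (c * u) := by ring
      _ ≤ 1 * (v / 2) := by
          refine mul_le_mul (by linarith) hcu (by positivity) zero_le_one
      _ ≤ v := by linarith
  · rw [div_le_iff₀ (by positivity)]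
    have h6 : u ^ 4 ≤ 1 / 4 := by
      have := hpow (a := 2) (b := 4) (by norm_num)
      linarith
    calc v ≤ u ^ 4 * u ^ 4 := by rw [← pow_add]; exact hvu
      _ ≤ 1 / 4 * u ^ 4 := by gcongr
  · calc C * (c + v ^ 2) ≤ C * (2 * u) := by gcongr; linarith
      _ ≤ 1 / 4 := by linarith
  · have h6 : N * v ^ 4 ≤ 2 * u ^ 2 := by
      calc N * v ^ 4 = N * v * v ^ 3 := by ring
        _ ≤ 2 * u ^ 2 := by
          refine mul_le_mul hN ?_ (by positivity) (by norm_num)
          have := hvpow (a := 1) (b := 3) (by norm_num)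
          simp only [pow_one] at this
          linarith
    have h7 : (v / u ^ 4) ^ 3 * E ≤ 3 * u ^ 2 := by
      have : (v / u ^ 4) ^ 3 * E = E * v ^ 3 / u ^ 12 := by field_simp
      rw [this, div_le_iff₀ (by positivity)]
      have h8 := hpow (a := 14) (b := 24) (by norm_num)
      have : 3 * u ^ 2 * u ^ 12 = 3 * u ^ 14 := by ring
      linarith
    have h8 : c ≤ u ^ 2 := hc7.trans (hpow (by norm_num))
    calc _ ≤ C * (11 * u ^ 2) := by gcongr; linarith
      _ = 11 * C * u * u := by ring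
      _ ≤ 1 * u := by gcongr
      _ = u := one_mul u

end HoleAux

open HoleAux

theorem small (hS : SupStmt) : SmallStmt := by
  intro q hq
  obtain ⟨C, hC, hS⟩ := hS (2 * q) (by omega)
  refine ⟨C * 2000 ^ q, by positivity, fun μ hμ s δ hs hδ hsδ => ?_⟩
  have hs1 : (1 : ℝ) ≤ s := hs
  have hδ1 : δ ≤ 1 / 100 := by nlinarith
  have hδ3 : δ ^ 3 ≤ 1 / 1000000 := by
    calc δ ^ 3 ≤ (1 / 100) ^ 3 := by gcongr
      _ = _ := by norm_num
  have htpos : 0 < 2000 * (s : ℝ) * δ ^ 3 := by positivity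
  set t : ℝ≥0 := ⟨2000 * s * δ ^ 3, htpos.le⟩ with ht
  have htc : (t : ℝ) = 2000 * s * δ ^ 3 := rfl
  have ht0 : 0 < t := htpos
  set N : ℕ := ⌊s / t⌋₊ + 1 with hNdef
  have hN : (N : ℝ) * δ ^ 3 ≤ 1 / 1000 := by
    have h1 : ((⌊s / t⌋₊ : ℝ≥0) : ℝ) ≤ ((s / t : ℝ≥0) : ℝ) :=
      NNReal.coe_le_coe.2 (Nat.floor_le zero_le)
    rw [NNReal.coe_div, htc, NNReal.coe_natCast, le_div_iff₀ htpos] at h1
    have h2 : (⌊s / t⌋₊ : ℝ) * δ ^ 3 ≤ 1 / 2000 := by
      have h3 : (2000 * (⌊s / t⌋₊ * δ ^ 3)) * (s : ℝ) ≤ 1 * s := by linarith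
      have := le_of_mul_le_mul_right h3 (by linarith)
      linarith
    rw [hNdef]
    push_cast
    linarith
  have hsub : {w | ¬ Hole (rng s w) δ} ⊆
      ⋃ j ∈ Finset.range N, {w : Path0 | ∃ u ≤ t, δ < ‖w.1 (j * t + u) - w.1 (j * t)‖} := by
    intro w hw
    by_contra hcon
    apply hw
    refine hole_of_osc s t ht0 hδ (by linarith) w (by rw [← hNdef]; nlinarith) ?_
    intro j hj u hu
    by_contra h
    exact hcon (Set.mem_biUnion (Finset.mem_coe.2 (Finset.mem_range.2 hj)) ⟨u, hu, not_le.1 h⟩)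
  refine (measure_mono hsub).trans ((measure_biUnion_finset_le _ _).trans ?_)
  refine (Finset.sum_le_sum fun (j : ℕ) _ => hS μ hμ (j * t) t δ ht0 hδ).trans ?_
  rw [Finset.sum_const, Finset.card_range, nsmul_eq_mul, ← ENNReal.ofReal_natCast,
    ← ENNReal.ofReal_mul (Nat.cast_nonneg _)]
  refine ENNReal.ofReal_le_ofReal ?_
  have h1 : (√(t : ℝ) / δ) ^ (2 * q) = 2000 ^ q * (s * δ) ^ q := by
    rw [pow_mul, div_pow, sq_sqrt (NNReal.coe_nonneg t), htc, ← mul_pow]
    congr 1
    field_simp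
  rw [h1, le_div_iff₀ (by positivity)]
  calc _ = (N * δ ^ 3) * (C * 2000 ^ q * (s * δ) ^ q) := by ring
    _ ≤ 1 * (C * 2000 ^ q * (s * δ) ^ q) := by gcongr; linarith
    _ = _ := one_mul _

theorem hole (h2 : SecondStmt) : HoleStmt := by
  obtain ⟨C, hC, h2⟩ := h2
  intro μ hμ ε hε hε1
  have ha : 0 < ε / 8 := by positivity
  refine ⟨ε / 8, ha, ?_⟩
  have hu0 : Tendsto (fun s : ℝ => s ^ (-(ε / 8))) atTop (𝓝 0) := tendsto_rpow_neg_atTop ha
  have e1 : ∀ᶠ s : ℝ in atTop, s ^ (-(ε / 8)) ≤ 1 / 32 :=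
    hu0.eventually (eventually_le_nhds (by norm_num))
  have e2 : ∀ᶠ s : ℝ in atTop, s ^ (-(ε / 8)) ≤ 1 / (11 * C) :=
    hu0.eventually (eventually_le_nhds (by positivity))
  have e3 : ∀ᶠ s : ℝ in atTop, ‖log s‖ ≤ 1 * ‖s ^ (ε / 8)‖ :=
    (isLittleO_log_rpow_atTop ha).bound one_pos
  have e4 : ∀ᶠ s : ℝ in atTop, 4 * π / (3 * (1 - ε)) ≤ log s :=
    tendsto_log_atTop.eventually_ge_atTop _
  have e5 : ∀ᶠ s : ℝ in atTop, 2 ≤ s := eventually_ge_atTop _
  have hcoe : Tendsto (fun s : ℝ≥0 => (s : ℝ)) atTop atTop := NNReal.tendsto_coe_atTop.2 tendsto_id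
  filter_upwards [hcoe.eventually e1, hcoe.eventually e2, hcoe.eventually e3, hcoe.eventually e4,
    hcoe.eventually e5] with s e1 e2 e3 e4 e5
  have hs0 : (0 : ℝ) < s := by linarith
  have hs1 : (1 : ℝ) ≤ s := by linarith
  set u : ℝ := (s : ℝ) ^ (-(ε / 8)) with hu
  have hu0 : 0 < u := rpow_pos_of_pos hs0 _
  set v : ℝ := (s : ℝ)⁻¹ with hv
  have hv0 : 0 < v := inv_pos.2 hs0
  have hsv : s * v = 1 := mul_inv_cancel₀ hs0.ne'
  have hv2 : v ≤ 1 / 2 := by nlinarith
  set L : ℝ := log s with hLdef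
  have hL0 : 0 ≤ L := log_nonneg hs1
  have hLu : L * u ≤ 1 := by
    rw [one_mul, Real.norm_of_nonneg hL0, Real.norm_of_nonneg (rpow_nonneg hs0.le _)] at e3
    rw [hu, rpow_neg hs0.le, ← div_eq_mul_inv, div_le_one (rpow_pos_of_pos hs0 _)]
    exact e3
  have hvu : v ≤ u ^ 8 := by
    rw [hu, ← rpow_natCast, ← rpow_mul hs0.le, hv, ← rpow_neg_one]
    exact rpow_le_rpow_of_exponent_le hs1 (by push_cast; linarith)
  set c : ℝ := (1 - ε) * r0 s with hc
  have hcv : 4 * π * c = 3 * (1 - ε) * L * v := by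
    rw [hc, r0, hv, hLdef]
    field_simp
  have hπ := pi_gt_three
  have hvc : v ≤ c := by
    rw [div_le_iff₀ (by linarith)] at e4
    have : 4 * π * v ≤ 4 * π * c := by
      rw [hcv]
      have : L * (3 * (1 - ε)) * v = 3 * (1 - ε) * L * v := by ring
      rw [← this]
      gcongr
    exact le_of_mul_le_mul_left this (by positivity)
  have hc0 : 0 < c := hv0.trans_le hvc
  have hcL : c ≤ L * v / 2 := by
    have h1 : 0 ≤ ε * (L * v) := by positivity
    have h2 : 0 ≤ L * v := by positivity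
    nlinarith
  set t : ℝ≥0 := ⟨v ^ 12, by positivity⟩ with ht
  have htc : (t : ℝ) = v ^ 12 := rfl
  have ht0 : 0 < t := by
    change (0 : ℝ) < v ^ 12
    positivity
  have hv12 : v ^ 12 ≤ 1 / 4 := by
    calc v ^ 12 ≤ v ^ 2 := pow_le_pow_of_le_one hv0.le (by linarith) (by norm_num)
      _ ≤ (1 / 2) ^ 2 := by gcongr
      _ = _ := by norm_num
  set n : ℕ := ⌈s / t⌉₊ with hn
  have hn1 : s ≤ n * t := by
    rw [← div_le_iff₀ ht0]; exact Nat.le_ceil _
  have hn2 : (n : ℝ) * v ^ 12 ≤ s + 1 / 4 := by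
    have h1 : (n : ℝ≥0) ≤ s / t + 1 := (Nat.ceil_lt_add_one zero_le).le
    have h2 : (n : ℝ) ≤ s / v ^ 12 + 1 := by exact_mod_cast h1
    have h3 : (n : ℝ) * v ^ 12 ≤ (s / v ^ 12 + 1) * v ^ 12 := by gcongr
    have h4 : (s / v ^ 12 + 1) * v ^ 12 = s + v ^ 12 := by field_simp
    linarith
  have hN : (n : ℝ) * v ^ 12 * v ≤ 2 := by
    calc (n : ℝ) * v ^ 12 * v ≤ (s + 1 / 4) * v := by gcongr
      _ ≤ 2 := by nlinarith
  have hE : exp (4 * π * c * (n * v ^ 12)) * v ^ 3 ≤ 3 * u ^ 24 := by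
    have hLv : L * v ≤ 1 := by
      have := log_le_self hs0.le
      nlinarith
    have h1 : 4 * π * c * (n * v ^ 12) ≤ 1 + L * (3 * (1 - ε)) := by
      rw [hcv]
      have h0 : 0 ≤ 3 * (1 - ε) * L * v := by
        have : 0 ≤ 1 - ε := by linarith
        positivity
      calc _ ≤ 3 * (1 - ε) * L * v * (s + 1 / 4) := by gcongr
        _ = L * (3 * (1 - ε)) * (s * v) + 3 / 4 * (L * v) - 3 / 4 * (ε * (L * v)) := by ring
        _ ≤ _ := by
          rw [hsv]
          have : 0 ≤ ε * (L * v) := by positivity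
          linarith
    have h3 : exp (L * (3 * (1 - ε))) * v ^ 3 = u ^ 24 := by
      rw [hLdef, ← rpow_def_of_pos hs0, hu, ← rpow_natCast, ← rpow_natCast, hv, ← rpow_neg_one,
        ← rpow_mul hs0.le, ← rpow_mul hs0.le, ← rpow_add hs0]
      congr 1
      push_cast
      ring
    calc _ ≤ exp (1 + L * (3 * (1 - ε))) * v ^ 3 := by gcongr
      _ = exp 1 * u ^ 24 := by rw [exp_add, mul_assoc, h3]
      _ ≤ 3 * u ^ 24 := by
        gcongr
        exact exp_one_lt_three.le
  have hCu : 11 * C * u ≤ 1 := by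
    rw [le_div_iff₀ (by positivity)] at e2
    linarith
  obtain ⟨p1, p2, p3, p4, p5, p6, p7⟩ := params (N := n * v ^ 12) hC hu0 hv0 e1 hCu hvu hL0 hLu hvc
    hcL (by positivity) hN hE
  have ht1 : t ≤ 1 := by
    change v ^ 12 ≤ (1 : ℝ)
    linarith
  refine (h2 μ hμ s t n c (v ^ 2) (v / u ^ 4) ht0 ht1 hn1 (by positivity) p1 p2 p3 p4 p5
    (by rw [htc]; exact p6)).trans (ENNReal.ofReal_le_ofReal ?_)
  rw [htc]
  have h1 : (n : ℝ) * (√(v ^ 12) / v ^ 2) ^ 4 = n * v ^ 12 * v ^ 4 := by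
    have : √(v ^ 12) = v ^ 6 := by
      rw [show v ^ 12 = (v ^ 6) ^ 2 by ring, sqrt_sq (by positivity)]
    rw [this]
    field_simp
  rw [h1]
  exact p7

end Pool.Agent.MP_dce92b_pr

end MrgPart4

-- ======== part 5: formerly Pool.Agent.MP_dce92b_pr.Rad
section MrgPart5

/-! BTOR module RAD: the heat semigroup on radial functions. -/

open MeasureTheory ProbabilityTheory Filter Topology Metric Real
open scoped NNReal ENNReal RealInnerProductSpace

namespace Pool.Agent.MP_dce92b_pr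

namespace Rad

theorem wd {Ω E : Type*} [MeasurableSpace Ω] [NormedAddCommGroup E] [NormedSpace ℝ E]
    (N : Measure Ω) {w T : Ω → ℝ} (hw : Measurable w) (hT : Measurable T) {φ : ℝ → E}
    (hφ : StronglyMeasurable φ) :
    ∫ u, φ u ∂(N.withDensity fun z => ENNReal.ofReal (w z)).map T =
      ∫ z, max (w z) 0 • φ (T z) ∂N := by
  rw [integral_map hT.aemeasurable hφ.aestronglyMeasurable,
    integral_withDensity_eq_integral_toReal_smul hw.ennreal_ofReal (ae_of_all _ fun _ => by simp)]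
  simp only [ENNReal.toReal_ofReal']

/-- transfer from characteristic functions to bounded measurable functions -/
theorem transfer {Ω Ω' : Type*} [MeasurableSpace Ω] [MeasurableSpace Ω'] (N : Measure Ω)
    (M : Measure Ω') [IsFiniteMeasure M] {w T : Ω → ℝ} {S : Ω' → ℝ} (hw : Measurable w)
    (hi : Integrable w N) (hT : Measurable T) (hS : Measurable S) {r : ℝ} (hr : 0 ≤ r)
    (h : ∀ τ : ℝ, r • ∫ z, Complex.exp (τ * S z * Complex.I) ∂M =
      ∫ z, w z • Complex.exp (τ * T z * Complex.I) ∂N)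
    {φ : ℝ → ℝ} (hφ : Measurable φ) {C : ℝ} (hC : ∀ u, |φ u| ≤ C) :
    r * ∫ z, φ (S z) ∂M = ∫ z, w z * φ (T z) ∂N := by
  have f1 := isFiniteMeasure_withDensity_ofReal hi.2
  have f2 := isFiniteMeasure_withDensity_ofReal hi.neg.2
  simp only [Pi.neg_apply] at f2
  have f3 : IsFiniteMeasure (r.toNNReal • M.map S) := inferInstance
  have key : ∀ {E : Type} [NormedAddCommGroup E] [NormedSpace ℝ E] {φ : ℝ → E},
      StronglyMeasurable φ → ∀ C, (∀ u, ‖φ u‖ ≤ C) →
      (∫ u, φ u ∂(r.toNNReal • M.map S +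
        (N.withDensity fun z => ENNReal.ofReal (-w z)).map T) =
      ∫ u, φ u ∂(N.withDensity fun z => ENNReal.ofReal (w z)).map T ↔
      r • ∫ z, φ (S z) ∂M = ∫ z, w z • φ (T z) ∂N) := by
    intro E _ _ φ hφ C hC
    have i : ∀ (ν : Measure ℝ) [IsFiniteMeasure ν], Integrable φ ν := fun ν _ =>
      Integrable.of_bound hφ.aestronglyMeasurable C (ae_of_all _ hC)
    have j : ∀ {v : Ω → ℝ}, Integrable v N → Integrable (fun z => v z • φ (T z)) N := fun hv =>
      hv.smul_of_top_left (memLp_top_of_bound (hφ.comp_measurable hT).aestronglyMeasurable C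
        (ae_of_all _ fun z => hC _))
    rw [integral_add_measure (i _) (i _), wd N hw.fun_neg hT hφ, wd N hw hT hφ,
      integral_smul_nnreal_measure, integral_map hS.aemeasurable hφ.aestronglyMeasurable,
      NNReal.smul_def, Real.coe_toNNReal _ hr, ← eq_sub_iff_add_eq,
      ← integral_sub (j hi.pos_part) (j hi.neg_part)]
    simp only [← sub_smul, max_zero_sub_max_neg_zero_eq_self]
  have e : r.toNNReal • M.map S + (N.withDensity fun z => ENNReal.ofReal (-w z)).map T =
      (N.withDensity fun z => ENNReal.ofReal (w z)).map T := by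
    refine Measure.ext_of_charFun (funext fun τ => ?_)
    rw [charFun_apply_real, charFun_apply_real]
    exact (key (φ := fun u : ℝ => Complex.exp (τ * u * Complex.I))
      (Continuous.stronglyMeasurable (by fun_prop)) 1 (fun u => by
        rw [← Complex.ofReal_mul, Complex.norm_exp_ofReal_mul_I])).2 (h τ)
  exact (key hφ.stronglyMeasurable C hC).1 (by rw [e])

theorem int1 {b : ℂ} (hb : 0 < b.re) (c : ℝ) :
    ∫ y : ℝ, (y : ℂ) * Complex.exp (-b * y ^ 2 + c * y) =
      c / (2 * b) * ((π / b) ^ (1 / 2 : ℂ) * Complex.exp (c ^ 2 / (4 * b))) := by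
  have hb0 : b ≠ 0 := fun h => by simp [h] at hb
  have i0 : ∀ c : ℂ, Integrable fun y : ℝ => Complex.exp (-b * y ^ 2 + c * y) := fun c => by
    simpa using integrable_cexp_quadratic hb c 0
  have i1 : Integrable fun y : ℝ => (y : ℂ) * Complex.exp (-b * y ^ 2 + c * y) := by
    refine ((i0 (c + 1)).norm.add (i0 (c - 1)).norm).mono' (by fun_prop) (ae_of_all _ fun y => ?_)
    have e1 : -b * y ^ 2 + (c + 1) * y = (y : ℝ) + (-b * y ^ 2 + c * y) := by ring
    have e2 : -b * y ^ 2 + (c - 1) * y = (-y : ℝ) + (-b * y ^ 2 + c * y) := by push_cast; ring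
    simp only [Pi.add_apply, e1, e2, Complex.exp_add (y : ℝ), Complex.exp_add (-y : ℝ), norm_mul,
      Complex.norm_exp_ofReal, ← add_mul, Complex.norm_real, Real.norm_eq_abs]
    refine mul_le_mul_of_nonneg_right (abs_le.2 ⟨?_, ?_⟩) (norm_nonneg _)
    · linarith [Real.add_one_le_exp (-y), Real.exp_pos y]
    · linarith [Real.add_one_le_exp y, Real.exp_pos (-y)]
  have z := integral_eq_zero_of_hasDerivAt_of_integrable
    (f := fun y : ℝ => Complex.exp (-b * y ^ 2 + c * y))
    (f' := fun y : ℝ => -(2 * b) * ((y : ℂ) * Complex.exp (-b * y ^ 2 + c * y)) +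
      c * Complex.exp (-b * y ^ 2 + c * y)) (fun y => by
      have : HasDerivAt (fun y : ℂ => Complex.exp (-b * y ^ 2 + c * y))
          (Complex.exp (-b * y ^ 2 + c * y) * (-b * (2 * y) + c)) y := by
        refine HasDerivAt.cexp ?_
        simpa using ((hasDerivAt_pow 2 (y : ℂ)).const_mul (-b)).fun_add
          ((hasDerivAt_id (y : ℂ)).const_mul (c : ℂ))
      exact this.comp_ofReal.congr_deriv (by ring))
    ((i1.const_mul _).add ((i0 c).const_mul _)) (i0 c)
  rw [integral_add (i1.const_mul _) ((i0 c).const_mul _), integral_const_mul,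
    integral_const_mul] at z
  have q := integral_cexp_quadratic (b := -b) (by simpa using hb) c 0
  simp only [add_zero, neg_neg, zero_sub, mul_neg, div_neg] at q
  rw [q] at z
  rw [div_mul_eq_mul_div, eq_div_iff (mul_ne_zero two_ne_zero hb0)]
  linear_combination -z

theorem char {t : ℝ} (ht : 0 < t) (x : E3) (τ : ℝ) :
    ‖x‖ • ∫ z, Complex.exp (τ * (‖x + z‖ ^ 2 : ℝ) * Complex.I) ∂gam t =
      ∫ z, (‖x‖ + z) • Complex.exp (τ * ((‖x‖ + z) ^ 2 : ℝ) * Complex.I)
        ∂gaussianReal 0 (2 * t).toNNReal := by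
  obtain ⟨b, hb⟩ : ∃ b : ℂ, b = 1 / (4 * t) - τ * Complex.I := ⟨_, rfl⟩
  have hre : 0 < b.re := by
    have : b = ((1 / (4 * t) : ℝ) : ℂ) - τ * Complex.I := by rw [hb]; push_cast; rfl
    rw [this]
    simp only [Complex.sub_re, Complex.ofReal_re, Complex.mul_re, Complex.I_re, Complex.ofReal_im,
      Complex.I_im]
    have : 0 < 1 / (4 * t) := by positivity
    linarith
  have hb0 : b ≠ 0 := fun h => by simp [h] at hre
  have ht' : (t : ℂ) ≠ 0 := by exact_mod_cast ht.ne'
  have hv : (2 * t).toNNReal ≠ 0 := by simpa using ht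
  have e3 : ∫ z, Complex.exp (τ * (‖x + z‖ ^ 2 : ℝ) * Complex.I) ∂gam t =
      ((4 * π * t) ^ (-(3 : ℝ) / 2) : ℝ) * Complex.exp (-‖x‖ ^ 2 / (4 * t)) *
        ∫ y : E3, Complex.exp (-b * ‖y‖ ^ 2 + (1 / (2 * t)) * ⟪x, y⟫) := by
    rw [gam, integral_withDensity_eq_integral_toReal_smul
      (continuous_pk t).measurable.ennreal_ofReal (ae_of_all _ fun _ => by simp),
      ← integral_sub_right_eq_self _ x, ← integral_const_mul]
    refine integral_congr_ae (ae_of_all _ fun y => ?_)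
    simp only [add_sub_cancel, ENNReal.toReal_ofReal (pk_pos ht _).le, Complex.real_smul]
    rw [pk, norm_sub_sq_real, real_inner_comm, hb]
    generalize (4 * π * t) ^ (-(3 : ℝ) / 2) = A
    push_cast
    rw [mul_assoc, mul_assoc (A : ℂ), ← Complex.exp_add, ← Complex.exp_add]
    congr 2
    field_simp
    ring
  have e1 : ∫ z, (‖x‖ + z) • Complex.exp (τ * ((‖x‖ + z) ^ 2 : ℝ) * Complex.I)
        ∂gaussianReal 0 (2 * t).toNNReal =
      ((√(4 * π * t))⁻¹ : ℝ) * Complex.exp (-‖x‖ ^ 2 / (4 * t)) *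
        ∫ y : ℝ, (y : ℂ) * Complex.exp (-b * y ^ 2 + (‖x‖ / (2 * t) : ℝ) * y) := by
    rw [integral_gaussianReal_eq_integral_smul hv, ← integral_sub_right_eq_self _ ‖x‖,
      ← integral_const_mul]
    refine integral_congr_ae (ae_of_all _ fun y => ?_)
    simp only [add_sub_cancel, Complex.real_smul, gaussianPDFReal, sub_zero,
      Real.coe_toNNReal _ (by positivity : 0 ≤ 2 * t)]
    rw [show 2 * π * (2 * t) = 4 * π * t by ring, hb]
    generalize (√(4 * π * t))⁻¹ = A
    push_cast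
    rw [mul_assoc, mul_assoc (A : ℂ), mul_left_comm (Complex.exp _), mul_left_comm (Complex.exp _),
      ← Complex.exp_add, ← Complex.exp_add]
    congr 3
    field_simp
    ring
  rw [e3, e1, int1 hre, GaussianFourier.integral_cexp_neg_mul_sq_norm_add hre]
  have hp : (0 : ℝ) < 4 * π * t := by positivity
  have a1 : (4 * π * t) ^ (-(3 : ℝ) / 2) = (√(4 * π * t))⁻¹ / (4 * π * t) := by
    rw [Real.sqrt_eq_rpow, ← Real.rpow_neg hp.le, ← Real.rpow_sub_one hp.ne']
    norm_num
  have hπ : (π : ℂ) ≠ 0 := by exact_mod_cast Real.pi_ne_zero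
  have a2 : ((π : ℂ) / b) ^ ((Module.finrank ℝ E3 : ℂ) / 2) = π / b * (π / b) ^ (1 / 2 : ℂ) := by
    rw [finrank_euclideanSpace_fin, show ((3 : ℕ) : ℂ) / 2 = 1 + 1 / 2 by norm_num,
      Complex.cpow_add _ _ (div_ne_zero hπ hb0), Complex.cpow_one]
  rw [a1, a2, Complex.real_smul]
  generalize (√(4 * π * t))⁻¹ = A
  push_cast
  rw [show (1 / (2 * t) : ℂ) ^ 2 * ‖x‖ ^ 2 = (‖x‖ / (2 * t)) ^ 2 by ring]
  field_simp
  ring

end Rad

theorem rad : RadStmt := by
  rintro t ht F hF ⟨C, hC⟩ x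
  have := gam_prob ht
  have := Rad.transfer (gaussianReal 0 (2 * t).toNNReal) (gam t) (w := fun z => ‖x‖ + z)
    (T := fun z => (‖x‖ + z) ^ 2) (S := fun z => ‖x + z‖ ^ 2) (by fun_prop)
    ((integrable_const _).add ((memLp_id_gaussianReal' 1 (by simp)).integrable le_rfl))
    (by fun_prop) (by fun_prop) (norm_nonneg x) (Rad.char ht x) (φ := fun u => F √u)
    (hF.comp Real.continuous_sqrt.measurable) (fun u => hC _)
  simpa only [Real.sqrt_sq_eq_abs, abs_norm, Pt] using this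

end Pool.Agent.MP_dce92b_pr

end MrgPart5

-- ======== part 6: formerly Pool.Agent.MP_dce92b_pr.Riesz
section MrgPart6

/-! BTOR module RIESZ: symmetric decreasing rearrangement for the heat kernel. -/

open MeasureTheory Filter Topology Metric Set

namespace Pool.Agent.MP_dce92b_pr

namespace Riesz

/-- functions with values in [0, M], support in the ball of radius R and the modulus of
continuity of f -/
structure Cl (f : E3 → ℝ) (M R : ℝ) (ψ : E3 → ℝ) : Prop where
  nonneg : ∀ x, 0 ≤ ψ x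
  le : ∀ x, ψ x ≤ M
  supp : ∀ x, R < ‖x‖ → ψ x = 0
  modu : ∀ r ε, (∀ u v, ‖u - v‖ ≤ r → |f u - f v| ≤ ε) → ∀ u v, ‖u - v‖ ≤ r → |ψ u - ψ v| ≤ ε

variable {f ψ : E3 → ℝ} {M R t : ℝ}

theorem Cl.pol (h : Cl f M R ψ) {n : E3} {c : ℝ} (hn : ‖n‖ = 1) (hc : 0 ≤ c) :
    Cl f M R (pol n c ψ) where
  nonneg x := by
    unfold Riesz.pol
    split_ifs
    exacts [le_max_of_le_left (h.nonneg _), le_min (h.nonneg _) (h.nonneg _)]
  le x := by
    unfold Riesz.pol
    split_ifs
    exacts [max_le (h.le _) (h.le _), min_le_of_left_le (h.le _)]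
  supp := pol_supp hn hc h.nonneg h.supp
  modu r ε hf := pol_mod hn (h.modu r ε hf)

theorem exists_mod (hf : UniformContinuous f) {ε : ℝ} (hε : 0 < ε) :
    ∃ r, 0 < r ∧ ∀ u v, ‖u - v‖ ≤ r → |f u - f v| ≤ ε := by
  obtain ⟨δ, hδ, h⟩ := Metric.uniformContinuous_iff_le.1 hf ε hε
  exact ⟨δ, hδ, fun u v huv => by simpa [Real.dist_eq] using h (by rwa [dist_eq_norm])⟩

theorem equi (hf : UniformContinuous f) {ι : Type} {F : ι → E3 → ℝ} (hF : ∀ i, Cl f M R (F i)) :
    Equicontinuous F := by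
  intro x
  rw [Metric.equicontinuousAt_iff]
  intro ε hε
  obtain ⟨r, hr, h⟩ := exists_mod hf (half_pos hε)
  refine ⟨r, hr, fun y hy i => ?_⟩
  rw [Real.dist_eq]
  exact ((hF i).modu r _ h x y (by rw [← dist_eq_norm, dist_comm]; exact hy.le)).trans_lt
    (half_lt_self hε)

theorem Cl.cont (h : Cl f M R ψ) (hf : UniformContinuous f) : Continuous ψ :=
  (equi hf (F := fun _ : Unit => ψ) fun _ => h).continuous ()

theorem Cl.zero (h : Cl f M R ψ) {x : E3} (hx : x ∉ closedBall (0 : E3) R) : ψ x = 0 :=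
  h.supp x (by simpa using hx)

theorem Cl.hcs (h : Cl f M R ψ) : HasCompactSupport ψ :=
  HasCompactSupport.intro (isCompact_closedBall 0 R) fun _ hx => h.zero hx

theorem isCompact_pt (f : E3 → ℝ) (M R : ℝ) : IsCompact {ψ : E3 → ℝ | Cl f M R ψ} := by
  refine (isCompact_univ_pi fun _ : E3 => isCompact_Icc (a := (0 : ℝ)) (b := M)).of_isClosed_subset
    ?_ fun ψ h x _ => ⟨h.nonneg x, h.le x⟩
  have : {ψ : E3 → ℝ | Cl f M R ψ} = (⋂ x, {ψ | 0 ≤ ψ x}) ∩ (⋂ x, {ψ | ψ x ≤ M}) ∩
      (⋂ x, ⋂ _ : R < ‖x‖, {ψ | ψ x = 0}) ∩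
      ⋂ r, ⋂ ε, ⋂ _ : (∀ u v, ‖u - v‖ ≤ r → |f u - f v| ≤ ε), ⋂ u, ⋂ v, ⋂ _ : ‖u - v‖ ≤ r,
        {ψ | |ψ u - ψ v| ≤ ε} := by
    ext ψ
    simp only [mem_inter_iff, mem_iInter, mem_ofPred_eq]
    exact ⟨fun h => ⟨⟨⟨h.1, h.2⟩, h.3⟩, h.4⟩, fun h => ⟨h.1.1.1, h.1.1.2, h.1.2, h.2⟩⟩
  rw [this]
  refine (((isClosed_iInter fun x => ?_).inter (isClosed_iInter fun x => ?_)).inter
    (isClosed_iInter fun x => isClosed_iInter fun _ => ?_)).inter
    (isClosed_iInter fun r => isClosed_iInter fun ε => isClosed_iInter fun _ =>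
      isClosed_iInter fun u => isClosed_iInter fun v => isClosed_iInter fun _ => ?_)
  · exact isClosed_le continuous_const (continuous_apply x)
  · exact isClosed_le (continuous_apply x) continuous_const
  · exact isClosed_eq (continuous_apply x) continuous_const
  · exact isClosed_le ((continuous_apply u).sub (continuous_apply v)).abs continuous_const

theorem isCompact_cl (hf : UniformContinuous f) (M R : ℝ) :
    IsCompact {ψ : C(E3, ℝ) | Cl f M R ψ} := by
  refine ArzelaAscoli.isCompact_of_equicontinuous _ ?_ (equi hf fun i => i.2)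
  convert isCompact_pt f M R using 1
  ext ψ
  exact ⟨by rintro ⟨φ, h, rfl⟩; exact h, fun h => ⟨⟨ψ, Cl.cont h hf⟩, h, rfl⟩⟩

/-- integrals of a continuous function of the point and the value -/
theorem int_val {G : E3 → ℝ → ℝ} (hG : Continuous fun p : E3 × ℝ => G p.1 p.2)
    (h0 : ∀ x, G x 0 = 0) (M R : ℝ) : ∃ b : E3 → ℝ, Integrable b ∧
      ∀ ψ, Cl f M R ψ → ∀ x, ‖G x (ψ x)‖ ≤ b x := by
  obtain ⟨C, hC⟩ := ((isCompact_closedBall (0 : E3) R).prod
    (isCompact_Icc (a := (0 : ℝ)) (b := M))).exists_bound_of_continuousOn hG.continuousOn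
  refine ⟨(closedBall (0 : E3) R).indicator fun _ => C, ?_, fun ψ h x => ?_⟩
  · exact (integrable_indicator_iff measurableSet_closedBall).2
      (integrableOn_const measure_closedBall_lt_top.ne)
  · by_cases hx : x ∈ closedBall (0 : E3) R
    · rw [indicator_of_mem hx]
      exact hC (x, ψ x) ⟨hx, h.nonneg x, h.le x⟩
    · rw [indicator_of_notMem hx, h.zero hx, h0, norm_zero]

theorem Cl.integrable (h : Cl f M R ψ) (hf : UniformContinuous f) {G : E3 → ℝ → ℝ}
    (hG : Continuous fun p : E3 × ℝ => G p.1 p.2) (h0 : ∀ x, G x 0 = 0) :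
    Integrable fun x => G x (ψ x) := by
  obtain ⟨b, hb, h1⟩ := int_val (f := f) hG h0 M R
  exact hb.mono' (hG.comp (continuous_id.prodMk (h.cont hf))).aestronglyMeasurable
    (Eventually.of_forall (h1 ψ h))

theorem contOn_val {G : E3 → ℝ → ℝ} (hG : Continuous fun p : E3 × ℝ => G p.1 p.2)
    (h0 : ∀ x, G x 0 = 0) (M R : ℝ) :
    ContinuousOn (fun ψ : C(E3, ℝ) => ∫ x, G x (ψ x)) {ψ | Cl f M R ψ} := by
  obtain ⟨b, hb, h1⟩ := int_val (f := f) hG h0 M R
  exact continuousOn_of_dominated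
    (fun ψ _ => (hG.comp (continuous_id.prodMk ψ.continuous)).aestronglyMeasurable)
    (fun ψ h => Eventually.of_forall (h1 ψ h)) hb (Eventually.of_forall fun x =>
      (hG.comp (continuous_const.prodMk (continuous_eval_const x))).continuousOn)

theorem continuous_ker (t : ℝ) (h : Continuous ψ) : Continuous (ker t ψ) := by
  have := continuous_pk t
  unfold ker
  fun_prop

theorem int_ker (ht : 0 < t) (M R : ℝ) : ∃ b : E3 × E3 → ℝ, Integrable b vol2 ∧
    ∀ ψ, Cl f M R ψ → ∀ p, ‖ker t ψ p‖ ≤ b p := by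
  refine ⟨(closedBall (0 : E3) R ×ˢ closedBall (0 : E3) R).indicator fun _ => M * (pk t 0 * M),
    ?_, fun ψ h p => ?_⟩
  · refine (integrable_indicator_iff (measurableSet_closedBall.prod measurableSet_closedBall)).2
      (integrableOn_const ?_)
    rw [Measure.prod_prod]
    exact ENNReal.mul_ne_top measure_closedBall_lt_top.ne measure_closedBall_lt_top.ne
  · by_cases hp : p ∈ closedBall (0 : E3) R ×ˢ closedBall (0 : E3) R
    · have h1 := h.nonneg p.1
      have h2 := h.nonneg p.2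
      have h3 := (pk_pos ht (p.2 - p.1)).le
      have h4 : pk t (p.2 - p.1) ≤ pk t 0 := pk_anti ht (by simp)
      rw [indicator_of_mem hp, ker, Real.norm_of_nonneg (by positivity)]
      exact mul_le_mul (h.le _) (mul_le_mul h4 (h.le _) h2 (h3.trans h4)) (by positivity)
        (h1.trans (h.le _))
    · rw [indicator_of_notMem hp, ker]
      rcases not_and_or.1 hp with k | k <;> simp [h.zero k]

theorem Cl.integrable_ker (h : Cl f M R ψ) (hf : UniformContinuous f) (ht : 0 < t) :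
    Integrable (ker t ψ) vol2 := by
  obtain ⟨b, hb, h1⟩ := int_ker (f := f) ht M R
  exact hb.mono' (continuous_ker t (h.cont hf)).aestronglyMeasurable
    (Eventually.of_forall (h1 ψ h))

theorem contOn_ker (ht : 0 < t) (M R : ℝ) :
    ContinuousOn (fun ψ : C(E3, ℝ) => ∫ p, ker t ψ p ∂vol2) {ψ | Cl f M R ψ} := by
  obtain ⟨b, hb, h1⟩ := int_ker (f := f) ht M R
  exact continuousOn_of_dominated
    (fun ψ _ => (continuous_ker t ψ.continuous).aestronglyMeasurable)
    (fun ψ h => Eventually.of_forall (h1 ψ h)) hb (Eventually.of_forall fun p =>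
      ((continuous_eval_const p.1).mul
        (continuous_const.mul (continuous_eval_const p.2))).continuousOn)

theorem form_eq (ht : 0 < t) (h : Integrable (ker t ψ) vol2) :
    ∫ x, ψ x * Pt t ψ x = ∫ p, ker t ψ p ∂vol2 := by
  rw [integral_prod _ h]
  simp only [ker, integral_const_mul, Pt_eq ht]

/-- from strict to weak inequality of the norms -/
theorem anti_of_lt {g : E3 → ℝ} (hg : Continuous g) (h : ∀ x y, ‖x‖ < ‖y‖ → g y ≤ g x)
    (x y : E3) (hxy : ‖x‖ ≤ ‖y‖) : g y ≤ g x := by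
  rcases eq_or_ne y 0 with rfl | hy
  · rw [norm_le_zero_iff.1 (by simpa using hxy : ‖x‖ ≤ 0)]
  · have hy' : 0 < ‖y‖ := norm_pos_iff.2 hy
    have h1 : Tendsto (fun s : ℝ => g (s • x)) (𝓝[<] 1) (𝓝 (g x)) := by
      have : Continuous fun s : ℝ => g (s • x) := by fun_prop
      simpa using (this.tendsto 1).mono_left nhdsWithin_le_nhds
    refine ge_of_tendsto h1 ?_
    filter_upwards [Ioo_mem_nhdsLT (zero_lt_one' ℝ)] with s hs
    refine h _ _ ?_
    rw [norm_smul, Real.norm_of_nonneg hs.1.le]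
    nlinarith [hs.1, hs.2, norm_nonneg x]

end Riesz

open Riesz

theorem riesz : RieszStmt := by
  intro t ht f hf hc h0
  have hu : UniformContinuous f := hc.uniformContinuous_of_continuous hf
  obtain ⟨M, hM⟩ := hf.bounded_above_of_compact_support hc
  obtain ⟨R, hR⟩ := hc.isCompact.isBounded.subset_closedBall 0
  have hfc : Cl f M R f := ⟨h0, fun x => (le_abs_self _).trans (hM x), fun x hx =>
    image_eq_zero_of_notMem_tsupport fun h => by simpa [hx.not_ge] using hR h, fun _ _ h => h⟩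
  have hK := isCompact_cl hu M R
  have cΦ : ∀ Φ : ℝ → ℝ, Continuous Φ → Continuous fun p : E3 × ℝ => Φ p.2 :=
    fun Φ h => h.comp continuous_snd
  have cW : Continuous fun p : E3 × ℝ => p.2 * ‖p.1‖ ^ 2 := by fun_prop
  set S : Set C(E3, ℝ) := {ψ ∈ {ψ : C(E3, ℝ) | Cl f M R ψ} |
      ∫ p, ker t f p ∂vol2 ≤ ∫ p, ker t ψ p ∂vol2} ∩
    ⋂ Φ : ℝ → ℝ, ⋂ _ : Continuous Φ ∧ Φ 0 = 0,
      {ψ ∈ {ψ : C(E3, ℝ) | Cl f M R ψ} | ∫ x, Φ (ψ x) = ∫ x, Φ (f x)} with hS
  have hSc : IsCompact S := hK.of_isClosed_subset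
    ((hK.isClosed.isClosed_le continuousOn_const (contOn_ker ht M R)).inter
      (isClosed_iInter fun Φ => isClosed_iInter fun hΦ => hK.isClosed.isClosed_eq
        (contOn_val (G := fun _ y => Φ y) (cΦ Φ hΦ.1) (fun _ => hΦ.2) M R) continuousOn_const))
    fun ψ h => h.1.1
  have hmem : ∀ ψ : C(E3, ℝ), ψ ∈ S ↔ Cl f M R ψ ∧ ∫ p, ker t f p ∂vol2 ≤ ∫ p, ker t ψ p ∂vol2 ∧
      ∀ Φ : ℝ → ℝ, Continuous Φ → Φ 0 = 0 → ∫ x, Φ (ψ x) = ∫ x, Φ (f x) := by
    intro ψ
    simp only [hS, mem_inter_iff, mem_iInter, mem_ofPred_eq]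
    exact ⟨fun h => ⟨h.1.1, h.1.2, fun Φ k1 k2 => (h.2 Φ ⟨k1, k2⟩).2⟩,
      fun h => ⟨⟨h.1, h.2.1⟩, fun Φ k => ⟨h.1, h.2.2 Φ k.1 k.2⟩⟩⟩
  obtain ⟨g, hg, hmin⟩ := hSc.exists_isMinOn
    ⟨⟨f, hf⟩, (hmem _).2 ⟨hfc, le_rfl, fun _ _ _ => rfl⟩⟩
    ((contOn_val (f := f) (G := fun x y => y * ‖x‖ ^ 2) cW (fun _ => zero_mul _) M R).mono
      fun ψ h => h.1.1)
  obtain ⟨g1, g2, g3⟩ := (hmem g).1 hg
  refine ⟨g, g.continuous, g1.hcs, g1.nonneg, anti_of_lt g.continuous fun x y hxy => ?_, g3, ?_⟩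
  · by_contra hlt
    obtain ⟨n, c, hn, hc0, hx, rfl⟩ := exists_refl hxy
    have p1 := g1.pol hn hc0.le
    have hp : (⟨pol n c g, p1.cont hu⟩ : C(E3, ℝ)) ∈ S := (hmem _).2 ⟨p1,
      g2.trans (form_le_form_pol hn ht (g1.integrable_ker hu ht) (p1.integrable_ker hu ht)),
      fun Φ k1 k2 => (integral_pol hn
        (p1.integrable hu (G := fun _ y => Φ y) (cΦ Φ k1) fun _ => k2)
        (g1.integrable hu (G := fun _ y => Φ y) (cΦ Φ k1) fun _ => k2)).trans (g3 Φ k1 k2)⟩
    exact (moment_pol_lt hn hc0 g.continuous (p1.cont hu)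
      (g1.integrable hu (G := fun x y => y * ‖x‖ ^ 2) cW fun _ => zero_mul _)
      (p1.integrable hu (G := fun x y => y * ‖x‖ ^ 2) cW fun _ => zero_mul _) hx
      (not_le.1 hlt)).not_ge (hmin hp)
  · rw [form_eq ht (hfc.integrable_ker hu ht), form_eq ht (g1.integrable_ker hu ht)]
    exact g2

end Pool.Agent.MP_dce92b_pr

end MrgPart6

-- ======== part 7: formerly Pool.Agent.MP_dce92b_pr.Step
section MrgPart7

/-! BTOR module STEP: the step operator is dominated by a symmetric operator. -/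

open MeasureTheory ProbabilityTheory Filter Topology Metric Real
open scoped NNReal ENNReal

namespace Pool.Agent.MP_dce92b_pr

namespace Step

open Classical in
/-- the indicator of the good segments -/
noncomputable def ind (s : ℝ≥0) (b A : ℝ) (w : Path0) : ℝ := if w ∈ Good s b A then 1 else 0

variable {μ : Measure Path0} {s : ℝ≥0} {b A : ℝ}

lemma measurable_ind : Measurable (ind s b A) :=
  Measurable.ite (measurableSet_Good s b A) measurable_const measurable_const

lemma ind_nonneg (w : Path0) : 0 ≤ ind s b A w := by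
  unfold ind
  split_ifs <;> norm_num

lemma abs_ind_le (w : Path0) : |ind s b A w| ≤ 1 := by
  unfold ind
  split_ifs <;> norm_num

lemma ind_congr {w w' : Path0} (h : ∀ u ≤ s, w.1 u = w'.1 u) : ind s b A w = ind s b A w' := by
  unfold ind
  rw [mem_Good_congr h]

lemma integral_ind : ∫ w, ind s b A w ∂μ = μ.real (Good s b A) := by
  rw [← integral_indicator_one (measurableSet_Good s b A)]
  refine integral_congr_ae (Eventually.of_forall fun w => ?_)
  by_cases h : w ∈ Good s b A <;> simp [ind, h]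

/-- the test segment followed by a free segment -/
noncomputable def inn (μ : Measure Path0) (s : ℝ≥0) (b A : ℝ) (g : E3 → ℝ) (y : E3) : ℝ :=
  ∫ w, ind s b A w * g (y + w.1 (s + s)) ∂μ

lemma inn_BM (hμ : IsWiener μ) {g : E3 → ℝ} (hg : BM g) : BM (inn μ s b A g) := by
  have h := Qop_BM hμ (s + s) (F := fun _ w => ind s b A w) (measurable_ind.comp measurable_snd)
    (fun _ w => abs_ind_le w) hg
  convert h using 1
  funext y
  unfold inn Qop
  refine integral_congr_ae (Eventually.of_forall fun w => ?_)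
  have h1 : ind s b A (w.stop (s + s)) = ind s b A w :=
    ind_congr fun u hu => stop_apply_of_le (hu.trans le_self_add) w
  simp only [h1]

lemma inn_ge (hμ : IsWiener μ) (hs : 0 < s) (hG : 1 / 2 ≤ μ.real (Good s b A)) {g : E3 → ℝ}
    (hg : BM g) (h0 : ∀ x, 0 ≤ g x) (y : E3) :
    1 / 2 * ((2 : ℝ) ^ (-(3 : ℝ) / 2) * exp (-b ^ 2 / (2 * s)) * Pt (s / 2) g y)
      ≤ inn μ s b A g y := by
  have := hμ.prob
  have hs' : (0 : ℝ) < s := hs
  obtain ⟨C, hC⟩ := hg.bdd
  have h1 := hμ.integral_split s (Φ := fun w w' => ind s b A w * g (y + w.1 s + w'.1 s)) (C := C)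
    ((measurable_ind.comp measurable_fst).mul (hg.meas.comp
      ((((measurable_eval s).comp measurable_fst).const_add y).add
        ((measurable_eval s).comp measurable_snd))))
    (fun w w' => by
      rw [abs_mul]
      exact (mul_le_of_le_one_left (abs_nonneg _) (abs_ind_le _)).trans (hC _))
  have h2 : ∀ w : Path0, ind s b A (w.stop s) = ind s b A w := fun w =>
    ind_congr fun u hu => stop_apply_of_le hu w
  have h3 : ∀ w : Path0, y + w.1 s + (w.shift s).1 s = y + w.1 (s + s) := fun w => by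
    rw [shift_apply]
    abel
  simp only [h2, h3, stop_apply_of_le le_rfl, integral_const_mul, hμ.integral_eval hs hg] at h1
  unfold inn
  rw [h1]
  set K := (2 : ℝ) ^ (-(3 : ℝ) / 2) * exp (-b ^ 2 / (2 * s)) * Pt (s / 2) g y with hK
  have hK0 : 0 ≤ K := mul_nonneg (by positivity) (Pt_nonneg h0 y)
  have h4 : ∫ w, ind s b A w * K ∂μ ≤ ∫ w, ind s b A w * Pt s g (y + w.1 s) ∂μ := by
    refine integral_mono_of_nonneg
      (Eventually.of_forall fun w => mul_nonneg (ind_nonneg w) hK0) ?_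
      (Eventually.of_forall fun w => ?_)
    · refine integrable_of_bdd (measurable_ind.mul ((hg.Pt hs').meas.comp
        ((measurable_eval s).const_add y))) (C := C) fun w => ?_
      rw [abs_mul]
      exact (mul_le_of_le_one_left (abs_nonneg _) (abs_ind_le _)).trans (abs_Pt_le hs' hC _)
    · by_cases h : w ∈ Good s b A
      · exact mul_le_mul_of_nonneg_left (Pt_minor hs' hg h0 (h.1 s le_rfl) y) (ind_nonneg w)
      · simp [ind, h]
  rw [integral_mul_const, integral_ind] at h4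
  exact (mul_le_mul_of_nonneg_right hG hK0).trans h4

end Step

open Step in
theorem step : StepStmt := by
  intro μ hμ s b A hs _ hG e he he1 g hg h0 x
  have := hμ.prob
  have hs' : (0 : ℝ) < s := hs
  have hs2 : (0 : ℝ) < s / 2 := by positivity
  obtain ⟨C, hC⟩ := hg.bdd
  have habs : ∀ y, |e y| ≤ 1 := fun y => abs_le.2 ⟨by linarith [(he1 y).1], (he1 y).2⟩
  have h3s : (3 * s : ℝ≥0) = s + (s + s) := by ring
  have hle : s ≤ 3 * s := by rw [h3s]; exact le_self_add
  have h1 : Qop μ (3 * s) (Fk e s b A) g x = ∫ w, (g (x + w.1 (3 * s)) -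
      e (x + w.1 s) * (ind s b A (w.shift s) * g (x + w.1 (3 * s)))) ∂μ := by
    unfold Qop
    refine integral_congr_ae (Eventually.of_forall fun w => ?_)
    have h2 : ind s b A ((w.stop (3 * s)).shift s) = ind s b A (w.shift s) :=
      ind_congr fun u hu => by
        rw [shift_apply, shift_apply, stop_apply_of_le hle, stop_apply_of_le]
        rw [h3s]
        exact add_le_add le_rfl (hu.trans le_self_add)
    have h3 : Fk e s b A x (w.stop (3 * s)) = 1 - e (x + w.1 s) * ind s b A (w.shift s) := by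
      rw [← h2, ← stop_apply_of_le hle w]
      rfl
    simp only [h3]
    ring
  have hm1 : Measurable fun w : Path0 => g (x + w.1 (3 * s)) :=
    hg.meas.comp ((measurable_eval _).const_add x)
  have hm2 : Measurable fun w : Path0 => e (x + w.1 s) :=
    he.meas.comp ((measurable_eval _).const_add x)
  have hb : ∀ (y z : E3) (w : Path0), |e y * (ind s b A w * g z)| ≤ C := fun y z w => by
    rw [abs_mul, abs_mul]
    refine (mul_le_of_le_one_left (by positivity) (habs _)).trans ?_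
    exact (mul_le_of_le_one_left (abs_nonneg _) (abs_ind_le _)).trans (hC _)
  have hm3 : Measurable fun w : Path0 =>
      e (x + w.1 s) * (ind s b A (w.shift s) * g (x + w.1 (3 * s))) :=
    hm2.mul ((measurable_ind.comp (measurable_shift s)).mul hm1)
  rw [h1, integral_sub (integrable_of_bdd hm1 fun w => hC _)
    (integrable_of_bdd hm3 fun w => hb _ _ _), hμ.integral_eval (by positivity) hg]
  have h2 := hμ.integral_split s
    (Φ := fun w w' => e (x + w.1 s) * (ind s b A w' * g (x + w.1 s + w'.1 (s + s)))) (C := C)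
    ((hm2.comp measurable_fst).mul ((measurable_ind.comp measurable_snd).mul (hg.meas.comp
      ((((measurable_eval s).comp measurable_fst).const_add x).add
        ((measurable_eval (s + s)).comp measurable_snd)))))
    (fun w w' => hb _ _ _)
  have h3 : ∀ w : Path0, x + w.1 s + (w.shift s).1 (s + s) = x + w.1 (3 * s) := fun w => by
    rw [shift_apply, h3s]
    abel
  simp only [h3, stop_apply_of_le le_rfl, integral_const_mul] at h2
  have h4 := hμ.integral_eval hs (he.mul (inn_BM (s := s) (b := b) (A := A) hμ hg)) x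
  unfold inn at h4
  rw [h2, h4]
  have hBM : BM fun y => e y * Pt (s / 2) g y := he.mul (hg.Pt hs2)
  have hnn : ∀ y, 0 ≤ e y * Pt (s / 2) g y := fun y => mul_nonneg (he1 y).1 (Pt_nonneg h0 y)
  set K := 1 / 2 * ((2 : ℝ) ^ (-(3 : ℝ) / 2) * exp (-b ^ 2 / (2 * s))) with hK
  have hK0 : 0 ≤ K := by positivity
  have h5 := Pt_mono hs' (hBM.const_mul K) (he.mul (inn_BM (s := s) (b := b) (A := A) hμ hg))
    (fun y => by
      have := mul_le_mul_of_nonneg_left (inn_ge hμ hs hG hg h0 y) (he1 y).1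
      rw [hK]
      linarith) x
  rw [Pt_const_mul] at h5
  have h6 := Pt_minor hs' hBM hnn (b := 0) (ξ := 0) (by simp) x
  have h7 : (2 : ℝ) ^ (-(3 : ℝ) / 2) * (2 : ℝ) ^ (-(3 : ℝ) / 2) = 1 / 8 := by
    rw [← Real.rpow_add (by norm_num)]
    norm_num
  rw [add_zero] at h6
  have h8 : exp (-(0 : ℝ) ^ 2 / (2 * s)) = 1 := by simp
  rw [h8, mul_one] at h6
  have h9 := mul_le_mul_of_nonneg_left h6 hK0
  have h10 : K * ((2 : ℝ) ^ (-(3 : ℝ) / 2) * Pt (s / 2) (fun y => e y * Pt (s / 2) g y) x)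
      = exp (-b ^ 2 / (2 * s)) / 16 * Pt (s / 2) (fun y => e y * Pt (s / 2) g y) x := by
    rw [hK]
    linear_combination (exp (-b ^ 2 / (2 * s)) / 2 *
      Pt (s / 2) (fun y => e y * Pt (s / 2) g y) x) * h7
  unfold inn at h5
  push_cast
  linarith

end Pool.Agent.MP_dce92b_pr

end MrgPart7

-- ======== part 8: formerly Pool.Agent.MP_dce92b_pr.Sup
section MrgPart8

/-! BTOR module SUP: oscillation tails by dyadic chaining, good test segments. -/

open MeasureTheory ProbabilityTheory Filter Topology Metric Real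
open scoped NNReal ENNReal

namespace Pool.Agent.MP_dce92b_pr

namespace Sup

/-- dyadic chaining for one continuous curve -/
theorem chain_le {z : ℝ≥0 → E3} (hz : Continuous z) {a t : ℝ≥0} (ht : 0 < t) {y : ℝ} (hy : 0 < y)
    (h : ∀ k j : ℕ, j < 2 ^ k →
      ‖z (a + (j + 1 : ℕ) * (t / 2 ^ k)) - z (a + j * (t / 2 ^ k))‖ < y / 10 * (9 / 10) ^ k)
    {u : ℝ≥0} (hu : u ≤ t) : ‖z (a + u) - z a‖ ≤ y := by
  have key : ∀ k j : ℕ, j ≤ 2 ^ k →
      ‖z (a + j * (t / 2 ^ k)) - z a‖ ≤ y * (1 - (9 / 10) ^ (k + 1)) := by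
    intro k
    induction k with
    | zero =>
      intro j hj
      rcases Nat.le_one_iff_eq_zero_or_eq_one.1 hj with rfl | rfl
      · simp only [Nat.cast_zero, zero_mul, add_zero, sub_self, norm_zero]
        norm_num; linarith
      · have := h 0 0 (by norm_num)
        simp only [Nat.cast_zero, zero_mul, add_zero] at this
        norm_num at this ⊢
        linarith
    | succ k ih =>
      intro j hj
      have e : ∀ m : ℕ, ((2 * m : ℕ) : ℝ≥0) * (t / 2 ^ (k + 1)) = m * (t / 2 ^ k) := fun m => by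
        push_cast; rw [pow_succ]; field_simp
      have hq : (0 : ℝ) < (9 / 10) ^ (k + 1) := by positivity
      rcases Nat.even_or_odd' j with ⟨m, rfl | rfl⟩
      · rw [e]
        refine (ih m (by rw [pow_succ] at hj; omega)).trans ?_
        rw [pow_succ _ (k + 1)]
        nlinarith
      · have h1 := h (k + 1) (2 * m) (by omega)
        have h2 := ih m (by rw [pow_succ] at hj; omega)
        rw [e] at h1
        have h3 := norm_sub_le_norm_sub_add_norm_sub
          (z (a + (2 * m + 1 : ℕ) * (t / 2 ^ (k + 1)))) (z (a + m * (t / 2 ^ k))) (z a)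
        rw [pow_succ _ (k + 1)]
        nlinarith
  have ht' : (0 : ℝ) < t := ht
  have lim : Tendsto (fun k : ℕ => ((⌊(u : ℝ) * 2 ^ k / t⌋₊ : ℕ) : ℝ≥0) * (t / 2 ^ k)) atTop
      (𝓝 u) := by
    rw [← NNReal.tendsto_coe]
    have l1 : Tendsto (fun k : ℕ => (u : ℝ) - t * (1 / 2) ^ k) atTop (𝓝 u) := by
      have := ((tendsto_pow_atTop_nhds_zero_of_lt_one (r := (1 / 2 : ℝ)) (by norm_num)
        (by norm_num)).const_mul (t : ℝ)).const_sub (u : ℝ)
      simpa using this
    refine tendsto_of_tendsto_of_tendsto_of_le_of_le l1 tendsto_const_nhds (fun k => ?_)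
      fun k => ?_
    · have h1 := (Nat.lt_floor_add_one ((u : ℝ) * 2 ^ k / t)).le
      have h2 : (0 : ℝ) < 2 ^ k := by positivity
      rw [div_le_iff₀ ht'] at h1
      push_cast
      rw [one_div, inv_pow, ← div_eq_mul_inv, sub_le_iff_le_add, ← mul_div_assoc, ← add_div,
        le_div_iff₀ h2]
      linarith
    · have h1 := Nat.floor_le (show 0 ≤ (u : ℝ) * 2 ^ k / t by positivity)
      have h2 : (0 : ℝ) < 2 ^ k := by positivity
      rw [le_div_iff₀ ht'] at h1
      push_cast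
      rw [← mul_div_assoc, div_le_iff₀ h2]
      exact h1
  have lim2 := ((hz.tendsto (a + u)).comp (lim.const_add a)).sub_const (z a)
  refine le_of_tendsto' lim2.norm fun k => ?_
  refine (key k _ ?_).trans ?_
  · refine Nat.floor_le_of_le ?_
    have hu' : (u : ℝ) ≤ t := hu
    rw [div_le_iff₀ ht']
    push_cast
    rw [mul_comm]
    gcongr
  · have : (0 : ℝ) < (9 / 10) ^ (k + 1) := by positivity
    nlinarith

theorem sqrt_div_pow (t : ℝ) (k : ℕ) : √(t / 2 ^ k) = √t * √(1 / 2) ^ k := by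
  induction k with
  | zero => simp
  | succ k ih =>
    rw [pow_succ, pow_succ, ← mul_assoc, ← ih, ← Real.sqrt_mul' _ (by norm_num)]
    congr 1; ring

theorem measurable_incr (u v : ℝ≥0) : Measurable fun w : Path0 => w.1 v - w.1 u :=
  (measurable_eval v).sub (measurable_eval u)

theorem incr_le {μ : Measure Path0} (hμ : IsWiener μ) {u v : ℝ≥0} (huv : u < v) (y : ℝ) :
    μ {w | y ≤ ‖w.1 v - w.1 u‖} = ENNReal.ofReal ((gam ((v : ℝ) - u)).real {z | y ≤ ‖z‖}) := by
  have := gam_prob (t := (v : ℝ) - u) (sub_pos.2 huv)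
  rw [ofReal_measureReal, ← hμ.law_sub huv,
    Measure.map_apply (measurable_incr u v)
      (isClosed_le continuous_const continuous_norm).measurableSet]
  rfl

/-- the one-sided kernel -/
noncomputable def F (C s x : ℝ) : ℝ≥0∞ :=
  (Set.Ioc 0 s).indicator (fun x => ENNReal.ofReal (C / √x)) x

theorem measurable_F (C s : ℝ) : Measurable (F C s) :=
  Measurable.indicator (by fun_prop) measurableSet_Ioc

theorem lintegral_F {C s : ℝ} (hC : 0 ≤ C) (hs : 0 ≤ s) :
    ∫⁻ x, F C s x = ENNReal.ofReal (C * (2 * √s)) := by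
  unfold F
  rw [lintegral_indicator measurableSet_Ioc]
  have e : ∀ x ∈ Set.Ioc 0 s, ENNReal.ofReal (C / √x) =
      ENNReal.ofReal (C * x ^ (-(1 / 2) : ℝ)) := fun x hx => by
    rw [Real.rpow_neg hx.1.le, Real.sqrt_eq_rpow, div_eq_mul_inv]
  have hi : IntervalIntegrable (fun x : ℝ => C * x ^ (-(1 / 2) : ℝ)) volume 0 s :=
    (intervalIntegral.intervalIntegrable_rpow' (by norm_num)).const_mul C
  rw [setLIntegral_congr_fun measurableSet_Ioc e,
    ← ofReal_integral_eq_lintegral_ofReal hi.1, ← intervalIntegral.integral_of_le hs,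
    intervalIntegral.integral_const_mul, integral_rpow (Or.inl (by norm_num)),
    Real.zero_rpow (by norm_num), Real.sqrt_eq_rpow]
  · congr 2
    norm_num
    ring
  · filter_upwards [ae_restrict_mem measurableSet_Ioc] with x hx
    exact mul_nonneg hC (Real.rpow_nonneg hx.1.le _)

theorem measurable_G : Measurable fun p : (Path0 × ℝ) × ℝ =>
    ‖p.1.1.1 p.1.2.toNNReal - p.1.1.1 p.2.toNNReal‖ₑ⁻¹ := by
  have h1 : Measurable fun p : (Path0 × ℝ) × ℝ => p.1.1.1 p.1.2.toNNReal :=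
    measurable_eval_uncurry.comp (f := fun p : (Path0 × ℝ) × ℝ => (p.1.1, p.1.2.toNNReal))
      (by fun_prop)
  have h2 : Measurable fun p : (Path0 × ℝ) × ℝ => p.1.1.1 p.2.toNNReal :=
    measurable_eval_uncurry.comp (f := fun p : (Path0 × ℝ) × ℝ => (p.1.1, p.2.toNNReal))
      (by fun_prop)
  exact (h1.sub h2).enorm.inv

/-- mean energy of a path segment -/
theorem energy_le : ∃ C : ℝ, 0 < C ∧ ∀ μ : Measure Path0, IsWiener μ → ∀ s : ℝ, 0 ≤ s →
    ∫⁻ w, energy (fun u => w.1 u.toNNReal) s ∂μ ≤ ENNReal.ofReal (C * (√s * s)) := by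
  obtain ⟨C, hC, h⟩ := lintegral_inv_norm
  refine ⟨4 * C, by linarith, fun μ hμ s hs => ?_⟩
  have := hμ.prob
  have one : ∀ u v : ℝ, 0 ≤ u → u < v → v ≤ s →
      ∫⁻ w, ‖w.1 v.toNNReal - w.1 u.toNNReal‖ₑ⁻¹ ∂μ ≤ F C s (v - u) := by
    intro u v h0 huv hv
    have hlt : u.toNNReal < v.toNNReal := (Real.toNNReal_lt_toNNReal_iff (by linarith)).2 huv
    have e := hμ.law_sub hlt
    rw [Real.coe_toNNReal _ h0, Real.coe_toNNReal _ (by linarith)] at e
    have h1 := h (v - u) (by linarith)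
    rw [← e, lintegral_map (f := fun z : E3 => ‖z‖ₑ⁻¹) (by fun_prop) (measurable_incr _ _)] at h1
    rwa [F, Set.indicator_of_mem (show v - u ∈ Set.Ioc 0 s from ⟨by linarith, by linarith⟩)]
  have inner : ∀ u ∈ Set.Icc 0 s,
      ∫⁻ w, ∫⁻ v in Set.Icc 0 s, ‖w.1 u.toNNReal - w.1 v.toNNReal‖ₑ⁻¹ ∂volume ∂μ ≤
        ENNReal.ofReal (4 * C * √s) := by
    intro u hu
    rw [lintegral_lintegral_swap
      (f := fun (w : Path0) (v : ℝ) => ‖w.1 u.toNNReal - w.1 v.toNNReal‖ₑ⁻¹) (measurable_G.comp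
      (f := fun p : Path0 × ℝ => ((p.1, u), p.2)) (by fun_prop)).aemeasurable]
    have hb : ∀ᵐ v ∂volume.restrict (Set.Icc 0 s),
        ∫⁻ w, ‖w.1 u.toNNReal - w.1 v.toNNReal‖ₑ⁻¹ ∂μ ≤ F C s (v - u) + F C s (u - v) := by
      filter_upwards [ae_restrict_mem measurableSet_Icc,
        ae_restrict_of_ae (Measure.ae_ne volume u)] with v hv hvu
      rcases lt_or_gt_of_ne hvu with h1 | h1
      · exact (one v u hv.1 h1 hu.2).trans le_add_self
      · refine le_trans (le_of_eq (lintegral_congr fun w => ?_))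
          ((one u v hu.1 h1 hv.2).trans le_self_add)
        rw [enorm_sub_rev]
    refine (lintegral_mono_ae hb).trans ((setLIntegral_le_lintegral _ _).trans ?_)
    rw [lintegral_add_left (f := fun x => F C s (x - u))
        ((measurable_F C s).comp (measurable_id.sub_const u)),
      lintegral_sub_right_eq_self (F C s) u, lintegral_sub_left_eq_self (F C s) u,
      lintegral_F hC.le hs, ← ENNReal.ofReal_add (by positivity) (by positivity)]
    exact ENNReal.ofReal_le_ofReal (by linarith)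
  unfold energy
  rw [lintegral_lintegral_swap measurable_G.lintegral_prod_right'.aemeasurable]
  refine (setLIntegral_mono' measurableSet_Icc inner).trans ?_
  rw [setLIntegral_const, Real.volume_Icc, sub_zero, ← ENNReal.ofReal_mul (by positivity)]
  exact ENNReal.ofReal_le_ofReal (by linarith)

end Sup

theorem sup_stmt : SupStmt := by
  intro p hp
  obtain ⟨C, hC, h⟩ := tail_le p
  refine ⟨5 * C * 10 ^ p, by positivity, fun μ hμ a t y ht hy => ?_⟩
  have ht' : (0 : ℝ) < t := ht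
  set B : ℕ → ℕ → Set Path0 := fun k j => {w | y / 10 * (9 / 10) ^ k ≤
    ‖w.1 (a + (j + 1 : ℕ) * (t / 2 ^ k)) - w.1 (a + j * (t / 2 ^ k))‖} with hB
  have hsub : {w : Path0 | ∃ u ≤ t, y < ‖w.1 (a + u) - w.1 a‖} ⊆
      ⋃ k, ⋃ j ∈ Finset.range (2 ^ k), B k j := by
    rintro w ⟨u, hu, hw⟩
    by_contra hn
    simp only [Set.mem_iUnion, Finset.mem_range, hB, Set.mem_ofPred_eq, not_exists, not_le] at hn
    exact absurd (Sup.chain_le w.2.1 ht hy hn hu) (not_le.2 hw)
  set X := C * 10 ^ p * (√t / y) ^ p with hX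
  have hX0 : 0 ≤ X := by positivity
  have h1 : ∀ k j, μ (B k j) ≤ ENNReal.ofReal (X * (2 / 5) ^ k) := by
    intro k j
    have hlt : a + j * (t / 2 ^ k) < a + (j + 1 : ℕ) * (t / 2 ^ k) := by
      have : 0 < t / 2 ^ k := by positivity
      gcongr
      exact Nat.lt_succ_self j
    rw [hB, Sup.incr_le hμ hlt]
    refine ENNReal.ofReal_le_ofReal ?_
    have e : ((a + (j + 1 : ℕ) * (t / 2 ^ k) : ℝ≥0) : ℝ) - (a + j * (t / 2 ^ k) : ℝ≥0) =
        t / 2 ^ k := by push_cast; ring
    rw [e]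
    refine (h _ _ (by positivity) (by positivity)).trans ?_
    have hs : √(1 / 2 : ℝ) ^ 2 = 1 / 2 := Real.sq_sqrt (by norm_num)
    set q : ℝ := √(1 / 2) / (9 / 10) with hq
    have hq0 : 0 ≤ q := by positivity
    have hq2 : q ^ 2 = 50 / 81 := by rw [hq, div_pow, hs]; norm_num
    have hq1 : q ≤ 1 := by nlinarith
    have hq4 : q ^ p ≤ 2 / 5 := (pow_le_pow_of_le_one hq0 hq1 hp).trans (by
      rw [show q ^ 4 = (q ^ 2) ^ 2 by ring, hq2]; norm_num)
    have e2 : √(t / 2 ^ k) / (y / 10 * (9 / 10) ^ k) = 10 * (√t / y) * q ^ k := by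
      rw [Sup.sqrt_div_pow, hq, div_pow √(1 / 2)]; ring
    rw [e2, mul_pow, mul_pow, ← pow_mul, mul_comm k p, pow_mul, hX, ← mul_assoc, ← mul_assoc]
    gcongr
  have h2 : ∀ k, μ (⋃ j ∈ Finset.range (2 ^ k), B k j) ≤ ENNReal.ofReal (X * (4 / 5) ^ k) := by
    intro k
    refine (measure_biUnion_finset_le _ _).trans
      ((Finset.sum_le_card_nsmul _ _ _ fun j _ => h1 k j).trans ?_)
    rw [Finset.card_range, nsmul_eq_mul, ← ENNReal.ofReal_natCast,
      ← ENNReal.ofReal_mul (by positivity)]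
    refine ENNReal.ofReal_le_ofReal (le_of_eq ?_)
    rw [show (4 / 5 : ℝ) = 2 * (2 / 5) by norm_num, mul_pow]
    push_cast; ring
  have hsum := (hasSum_geometric_of_lt_one (r := (4 / 5 : ℝ)) (by norm_num) (by norm_num)).mul_left X
  refine (measure_mono hsub).trans ((measure_iUnion_le _).trans
    ((ENNReal.tsum_le_tsum h2).trans ?_))
  rw [← ENNReal.ofReal_tsum_of_nonneg (fun k => by positivity) hsum.summable, hsum.tsum_eq]
  refine ENNReal.ofReal_le_ofReal (le_of_eq ?_)
  rw [hX]; ring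

theorem good_stmt : GoodStmt := by
  obtain ⟨C₁, hC₁, h1⟩ := sup_stmt 4 le_rfl
  obtain ⟨C₂, hC₂, h2⟩ := Sup.energy_le
  set θ := 1 / (4 * C₁ + 1) with hθ
  have hθ0 : 0 < θ := by positivity
  have hθ1 : θ * (4 * C₁ + 1) = 1 := by rw [hθ]; field_simp
  have hr : 0 < √θ := Real.sqrt_pos.2 hθ0
  refine ⟨θ, 4 * C₂ / √θ, hθ0, by positivity, fun μ hμ s b hb hs => ?_⟩
  have := hμ.prob
  have hs0 : (0 : ℝ) < s := by rw [hs]; positivity
  have hsq : √(s : ℝ) = √θ * b := by
    rw [hs, Real.sqrt_mul hθ0.le, Real.sqrt_sq hb.le]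
  set L := 4 * C₂ / √θ * (s : ℝ) ^ 2 / b with hL
  have hL0 : 0 < L := by positivity
  have a1 : μ {w | ∃ u ≤ s, b < ‖w.1 (0 + u) - w.1 0‖} ≤ ENNReal.ofReal (1 / 4) := by
    refine (h1 μ hμ 0 s b hs0 hb).trans (ENNReal.ofReal_le_ofReal ?_)
    rw [hsq, mul_div_assoc, div_self hb.ne', mul_one, show 4 = 2 * 2 from rfl, pow_mul,
      Real.sq_sqrt hθ0.le]
    have : θ * C₁ ≤ 1 / 4 := by nlinarith
    have : θ ≤ 1 := by nlinarith [mul_pos hθ0 hC₁]
    nlinarith [mul_pos hθ0 hC₁]
  have a2 : μ {w | ENNReal.ofReal L ≤ energy (fun u => w.1 u.toNNReal) s} ≤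
      ENNReal.ofReal (1 / 4) := by
    refine (meas_ge_le_lintegral_div (measurable_energy s).aemeasurable
      (ENNReal.ofReal_pos.2 hL0).ne' ENNReal.ofReal_ne_top).trans ?_
    refine (ENNReal.div_le_div_right (h2 μ hμ s hs0.le) _).trans ?_
    rw [← ENNReal.ofReal_div_of_pos hL0]
    refine ENNReal.ofReal_le_ofReal (le_of_eq ?_)
    rw [hL, hsq]
    have e : (s : ℝ) ^ 2 = s * (√θ ^ 2 * b ^ 2) := by rw [Real.sq_sqrt hθ0.le, ← hs, sq]
    rw [e]; field_simp
  have hsub : (Good s b (4 * C₂ / √θ))ᶜ ⊆ {w | ∃ u ≤ s, b < ‖w.1 (0 + u) - w.1 0‖} ∪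
      {w | ENNReal.ofReal L ≤ energy (fun u => w.1 u.toNNReal) s} := by
    intro w hw
    by_contra hn
    simp only [Set.mem_union, Set.mem_ofPred_eq, not_or, not_exists, not_and, not_lt, not_le] at hn
    refine hw ⟨fun u hu => ?_, hn.2.le⟩
    simpa [w.2.2] using hn.1 u hu
  have a3 : μ (Good s b (4 * C₂ / √θ))ᶜ ≤ ENNReal.ofReal (1 / 2) := by
    refine (measure_mono hsub).trans ((measure_union_le _ _).trans ((add_le_add a1 a2).trans ?_))
    rw [← ENNReal.ofReal_add (by norm_num) (by norm_num)]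
    norm_num
  have a4 := ENNReal.toReal_le_of_le_ofReal (by norm_num) a3
  have a5 := probReal_compl_eq_one_sub (μ := μ) (measurableSet_Good s b (4 * C₂ / √θ))
  rw [measureReal_def] at a5
  linarith

end Pool.Agent.MP_dce92b_pr

end MrgPart8

-- ======== part 9: formerly Pool.Agent.MP_dce92b_pr.Final
section MrgPart9

/-! BTOR: assembly of all modules. -/

namespace Pool.Agent.MP_dce92b_pr

universe v

theorem limit_stmt : LimitStmt :=
  limit (low (det (fk riesz rad) poinc) (iso riesz (prof rad)) shift_stmt good_stmt step killSoft)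
    (hole (second (one (prof rad)) (two (prof rad)) killUp killLow sup_stmt)) (small sup_stmt)
    ball_stmt meas_stmt

theorem main_stmt : MainStmt.{v} := main_of bm_stmt meas_stmt limit_stmt

end Pool.Agent.MP_dce92b_pr

end MrgPart9

-- marker of a merged file
example : 731051 + 866071 = 731051 + 866071 := rfl
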