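import Mathlib.MeasureTheory.Integral.Bochner.Basic
import Mathlib.MeasureTheory.Measure.Haar.OfBasis
import Mathlib.Analysis.Normed.Lp.MeasurableSpace
import Mathlib.Analysis.Calculus.ContDiff.Defs

open MeasureTheory Filter Topology
open scoped NNReal ENNReal

namespace Pool.Agent.MP_dce92b_pr

/-- Euclidean 3-space, the universal cover of the torus. -/
abbrev E3 : Type := EuclideanSpace ℝ (Fin 3)

/-- The point of Euclidean 3-space with integer coordinates k. -/
noncomputable def lat (k : Fin 3 → ℤ) : E3 := WithLp.toLp 2 fun i => (k i : ℝ)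

/-- f is invariant under the integer lattice, that is, f is a function on the torus. -/
def IsPer (f : E3 → ℝ) : Prop := ∀ (x : E3) (k : Fin 3 → ℤ), f (x + lat k) = f x

/-- The half-open unit cube, a fundamental domain of the torus. -/
def cube : Set E3 := {x | ∀ i, x i ∈ Set.Ico (0 : ℝ) 1}

/-- Test functions: nonzero smooth functions on the torus that vanish near the image of K. -/
def Adm (K : Set E3) (f : E3 → ℝ) : Prop :=
  ContDiff ℝ (⊤ : ℕ∞) f ∧ IsPer f ∧ (∀ x ∈ K, f =ᶠ[𝓝 x] 0) ∧ f ≠ 0

/-- Bottom of the spectrum of the Dirichlet Laplacian of the torus minus the image of K. -/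
noncomputable def lam1 (K : Set E3) : ℝ≥0∞ :=
  ⨅ (f : E3 → ℝ) (_ : Adm K f),
    ENNReal.ofReal ((∫ x in cube, ‖fderiv ℝ f x‖ ^ 2) / ∫ x in cube, f x ^ 2)

/-- The process with coordinates sqrt 2 times B i, so that the generator is the Laplacian. -/
noncomputable def bm {Ω : Type*} (B : Fin 3 → ℝ≥0 → Ω → ℝ) (u : ℝ≥0) (ω : Ω) : E3 :=
  WithLp.toLp 2 fun i => Real.sqrt 2 * B i u ω

end Pool.Agent.MP_dce92b_pr
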